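import Pool.Agent.MP_4f0bc7_gt.Od.St

namespace Pool.Agent.MP_4f0bc7_gt.Od

open Matrix Filter Topology Polynomial

theorem inv_B1 {n : ℕ} (g : Mx n) : (gᴴ * g)⁻¹ = g⁻¹ * g⁻¹ᴴ := by
  rw [Matrix.mul_inv_rev, conjTranspose_nonsing_inv]

theorem tr_B1 {n : ℕ} (g g' : Mx n) :
    (trace ((gᴴ * g)⁻¹ * (g'ᴴ * g'))).re = fro (g' * g⁻¹) := by
  rw [inv_B1, fro, conjTranspose_mul, ← Matrix.mul_assoc _ g'ᴴ g', trace_mul_comm _ g']
  simp only [Matrix.mul_assoc]

theorem fro_sub_B1 {n : ℕ} (u w : Mx n) (h : u * w = 1) :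
    fro (u - wᴴ) = fro u + fro w - 2 * n := by
  have h' : wᴴ * uᴴ = 1 := by rw [← conjTranspose_mul, h, conjTranspose_one]
  rw [fro, fro, fro, conjTranspose_sub, conjTranspose_conjTranspose, Matrix.sub_mul,
    Matrix.mul_sub, Matrix.mul_sub, h, h', trace_sub, trace_sub, trace_sub, trace_mul_comm wᴴ w,
    trace_one]
  simp only [Complex.sub_re, Fintype.card_fin, Complex.natCast_re]
  ring

theorem pos_B1 {n : ℕ} {g : Mx n} (hg : g.det ≠ 0) : IsPosHerm (gᴴ * g) := by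
  refine ⟨by rw [conjTranspose_mul, conjTranspose_conjTranspose], fun v hv => ?_⟩
  have h1 : g *ᵥ v ≠ 0 := fun h => hv (Matrix.eq_zero_of_mulVec_eq_zero hg h)
  rw [← mulVec_mulVec, dotProduct_mulVec, ← star_mulVec]
  open scoped ComplexOrder in
  exact (Complex.pos_iff.1 (dotProduct_star_self_pos_iff.2 h1)).1

theorem sB1 : SB1 := by
  intro n g g' A hg hg'
  have hu : IsUnit g.det := isUnit_iff_ne_zero.2 hg
  have hu' : IsUnit g'.det := isUnit_iff_ne_zero.2 hg'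
  have e1 : KK (gᴴ * g) (g'ᴴ * g') = fro (g' * g⁻¹) + fro (g * g'⁻¹) - 2 * n := by
    rw [KK, tr_B1, tr_B1]
  have e2 : (trace (gᴴ * g)).re = fro g := by rw [fro, trace_mul_comm]
  have e3 : (trace (gᴴ * g)⁻¹).re = fro g⁻¹ := by rw [fro, inv_B1]
  refine ⟨pos_B1 hg, e1, ?_, ?_, e2, e3, by rw [tt, e2, e3]⟩
  · rw [e1, fro_sub_B1]
    rw [Matrix.mul_assoc, nonsing_inv_mul_cancel_left _ _ hu, mul_nonsing_inv _ hu']
  · rw [nsq, adj, inv_B1, fro, conjTranspose_mul, conjTranspose_mul, ← Matrix.mul_assoc _ gᴴ g,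
      ← Matrix.mul_assoc A _ g, trace_mul_comm _ g]
    simp only [Matrix.mul_assoc]

theorem ex_B2 {n : ℕ} {H : Mx n} (h : IsPosHerm H) : ∃ g : Mx n, g.det ≠ 0 ∧ H = gᴴ * g := by
  obtain ⟨g, hg, e⟩ := ex_Red h
  exact ⟨g, ((Matrix.isUnit_iff_isUnit_det g).1 hg).ne_zero, e⟩

theorem diag_B2 {n : ℕ} (g : Mx n) (i : Fin n) : ((gᴴ * g) i i).re = ∑ l, ‖g l i‖ ^ 2 := by
  rw [Matrix.mul_apply, Complex.re_sum]
  refine Finset.sum_congr rfl fun l _ => ?_
  rw [Matrix.conjTranspose_apply, Complex.star_def, Complex.conj_mul', ← Complex.ofReal_pow,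
    Complex.ofReal_re]

theorem adj_B2 {n : ℕ} (H A : Mx n) {B : Mx n} (hB : B.det ≠ 0) :
    adj (Bᴴ * H * B) (B⁻¹ * A * B) = B⁻¹ * adj H A * B := by
  have h1 : (Bᴴ)⁻¹ * Bᴴ = 1 := Matrix.nonsing_inv_mul _ (by
    rw [Matrix.det_conjTranspose]; exact (star_ne_zero.2 hB).isUnit)
  unfold adj
  rw [Matrix.mul_inv_rev, Matrix.mul_inv_rev, Matrix.conjTranspose_mul, Matrix.conjTranspose_mul,
    Matrix.conjTranspose_nonsing_inv]
  calc _ = B⁻¹ * (H⁻¹ * ((Bᴴ)⁻¹ * Bᴴ) * Aᴴ * ((Bᴴ)⁻¹ * Bᴴ) * H) * B := by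
        simp only [Matrix.mul_assoc]
    _ = _ := by rw [h1, Matrix.mul_one, Matrix.mul_one]

theorem sB2 (hB1 : SB1) : SB2 := by
  intro n H H' A B hH hH' hB
  obtain ⟨g, hg, rfl⟩ := ex_B2 hH
  obtain ⟨g', hg', rfl⟩ := ex_B2 hH'
  have dt : ∀ k : Mx n, k.det ≠ 0 → (kᴴ * k).det ≠ 0 := fun k hk => by
    rw [Matrix.det_mul, Matrix.det_conjTranspose]
    exact mul_ne_zero (star_ne_zero.2 hk) hk
  have cj : ∀ k : Mx n, Bᴴ * (kᴴ * k) * B = (k * B)ᴴ * (k * B) := fun k => by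
    simp only [Matrix.conjTranspose_mul, Matrix.mul_assoc]
  have b1 : B * B⁻¹ = 1 := Matrix.mul_nonsing_inv _ hB.isUnit
  have b2 : ∀ X : Mx n, B * (B⁻¹ * X) = X := fun X => by
    rw [← Matrix.mul_assoc, b1, Matrix.one_mul]
  have dB : ∀ k : Mx n, k.det ≠ 0 → (k * B).det ≠ 0 := fun k hk => by
    rw [Matrix.det_mul]; exact mul_ne_zero hk hB
  have iv : (gᴴ * g)⁻¹ = ((g⁻¹)ᴴ)ᴴ * (g⁻¹)ᴴ := by
    rw [Matrix.mul_inv_rev, Matrix.conjTranspose_conjTranspose, Matrix.conjTranspose_nonsing_inv]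
  have di : ((g⁻¹)ᴴ).det ≠ 0 := by
    rw [Matrix.det_conjTranspose]
    exact star_ne_zero.2 (Matrix.isUnit_nonsing_inv_det g hg.isUnit).ne_zero
  obtain ⟨-, k1, k2, k3, -, -, k4⟩ := hB1 n g g' A hg hg'
  obtain ⟨l0, l1, -, l3, -⟩ := hB1 n (g * B) (g' * B) (B⁻¹ * A * B) (dB g hg) (dB g' hg')
  refine ⟨dt g hg, ⟨g, hg, rfl⟩, by rwa [cj], ?_, ?_, ?_, ?_, ?_, ?_, ?_, fun i => ?_⟩
  · rw [cj, cj, l1, k1]
    simp only [Matrix.mul_inv_rev, Matrix.mul_assoc, b2]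
  · rw [cj, l3, k3]
    simp only [Matrix.mul_inv_rev, Matrix.mul_assoc, b2]
  · unfold br
    rw [adj_B2 _ _ hB]
    simp only [Matrix.mul_sub, Matrix.sub_mul, Matrix.mul_assoc, b2]
  · rw [iv]
    exact (hB1 n _ _ A di di).1
  · unfold KK
    rw [Matrix.nonsing_inv_nonsing_inv _ (dt g hg).isUnit,
      Matrix.nonsing_inv_nonsing_inv _ (dt g' hg').isUnit, Matrix.trace_mul_comm (gᴴ * g),
      Matrix.trace_mul_comm (g'ᴴ * g'), add_comm]
  · rw [k2]; exact nonneg_Fro _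
  · rw [k3]; exact nonneg_Fro _
  · have e1 := diag_B2 g i
    have e2 : ((gᴴ * g)⁻¹ i i).re = ∑ l, ‖g⁻¹ i l‖ ^ 2 := by
      rw [iv, diag_B2]
      exact Finset.sum_congr rfl fun l _ => by rw [Matrix.conjTranspose_apply, norm_star]
    have c := cs_Fro (fun l => g⁻¹ i l) fun l => g l i
    rw [← Matrix.mul_apply, Matrix.nonsing_inv_mul _ hg.isUnit, Matrix.one_apply_eq, norm_one,
      one_pow, ← e1, ← e2] at c
    have p1 : 0 ≤ ((gᴴ * g) i i).re := by rw [e1]; positivity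
    have f1 : ((gᴴ * g) i i).re ≤ fro g := by
      rw [e1, sum_Fro]
      exact Finset.sum_le_sum fun l _ => Finset.single_le_sum (f := fun b => ‖g l b‖ ^ 2)
        (fun _ _ => by positivity) (Finset.mem_univ i)
    have f2 : ((gᴴ * g)⁻¹ i i).re ≤ fro g⁻¹ := by
      rw [e2, sum_Fro]
      exact Finset.single_le_sum (f := fun a => ∑ b, ‖g⁻¹ a b‖ ^ 2)
        (fun _ _ => by positivity) (Finset.mem_univ i)
    have n1 := nonneg_Fro g
    have n2 := nonneg_Fro g⁻¹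
    refine ⟨p1.lt_of_ne fun z => ?_, by linarith, by linarith, by rwa [mul_comm]⟩
    rw [← z, mul_zero] at c
    linarith

theorem sq_B3 (c : ℝ) : star ((Real.exp (c / 2) : ℝ) : ℂ) * ((Real.exp (c / 2) : ℝ) : ℂ) =
    ((Real.exp c : ℝ) : ℂ) := by
  rw [Complex.star_def, Complex.conj_ofReal, ← Complex.ofReal_mul, ← Real.exp_add, add_halves]

theorem nrm_B3 (c : ℝ) : ‖((Real.exp (c / 2) : ℝ) : ℂ)‖ ^ 2 = Real.exp c := by
  rw [Complex.norm_real, Real.norm_of_nonneg (Real.exp_pos _).le, sq, ← Real.exp_add, add_halves]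

theorem sB3 (hB2 : SB2) : SB3 := by
  intro n H H' A y c
  have k0 : ((Real.exp c : ℝ) : ℂ) ≠ 0 := Complex.ofReal_ne_zero.2 (Real.exp_pos c).ne'
  refine ⟨?_, ⟨diagonal fun i => ((Real.exp (y i / 2) : ℝ) : ℂ), blockTriangular_diagonal _, ?_,
    fun i => by rw [diagonal_apply_eq, nrm_B3]⟩, fun hH hH' => ?_⟩
  · rintro ⟨t, h1, h2, h3⟩
    refine ⟨((Real.exp (c / 2) : ℝ) : ℂ) • t, fun a b hab => ?_, ?_, fun i => ?_⟩
    · rw [Matrix.smul_apply, h1 hab, smul_zero]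
    · rw [conjTranspose_smul, Matrix.smul_mul, Matrix.mul_smul, smul_smul, sq_B3, h2]
    · rw [Matrix.smul_apply, smul_eq_mul, norm_mul, mul_pow, nrm_B3, h3, Real.exp_add, mul_comm]
  · rw [diagonal_conjTranspose, diagonal_mul_diagonal, dg]
    congr 1
    funext i
    exact (sq_B3 (y i)).symm
  · have hi : ∀ G : Mx n, IsPosHerm G →
        (((Real.exp c : ℝ) : ℂ) • G)⁻¹ = ((Real.exp c : ℝ) : ℂ)⁻¹ • G⁻¹ := fun G hG => by
      have hd := (hB2 n G G 1 1 hG hG (by simp)).1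
      refine Matrix.inv_eq_right_inv ?_
      rw [Matrix.smul_mul, Matrix.mul_smul, smul_smul, mul_inv_cancel₀ k0, one_smul,
        Matrix.mul_nonsing_inv _ (isUnit_iff_ne_zero.2 hd)]
    have hm : ∀ G X : Mx n, IsPosHerm G →
        (((Real.exp c : ℝ) : ℂ) • G)⁻¹ * (((Real.exp c : ℝ) : ℂ) • X) = G⁻¹ * X := fun G X hG => by
      rw [hi G hG, Matrix.smul_mul, Matrix.mul_smul, smul_smul, inv_mul_cancel₀ k0, one_smul]
    refine ⟨⟨?_, fun v hv => ?_⟩, by rw [KK, KK, hm _ _ hH, hm _ _ hH'], hm _ _ hH, ?_⟩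
    · rw [conjTranspose_smul, hH.1, Complex.star_def, Complex.conj_ofReal]
    · rw [smul_mulVec, dotProduct_smul, smul_eq_mul, Complex.re_ofReal_mul]
      exact mul_pos (Real.exp_pos c) (hH.2 v hv)
    · have : adj (((Real.exp c : ℝ) : ℂ) • H) A = adj H A := by
        rw [adj, adj, hi H hH, Matrix.smul_mul, Matrix.smul_mul, Matrix.mul_smul, smul_smul,
          inv_mul_cancel₀ k0, one_smul]
      rw [br, br, this]

open scoped ComplexOrder in
theorem ex_Chol {n : ℕ} {H : Mx n} (h : IsPosHerm H) :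
    ∃ t : Mx n, UT t ∧ H = tᴴ * t ∧ t.det ≠ 0 := by
  have h1 : H.IsHermitian := h.1
  have h2 : H.PosDef := .of_dotProduct_mulVec_pos h1 fun v hv =>
    Complex.pos_iff.2 ⟨h.2 v hv, (h1.im_star_dotProduct_mulVec_self v).symm⟩
  have hd : ∀ i, 0 ≤ LDL.diagEntries h2 i := fun i => by
    have a : (LDL.diag h2).PosSemidef := by
      rw [LDL.diag_eq_lowerInv_conj]
      exact h2.posSemidef.mul_mul_conjTranspose_same _
    have b := a.diag_nonneg (i := i)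
    rwa [LDL.diag, diagonal_apply_eq] at b
  have hu : ((LDL.lowerInv h2)ᴴ).BlockTriangular id := fun i j hij => by
    rw [conjTranspose_apply, LDL.lowerInv_triangular h2 (show j < i from hij), star_zero]
  have hu' : ((LDL.lower h2)ᴴ).BlockTriangular id := by
    rw [LDL.lower, conjTranspose_nonsing_inv]
    exact blockTriangular_inv_of_blockTriangular hu
  have e : H = (diagonal (fun i => ((√(LDL.diagEntries h2 i).re : ℝ) : ℂ)) * (LDL.lower h2)ᴴ)ᴴ *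
      (diagonal (fun i => ((√(LDL.diagEntries h2 i).re : ℝ) : ℂ)) * (LDL.lower h2)ᴴ) := by
    rw [conjTranspose_mul, conjTranspose_conjTranspose, diagonal_conjTranspose, Matrix.mul_assoc,
      ← Matrix.mul_assoc (diagonal _), diagonal_mul_diagonal, ← Matrix.mul_assoc]
    refine (LDL.lower_conj_diag h2).symm.trans ?_
    congr 2
    rw [LDL.diag]
    congr 1
    funext i
    obtain ⟨a, b⟩ := Complex.nonneg_iff.1 (hd i)
    simp only [Pi.star_apply, Complex.star_def, Complex.conj_ofReal]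
    rw [← Complex.ofReal_mul, Real.mul_self_sqrt a]
    exact Complex.ext rfl b.symm
  refine ⟨_, (blockTriangular_diagonal _).mul hu', e, fun h0 => ?_⟩
  have := h2.det_pos.ne'
  rw [e, det_mul, h0, mul_zero] at this
  exact this rfl

theorem diag_Chol {n : ℕ} (t : Mx n) (i : Fin n) : ‖t i i‖ ^ 2 ≤ fro t := by
  rw [sum_Fro]
  exact (Finset.single_le_sum (f := fun b => ‖t i b‖ ^ 2) (fun _ _ => by positivity)
    (Finset.mem_univ i)).trans (Finset.single_le_sum (f := fun a => ∑ b, ‖t a b‖ ^ 2)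
      (fun _ _ => by positivity) (Finset.mem_univ i))

theorem sChol (hB1 : SB1) (hU : SUT) : SChol := by
  intro n H
  refine ⟨fun h => ?_, ?_⟩
  · obtain ⟨t, a, b, c⟩ := ex_Chol h
    refine ⟨fun i => Real.log (‖t i i‖ ^ 2), t, a, b, fun i => ?_⟩
    rw [det_of_isUpperTriangular a, Finset.prod_ne_zero_iff] at c
    have := c i (Finset.mem_univ i)
    rw [Real.exp_log (by positivity)]
  · rintro y ⟨t, a, rfl, c⟩
    have h0 : ∀ i, t i i ≠ 0 := fun i hi => by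
      have := c i
      rw [hi, norm_zero] at this
      have := Real.exp_pos (y i)
      simp_all
    obtain ⟨d, -, -, -, -, e⟩ := hU n t t a a h0
    obtain ⟨p, -, -, -, -, -, q⟩ := hB1 n t t t d d
    refine ⟨p, fun i => ?_⟩
    have a1 := diag_Chol t i
    have a2 := diag_Chol t⁻¹ i
    rw [(e i).1, norm_inv, inv_pow, c i, ← Real.exp_neg] at a2
    rw [c i] at a1
    have a3 := nonneg_Fro t
    have a4 := nonneg_Fro t⁻¹
    rw [q]
    rcases abs_cases (y i) with ⟨h, -⟩ | ⟨h, -⟩ <;> rw [h] <;> linarith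

theorem diag_UT {n : ℕ} {a b : Mx n} (ha : UT a) (hb : UT b) (i : Fin n) :
    (a * b) i i = a i i * b i i := by
  rw [mul_apply]
  refine Finset.sum_eq_single i (fun l _ hl => ?_) (fun h => absurd (Finset.mem_univ i) h)
  rcases lt_or_gt_of_ne hl with h | h
  · rw [ha (show id l < id i from h), zero_mul]
  · rw [hb (show id i < id l from h), mul_zero]

theorem sUT : SUT := by
  intro n t t' ht ht' h0
  have hd : t.det ≠ 0 := by
    rw [det_of_isUpperTriangular ht]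
    exact Finset.prod_ne_zero_iff.2 fun i _ => h0 i
  have hu : IsUnit t.det := isUnit_iff_ne_zero.2 hd
  have hi : UT t⁻¹ := by
    let _ := invertibleOfIsUnitDet t hu
    exact blockTriangular_inv_of_blockTriangular ht
  have hv : ∀ i, t⁻¹ i i = (t i i)⁻¹ := fun i => by
    have h := diag_UT ht hi i
    rw [mul_nonsing_inv t hu, one_apply_eq] at h
    exact (eq_inv_of_mul_eq_one_right h.symm)
  refine ⟨hd, hi, ht.mul ht', ht'.mul ht, ht'.mul hi, fun i =>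
    ⟨hv i, diag_UT ht ht' i, diag_UT ht' ht i, ?_⟩⟩
  rw [diag_UT ht' hi, hv, div_eq_mul_inv]

theorem sq_Lip (x : ℝ) : x ^ 2 ≤ Real.exp x + Real.exp (-x) - 2 := by
  have h : |x / 2| ≤ |Real.sinh (x / 2)| := by
    rw [Real.abs_sinh]
    exact Real.self_le_sinh_iff.2 (abs_nonneg _)
  have h2 := sq_le_sq.2 h
  have h3 := Real.cosh_two_mul (x / 2)
  rw [Real.cosh_sq, show 2 * (x / 2) = x by ring, Real.cosh_eq] at h3
  linarith

theorem diag_Lip {n : ℕ} (Y : Mx n) : ∑ i, ‖Y i i‖ ^ 2 ≤ fro Y := by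
  rw [sum_Fro]
  exact Finset.sum_le_sum fun i _ => Finset.single_le_sum (f := fun b => ‖Y i b‖ ^ 2)
    (fun _ _ => sq_nonneg _) (Finset.mem_univ i)

theorem sLip (hB1 : SB1) (hU : SUT) : SLip := by
  rintro n _ _ y y' ⟨t, ht, rfl, hy⟩ ⟨t', ht', rfl, hy'⟩
  have ne : ∀ (s : Mx n) (z : Fin n → ℝ), (∀ i, ‖s i i‖ ^ 2 = Real.exp (z i)) →
      ∀ i, s i i ≠ 0 := fun s z h i e => by
    have := h i
    rw [e, norm_zero, zero_pow two_ne_zero] at this
    exact (Real.exp_pos _).ne this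
  obtain ⟨d1, -, -, -, -, a1⟩ := hU n t t' ht ht' (ne t y hy)
  obtain ⟨d2, -, -, -, -, a2⟩ := hU n t' t ht' ht (ne t' y' hy')
  rw [(hB1 n t t' 0 d1 d2).2.1]
  have b1 := diag_Lip (t' * t⁻¹)
  have b2 := diag_Lip (t * t'⁻¹)
  have c1 : ∀ i, ‖(t' * t⁻¹) i i‖ ^ 2 = Real.exp (y' i - y i) := fun i => by
    rw [(a1 i).2.2.2, norm_div, div_pow, hy, hy', Real.exp_sub]
  have c2 : ∀ i, ‖(t * t'⁻¹) i i‖ ^ 2 = Real.exp (-(y' i - y i)) := fun i => by
    rw [(a2 i).2.2.2, norm_div, div_pow, hy, hy', neg_sub, Real.exp_sub]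
  simp only [c1, c2] at b1 b2
  have h := Finset.sum_le_sum fun i (_ : i ∈ Finset.univ) => sq_Lip (y' i - y i)
  rw [Finset.sum_sub_distrib, Finset.sum_add_distrib, Finset.sum_const, Finset.card_univ,
    Fintype.card_fin, nsmul_eq_mul] at h
  linarith

theorem sq_le_sinh_Dg (s : ℝ) : s ^ 2 ≤ Real.sinh s ^ 2 := by
  have h : |s| ≤ Real.sinh |s| := Real.self_le_sinh_iff.2 (abs_nonneg s)
  rw [← Real.abs_sinh] at h
  exact sq_le_sq.2 h

theorem log_sq_Dg {p q K : ℝ} (hp : 0 < p) (hq : 0 < q) (h : (q - p) ^ 2 ≤ q * (K * p)) :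
    (Real.log q - Real.log p) ^ 2 ≤ K := by
  have h1 := sq_le_sinh_Dg ((Real.log q - Real.log p) / 2)
  have h2 := Real.cosh_two_mul ((Real.log q - Real.log p) / 2)
  have h3 := Real.cosh_sq ((Real.log q - Real.log p) / 2)
  have e : 2 * ((Real.log q - Real.log p) / 2) = Real.log q - Real.log p := by ring
  rw [e, Real.cosh_eq, neg_sub, Real.exp_sub, Real.exp_sub, Real.exp_log hp,
    Real.exp_log hq] at h2
  have h4 : q / p + p / q - 2 ≤ K := by
    have e2 : q / p + p / q - 2 = (q - p) ^ 2 / (q * p) := by field_simp; ring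
    rw [e2, div_le_iff₀ (by positivity)]
    linarith
  nlinarith

theorem diag_Dg {n : ℕ} (g : Mx n) (i : Fin n) : ((gᴴ * g) i i).re = ∑ k, ‖g k i‖ ^ 2 := by
  rw [Matrix.mul_apply, Complex.re_sum]
  refine Finset.sum_congr rfl fun k _ => ?_
  rw [conjTranspose_apply, Complex.sq_norm, Complex.normSq_apply]
  simp

theorem sDg (hB1 : SB1) (hB2 : SB2) : SDg := by
  intro n H H' hH hH' i
  have d1 : (1 : Mx n).det ≠ 0 := by simp
  obtain ⟨-, ⟨g, hg, e⟩, -, -, -, -, -, -, -, -, hp⟩ := hB2 n H H' 1 1 hH hH' d1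
  obtain ⟨-, ⟨g', hg', e'⟩, -, -, -, -, -, -, -, -, hq⟩ := hB2 n H' H 1 1 hH' hH d1
  refine log_sq_Dg (hp i).1 (hq i).1 ?_
  subst e e'
  rw [(hB1 n g g' 1 hg hg').2.2.1]
  generalize hD : g' * g⁻¹ - (g * g'⁻¹)ᴴ = D
  have e1 : g'ᴴ * (D * g) = g'ᴴ * g' - gᴴ * g := by
    have a1 : g⁻¹ * g = 1 := Matrix.nonsing_inv_mul g (Ne.isUnit hg)
    have a2 : g'ᴴ * (g'⁻¹)ᴴ = 1 := by
      rw [← conjTranspose_mul, Matrix.nonsing_inv_mul g' (Ne.isUnit hg'), conjTranspose_one]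
    rw [← hD, Matrix.sub_mul, Matrix.mul_sub, Matrix.mul_assoc g', a1, Matrix.mul_one,
      conjTranspose_mul, ← Matrix.mul_assoc, ← Matrix.mul_assoc, a2, Matrix.one_mul]
  have h1 : ∑ k, ‖(D * g) k i‖ ^ 2 ≤ fro D * ((gᴴ * g) i i).re := by
    rw [sum_Fro, diag_Dg, Finset.sum_mul]
    refine Finset.sum_le_sum fun k _ => ?_
    rw [Matrix.mul_apply]
    exact cs_Fro (fun c => D k c) fun c => g c i
  have h2 : ‖(g'ᴴ * (D * g)) i i‖ ^ 2 ≤ ((g'ᴴ * g') i i).re * ∑ k, ‖(D * g) k i‖ ^ 2 := by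
    rw [diag_Dg, Matrix.mul_apply]
    refine (cs_Fro (fun c => g'ᴴ i c) fun c => (D * g) c i).trans_eq ?_
    simp [conjTranspose_apply]
  have h3 : (((g'ᴴ * g') i i).re - ((gᴴ * g) i i).re) ^ 2 ≤ ‖(g'ᴴ * (D * g)) i i‖ ^ 2 := by
    rw [e1, Matrix.sub_apply, ← Complex.sub_re]
    exact sq_le_sq.2 ((Complex.abs_re_le_norm _).trans (le_abs_self _))
  exact h3.trans (h2.trans (mul_le_mul_of_nonneg_left h1 (hq i).1.le))

theorem ip_Chain {n : ℕ} (ν u v w : Fin n → ℝ) : ip ν (w - u) = ip ν (v - u) + ip ν (w - v) := by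
  simp only [ip, ← Finset.sum_add_distrib, Pi.sub_apply]
  exact Finset.sum_congr rfl fun i _ => by ring

theorem sq_Chain {n : ℕ} (ν u v : Fin n → ℝ) {c K : ℝ} (hc : 0 < c)
    (h : ∑ i, (v i - u i) ^ 2 ≤ K) : 0 ≤ c * K - ip ν (v - u) + 1 / (4 * c) * ip ν ν := by
  have h1 : 0 ≤ ∑ i, c * (v i - u i - ν i / (2 * c)) ^ 2 :=
    Finset.sum_nonneg fun i _ => by positivity
  have h2 : ∑ i, c * (v i - u i - ν i / (2 * c)) ^ 2 =
      c * ∑ i, (v i - u i) ^ 2 - ip ν (v - u) + 1 / (4 * c) * ip ν ν := by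
    simp only [ip, Finset.mul_sum, ← Finset.sum_sub_distrib, ← Finset.sum_add_distrib, Pi.sub_apply]
    exact Finset.sum_congr rfl fun i _ => by field_simp; ring
  nlinarith [mul_le_mul_of_nonneg_left h hc.le]

theorem sum_Chain {n : ℕ} (ν : Fin n → ℝ) (K : ℕ → ℝ) (y : ℕ → Fin n → ℝ) {c : ℝ} (hc : 0 < c)
    (h : ∀ j, ∑ i, (y (j + 1) i - y j i) ^ 2 ≤ K j) (a b : ℕ) (hab : a ≤ b) :
    0 ≤ ∑ j ∈ Finset.Ico a b, c * K j - ip ν (y b - y a) + ((b : ℝ) - a) / (4 * c) * ip ν ν := by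
  induction b, hab using Nat.le_induction with
  | base => simp [ip]
  | succ b hb ih =>
    have := sq_Chain ν (y b) (y (b + 1)) hc (h b)
    rw [Finset.sum_Ico_succ_top hb, ip_Chain ν (y a) (y b) (y (b + 1))]
    have e : (((b + 1 : ℕ) : ℝ) - a) / (4 * c) = ((b : ℝ) - a) / (4 * c) + 1 / (4 * c) := by
      push_cast; ring
    rw [e]
    linarith

theorem sChain : SChain := by
  intro n ν N H y hN h a b hab
  refine ⟨?_, fun c hc => ?_, ?_⟩
  · have := sum_Chain ν _ y (half_pos hN) h a b hab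
    rwa [show 4 * (N / 2) = 2 * N by ring] at this
  · simp only [df]
    rw [← Finset.sum_Ico_consecutive _ hab hc, ip_Chain ν (y a) (y b) (y c)]
    ring
  · have := sum_Chain ν _ y (show 0 < N / 4 by positivity) h a b hab
    have e : ∑ j ∈ Finset.Ico a b, N / 2 * KK (H j) (H (j + 1)) =
        2 * ∑ j ∈ Finset.Ico a b, N / 4 * KK (H j) (H (j + 1)) := by
      rw [Finset.mul_sum]
      exact Finset.sum_congr rfl fun j _ => by ring
    have e2 : ((b : ℝ) - a) / (4 * (N / 4)) = 2 * (((b : ℝ) - a) / (2 * N)) := by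
      field_simp
    rw [df, e]
    rw [e2] at this
    linarith

theorem nn_Mat {n : ℕ} (X : Mx n) : 0 ≤ fro X := nonneg_Fro X

theorem mul_Mat (hF : SFro) {n : ℕ} {X Y : Mx n} {a b : ℝ} (hX : fro X ≤ a) (hY : fro Y ≤ b) :
    fro (X * Y) ≤ a * b := by
  have h := (hF n X Y).2.2.2.1
  rw [← Real.sqrt_mul (nn_Mat X), Real.sqrt_le_sqrt_iff (mul_nonneg (nn_Mat X) (nn_Mat Y))] at h
  exact h.trans (mul_le_mul hX hY (nn_Mat Y) ((nn_Mat X).trans hX))

theorem four_Mat {x y z a : ℝ} (hz : 0 ≤ z) (ha : 0 ≤ a) (hx : x ≤ a) (hy : y ≤ a)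
    (h : √z ≤ √x + √y) : z ≤ 4 * a := by
  have h1 := Real.sqrt_le_sqrt hx
  have h2 := Real.sqrt_le_sqrt hy
  have h3 := Real.sq_sqrt hz
  have h4 := Real.sq_sqrt ha
  have h5 := Real.sqrt_nonneg z
  have h6 := Real.sqrt_nonneg a
  nlinarith

theorem one_Mat (hB1 : SB1) (hB2 : SB2) (hF : SFro) {n : ℕ} {H : Mx n} {M : ℝ} (hH : IsPosHerm H)
    (hM : tt H ≤ M) : ∃ g : Mx n, g.det ≠ 0 ∧ H = gᴴ * g ∧ fro g ≤ M ∧ fro H ≤ M ^ 2 ∧
      fro H⁻¹ ≤ M ^ 2 ∧ H * H⁻¹ = 1 ∧ H⁻¹ * H = 1 := by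
  obtain ⟨hd, ⟨g, hg, rfl⟩, -⟩ := hB2 n H H H 1 hH hH (by simp)
  have ht := (hB1 n g g g hg hg).2.2.2.2.2.2
  have h1 : fro g ≤ M := by linarith [nn_Mat g⁻¹]
  have h2 : fro g⁻¹ ≤ M := by linarith [nn_Mat g]
  have hu : IsUnit (gᴴ * g).det := isUnit_iff_ne_zero.2 hd
  refine ⟨g, hg, rfl, h1, ?_, ?_, Matrix.mul_nonsing_inv _ hu, Matrix.nonsing_inv_mul _ hu⟩
  · rw [sq]
    exact mul_Mat hF (((hF n g g).2.2.2.2.2.1).trans_le h1) h1
  · rw [sq, Matrix.mul_inv_rev, ← Matrix.conjTranspose_nonsing_inv]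
    exact mul_Mat hF h2 (((hF n g⁻¹ g).2.2.2.2.2.1).trans_le h2)

theorem sMat (hB1 : SB1) (hB2 : SB2) (hF : SFro) : SMat := by
  intro n H H' A M hH hH' hM hM'
  obtain ⟨g, hg, e, g1, h1, h2, h3, h4⟩ := one_Mat hB1 hB2 hF hH hM
  obtain ⟨g', hg', e', g1', h1', h2', h3', h4'⟩ := one_Mat hB1 hB2 hF hH' hM'
  have hK : 0 ≤ KK H H' := (hB2 n H H' A 1 hH hH' (by simp)).2.2.2.2.2.2.2.2.1
  have hD : fro (H' - H) ≤ M ^ 2 * KK H H' := by
    have k1 : KK H H' = fro (g' * g⁻¹ - (g * g'⁻¹)ᴴ) := by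
      rw [e, e']
      exact (hB1 n g g' A hg hg').2.2.1
    have u1 : g⁻¹ * g = 1 := Matrix.nonsing_inv_mul _ (isUnit_iff_ne_zero.2 hg)
    have u2 : g'ᴴ * g'⁻¹ᴴ = 1 := by
      rw [← Matrix.conjTranspose_mul, Matrix.nonsing_inv_mul _ (isUnit_iff_ne_zero.2 hg'),
        Matrix.conjTranspose_one]
    have k2 : H' - H = g'ᴴ * (g' * g⁻¹ - (g * g'⁻¹)ᴴ) * g := by
      rw [e, e', Matrix.conjTranspose_mul, Matrix.mul_sub, Matrix.sub_mul,
        ← Matrix.mul_assoc g'ᴴ g'⁻¹ᴴ, u2, Matrix.one_mul, Matrix.mul_assoc g'ᴴ,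
        Matrix.mul_assoc g', u1, Matrix.mul_one]
    have k3 := mul_Mat hF (mul_Mat hF (((hF n g' g).2.2.2.2.2.1).trans_le g1') k1.ge) g1
    rw [k2]
    exact k3.trans_eq (by ring)
  refine ⟨h1, h2, hD, ?_, ?_, ?_⟩
  · have k1 : H⁻¹ * H' - H'⁻¹ * H = (H⁻¹ + H'⁻¹) * (H' - H) := by
      rw [Matrix.add_mul, Matrix.mul_sub, Matrix.mul_sub, h4, h4']
      abel
    have k2 : fro (H⁻¹ + H'⁻¹) ≤ 4 * M ^ 2 :=
      four_Mat (nn_Mat _) (sq_nonneg M) h2 h2' (hF n _ _).2.1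
    rw [k1]
    exact (mul_Mat hF k2 hD).trans_eq (by ring)
  · have k1 : fro (adj H A) ≤ M ^ 2 * fro A * M ^ 2 :=
      mul_Mat hF (mul_Mat hF h2 ((hF n A A).2.2.2.2.2.1).le) h1
    have k2 : fro (A * adj H A) ≤ M ^ 4 * fro A ^ 2 :=
      (mul_Mat hF le_rfl k1).trans_eq (by ring)
    have k3 : fro (adj H A * A) ≤ M ^ 4 * fro A ^ 2 :=
      (mul_Mat hF k1 le_rfl).trans_eq (by ring)
    exact (four_Mat (nn_Mat _) (by positivity) k2 k3 (hF n _ _).2.2.1).trans_eq (by ring)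
  · have k1 : H * (H⁻¹ * H' - H'⁻¹ * H) = H' - H * H'⁻¹ * H := by
      rw [Matrix.mul_sub, ← Matrix.mul_assoc, h3, Matrix.one_mul, Matrix.mul_assoc]
    have k2 : (H' - H) * H'⁻¹ * (H' - H) = H' - H - H + H * H'⁻¹ * H := by
      rw [Matrix.sub_mul, h3', Matrix.sub_mul, Matrix.one_mul, Matrix.mul_sub,
        Matrix.mul_assoc H H'⁻¹ H', h4', Matrix.mul_one]
      abel
    rw [k1, k2]
    module

noncomputable def vec_Fro {n : ℕ} (X : Mx n) : EuclideanSpace ℂ (Fin n × Fin n) :=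
  WithLp.toLp 2 fun p => X p.1 p.2

lemma norm_vec_Fro {n : ℕ} (X : Mx n) : ‖vec_Fro X‖ = √(fro X) := by
  rw [EuclideanSpace.norm_eq, sum_Fro, Fintype.sum_prod_type]
  rfl

lemma ct_Fro {n : ℕ} (X : Mx n) : fro Xᴴ = fro X := by
  unfold fro
  rw [conjTranspose_conjTranspose, trace_mul_comm]

theorem sFro : SFro := by
  intro n X Y
  refine ⟨fun a b => ?_, ?_, ?_, ?_, fun c => ?_, ct_Fro X, ?_, fun M hM => ?_, fun hY => ?_⟩
  · rw [← norm_vec_Fro]
    exact PiLp.norm_apply_le (vec_Fro X) (a, b)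
  · rw [← norm_vec_Fro, ← norm_vec_Fro, ← norm_vec_Fro]
    exact norm_add_le (vec_Fro X) (vec_Fro Y)
  · rw [← norm_vec_Fro, ← norm_vec_Fro, ← norm_vec_Fro]
    exact norm_sub_le (vec_Fro X) (vec_Fro Y)
  · rw [← Real.sqrt_mul (nonneg_Fro X)]
    exact Real.sqrt_le_sqrt ((froS n).2.2 X Y)
  · rw [(froS n).2.1, Real.sqrt_mul (sq_nonneg _), Real.sqrt_sq (norm_nonneg c)]
  · have h : trace (X * Y) = inner ℂ (vec_Fro Xᴴ) (vec_Fro Y) := by
      rw [PiLp.inner_apply, Fintype.sum_prod_type, Finset.sum_comm]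
      simp only [trace, diag_apply, mul_apply, vec_Fro, conjTranspose_apply]
      refine Finset.sum_congr rfl fun a _ => Finset.sum_congr rfl fun b _ => ?_
      simp [mul_comm]
    rw [h, ← ct_Fro X, ← norm_vec_Fro, ← norm_vec_Fro]
    exact norm_inner_le_norm _ _
  · rw [sum_Fro]
    calc ∑ a, ∑ b, ‖X a b‖ ^ 2 ≤ ∑ _a : Fin n, ∑ _b : Fin n, M ^ 2 :=
          Finset.sum_le_sum fun a _ => Finset.sum_le_sum fun b _ =>
            pow_le_pow_left₀ (norm_nonneg _) (hM a b) 2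
      _ = (n : ℝ) ^ 2 * M ^ 2 := by
          simp only [Finset.sum_const, Finset.card_univ, Fintype.card_fin, nsmul_eq_mul]
          ring
  · have hY' : Y * Yᴴ = 1 := mul_eq_one_comm.mp hY
    unfold fro
    constructor
    · rw [conjTranspose_mul, Matrix.mul_assoc, ← Matrix.mul_assoc Y, hY', Matrix.one_mul]
    · rw [conjTranspose_mul, trace_mul_comm, Matrix.mul_assoc, ← Matrix.mul_assoc Yᴴ, hY,
        Matrix.one_mul, trace_mul_comm]

lemma cont_Cpt (n : ℕ) : Continuous fun P : Mx n => fro P := by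
  have h : (fun P : Mx n => fro P) = fun P => ∑ a, ∑ b, ‖P a b‖ ^ 2 := funext sum_Fro
  rw [h]
  exact continuous_finsetSum _ fun a _ => continuous_finsetSum _ fun b _ =>
    (continuous_id.matrix_elem a b).norm.pow 2

lemma ball_Cpt (n : ℕ) (C : ℝ) : IsCompact {P : Mx n | fro P ≤ C} := by
  have hK : IsCompact (Set.pi Set.univ fun _ : Fin n => Set.pi Set.univ fun _ : Fin n =>
      Metric.closedBall (0 : ℂ) √C) :=
    isCompact_univ_pi fun _ => isCompact_univ_pi fun _ => isCompact_closedBall _ _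
  refine IsCompact.of_isClosed_subset (X := Mx n) hK
    (isClosed_le (cont_Cpt n) continuous_const) fun P hP a _ b _ => ?_
  rw [mem_closedBall_zero_iff]
  refine Real.le_sqrt_of_sq_le (le_trans ?_ hP)
  rw [sum_Fro]
  exact (Finset.single_le_sum (f := fun b => ‖P a b‖ ^ 2) (fun _ _ => by positivity)
    (Finset.mem_univ b)).trans (Finset.single_le_sum (f := fun a => ∑ b, ‖P a b‖ ^ 2)
      (fun _ _ => by positivity) (Finset.mem_univ a))

lemma inv_Cpt (hB2 : SB2) (n : ℕ) :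
    ContinuousOn (fun H : Mx n => H⁻¹) {H | IsPosHerm H} := fun H hH => by
  have hd : H.det ≠ 0 := (hB2 n H H 1 1 hH hH (by simp)).1
  refine (continuousAt_matrix_inv H ?_).continuousWithinAt
  rw [Ring.inverse_eq_inv']
  exact continuousAt_inv₀ hd

theorem sCpt (hB1 : SB1) (hB2 : SB2) : SCpt := by
  intro n C
  refine ⟨?_, ball_Cpt n C, inv_Cpt hB2 n, fun A => ?_⟩
  · have hK : IsCompact {q : Mx n × Mx n | q.1 * q.2 = 1 ∧ fro q.1 + fro q.2 ≤ C} := by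
      refine ((ball_Cpt n C).prod (ball_Cpt n C)).of_isClosed_subset
        ((isClosed_eq (continuous_fst.matrix_mul continuous_snd) continuous_const).inter
          (isClosed_le (((cont_Cpt n).comp continuous_fst).add ((cont_Cpt n).comp continuous_snd))
            continuous_const)) fun q hq => ⟨?_, ?_⟩
      · exact le_trans (le_add_of_nonneg_right (nonneg_Fro _)) hq.2
      · exact le_trans (le_add_of_nonneg_left (nonneg_Fro _)) hq.2
    have hc : Continuous fun q : Mx n × Mx n => q.1ᴴ * q.1 :=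
      continuous_fst.matrix_conjTranspose.matrix_mul continuous_fst
    convert hK.image hc using 1
    ext H
    constructor
    · rintro ⟨hH, hC⟩
      obtain ⟨g, hg, rfl⟩ := (hB2 n H H 1 1 hH hH (by simp)).2.1
      refine ⟨(g, g⁻¹), ⟨Matrix.mul_nonsing_inv g (isUnit_iff_ne_zero.2 hg), ?_⟩, rfl⟩
      rwa [(hB1 n g g 1 hg hg).2.2.2.2.2.2] at hC
    · rintro ⟨⟨g, h⟩, ⟨h1, h2⟩, rfl⟩
      have hg : g.det ≠ 0 := fun h0 => by
        have := congrArg Matrix.det h1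
        rw [Matrix.det_mul, h0, zero_mul, Matrix.det_one] at this
        exact zero_ne_one this
      refine ⟨(hB1 n g g 1 hg hg).1, ?_⟩
      rw [(hB1 n g g 1 hg hg).2.2.2.2.2.2, Matrix.inv_eq_right_inv h1]
      exact h2
  · have h : ContinuousOn (fun H : Mx n => adj H A) {H | IsPosHerm H} :=
      ((inv_Cpt hB2 n).mul continuousOn_const).mul continuousOn_id
    exact (continuousOn_const.mul h).sub (h.mul continuousOn_const)

theorem sum_Col {n : ℕ} (s : Finset (Fin n)) (f : Fin n → ℂ) {B : ℝ} (hB : 0 ≤ B)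
    (h : ∀ l ∈ s, ‖f l‖ ≤ B) : ‖∑ l ∈ s, f l‖ ≤ n * B := by
  refine (norm_sum_le _ _).trans ((Finset.sum_le_card_nsmul s _ B h).trans ?_)
  rw [nsmul_eq_mul]
  refine mul_le_mul_of_nonneg_right ?_ hB
  exact_mod_cast (Finset.card_le_univ s).trans (Fintype.card_fin n).le

theorem ent_Col {n : ℕ} {κ Q M : ℝ} {X Y m : Mx n} (hQ : 1 ≤ Q) (hκ : 0 < κ)
    (hn : 2 * n ≤ Q * κ) (hM : 1 ≤ M) (h0 : ∀ a b : Fin n, b.val + 1 < a.val → X a b = 0)
    (h1 : ∀ a b : Fin n, a.val = b.val + 1 → κ ≤ ‖X a b‖) (hX : ∀ a b, ‖X a b‖ ≤ M)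
    (hY : ∀ a b, ‖Y a b‖ ≤ M) (e : m * X = Y * m) (hm : ∀ a b : Fin n, b.val = 0 → ‖m a b‖ ≤ 1)
    (k : ℕ) : ∀ a b : Fin n, b.val ≤ k → ‖m a b‖ ≤ (Q * M) ^ k := by
  have hR : 1 ≤ Q * M := one_le_mul_of_one_le_of_one_le hQ hM
  induction k with
  | zero => exact fun a b hb => by simpa using hm a b (Nat.le_zero.1 hb)
  | succ k ih =>
    intro a b hb
    rcases Nat.lt_or_ge k b.val with hk | hk
    · have hb' : b.val = k + 1 := by omega
      obtain ⟨c, hc⟩ : ∃ c : Fin n, c.val = k := ⟨⟨k, hk.trans b.isLt⟩, rfl⟩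
      have p : 0 ≤ (Q * M) ^ k := pow_nonneg (zero_le_one.trans hR) k
      have M0 : 0 ≤ M := zero_le_one.trans hM
      have e1 : m a b * X b c =
          ∑ l, Y a l * m l c - ∑ l ∈ Finset.univ.erase b, m a l * X l c := by
        have := congrFun (congrFun e a) c
        rw [mul_apply, mul_apply, ← Finset.add_sum_erase _ _ (Finset.mem_univ b)] at this
        exact eq_sub_of_add_eq this
      have e2 : ‖∑ l, Y a l * m l c‖ ≤ n * ((Q * M) ^ k * M) :=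
        sum_Col _ _ (mul_nonneg p M0) fun l _ => by
          rw [norm_mul, mul_comm]
          exact mul_le_mul (ih l c hc.le) (hY a l) (norm_nonneg _) p
      have e3 : ‖∑ l ∈ Finset.univ.erase b, m a l * X l c‖ ≤ n * ((Q * M) ^ k * M) :=
        sum_Col _ _ (mul_nonneg p M0) fun l hl => by
          rcases Nat.lt_or_ge k l.val with h | h
          · have : l.val ≠ b.val := fun h => Finset.ne_of_mem_erase hl (Fin.ext h)
            rw [h0 l c (by omega), mul_zero, norm_zero]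
            exact mul_nonneg p M0
          · rw [norm_mul]
            exact mul_le_mul (ih a l h) (hX l c) (norm_nonneg _) p
      have e4 : ‖m a b‖ * κ ≤ 2 * n * ((Q * M) ^ k * M) :=
        calc ‖m a b‖ * κ ≤ ‖m a b‖ * ‖X b c‖ :=
              mul_le_mul_of_nonneg_left (h1 b c (by omega)) (norm_nonneg _)
          _ = ‖m a b * X b c‖ := (norm_mul _ _).symm
          _ ≤ _ := by
              rw [e1]
              exact (norm_sub_le _ _).trans (by linarith)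
      refine le_of_mul_le_mul_right (e4.trans ?_) hκ
      calc 2 * n * ((Q * M) ^ k * M) ≤ Q * κ * ((Q * M) ^ k * M) :=
            mul_le_mul_of_nonneg_right hn (mul_nonneg p M0)
        _ = (Q * M) ^ (k + 1) * κ := by ring
    · exact (ih a b hk).trans (pow_le_pow_right₀ hR k.le_succ)

theorem sCol (hF : SFro) : SCol := by
  intro n κ hκ
  obtain ⟨Q, hQ, hn⟩ : ∃ Q : ℝ, 1 ≤ Q ∧ 2 * n ≤ Q * κ :=
    ⟨max 1 (2 * n / κ), le_max_left _ _, (div_le_iff₀ hκ).1 (le_max_right _ _)⟩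
  refine ⟨max 1 (n ^ 2 * Q ^ (n * 2)), n * 2, le_max_left _ _,
    fun X Y m M hM h0 h1 hX hY e hm => ?_⟩
  have h := (hF n m m).2.2.2.2.2.2.2.1 ((Q * M) ^ n)
    fun a b => ent_Col hQ hκ hn hM h0 h1 hX hY e hm n a b b.isLt.le
  rw [← pow_mul, mul_pow, ← mul_assoc] at h
  exact h.trans (mul_le_mul_of_nonneg_right (le_max_right _ _)
    (pow_nonneg (zero_le_one.trans hM) _))

theorem hesL_P1 {n : ℕ} (t X : Mx n) (ht : UT t)
    (hX : ∀ a b : Fin n, b.val + 1 < a.val → X a b = 0) (a b : Fin n) (h : b.val + 1 < a.val) :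
    (t * X) a b = 0 := by
  rw [Matrix.mul_apply]
  refine Finset.sum_eq_zero fun l _ => ?_
  by_cases hl : l < a
  · rw [ht hl, zero_mul]
  · rw [hX l b (by have := Fin.lt_def.not.1 hl; omega), mul_zero]

theorem hesR_P1 {n : ℕ} (t X : Mx n) (ht : UT t)
    (hX : ∀ a b : Fin n, b.val + 1 < a.val → X a b = 0) (a b : Fin n) (h : b.val + 1 < a.val) :
    (X * t) a b = 0 := by
  rw [Matrix.mul_apply]
  refine Finset.sum_eq_zero fun l _ => ?_
  by_cases hl : b < l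
  · rw [ht hl, mul_zero]
  · rw [hX a l (by have := Fin.lt_def.not.1 hl; omega), zero_mul]

theorem subL_P1 {n : ℕ} (t X : Mx n) (ht : UT t)
    (hX : ∀ a b : Fin n, b.val + 1 < a.val → X a b = 0) (a b : Fin n) (h : a.val = b.val + 1) :
    (t * X) a b = t a a * X a b := by
  rw [Matrix.mul_apply]
  refine Finset.sum_eq_single a (fun l _ hla => ?_) (by simp)
  by_cases hl : l < a
  · rw [ht hl, zero_mul]
  · have h1 := Fin.lt_def.not.1 hl
    have h2 : l.val ≠ a.val := fun e => hla (Fin.ext e)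
    rw [hX l b (by omega), mul_zero]

theorem subR_P1 {n : ℕ} (t X : Mx n) (ht : UT t)
    (hX : ∀ a b : Fin n, b.val + 1 < a.val → X a b = 0) (a b : Fin n) (h : a.val = b.val + 1) :
    (X * t) a b = X a b * t b b := by
  rw [Matrix.mul_apply]
  refine Finset.sum_eq_single b (fun l _ hlb => ?_) (by simp)
  by_cases hl : b < l
  · rw [ht hl, mul_zero]
  · have h1 := Fin.lt_def.not.1 hl
    have h2 : l.val ≠ b.val := fun e => hlb (Fin.ext e)
    rw [hX a l (by omega), zero_mul]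

theorem chain_P1 {n : ℕ} (f : Fin n → ℝ) (W : ℝ) (hW : 0 ≤ W)
    (h : ∀ a b : Fin n, a.val = b.val + 1 → f a ≤ W * f b) :
    ∀ (k : ℕ) (a b : Fin n), b.val = a.val + k → f b ≤ W ^ k * f a := by
  intro k
  induction k with
  | zero =>
    intro a b e
    have : b = a := Fin.ext (by omega)
    rw [this]; simp
  | succ k ih =>
    intro a b e
    have hb := b.isLt
    have h1 := ih a ⟨a.val + k, by omega⟩ rfl
    have h2 := h b ⟨a.val + k, by omega⟩ (by simp only; omega)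
    calc f b ≤ W * f ⟨a.val + k, by omega⟩ := h2
      _ ≤ W * (W ^ k * f a) := mul_le_mul_of_nonneg_left h1 hW
      _ = W ^ (k + 1) * f a := by ring

theorem col_P1 {n : ℕ} (m : Mx n) (hm : UT m) (h1 : ∀ i, m i i = 1) (a b : Fin n)
    (hb : b.val = 0) : ‖m a b‖ ≤ 1 := by
  by_cases e : a = b
  · rw [e, h1]; simp
  · have h2 : a.val ≠ b.val := fun e' => e (Fin.ext e')
    have h3 : b < a := Fin.lt_def.2 (by omega)
    rw [hm h3]; simp

theorem ent_P1 {n : ℕ} (f : Fin n → Fin n → ℝ) (hf : ∀ a b, 0 ≤ f a b) (a b : Fin n) :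
    f a b ≤ ∑ a, ∑ b, f a b :=
  le_trans (Finset.single_le_sum (f := fun b => f a b) (fun b _ => hf a b) (Finset.mem_univ b))
    (Finset.single_le_sum (f := fun a => ∑ b, f a b)
      (fun a _ => Finset.sum_nonneg fun b _ => hf a b) (Finset.mem_univ a))

theorem sP1 (hF : SFro) (hU : SUT) (hCol : SCol) : SP1 := by
  intro n A hA
  obtain ⟨c, hc1, hc⟩ : ∃ c : ℝ, 1 ≤ c ∧ ∀ a b : Fin n, a.val = b.val + 1 → c⁻¹ ≤ ‖A a b‖ := by
    have h0 : (0 : ℝ) ≤ ∑ a, ∑ b, ‖A a b‖⁻¹ := by positivity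
    refine ⟨1 + ∑ a, ∑ b, ‖A a b‖⁻¹, by linarith, fun a b e => ?_⟩
    have h1 := ent_P1 (fun a b => ‖A a b‖⁻¹) (fun a b => by positivity) a b
    exact inv_le_of_inv_le₀ (norm_pos_iff.2 (hA.2 a b e)) (by linarith)
  have hc0 : 0 < c := by linarith
  obtain ⟨S, hS0, hS⟩ : ∃ S : ℝ, 0 ≤ S ∧ ∀ a b : Fin n, ‖A a b‖ ≤ S :=
    ⟨∑ a, ∑ b, ‖A a b‖, by positivity, ent_P1 (fun a b => ‖A a b‖) fun a b => norm_nonneg _⟩
  obtain ⟨C, p, hC1, hC⟩ := hCol n c⁻¹ (inv_pos.2 hc0)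
  have hcn : 1 ≤ c ^ (n + 1) := one_le_pow₀ hc1
  have hq : 0 ≤ C * (c ^ (n + 1) + S) ^ p := by positivity
  have hc2 : 1 ≤ c ^ 2 := one_le_pow₀ hc1
  refine ⟨c ^ 2 + C * (c ^ (n + 1) + S) ^ p, (n + 1) * p, by linarith, fun t ht hne => ?_⟩
  obtain ⟨hdet, hti, -⟩ := hU n t t ht ht hne
  have hu : IsUnit t.det := isUnit_iff_ne_zero.2 hdet
  obtain ⟨T, hT⟩ : ∃ T, T = t * A * t⁻¹ := ⟨_, rfl⟩
  rw [← hT]
  have hT0 : ∀ a b : Fin n, b.val + 1 < a.val → T a b = 0 := by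
    rw [hT]; exact hesR_P1 _ _ hti (hesL_P1 _ _ ht hA.1)
  have hTt : T * t = t * A := by
    rw [hT, Matrix.mul_assoc, Matrix.nonsing_inv_mul _ hu, Matrix.mul_one]
  have hsub : ∀ a b : Fin n, a.val = b.val + 1 → t a a * A a b = T a b * t b b := by
    intro a b e
    rw [← subL_P1 t A ht hA.1 a b e, ← subR_P1 t T ht hT0 a b e, hTt]
  have hV := nonneg_Fro T
  obtain ⟨V, hVe⟩ : ∃ V, V = fro T := ⟨_, rfl⟩
  rw [← hVe] at hV ⊢
  have hTe : ∀ a b, ‖T a b‖ ≤ √V := by rw [hVe]; exact (hF n T T).1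
  have hsq : √V ^ 2 = V := Real.sq_sqrt hV
  have hs0 := Real.sqrt_nonneg V
  have hsV : √V ≤ 1 + V := by nlinarith [sq_nonneg (√V - 1)]
  have hr : ∀ a b : Fin n, a.val = b.val + 1 → ‖t a a‖ ≤ c * √V * ‖t b b‖ := by
    intro a b e
    have h1 : ‖t a a‖ * ‖A a b‖ = ‖T a b‖ * ‖t b b‖ := by rw [← norm_mul, ← norm_mul, hsub a b e]
    have h2 : ‖t a a‖ * c⁻¹ ≤ √V * ‖t b b‖ :=
      calc ‖t a a‖ * c⁻¹ ≤ ‖t a a‖ * ‖A a b‖ := mul_le_mul_of_nonneg_left (hc a b e) (norm_nonneg _)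
        _ = ‖T a b‖ * ‖t b b‖ := h1
        _ ≤ √V * ‖t b b‖ := mul_le_mul_of_nonneg_right (hTe a b) (norm_nonneg _)
    rw [← div_eq_mul_inv, div_le_iff₀ hc0] at h2
    linarith
  have hW1 : 1 ≤ c * (1 + V) := by nlinarith
  have hr2 : ∀ a b : Fin n, a.val = b.val + 1 → ‖t a a‖ ≤ c * (1 + V) * ‖t b b‖ := fun a b e =>
    (hr a b e).trans (by gcongr)
  have hch := chain_P1 (fun i => ‖t i i‖) (c * (1 + V)) (by linarith) hr2
  obtain ⟨m, hm⟩ : ∃ m : Mx n, m = (diagonal fun i => (t i i)⁻¹) * t := ⟨_, rfl⟩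
  rw [← hm]
  have hme : ∀ a b, m a b = (t a a)⁻¹ * t a b := fun a b => by rw [hm, Matrix.diagonal_mul]
  have hmU : UT m := fun a b h => by rw [hme, ht h, mul_zero]
  have hm1 : ∀ i, m i i = 1 := fun i => by rw [hme, inv_mul_cancel₀ (hne i)]
  obtain ⟨hmdet, hmi, -, -, -, hmd⟩ := hU n m m hmU hmU fun i => by rw [hm1]; exact one_ne_zero
  have hmu : IsUnit m.det := isUnit_iff_ne_zero.2 hmdet
  have hmi1 : ∀ i, m⁻¹ i i = 1 := fun i => by rw [(hmd i).1, hm1, inv_one]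
  obtain ⟨B, hB⟩ : ∃ B : Mx n, B = (diagonal fun i => (t i i)⁻¹) * T * diagonal fun i => t i i :=
    ⟨_, rfl⟩
  have hBe : ∀ a b, B a b = (t a a)⁻¹ * T a b * t b b := fun a b => by
    rw [hB, Matrix.mul_diagonal, Matrix.diagonal_mul]
  have hBm : m * A = B * m := by
    have h1 : (diagonal fun i => t i i) * (diagonal fun i => (t i i)⁻¹) = (1 : Mx n) := by
      rw [Matrix.diagonal_mul_diagonal, ← Matrix.diagonal_one]
      congr 1
      funext i
      exact mul_inv_cancel₀ (hne i)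
    rw [hB, hm, Matrix.mul_assoc, ← hTt, Matrix.mul_assoc _ (diagonal fun i => t i i),
      ← Matrix.mul_assoc (diagonal fun i => t i i), h1, Matrix.one_mul, Matrix.mul_assoc]
  have hBm' : m⁻¹ * B = A * m⁻¹ := by
    calc m⁻¹ * B = m⁻¹ * (B * m) * m⁻¹ := by
          rw [Matrix.mul_assoc, Matrix.mul_assoc, Matrix.mul_nonsing_inv _ hmu, Matrix.mul_one]
      _ = A * m⁻¹ := by
          rw [← hBm, ← Matrix.mul_assoc, Matrix.nonsing_inv_mul _ hmu, Matrix.one_mul]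
  have hB0 : ∀ a b : Fin n, b.val + 1 < a.val → B a b = 0 := fun a b h => by
    rw [hBe, hT0 a b h, mul_zero, zero_mul]
  have hB1 : ∀ a b : Fin n, a.val = b.val + 1 → B a b = A a b := fun a b e => by
    rw [hBe, mul_assoc, ← hsub a b e, ← mul_assoc, inv_mul_cancel₀ (hne a), one_mul]
  have hVn : 1 ≤ (1 + V) ^ (n + 1) := one_le_pow₀ (by linarith)
  have hM1 : 1 ≤ (c ^ (n + 1) + S) * (1 + V) ^ (n + 1) := by nlinarith
  have hAM : ∀ a b, ‖A a b‖ ≤ (c ^ (n + 1) + S) * (1 + V) ^ (n + 1) := fun a b =>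
    (hS a b).trans (by nlinarith)
  have hBM : ∀ a b, ‖B a b‖ ≤ (c ^ (n + 1) + S) * (1 + V) ^ (n + 1) := by
    intro a b
    rcases lt_trichotomy (b.val + 1) a.val with h | h | h
    · rw [hB0 a b h, norm_zero]; linarith
    · rw [hB1 a b h.symm]; exact hAM a b
    · have hb := b.isLt
      have h1 : ‖t b b‖ ≤ (c * (1 + V)) ^ (b.val - a.val) * ‖t a a‖ := hch _ a b (by omega)
      have h2 : (c * (1 + V)) ^ (b.val - a.val) ≤ (c * (1 + V)) ^ n :=
        pow_le_pow_right₀ hW1 (by omega)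
      have ha : 0 < ‖t a a‖ := norm_pos_iff.2 (hne a)
      have h3 : ‖t b b‖ ≤ (c * (1 + V)) ^ n * ‖t a a‖ := h1.trans (by gcongr)
      have h4 : ‖T a b‖ ≤ c * (1 + V) := (hTe a b).trans (hsV.trans (by nlinarith))
      calc ‖B a b‖ = ‖t a a‖⁻¹ * ‖T a b‖ * ‖t b b‖ := by rw [hBe, norm_mul, norm_mul, norm_inv]
        _ ≤ ‖t a a‖⁻¹ * (c * (1 + V)) * ((c * (1 + V)) ^ n * ‖t a a‖) := by gcongr
        _ = c ^ (n + 1) * (1 + V) ^ (n + 1) := by
          rw [← mul_pow, pow_succ]; field_simp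
        _ ≤ (c ^ (n + 1) + S) * (1 + V) ^ (n + 1) := by nlinarith
  have hfin : C * ((c ^ (n + 1) + S) * (1 + V) ^ (n + 1)) ^ p ≤
      (c ^ 2 + C * (c ^ (n + 1) + S) ^ p) * (1 + V) ^ ((n + 1) * p) := by
    have h1 : 0 ≤ (1 + V) ^ ((n + 1) * p) := by positivity
    rw [mul_pow, ← pow_mul, ← mul_assoc]
    exact mul_le_mul_of_nonneg_right (by linarith) h1
  refine ⟨fun a b e => ?_, ?_, ?_⟩
  · have h1 : ‖t a a‖ ^ 2 ≤ (c * √V * ‖t b b‖) ^ 2 :=
      pow_le_pow_left₀ (norm_nonneg _) (hr a b e) 2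
    rw [mul_pow, mul_pow, hsq] at h1
    refine h1.trans (mul_le_mul_of_nonneg_right ?_ (sq_nonneg _))
    nlinarith
  · exact (hC A B m _ hM1 hA.1 hc hAM hBM hBm (col_P1 m hmU hm1)).trans hfin
  · exact (hC B A m⁻¹ _ hM1 hB0 (fun a b e => by rw [hB1 a b e]; exact hc a b e) hBM hAM hBm'
      (col_P1 _ hmi hmi1)).trans hfin

lemma dgmul_Step {n : ℕ} (a b : Fin n → ℝ) : dg a * dg b = dg fun i => a i + b i := by
  simp only [dg, diagonal_mul_diagonal, Real.exp_add, Complex.ofReal_mul]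

lemma dgH_Step {n : ℕ} (a : Fin n → ℝ) : (dg a)ᴴ = dg a := by
  rw [dg, diagonal_conjTranspose]
  congr 1
  funext i
  exact Complex.conj_ofReal _

lemma dg0_Step {n : ℕ} : dg (fun _ : Fin n => (0 : ℝ)) = 1 := by simp [dg]

lemma cj_Step (w : ℂ) : (star w * w).re = ‖w‖ ^ 2 := by
  rw [Complex.star_def, Complex.conj_mul']
  norm_cast

lemma diag_Step {n : ℕ} (W : Mx n) (w : Fin n → ℝ) (i : Fin n) :
    ((Wᴴ * dg w * W) i i).re = ∑ l, ‖W l i‖ ^ 2 * Real.exp (w l) := by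
  rw [mul_apply, Complex.re_sum]
  refine Finset.sum_congr rfl fun l _ => ?_
  rw [dg, mul_diagonal, conjTranspose_apply, mul_right_comm, Complex.re_mul_ofReal, cj_Step]

lemma col_Step {n : ℕ} (W : Mx n) (i : Fin n) : ((Wᴴ * W) i i).re = ∑ l, ‖W l i‖ ^ 2 := by
  rw [mul_apply, Complex.re_sum]
  exact Finset.sum_congr rfl fun l _ => by rw [conjTranspose_apply, cj_Step]

lemma row_Step {n : ℕ} (W : Mx n) (i : Fin n) : ((W * Wᴴ) i i).re = ∑ l, ‖W i l‖ ^ 2 := by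
  rw [mul_apply, Complex.re_sum]
  exact Finset.sum_congr rfl fun l _ => by rw [conjTranspose_apply, mul_comm, cj_Step]

theorem sStep (hU : SUT) : SStep := by
  rintro n M x x' z z' ⟨s, us, es, hs⟩ ⟨s', us', es', hs'⟩
  have ne : ∀ i, s i i ≠ 0 := fun i h => (Real.exp_pos (z i)).ne' (by rw [← hs i, h]; simp)
  have ne' : ∀ i, s' i i ≠ 0 := fun i h => (Real.exp_pos (z' i)).ne' (by rw [← hs' i, h]; simp)
  obtain ⟨d1, -, -, -, -, q1⟩ := hU n s s' us us' ne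
  obtain ⟨d2, -, -, -, -, q2⟩ := hU n s' s us' us ne'
  have i1 := mul_nonsing_inv s d1.isUnit
  have i2 := nonsing_inv_mul s d1.isUnit
  have i3 := mul_nonsing_inv s' d2.isUnit
  have i4 := nonsing_inv_mul s' d2.isUnit
  obtain ⟨W, hW⟩ : ∃ W : Mx n, W = dg (fun i => x i / 2) * M * s⁻¹ := ⟨_, rfl⟩
  have key : ∀ w v : Fin n → ℝ, (∀ i, v i = x i + w i) →
      Wᴴ * dg w * W = (s⁻¹)ᴴ * (Mᴴ * dg v * M) * s⁻¹ := fun w v hv => by
    have e : dg v = dg (fun i => x i / 2) * dg w * dg fun i => x i / 2 := by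
      rw [dgmul_Step, dgmul_Step]
      congr 1
      funext i
      rw [hv]
      ring
    rw [hW, e, conjTranspose_mul, conjTranspose_mul, dgH_Step]
    simp only [Matrix.mul_assoc]
  have k0 : Wᴴ * W = 1 := by
    have := key (fun _ => 0) x fun i => (add_zero _).symm
    rw [dg0_Step, mul_one, es, ← mul_assoc, ← conjTranspose_mul, i1, conjTranspose_one, one_mul,
      i1] at this
    exact this
  have k0' : W * Wᴴ = 1 := mul_eq_one_comm.1 k0
  have k1 : Wᴴ * dg (fun i => x' i - x i) * W = (s' * s⁻¹)ᴴ * (s' * s⁻¹) := by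
    rw [key _ x' fun i => by ring, es', conjTranspose_mul]
    simp only [Matrix.mul_assoc]
  have uv : s' * s⁻¹ * (s * s'⁻¹) = 1 := by
    rw [mul_assoc, ← mul_assoc s⁻¹, i2, one_mul, i3]
  have k2 : Wᴴ * dg (fun i => x i - x' i) * W = (s * s'⁻¹) * (s * s'⁻¹)ᴴ := by
    have a1 : Wᴴ * dg (fun i => x i - x' i) * W * (Wᴴ * dg (fun i => x' i - x i) * W) = 1 := by
      calc _ = Wᴴ * (dg (fun i => x i - x' i) * (W * Wᴴ) * dg fun i => x' i - x i) * W := by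
            simp only [Matrix.mul_assoc]
        _ = 1 := by
            rw [k0', mul_one, dgmul_Step]
            simp only [sub_add_sub_cancel, sub_self]
            rw [dg0_Step, mul_one, k0]
    have a2 : (s * s'⁻¹) * (s * s'⁻¹)ᴴ * ((s' * s⁻¹)ᴴ * (s' * s⁻¹)) = 1 := by
      rw [mul_assoc, ← mul_assoc (s * s'⁻¹)ᴴ, ← conjTranspose_mul, uv, conjTranspose_one, one_mul]
      exact mul_eq_one_comm.1 uv
    rw [k1] at a1
    rw [← inv_eq_left_inv a1, inv_eq_left_inv a2]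
  refine ⟨Matrix.of fun i l => ‖W l i‖ ^ 2, mem_doublyStochastic_iff_sum.2 ⟨fun i l => ?_,
    fun i => ?_, fun l => ?_⟩, fun i => ⟨?_, ?_⟩⟩
  · exact sq_nonneg _
  · simp only [of_apply]
    rw [← col_Step, k0, one_apply_eq, Complex.one_re]
  · simp only [of_apply]
    rw [← row_Step, k0', one_apply_eq, Complex.one_re]
  · simp only [of_apply]
    rw [← diag_Step W fun i => x' i - x i, k1, col_Step, Real.exp_sub, ← hs, ← hs', ← div_pow,
      ← norm_div, ← (q1 i).2.2.2]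
    exact Finset.single_le_sum (f := fun l => ‖(s' * s⁻¹) l i‖ ^ 2) (fun _ _ => sq_nonneg _)
      (Finset.mem_univ i)
  · simp only [of_apply]
    rw [← diag_Step W fun i => x i - x' i, k2, row_Step, Real.exp_sub, ← hs, ← hs', ← div_pow,
      ← norm_div, ← (q2 i).2.2.2]
    exact Finset.single_le_sum (f := fun l => ‖(s * s'⁻¹) i l‖ ^ 2) (fun _ _ => sq_nonneg _)
      (Finset.mem_univ i)

theorem up_Maj {n : ℕ} {D t : Fin n → ℝ} {u ε : ℝ} (h0 : ∀ l, 0 ≤ D l) (h1 : ∑ l, D l = 1)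
    (ht : ∀ l, |t l| ≤ ε) (hε : ε ≤ 1) (h : Real.exp u ≤ ∑ l, D l * Real.exp (t l)) :
    u ≤ ∑ l, D l * t l + ε ^ 2 := by
  have h2 : ∑ l, D l * Real.exp (t l) ≤ ∑ l, (D l * t l + D l * (1 + ε ^ 2)) :=
    Finset.sum_le_sum fun l _ => by
      have h3 := (abs_le.1 (Real.abs_exp_sub_one_sub_id_le ((ht l).trans hε))).2
      have h4 : t l ^ 2 ≤ ε ^ 2 := sq_le_sq' (abs_le.1 (ht l)).1 (abs_le.1 (ht l)).2
      rw [← mul_add]
      exact mul_le_mul_of_nonneg_left (by linarith) (h0 l)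
  rw [Finset.sum_add_distrib, ← Finset.sum_mul, h1] at h2
  linarith [Real.add_one_le_exp u]

theorem bk_Maj {n : ℕ} {D : Matrix (Fin n) (Fin n) ℝ} (hD : D ∈ doublyStochastic ℝ (Fin n))
    {y μ : Fin n → ℝ} {κ : ℝ} (h : ∀ π : Equiv.Perm (Fin n), ∑ i, μ i * y (π i) ≤ κ) :
    ∑ i, μ i * ∑ l, D i l * y l ≤ κ := by
  obtain ⟨w, w0, w1, rfl⟩ := exists_eq_sum_perm_of_mem_doublyStochastic hD
  have e : ∀ i, ∑ l, (∑ σ : Equiv.Perm (Fin n), w σ • σ.permMatrix ℝ) i l * y l =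
      ∑ σ : Equiv.Perm (Fin n), w σ * y (σ i) := fun i => by
    simp only [Matrix.sum_apply, Finset.sum_mul]
    rw [Finset.sum_comm]
    refine Finset.sum_congr rfl fun σ _ => ?_
    simp [Equiv.Perm.permMatrix, PEquiv.toMatrix_apply, eq_comm]
  simp only [e, Finset.mul_sum]
  rw [Finset.sum_comm, ← one_mul κ, ← w1, Finset.sum_mul]
  refine Finset.sum_le_sum fun σ _ => ?_
  simp only [mul_left_comm (μ _) (w σ), ← Finset.mul_sum]
  exact mul_le_mul_of_nonneg_left (h σ) (w0 σ)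

theorem sMaj (hB2 : SB2) (hB3 : SB3) (hC : SChol) (hS : SStep) : SMaj := by
  intro n M y z z0 μ κ hM hz hz0 hκ
  obtain ⟨L, hL⟩ : ∃ L : ℝ, ∀ l, |y l| ≤ L := ⟨∑ l, |y l|, fun l =>
    Finset.single_le_sum (f := fun l => |y l|) (fun _ _ => abs_nonneg _) (Finset.mem_univ l)⟩
  have key : ∀ Q : ℕ, 1 ≤ Q → L ≤ Q → ip μ (z - z0) ≤ κ + L ^ 2 * (∑ i, |μ i|) / Q := by
    intro Q Q1 QL
    have Q0 : (0 : ℝ) < Q := by exact_mod_cast Q1
    have h1 : ∀ q : ℕ, ∃ v, Ch (Mᴴ * dg (fun l => q / Q * y l) * M) v ∧ (q = 0 → v = z0) ∧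
        (q = Q → v = z) := fun q => by
      by_cases a : q = 0
      · exact ⟨z0, by simpa [a, dg] using hz0, fun _ => rfl, fun b => by omega⟩
      by_cases b : q = Q
      · exact ⟨z, by simpa [b, Q0.ne'] using hz, fun c => absurd c a, fun _ => rfl⟩
      have h2 := ((hC n _).2 _ (hB3 n 1 1 1 (fun l => q / Q * y l) 0).2.1).1
      obtain ⟨v, hv⟩ := (hC n _).1 (hB2 n _ _ 1 M h2 h2 hM).2.2.1
      exact ⟨v, hv, fun c => absurd c a, fun c => absurd c b⟩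
    choose w w1 w2 w3 using h1
    have step : ∀ q, ip μ (w (q + 1)) - ip μ (w q) ≤ κ / Q + (L / Q) ^ 2 * ∑ i, |μ i| := fun q => by
      obtain ⟨D, hD, h⟩ := hS n M _ _ _ _ (w1 q) (w1 (q + 1))
      have e1 : ∀ l, ((q + 1 : ℕ) : ℝ) / Q * y l - q / Q * y l = y l / Q := fun l => by
        push_cast
        ring
      have e2 : ∀ l, (q : ℝ) / Q * y l - ((q + 1 : ℕ) : ℝ) / Q * y l = -(y l / Q) := fun l => by
        rw [← e1, neg_sub]
      have b1 : ∀ l, |y l / Q| ≤ L / Q := fun l => by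
        rw [abs_div, abs_of_pos Q0]
        exact div_le_div_of_nonneg_right (hL l) Q0.le
      have b2 := (div_le_one Q0).2 QL
      simp only [e1, e2] at h
      have h3 := div_le_div_of_nonneg_right (bk_Maj hD hκ) Q0.le
      refine le_trans ?_ (add_le_add_left h3 _)
      rw [ip, ip, ← Finset.sum_sub_distrib, Finset.sum_div, Finset.mul_sum,
        ← Finset.sum_add_distrib]
      refine Finset.sum_le_sum fun i _ => ?_
      have r0 := fun l => nonneg_of_mem_doublyStochastic hD (i := i) (j := l)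
      have r1 := sum_row_of_mem_doublyStochastic hD i
      have u1 := up_Maj r0 r1 b1 b2 (h i).1
      have u2 := up_Maj r0 r1 (fun l => (abs_neg _).trans_le (b1 l)) b2 (h i).2
      simp only [mul_neg, Finset.sum_neg_distrib, ← mul_div_assoc, ← Finset.sum_div] at u1 u2
      have u3 : |w (q + 1) i - w q i - (∑ l, D i l * y l) / Q| ≤ (L / Q) ^ 2 :=
        abs_le.2 ⟨by linarith, by linarith⟩
      have u4 := (le_abs_self _).trans ((abs_mul (μ i) _).trans_le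
        (mul_le_mul_of_nonneg_left u3 (abs_nonneg (μ i))))
      rw [mul_div_assoc]
      linarith
    have tel := Finset.sum_le_sum fun q (_ : q ∈ Finset.range Q) => step q
    rw [Finset.sum_range_sub fun q => ip μ (w q), w2 0 rfl, w3 Q rfl, Finset.sum_const,
      Finset.card_range, nsmul_eq_mul] at tel
    have e : ip μ (z - z0) = ip μ z - ip μ z0 := by simp [ip, mul_sub]
    rw [e]
    refine tel.trans_eq ?_
    field_simp
  have lim : Tendsto (fun Q : ℕ => κ + L ^ 2 * (∑ i, |μ i|) / Q) atTop (𝓝 (κ + 0)) :=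
    (tendsto_const_div_atTop_nhds_zero_nat _).const_add κ
  rw [add_zero] at lim
  refine ge_of_tendsto lim ?_
  filter_upwards [eventually_ge_atTop 1, eventually_ge_atTop ⌈L⌉₊] with Q h1 h2
  exact key Q h1 (Nat.ceil_le.1 h2)

end Pool.Agent.MP_4f0bc7_gt.Od
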