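import Pool.Agent.MP_4f0bc7_gt.Od.St

namespace Pool.Agent.MP_4f0bc7_gt.Od

open Matrix Filter Topology Polynomial

section
open Finset

theorem abel_LP (n : ℕ) (Y β : ℕ → ℝ) {e C c : ℝ} (he : 0 ≤ e) (hC : 0 ≤ C) (hc : 0 ≤ c)
    (h0 : ∑ i ∈ range n, β i = 0)
    (hG : ∀ r, 0 < r → r < n → e ≤ ∑ i ∈ range r, β i ∧ ∑ i ∈ range r, β i ≤ C)
    (hd : ∀ i, i + 1 < n → Y (i + 1) ≤ Y i + c) (hs : ∑ i ∈ range n, Y i = 0) :
    e / (n + 1) * ∑ i ∈ range n, |Y i| - (e * n + n * C) * c ≤ ∑ i ∈ range n, Y i * β i := by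
  have hn : ((n - 1 : ℕ) : ℝ) ≤ n := Nat.cast_le.2 (Nat.sub_le n 1)
  have n0 : (0 : ℝ) ≤ n := Nat.cast_nonneg n
  set S := ∑ i ∈ range (n - 1), (Y i - Y (i + 1) + c) with hS
  have S0 : 0 ≤ S := sum_nonneg fun i hi => by linarith [hd i (by have := mem_range.1 hi; omega)]
  have h1 : e * S - n * C * c ≤ ∑ i ∈ range n, Y i * β i := by
    have h2 := sum_range_by_parts Y β n
    simp only [smul_eq_mul] at h2
    rw [h2, h0, mul_zero, zero_sub, ← sum_neg_distrib]
    have h3 : ∑ i ∈ range (n - 1), (e * (Y i - Y (i + 1) + c) - C * c) ≤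
        ∑ i ∈ range (n - 1), -((Y (i + 1) - Y i) * ∑ j ∈ range (i + 1), β j) :=
      sum_le_sum fun i hi => by
        have hi' : i + 1 < n := by have := mem_range.1 hi; omega
        obtain ⟨g1, g2⟩ := hG (i + 1) i.succ_pos hi'
        nlinarith [mul_le_mul_of_nonneg_left g1 (sub_nonneg.2 (hd i hi')),
          mul_le_mul_of_nonneg_left g2 hc]
    rw [sum_sub_distrib, ← mul_sum, sum_const, card_range, nsmul_eq_mul] at h3
    nlinarith [mul_le_mul_of_nonneg_right hn (mul_nonneg hC hc)]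
  have h4 : ∑ i ∈ range (n - 1), dist (Y i) (Y (i + 1)) ≤ S + n * c := by
    have h5 : ∑ i ∈ range (n - 1), dist (Y i) (Y (i + 1)) ≤
        ∑ i ∈ range (n - 1), (Y i - Y (i + 1) + c + c) := sum_le_sum fun i hi => by
      have := hd i (by have := mem_range.1 hi; omega)
      rw [Real.dist_eq, abs_le]
      constructor <;> linarith
    rw [sum_add_distrib, sum_const, card_range, nsmul_eq_mul] at h5
    linarith [mul_le_mul_of_nonneg_right hn hc]
  have h6 : ∀ a b, a ≤ b → b < n → |Y a - Y b| ≤ S + n * c := fun a b hab hb =>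
    (dist_le_Ico_sum_dist Y hab).trans ((sum_le_sum_of_subset_of_nonneg
      (fun i hi => mem_range.2 (by have := mem_Ico.1 hi; omega)) fun _ _ _ => dist_nonneg).trans h4)
  have h7 : ∀ a ∈ range n, |Y a| ≤ S + n * c := fun a ha => by
    have ha' := mem_range.1 ha
    have np : (0 : ℝ) < n := Nat.cast_pos.2 (by omega)
    have h8 : (n : ℝ) * Y a = ∑ b ∈ range n, (Y a - Y b) := by
      rw [sum_sub_distrib, hs, sum_const, card_range, nsmul_eq_mul, sub_zero]
    have h9 : |∑ b ∈ range n, (Y a - Y b)| ≤ (range n).card • (S + n * c) :=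
      (abs_sum_le_sum_abs _ _).trans (sum_le_card_nsmul _ _ _ fun b hb => by
        rcases le_total a b with h | h
        · exact h6 a b h (mem_range.1 hb)
        · rw [abs_sub_comm]
          exact h6 b a h ha')
    rw [← h8, abs_mul, abs_of_pos np, card_range, nsmul_eq_mul] at h9
    exact le_of_mul_le_mul_left h9 np
  have h10 := sum_le_card_nsmul _ _ _ h7
  rw [card_range, nsmul_eq_mul] at h10
  have h11 : e / (n + 1) * ∑ i ∈ range n, |Y i| ≤ e * (S + n * c) := by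
    rw [div_mul_eq_mul_div, div_le_iff₀ (by positivity), mul_assoc]
    refine mul_le_mul_of_nonneg_left (h10.trans ?_) he
    nlinarith [mul_nonneg n0 hc]
  nlinarith

/-- extension by zero -/
noncomputable def ext_LP {n : ℕ} (φ : Fin n → ℝ) (i : ℕ) : ℝ := if h : i < n then φ ⟨i, h⟩ else 0

theorem ext_coe_LP {n : ℕ} (φ : Fin n → ℝ) (i : Fin n) : ext_LP φ i = φ i := dif_pos i.2

theorem perm_LP {n r : ℕ} (hr : r ≤ n) (π : Equiv.Perm (Fin n)) (φ : Fin n → ℝ) :
    ∑ j ∈ univ.filter fun j => (π j).val < r, φ j =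
      ∑ i ∈ range r, ext_LP (fun k => φ (π.symm k)) i := by
  have e : range r = (range n).filter fun i => i < r := by
    ext i
    simp only [mem_range, mem_filter]
    omega
  rw [e, sum_filter, sum_filter,
    ← Fin.sum_univ_eq_sum_range fun i => if i < r then ext_LP (fun k => φ (π.symm k)) i else 0,
    ← Equiv.sum_comp π fun i : Fin n =>
      if i.val < r then ext_LP (fun k => φ (π.symm k)) i.val else 0]
  simp only [ext_coe_LP, Equiv.symm_apply_apply]

theorem al_LP (n r : ℕ) (σ : ℝ) :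
    ∑ i ∈ range r, σ * ((n : ℝ) - 1 - 2 * (i : ℝ)) = σ * (r * ((n : ℝ) - r)) := by
  induction r with
  | zero => simp
  | succ r ih =>
    rw [sum_range_succ, ih]
    push_cast
    ring

theorem sLP : SLP := by
  classical
  intro n μ σ hμ hI
  refine ⟨by
    simp only [al]
    rw [Fin.sum_univ_eq_sum_range fun i => σ * ((n : ℝ) - 1 - 2 * (i : ℝ)), al_LP, sub_self,
      mul_zero, mul_zero], ?_⟩
  let g : Finset (Fin n) → ℝ := fun I => σ * (I.card * ((n : ℝ) - I.card)) - ∑ i ∈ I, μ i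
  obtain ⟨I₀, -, h0⟩ := exists_min_image univ
    (fun I : Finset (Fin n) => if I.Nonempty ∧ I ≠ univ then g I else 1) univ_nonempty
  obtain ⟨I₁, -, h1⟩ := exists_max_image univ g univ_nonempty
  set e := if I₀.Nonempty ∧ I₀ ≠ univ then g I₀ else 1 with he
  have e0 : 0 < e := by
    rw [he]
    split_ifs with h
    · exact sub_pos.2 (hI I₀ h.1 h.2)
    · exact one_pos
  refine ⟨e / (n + 1), e * n + n * |g I₁|, by positivity, by positivity,
    fun y c hc hy hs π => ?_⟩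
  have hsum : ∀ r ≤ n, ∃ I : Finset (Fin n), I.card = r ∧ ∑ i ∈ range r,
      (σ * ((n : ℝ) - 1 - 2 * (i : ℝ)) - ext_LP (fun k => μ (π.symm k)) i) = g I := fun r hr => by
    have hcard : (univ.filter fun j => (π j).val < r).card = r := by
      have h2 := perm_LP hr π fun _ => 1
      have h3 : ∑ i ∈ range r, ext_LP (fun _ : Fin n => (1 : ℝ)) i = ∑ _i ∈ range r, 1 :=
        sum_congr rfl fun i hi => dif_pos ((mem_range.1 hi).trans_le hr)
      rw [h3] at h2
      simpa using h2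
    refine ⟨_, hcard, ?_⟩
    simp only [g]
    rw [sum_sub_distrib, al_LP, hcard, perm_LP hr]
  have key := abel_LP n (ext_LP y)
    (fun i => σ * ((n : ℝ) - 1 - 2 * (i : ℝ)) - ext_LP (fun k => μ (π.symm k)) i) e0.le
    (abs_nonneg (g I₁)) hc (by
      rw [sum_sub_distrib, al_LP, ← Fin.sum_univ_eq_sum_range]
      simp only [ext_coe_LP]
      rw [Equiv.sum_comp π.symm μ, hμ]
      ring)
    (fun r r0 r1 => by
      obtain ⟨I, c1, c2⟩ := hsum r r1.le
      have h2 := h0 I (mem_univ _)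
      rw [if_pos ⟨card_pos.1 (c1 ▸ r0), fun h => by
        rw [h, card_univ, Fintype.card_fin] at c1
        omega⟩] at h2
      rw [c2]
      exact ⟨h2, (h1 I (mem_univ _)).trans (le_abs_self _)⟩)
    (fun i hi => by
      have := hy ⟨i + 1, hi⟩ ⟨i, by omega⟩ rfl
      rwa [← ext_coe_LP y, ← ext_coe_LP y] at this)
    (by
      rw [← Fin.sum_univ_eq_sum_range]
      simpa only [ext_coe_LP] using hs)
  rw [← Fin.sum_univ_eq_sum_range fun i => |ext_LP y i|, ← Fin.sum_univ_eq_sum_range fun i =>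
    ext_LP y i * (σ * ((n : ℝ) - 1 - 2 * (i : ℝ)) - ext_LP (fun k => μ (π.symm k)) i)] at key
  simp only [ext_coe_LP] at key
  refine key.trans (le_of_eq ?_)
  rw [← Equiv.sum_comp π.symm fun i => μ i * y (π i), ip, ← sum_sub_distrib]
  refine sum_congr rfl fun i _ => ?_
  rw [Equiv.apply_symm_apply, al]
  ring

end

theorem sSch (hB1 : SB1) (hB2 : SB2) (hC : SChol) (hU : SUT) : SSch := by
  intro n A U μ σ τ D H hH
  have Ud : U.det ≠ 0 := fun h => by
    have := congrArg det D.uni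
    rw [det_mul, h, mul_zero, det_one] at this
    exact zero_ne_one this
  obtain ⟨-, -, h1, -, h2, -⟩ := hB2 n H H A U hH hH Ud
  rw [inv_eq_left_inv D.uni] at h2
  have hT : UT (Uᴴ * A * U) := fun a b hab => by
    by_contra h
    exact lt_asymm hab (D.tri a b (ne_of_gt hab) h).1
  obtain ⟨y, t, ht, he, hy⟩ := (hC n _).1 h1
  have t0 : ∀ i, t i i ≠ 0 := fun i h => by
    have := hy i
    rw [h, norm_zero] at this
    linarith [Real.exp_pos (y i)]
  obtain ⟨td, -, u1, -, -, u2⟩ := hU n t (Uᴴ * A * U) ht hT t0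
  have u3 := (hU n t _ ht u1 t0).2.2.2.2.2
  rw [← h2, he, (hB1 n t t _ td td).2.2.2.1, sum_Fro, ww]
  refine Finset.sum_le_sum fun i _ => le_trans (le_of_eq ?_) (Finset.single_le_sum
    (f := fun b => ‖(t * (Uᴴ * A * U) * t⁻¹) i b‖ ^ 2) (fun _ _ => sq_nonneg _) (Finset.mem_univ i))
  rw [(u3 i).2.2.2, (u2 i).2.1, mul_div_cancel_left₀ _ (t0 i)]

theorem exp_CompK (a N : ℝ) (hN : 1 ≤ N) :
    Real.exp (a / N) + Real.exp (-(a / N)) - 2 ≤
      a * a / N ^ 2 + a ^ 4 * Real.exp (a ^ 2 / 2) / N ^ 4 := by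
  have hN0 : 0 < N := by linarith
  obtain ⟨t, ht⟩ : ∃ t, t = a / N := ⟨_, rfl⟩
  have e1 : a * a / N ^ 2 = t ^ 2 := by rw [ht]; field_simp
  have e2 : a ^ 4 * Real.exp (a ^ 2 / 2) / N ^ 4 = t ^ 4 * Real.exp (a ^ 2 / 2) := by
    rw [ht]; field_simp
  have h1 : t ^ 2 ≤ a ^ 2 := by
    rw [ht, div_pow]
    exact div_le_self (sq_nonneg a) (one_le_pow₀ hN)
  rw [e1, e2, ← ht]
  have h2 := Real.cosh_le_exp_half_sq t
  rw [Real.cosh_eq] at h2
  obtain ⟨u, hu⟩ : ∃ u, u = t ^ 2 / 2 := ⟨_, rfl⟩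
  have u0 : 0 ≤ u := by rw [hu]; positivity
  have h3 : Real.exp u ≤ Real.exp (a ^ 2 / 2) := Real.exp_le_exp.2 (by linarith)
  have h4 : Real.exp u ≤ 1 + u * Real.exp u := by
    have h5 := Real.add_one_le_exp (-u)
    have h6 : Real.exp (-u) * Real.exp u = 1 := by rw [← Real.exp_add]; simp
    have h7 := mul_le_mul_of_nonneg_right h5 (Real.exp_pos u).le
    linarith
  have h5 := mul_le_mul_of_nonneg_left h4 u0
  have h6 : u * (u * Real.exp u) ≤ u * (u * Real.exp (a ^ 2 / 2)) :=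
    mul_le_mul_of_nonneg_left (mul_le_mul_of_nonneg_left h3 u0) u0
  have h7 : t ^ 4 = 4 * u * u := by rw [hu]; ring
  have h8 : 0 ≤ u * (u * Real.exp (a ^ 2 / 2)) := by positivity
  rw [← hu] at h2
  rw [h7]
  linarith

theorem mul_CompK {n : ℕ} (x y : Fin n → ℝ) : dg x * dg y = dg fun i => x i + y i := by
  simp only [dg, diagonal_mul_diagonal, Real.exp_add, Complex.ofReal_mul]

theorem zero_CompK {n : ℕ} : dg (fun _ : Fin n => (0 : ℝ)) = 1 := by
  simp [dg]

theorem inv_CompK {n : ℕ} (x : Fin n → ℝ) : (dg x)⁻¹ = dg fun i => -x i := by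
  refine Matrix.inv_eq_left_inv ?_
  rw [mul_CompK]
  simp only [neg_add_cancel]
  exact zero_CompK

theorem tr_CompK {n : ℕ} (x : Fin n → ℝ) : (trace (dg x)).re = ∑ i, Real.exp (x i) := by
  simp only [dg, trace_diagonal, Complex.re_sum, Complex.ofReal_re]

theorem kk_CompK {n : ℕ} (a : Fin n → ℝ) (N j : ℕ) (hN : 1 ≤ N) :
    KK (dg fun i => a i * ss N j) (dg fun i => a i * ss N (j + 1)) ≤
      ip a a / (N : ℝ) ^ 2 + (∑ i, a i ^ 4 * Real.exp (a i ^ 2 / 2)) / (N : ℝ) ^ 4 := by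
  have hN' : (1 : ℝ) ≤ N := by exact_mod_cast hN
  have hs : ss N (j + 1) = ss N j + 1 / N := by
    unfold ss
    push_cast
    ring
  unfold KK
  rw [inv_CompK, inv_CompK, mul_CompK, mul_CompK, tr_CompK, tr_CompK, ip, Finset.sum_div,
    Finset.sum_div, ← Finset.sum_add_distrib, ← Finset.sum_add_distrib]
  have h2 : (2 : ℝ) * n = ∑ _i : Fin n, (2 : ℝ) := by simp [mul_comm]
  rw [h2, ← Finset.sum_sub_distrib]
  refine Finset.sum_le_sum fun i _ => ?_
  have e1 : -(a i * ss N j) + a i * ss N (j + 1) = a i / N := by rw [hs]; ring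
  have e2 : -(a i * ss N (j + 1)) + a i * ss N j = -(a i / N) := by rw [hs]; ring
  rw [e1, e2]
  exact exp_CompK _ _ hN'

theorem half_CompK (f : ℕ → ℝ) (N : ℕ) (hN : 1 ≤ N) (p c : ℝ) (hc : 0 ≤ c)
    (h : ∀ j ∈ Finset.range (N ^ 2), f j ≤ p / (N : ℝ) ^ 2 + c / (N : ℝ) ^ 4) :
    ∑ j ∈ Finset.range (N ^ 2), (N : ℝ) / 2 * f j ≤ N * p / 2 + c := by
  have hN' : (1 : ℝ) ≤ N := by exact_mod_cast hN
  have hN0 : (0 : ℝ) < N := by linarith
  calc ∑ j ∈ Finset.range (N ^ 2), (N : ℝ) / 2 * f j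
      ≤ ∑ _j ∈ Finset.range (N ^ 2), (N : ℝ) / 2 * (p / (N : ℝ) ^ 2 + c / (N : ℝ) ^ 4) :=
        Finset.sum_le_sum fun j hj => mul_le_mul_of_nonneg_left (h j hj) (by positivity)
    _ = N * p / 2 + c / (2 * N) := by
        rw [Finset.sum_const, Finset.card_range, nsmul_eq_mul]
        push_cast
        field_simp
    _ ≤ N * p / 2 + c := by
        have := div_le_self hc (show (1 : ℝ) ≤ 2 * N by linarith)
        linarith

theorem sCompK (hB2 : SB2) (hB3 : SB3) (hC : SChol) : SCompK := by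
  intro n U μ σ hU
  have hpos : ∀ x : Fin n → ℝ, IsPosHerm (dg x) := fun x =>
    ((hC n (dg x)).2 x (hB3 n 1 1 1 x 0).2.1).1
  have hU' : U * Uᴴ = 1 := mul_eq_one_comm.1 hU
  have hdet : Uᴴ.det ≠ 0 := by
    intro h
    have := congrArg det hU
    rw [det_mul, h, zero_mul, det_one] at this
    exact zero_ne_one this
  have hB := fun x x' : Fin n → ℝ => hB2 n (dg x) (dg x') 1 Uᴴ (hpos x) (hpos x') hdet
  simp only [conjTranspose_conjTranspose] at hB
  refine ⟨∑ i, al n σ i ^ 4 * Real.exp (al n σ i ^ 2 / 2) + ∑ i, μ i ^ 4 * Real.exp (μ i ^ 2 / 2),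
    fun N hN => ⟨fun j => ?_, ?_⟩⟩
  · unfold gam
    split_ifs
    · exact hpos _
    · exact (hB _ (fun _ => 0)).2.2.1
  · have hlo : ∀ j, j ≤ N ^ 2 → gam U μ σ N j = dg fun i => al n σ i * ss N j := fun j hj =>
      if_pos hj
    have hhi : ∀ j, N ^ 2 ≤ j → gam U μ σ N j = U * dg (fun i => μ i * ss N j) * Uᴴ := by
      intro j hj
      rcases hj.eq_or_lt with rfl | h
      · have h0 : ss N (N ^ 2) = 0 := by simp [ss]
        rw [hlo _ le_rfl, h0]
        simp only [mul_zero]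
        rw [zero_CompK, Matrix.mul_one, hU']
      · exact if_neg (not_le.2 h)
    rw [two_mul, Finset.sum_range_add]
    have h1 := half_CompK (fun j => KK (gam U μ σ N j) (gam U μ σ N (j + 1))) N hN
      (ip (al n σ) (al n σ)) (∑ i, al n σ i ^ 4 * Real.exp (al n σ i ^ 2 / 2))
      (Finset.sum_nonneg fun i _ => by positivity) fun j hj => by
        have hj' := Finset.mem_range.1 hj
        rw [hlo j hj'.le, hlo (j + 1) hj']
        exact kk_CompK _ N j hN
    have h2 := half_CompK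
      (fun j => KK (gam U μ σ N (N ^ 2 + j)) (gam U μ σ N (N ^ 2 + j + 1))) N hN
      (ip μ μ) (∑ i, μ i ^ 4 * Real.exp (μ i ^ 2 / 2))
      (Finset.sum_nonneg fun i _ => by positivity) fun j _ => by
        rw [hhi (N ^ 2 + j) (by omega), hhi (N ^ 2 + j + 1) (by omega), (hB _ _).2.2.2.1]
        exact kk_CompK _ N _ hN
    linarith

theorem inv_CompV {n : ℕ} (x : Fin n → ℝ) : (dg x)⁻¹ = dg fun i => -x i := by
  refine Matrix.inv_eq_left_inv ?_
  unfold dg
  rw [diagonal_mul_diagonal, ← diagonal_one]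
  congr 1
  ext i
  rw [← Complex.ofReal_mul, ← Real.exp_add]
  simp

theorem nsq_CompV {n : ℕ} (x : Fin n → ℝ) (X : Mx n) :
    nsq (dg x) X = ∑ a, ∑ b, ‖X a b‖ ^ 2 * Real.exp (x a - x b) := by
  unfold nsq adj
  rw [inv_CompV, trace, Complex.re_sum]
  refine Finset.sum_congr rfl fun a _ => ?_
  rw [diag_apply, mul_apply, Complex.re_sum]
  refine Finset.sum_congr rfl fun b _ => ?_
  unfold dg
  rw [mul_diagonal, diagonal_mul, conjTranspose_apply]
  have h : X a b * ((Real.exp (-x b) : ℂ) * star (X a b) * (Real.exp (x a) : ℂ)) =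
      ((‖X a b‖ ^ 2 * Real.exp (x a - x b) : ℝ) : ℂ) := by
    rw [sub_eq_add_neg, Real.exp_add, Complex.ofReal_mul, Complex.ofReal_mul,
      ← Complex.normSq_eq_norm_sq, ← Complex.mul_conj]
    simp only [Complex.star_def]
    ring
  rw [h, Complex.ofReal_re]

theorem geo_CompV {t : ℝ} (ht : 0 < t) (m : ℕ) :
    ∑ i ∈ Finset.range m, Real.exp (-t) ^ i ≤ 1 + 1 / t := by
  have h1 : Real.exp (-t) * (1 + t) ≤ 1 := by
    rw [Real.exp_neg, inv_mul_le_iff₀ (Real.exp_pos t)]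
    linarith [Real.add_one_le_exp t]
  induction m with
  | zero => rw [Finset.sum_range_zero]; positivity
  | succ m ih =>
    rw [geom_sum_succ]
    have h2 := mul_le_mul_of_nonneg_left ih (Real.exp_pos (-t)).le
    have h3 : Real.exp (-t) * (1 + 1 / t) = Real.exp (-t) * (1 + t) / t := by
      field_simp
      ring
    have h4 : Real.exp (-t) * (1 + t) / t ≤ 1 / t := div_le_div_of_nonneg_right h1 ht.le
    linarith

theorem left_CompV {n : ℕ} {A : Mx n} (hA : Hes A) {σ s : ℝ} (hσ : 0 < σ) (hs : s ≤ 0) :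
    nsq (dg fun i => al n σ i * s) A ≤ fro A * Real.exp (-2 * σ * s) := by
  rw [nsq_CompV, sum_Fro, Finset.sum_mul]
  refine Finset.sum_le_sum fun a _ => ?_
  rw [Finset.sum_mul]
  refine Finset.sum_le_sum fun b _ => ?_
  by_cases h : b.val + 1 < a.val
  · simp [hA.1 a b h]
  · refine mul_le_mul_of_nonneg_left (Real.exp_le_exp.2 ?_) (by positivity)
    have h1 : (a.val : ℝ) ≤ b.val + 1 := by exact_mod_cast not_lt.1 h
    have h2 : 0 ≤ σ * ((b.val : ℝ) + 1 - a.val) * -s :=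
      mul_nonneg (mul_nonneg hσ.le (by linarith)) (by linarith)
    unfold al
    nlinarith

theorem right_CompV {n : ℕ} {T : Mx n} {μ : Fin n → ℝ} {τ s : ℝ}
    (hT : ∀ a b, a ≠ b → T a b ≠ 0 → a < b ∧ μ a + 2 * τ ≤ μ b) (hs : 0 ≤ s) :
    nsq (dg fun i => μ i * s) T - ∑ i, ‖T i i‖ ^ 2 ≤ fro T * Real.exp (-2 * τ * s) := by
  rw [nsq_CompV, sum_Fro, Finset.sum_mul, ← Finset.sum_sub_distrib]
  refine Finset.sum_le_sum fun a _ => ?_
  have e : ‖T a a‖ ^ 2 = ∑ b, if a = b then ‖T a b‖ ^ 2 else 0 := by simp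
  rw [Finset.sum_mul, e, ← Finset.sum_sub_distrib]
  refine Finset.sum_le_sum fun b _ => ?_
  by_cases h : a = b
  · subst h
    simp only [sub_self, Real.exp_zero, mul_one, if_true]
    positivity
  · by_cases h0 : T a b = 0
    · simp [h0]
    · rw [if_neg h, sub_zero]
      refine mul_le_mul_of_nonneg_left (Real.exp_le_exp.2 ?_) (by positivity)
      have h2 := mul_le_mul_of_nonneg_right (hT a b h h0).2 hs
      linarith

theorem sCompV (_hB1 : SB1) (hB2 : SB2) (hB3 : SB3) (hC : SChol) : SCompV := by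
  intro n A U μ σ τ hD
  have hU : U * Uᴴ = 1 := mul_eq_one_comm.1 hD.uni
  have hdet : (Uᴴ).det ≠ 0 := left_ne_zero_of_mul_eq_one (by rw [← det_mul, hD.uni, det_one])
  have hinv : (Uᴴ)⁻¹ = U := Matrix.inv_eq_left_inv hU
  have hconj : ∀ x : Fin n → ℝ, nsq (U * dg x * Uᴴ) A = nsq (dg x) (Uᴴ * A * U) := fun x => by
    have hp : IsPosHerm (dg x) := ((hC n (dg x)).2 x (hB3 n 1 1 1 x 0).2.1).1
    have h := (hB2 n (dg x) (dg x) (Uᴴ * A * U) Uᴴ hp hp hdet).2.2.2.2.1
    rw [conjTranspose_conjTranspose, hinv] at h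
    rw [← h]
    congr 1
    simp only [← Matrix.mul_assoc]
    rw [hU, Matrix.one_mul, Matrix.mul_assoc, hU, Matrix.mul_one]
  obtain ⟨k, hk, hk1, hk2⟩ : ∃ k : ℝ, 0 < k ∧ k ≤ 2 * (1 - σ) ∧ k ≤ 2 * (τ - 1) :=
    ⟨min (2 * (1 - σ)) (2 * (τ - 1)), lt_min (by linarith [hD.s1]) (by linarith [hD.t1]),
      min_le_left _ _, min_le_right _ _⟩
  have hFA := nonneg_Fro A
  have hFT := nonneg_Fro (Uᴴ * A * U)
  have hw : 0 ≤ ww A U := Finset.sum_nonneg fun i _ => by positivity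
  set D := fro A + fro (Uᴴ * A * U) with hDd
  refine ⟨8 * D * (1 + 1 / k), fun N hN => ?_⟩
  have hN1 : (1 : ℝ) ≤ N := by exact_mod_cast hN
  have hN0 : (0 : ℝ) < N := by linarith
  have key : ∀ j, aa N j * (nsq (gam U μ σ N j) A - ww A U) ≤
      4 / (N : ℝ) * D * Real.exp (-k * |ss N j|) := by
    intro j
    unfold aa gam
    rw [mul_assoc (4 / (N : ℝ)), mul_assoc (4 / (N : ℝ))]
    refine mul_le_mul_of_nonneg_left ?_ (div_nonneg (by norm_num) hN0.le)
    split_ifs with hj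
    · have hs : ss N j ≤ 0 := by
        have : (j : ℝ) ≤ (N : ℝ) ^ 2 := by exact_mod_cast hj
        exact div_nonpos_of_nonpos_of_nonneg (by linarith) hN0.le
      have h1 := left_CompV hD.hes hD.s0 hs
      calc _ ≤ Real.exp (2 * ss N j) * (fro A * Real.exp (-2 * σ * ss N j)) :=
            mul_le_mul_of_nonneg_left (by linarith) (Real.exp_pos _).le
        _ = fro A * Real.exp (2 * ss N j + -2 * σ * ss N j) := by rw [Real.exp_add]; ring
        _ ≤ _ := by
            refine mul_le_mul (by linarith) (Real.exp_le_exp.2 ?_) (Real.exp_pos _).le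
              (by linarith)
            rw [abs_of_nonpos hs]
            nlinarith
    · have hs : 0 ≤ ss N j := by
        have : (N : ℝ) ^ 2 ≤ j := by exact_mod_cast (not_le.1 hj).le
        exact div_nonneg (by linarith) hN0.le
      have h1 := right_CompV hD.tri hs
      rw [hconj]
      calc _ ≤ Real.exp (2 * ss N j) * (fro (Uᴴ * A * U) * Real.exp (-2 * τ * ss N j)) :=
            mul_le_mul_of_nonneg_left h1 (Real.exp_pos _).le
        _ = fro (Uᴴ * A * U) * Real.exp (2 * ss N j + -2 * τ * ss N j) := by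
            rw [Real.exp_add]; ring
        _ ≤ _ := by
            refine mul_le_mul (by linarith) (Real.exp_le_exp.2 ?_) (Real.exp_pos _).le
              (by linarith)
            rw [abs_of_nonneg hs]
            nlinarith
  have ht : 0 < k / N := by positivity
  have hex : ∀ (j i : ℕ), (i : ℝ) ≤ |(j : ℝ) - (N : ℝ) ^ 2| →
      Real.exp (-k * |ss N j|) ≤ Real.exp (-(k / N)) ^ i := fun j i h => by
    rw [← Real.exp_nat_mul, ss, abs_div, abs_of_pos hN0]
    refine Real.exp_le_exp.2 ?_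
    have := mul_le_mul_of_nonneg_left h ht.le
    calc -k * (|(j : ℝ) - (N : ℝ) ^ 2| / N) = -(k / N * |(j : ℝ) - (N : ℝ) ^ 2|) := by ring
      _ ≤ _ := by linarith
  have hL : ∑ j ∈ Finset.range (N ^ 2), Real.exp (-k * |ss N j|) ≤ 1 + 1 / (k / N) := by
    refine le_trans ?_ (geo_CompV ht (N ^ 2))
    rw [← Finset.sum_range_reflect (fun i => Real.exp (-(k / N)) ^ i)]
    refine Finset.sum_le_sum fun j hj => hex j _ ?_
    have h1 : N ^ 2 - 1 - j + j ≤ N ^ 2 := by have := Finset.mem_range.1 hj; omega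
    have h2 : ((N ^ 2 - 1 - j : ℕ) : ℝ) + j ≤ (N : ℝ) ^ 2 := by exact_mod_cast h1
    linarith [neg_le_abs ((j : ℝ) - (N : ℝ) ^ 2)]
  have hR : ∑ j ∈ Finset.range (N ^ 2), Real.exp (-k * |ss N (N ^ 2 + j)|) ≤ 1 + 1 / (k / N) := by
    refine le_trans (Finset.sum_le_sum fun j _ => hex _ j ?_) (geo_CompV ht (N ^ 2))
    push_cast
    rw [add_sub_cancel_left]
    exact le_abs_self _
  refine (Finset.sum_le_sum fun j _ => key j).trans ?_
  rw [← Finset.mul_sum, two_mul, Finset.sum_range_add]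
  have h5 : 1 + 1 / (k / N) ≤ N * (1 + 1 / k) := by
    rw [one_div_div, mul_add, mul_one_div]
    linarith
  have hD0 : 0 ≤ D := by linarith
  calc _ ≤ 4 / (N : ℝ) * D * (2 * (N * (1 + 1 / k))) :=
        mul_le_mul_of_nonneg_left (by linarith) (by positivity)
    _ = _ := by field_simp; ring

theorem dg_mul_Prop {n : ℕ} (u v : Fin n → ℝ) : dg u * dg v = dg fun i => u i + v i := by
  simp only [dg, diagonal_mul_diagonal, Real.exp_add, Complex.ofReal_mul]

theorem dg_ct_Prop {n : ℕ} (u : Fin n → ℝ) : (dg u)ᴴ = dg u := by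
  rw [dg, diagonal_conjTranspose]
  congr 1
  funext i
  exact Complex.conj_ofReal _

theorem dg_one_Prop {n : ℕ} (u : Fin n → ℝ) : dg (fun i => -u i) * dg u = 1 := by
  rw [dg_mul_Prop]
  simp [dg]

theorem dg_fro_Prop {n : ℕ} {u : Fin n → ℝ} {S : ℝ} (h : ∀ i, u i + u i ≤ S) :
    fro (dg u) ≤ n * Real.exp S := by
  rw [fro, dg_ct_Prop, dg_mul_Prop, dg, trace_diagonal, Complex.re_sum]
  simp only [Complex.ofReal_re]
  refine (Finset.sum_le_sum fun i _ => Real.exp_le_exp.2 (h i)).trans (le_of_eq ?_)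
  simp

theorem fac_Prop {n : ℕ} {t : Mx n} {y : Fin n → ℝ} (h0 : ∀ i, t i i ≠ 0)
    (h : ∀ i, ‖t i i‖ ^ 2 = Real.exp (y i)) (c : ℝ) :
    ((Real.exp c : ℝ) : ℂ) • (tᴴ * t) = ((diagonal fun i => (t i i)⁻¹) * t)ᴴ *
      dg (fun i => y i + c) * ((diagonal fun i => (t i i)⁻¹) * t) := by
  have e : (diagonal fun i => (t i i)⁻¹)ᴴ * dg (fun i => y i + c) * (diagonal fun i => (t i i)⁻¹) =
      ((Real.exp c : ℝ) : ℂ) • (1 : Mx n) := by
    rw [dg, diagonal_conjTranspose, diagonal_mul_diagonal, diagonal_mul_diagonal,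
      smul_one_eq_diagonal]
    congr 1
    funext i
    have h1 : star (t i i) ≠ 0 := star_ne_zero.2 (h0 i)
    have h2 : ((Real.exp (y i) : ℝ) : ℂ) = star (t i i) * t i i := by
      rw [← h i, Complex.ofReal_pow]
      exact (Complex.conj_mul' _).symm
    have h3 := h0 i
    rw [Pi.star_apply, star_inv₀, Real.exp_add, Complex.ofReal_mul, h2]
    field_simp
  calc _ = tᴴ * (((Real.exp c : ℝ) : ℂ) • (1 : Mx n)) * t := by
        rw [Matrix.mul_smul, Matrix.mul_one, Matrix.smul_mul]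
    _ = _ := by rw [← e, conjTranspose_mul]; simp only [Matrix.mul_assoc]

theorem log_Prop {K V : ℝ} (hK : 0 ≤ K) (hV : 0 ≤ V) :
    K * Real.log (1 + V) ≤ K * Real.log (K + 1) + (1 + V) := by
  have h1 := Real.log_le_sub_one_of_pos (show 0 < (1 + V) / (K + 1) by positivity)
  rw [Real.log_div (by positivity) (by positivity)] at h1
  have h2 := mul_le_mul_of_nonneg_left h1 hK
  have h3 : K * ((1 + V) / (K + 1)) ≤ 1 + V := by
    rw [← mul_div_assoc, div_le_iff₀ (by positivity)]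
    nlinarith
  nlinarith

theorem sProp (hB1 : SB1) (_hB2 : SB2) (hC : SChol) (hF : SFro) (hU : SUT) (hP : SP1)
    (hM : SMaj) (hL : SLP) : SProp := by
  intro n A U μ σ τ C1 D
  obtain ⟨C, p, hC1, hp⟩ := hP n A D.hes
  obtain ⟨hal, ε, C', hε, hC', hl⟩ := hL n μ σ D.sum D.stab
  obtain ⟨s, hs⟩ : ∃ s : ℝ, s = ∑ i, |μ i| := ⟨_, rfl⟩
  have s0 : 0 ≤ s := hs ▸ Finset.sum_nonneg fun i _ => abs_nonneg _
  obtain ⟨K, hK⟩ : ∃ K : ℝ, K = C' * Real.log C + s * Real.log (2 * C) +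
      (C' + s * p) * Real.log (C' + s * p + 1) + 1 := ⟨_, rfl⟩
  refine ⟨max (K + (C1 + K) / 3)
    (n * Real.exp ((C1 + K) / ε) * (2 * (C * (1 + (C1 + K) / 3) ^ p))), ?_⟩
  rintro H y z ⟨t, ht, rfl, hy⟩ hz h1
  have t0 : ∀ i, t i i ≠ 0 := fun i h => by
    have := hy i
    rw [h, norm_zero] at this
    linarith [Real.exp_pos (y i)]
  have td := (hU n t t ht ht t0).1
  obtain ⟨p1, p2, p3⟩ := hp t ht t0
  rw [(hB1 n t t A td td).2.2.2.1] at h1
  have V0 := nonneg_Fro (t * A * t⁻¹)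
  generalize fro (t * A * t⁻¹) = V at *
  have f := fac_Prop t0 hy
  have md : ((diagonal fun i => (t i i)⁻¹) * t).det ≠ 0 := by
    rw [det_mul, det_diagonal]
    exact mul_ne_zero (Finset.prod_ne_zero_iff.2 fun i _ => inv_ne_zero (t0 i)) td
  generalize (diagonal fun i => (t i i)⁻¹) * t = m at *
  obtain ⟨c, hc⟩ : ∃ c : ℝ, ∑ i, (y i + c) = 0 := by
    refine ⟨-((∑ i, y i) / n), ?_⟩
    rcases Nat.eq_zero_or_pos n with rfl | hn
    · simp
    · have : (n : ℝ) ≠ 0 := Nat.cast_ne_zero.2 hn.ne'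
      rw [Finset.sum_add_distrib, Finset.sum_const, Finset.card_univ, Fintype.card_fin,
        nsmul_eq_mul]
      field_simp
      ring
  have L0 : 0 ≤ Real.log (1 + V) := Real.log_nonneg (by linarith)
  have L1 : 0 ≤ Real.log C := Real.log_nonneg hC1
  have C0 : 0 < C := by linarith
  have q1 := hl (fun i => y i + c) (Real.log C + Real.log (1 + V)) (by linarith) (fun a b hab => by
    have := p1 a b hab
    rw [hy, hy, ← Real.exp_log C0, ← Real.exp_log (show 0 < 1 + V by linarith), ← Real.exp_add,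
      ← Real.exp_add, Real.exp_le_exp] at this
    linarith) hc
  obtain ⟨S, hS⟩ : ∃ S : ℝ, S = ∑ i, |y i + c| := ⟨_, rfl⟩
  have S0 : 0 ≤ S := hS ▸ Finset.sum_nonneg fun i _ => abs_nonneg _
  have S1 : ∀ i, |y i + c| ≤ S := fun i => hS ▸ Finset.single_le_sum
    (f := fun i => |y i + c|) (fun i _ => abs_nonneg _) (Finset.mem_univ i)
  rw [← hS] at q1
  have Ud : U.det ≠ 0 := fun h => by
    have := congrArg det D.uni
    rw [det_mul, h, mul_zero, det_one] at this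
    exact zero_ne_one this
  have Md : (m * U).det ≠ 0 := by rw [det_mul]; exact mul_ne_zero md Ud
  obtain ⟨b1, -, -, -, -, -, b2⟩ := hB1 n (m * U) (m * U) A Md Md
  obtain ⟨z0, hz0⟩ := (hC n _).1 b1
  have b3 : fro (m * U)⁻¹ = fro m⁻¹ := by
    rw [Matrix.mul_inv_rev, inv_eq_left_inv D.uni]
    exact ((hF n m⁻¹ Uᴴ).2.2.2.2.2.2.2.2 (by
      rw [conjTranspose_conjTranspose]; exact mul_eq_one_comm.1 D.uni)).2
  rw [b3, ((hF n m U).2.2.2.2.2.2.2.2 D.uni).1] at b2
  have q2 : ∀ i, |z0 i| ≤ Real.log (2 * C) + p * Real.log (1 + V) := fun i => by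
    have := ((hC n _).2 z0 hz0).2 i
    rw [← Real.log_pow, ← Real.log_mul (by positivity) (by positivity),
      Real.le_log_iff_exp_le (by positivity)]
    linarith
  have q3 := hM n (m * U) y z z0 μ
    (ip (al n σ) y - ε * S + C' * (Real.log C + Real.log (1 + V))) Md (by
      have f0 := f 0
      simp only [Real.exp_zero, Complex.ofReal_one, one_smul, add_zero] at f0
      rw [f0] at hz
      simpa only [conjTranspose_mul, Matrix.mul_assoc] using hz) hz0 fun π => by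
      have := q1 π
      simp only [ip, mul_add, Finset.sum_add_distrib, ← Finset.sum_mul, hal, D.sum] at this ⊢
      linarith
  have q4 : ip μ z ≤ ip μ (z - z0) + s * (Real.log (2 * C) + p * Real.log (1 + V)) := by
    rw [hs, Finset.sum_mul, ip, ip, ← Finset.sum_add_distrib]
    refine Finset.sum_le_sum fun i _ => ?_
    have a1 := le_abs_self (μ i * z0 i)
    have a2 := mul_le_mul_of_nonneg_left (q2 i) (abs_nonneg (μ i))
    rw [abs_mul] at a1
    rw [Pi.sub_apply]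
    linarith
  have q5 := log_Prop (K := C' + s * p) (by positivity) V0
  have q6 : ε * S - K - V ≤ ip (al n σ) y - ip μ z := by rw [hK]; linarith
  have e0 : 0 ≤ ε * S := by positivity
  have V1 : V ≤ (C1 + K) / 3 := by linarith
  have S2 : S ≤ (C1 + K) / ε := by rw [le_div_iff₀ hε]; linarith
  refine ⟨(neg_le_neg (le_max_left _ _)).trans (by linarith), c, le_trans ?_ (le_max_right _ _)⟩
  have g1 := dg_one_Prop fun i => (y i + c) / 2
  have gd : (dg (fun i => (y i + c) / 2) * m).det ≠ 0 := by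
    rw [det_mul]
    refine mul_ne_zero (fun h => ?_) md
    have := congrArg det g1
    rw [det_mul, h, mul_zero, det_one] at this
    exact zero_ne_one this
  have g2 : mᴴ * dg (fun i => y i + c) * m =
      (dg (fun i => (y i + c) / 2) * m)ᴴ * (dg (fun i => (y i + c) / 2) * m) := by
    rw [conjTranspose_mul, dg_ct_Prop, Matrix.mul_assoc mᴴ (dg fun i => (y i + c) / 2),
      ← Matrix.mul_assoc (dg _) (dg _), dg_mul_Prop, Matrix.mul_assoc]
    simp only [add_halves]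
  rw [f c, g2, (hB1 n _ _ A gd gd).2.2.2.2.2.2, Matrix.mul_inv_rev, inv_eq_left_inv g1]
  have r1 := dg_fro_Prop (u := fun i => (y i + c) / 2) (S := (C1 + K) / ε) fun i => by
    linarith [(abs_le.1 (S1 i)).2]
  have r2 := dg_fro_Prop (u := fun i => -((y i + c) / 2)) (S := (C1 + K) / ε) fun i => by
    linarith [(abs_le.1 (S1 i)).1]
  have r3 : C * (1 + V) ^ p ≤ C * (1 + (C1 + K) / 3) ^ p :=
    mul_le_mul_of_nonneg_left (pow_le_pow_left₀ (by linarith) (by linarith) p) C0.le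
  have r4 := ((froS n).2.2 (dg fun i => (y i + c) / 2) m).trans
    (mul_le_mul r1 (p2.trans r3) (nonneg_Fro _) (by positivity))
  have r5 := ((froS n).2.2 m⁻¹ (dg fun i => -((y i + c) / 2))).trans
    (mul_le_mul (p3.trans r3) r2 (nonneg_Fro _) ((nonneg_Fro _).trans (p3.trans r3)))
  linarith

theorem cont_Min (n : ℕ) : Continuous (fro : Mx n → ℝ) := by
  have : (fro : Mx n → ℝ) = fun Y => ∑ a, ∑ b, ‖Y a b‖ ^ 2 := funext sum_Fro
  rw [this]
  fun_prop

theorem cpt_Min (n : ℕ) (C : ℝ) : IsCompact {P : Mx n | fro P ≤ C} := by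
  have k : IsCompact (Set.univ.pi fun _ : Fin n => Set.univ.pi fun _ : Fin n =>
      Metric.closedBall (0 : ℂ) √C) :=
    isCompact_univ_pi fun _ => isCompact_univ_pi fun _ => isCompact_closedBall _ _
  refine IsCompact.of_isClosed_subset (X := Mx n) k
    (isClosed_le (cont_Min n) continuous_const) fun P hP a _ b _ => ?_
  rw [mem_closedBall_zero_iff]
  refine Real.le_sqrt_of_sq_le (le_trans ?_ hP)
  rw [sum_Fro]
  exact (Finset.single_le_sum (f := fun b => ‖P a b‖ ^ 2) (fun _ _ => by positivity)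
    (Finset.mem_univ b)).trans (Finset.single_le_sum (f := fun a => ∑ b, ‖P a b‖ ^ 2)
      (fun _ _ => by positivity) (Finset.mem_univ a))

noncomputable def FF_Min {n : ℕ} (A : Mx n) (c : ℝ) (a : ℕ → ℝ) (M : ℕ) (p : ℕ → Mx n × Mx n) : ℝ :=
  ∑ j ∈ Finset.range M, (c * (fro ((p (j + 1)).1 * (p j).2) + fro ((p j).1 * (p (j + 1)).2) - 2 * n) +
    a j * fro ((p j).1 * A * (p j).2))

theorem FFc_Min {n : ℕ} (A : Mx n) (c : ℝ) (a : ℕ → ℝ) (M : ℕ) : Continuous (FF_Min A c a M) := by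
  have := cont_Min n
  unfold FF_Min
  fun_prop

theorem FFe_Min (hB1 : SB1) {n : ℕ} (A : Mx n) (c : ℝ) (a : ℕ → ℝ) (M : ℕ) (p : ℕ → Mx n × Mx n)
    (hp : ∀ j, (p j).1 * (p j).2 = 1) :
    FF_Min A c a M p = En A c a M fun j => (p j).1ᴴ * (p j).1 := by
  refine Finset.sum_congr rfl fun j _ => ?_
  have d : ∀ j, (p j).1.det ≠ 0 := fun j => det_ne_zero_of_right_inverse (hp j)
  obtain ⟨-, e1, -, e2, -⟩ := hB1 n (p j).1 (p (j + 1)).1 A (d j) (d (j + 1))
  simp only [e1, e2, inv_eq_right_inv (hp _)]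

theorem sMin (hB1 : SB1) (hB2 : SB2) : SMin := by
  intro n A c a M H0 hc ha h0
  set D := En A c a M H0 / c + 2 * n with hD
  set S : Set (ℕ → Mx n × Mx n) := (Set.univ.pi fun j =>
      {P : Mx n | fro P ≤ D ^ min j M * tt (H0 0)} ×ˢ {P : Mx n | fro P ≤ D ^ min j M * tt (H0 0)}) ∩
    ((⋂ j, {p | (p j).1 * (p j).2 = 1}) ∩
      ({p | (p 0).1ᴴ * (p 0).1 = H0 0} ∩ {p | (p M).1ᴴ * (p M).1 = H0 M})) with hS
  have hSc : IsCompact S := by
    refine (isCompact_univ_pi fun j => (cpt_Min n _).prod (cpt_Min n _)).inter_right ?_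
    refine (isClosed_iInter fun j => isClosed_eq (by fun_prop) continuous_const).inter
      ((isClosed_eq (by fun_prop) continuous_const).inter
        (isClosed_eq (by fun_prop) continuous_const))
  have pt : ∀ H' : ℕ → Mx n, (∀ j, IsPosHerm (H' j)) → H' 0 = H0 0 → H' M = H0 M →
      En A c a M H' ≤ En A c a M H0 → ∃ p ∈ S, FF_Min A c a M p = En A c a M H' := by
    intro H' hp e0 eM hle
    have one : (1 : Mx n).det ≠ 0 := by simp
    choose g gd ge using fun j => (hB2 n (H' j) (H' j) A 1 (hp j) (hp j) one).2.1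
    have gi : ∀ j, g j * (g j)⁻¹ = 1 := fun j => mul_nonsing_inv _ (isUnit_iff_ne_zero.2 (gd j))
    have ig : ∀ j, (g j)⁻¹ * g j = 1 := fun j => nonsing_inv_mul _ (isUnit_iff_ne_zero.2 (gd j))
    have st : ∀ j < M, fro (g (j + 1) * (g j)⁻¹) ≤ D ∧ fro (g j * (g (j + 1))⁻¹) ≤ D := by
      intro j hj
      have nn : ∀ i, 0 ≤ KK (H' i) (H' (i + 1)) ∧ 0 ≤ nsq (H' i) A := fun i => by
        obtain ⟨-, -, -, -, -, -, -, -, k1, k2, -⟩ :=
          hB2 n (H' i) (H' (i + 1)) A 1 (hp i) (hp (i + 1)) one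
        exact ⟨k1, k2⟩
      have s1 : c * KK (H' j) (H' (j + 1)) + a j * nsq (H' j) A ≤ En A c a M H' :=
        Finset.single_le_sum (f := fun j => c * KK (H' j) (H' (j + 1)) + a j * nsq (H' j) A)
          (fun i _ => add_nonneg (mul_nonneg hc.le (nn i).1) (mul_nonneg (ha i) (nn i).2))
          (Finset.mem_range.2 hj)
      have s2 : KK (H' j) (H' (j + 1)) ≤ En A c a M H0 / c := by
        rw [le_div_iff₀ hc]
        have := mul_nonneg (ha j) (nn j).2
        linarith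
      rw [ge j, ge (j + 1), (hB1 n (g j) (g (j + 1)) A (gd j) (gd (j + 1))).2.1] at s2
      have n1 := nonneg_Fro (g (j + 1) * (g j)⁻¹)
      have n2 := nonneg_Fro (g j * (g (j + 1))⁻¹)
      constructor <;> linarith
    have bd : ∀ j ≤ M, fro (g j) ≤ D ^ j * tt (H0 0) ∧ fro (g j)⁻¹ ≤ D ^ j * tt (H0 0) := by
      intro j
      induction j with
      | zero =>
        intro _
        have := (hB1 n (g 0) (g 0) A (gd 0) (gd 0)).2.2.2.2.2.2
        rw [← ge 0, e0] at this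
        have n1 := nonneg_Fro (g 0)
        have n2 := nonneg_Fro (g 0)⁻¹
        constructor <;> linarith
      | succ j ih =>
        intro hj
        obtain ⟨i1, i2⟩ := ih (by omega)
        obtain ⟨s1, s2⟩ := st j (by omega)
        have D0 : 0 ≤ D := (nonneg_Fro _).trans s1
        have m1 := (froS n).2.2 (g (j + 1) * (g j)⁻¹) (g j)
        have m2 := (froS n).2.2 (g j)⁻¹ (g j * (g (j + 1))⁻¹)
        rw [Matrix.mul_assoc, ig, Matrix.mul_one] at m1
        rw [← Matrix.mul_assoc, ig, Matrix.one_mul] at m2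
        have k1 := mul_le_mul s1 i1 (nonneg_Fro _) D0
        have k2 := mul_le_mul i2 s2 (nonneg_Fro _) ((nonneg_Fro _).trans i2)
        rw [pow_succ]
        constructor <;> linarith
    refine ⟨fun j => (g (min j M), (g (min j M))⁻¹), ⟨fun j _ => bd _ (min_le_right _ _),
      Set.mem_iInter.2 fun j => gi _, ?_, ?_⟩, ?_⟩
    · simp only [Set.mem_ofPred_eq, Nat.zero_min, ← ge, e0]
    · simp only [Set.mem_ofPred_eq, min_self, ← ge, eM]
    · rw [FFe_Min hB1 A c a M _ fun j => gi _]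
      refine Finset.sum_congr rfl fun j hj => ?_
      have hj := Finset.mem_range.1 hj
      simp only [← ge, min_eq_left hj.le, min_eq_left (Nat.succ_le_of_lt hj)]
  obtain ⟨p0, hp0, e0⟩ := pt H0 h0 rfl rfl le_rfl
  obtain ⟨p, hp, hmin⟩ := hSc.exists_isMinOn ⟨p0, hp0⟩ (FFc_Min A c a M).continuousOn
  have h1 : ∀ j, (p j).1 * (p j).2 = 1 := fun j => by
    have := Set.mem_iInter.1 hp.2.1 j
    exact this
  have d : ∀ j, (p j).1.det ≠ 0 := fun j => det_ne_zero_of_right_inverse (h1 j)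
  refine ⟨fun j => (p j).1ᴴ * (p j).1, fun j => (hB1 n _ _ A (d j) (d j)).1, hp.2.2.1, hp.2.2.2,
    fun H' k1 k2 k3 => ?_⟩
  rw [← FFe_Min hB1 A c a M p h1]
  rcases le_total (En A c a M H') (En A c a M H0) with h | h
  · obtain ⟨q, hq, e⟩ := pt H' k1 k2 k3 h
    exact e ▸ hmin hq
  · exact le_trans (e0 ▸ hmin hp0) h

section
open scoped Matrix.Norms.Operator

noncomputable def T_EL (n : ℕ) : Mx n →L[ℝ] ℝ :=
  LinearMap.toContinuousLinearMap (Complex.reLm.comp (Matrix.traceLinearMap (Fin n) ℝ ℂ))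

theorem T_apply_EL {n : ℕ} (X : Mx n) : T_EL n X = (trace X).re := rfl

theorem tr_EL {n : ℕ} {F : ℝ → Mx n} {F' : Mx n} (h : HasDerivAt F F' 0) :
    HasDerivAt (fun e => (trace (F e)).re) (trace F').re 0 :=
  (T_EL n).hasFDerivAt.comp_hasDerivAt 0 h

theorem inv_EL {n : ℕ} {G : ℝ → Mx n} {Y : Mx n} (h : HasDerivAt G Y 0) (hd : (G 0).det ≠ 0) :
    HasDerivAt (fun e => (G e)⁻¹) (-((G 0)⁻¹ * Y * (G 0)⁻¹)) 0 := by
  have hu : IsUnit (G 0) := (Matrix.isUnit_iff_isUnit_det _).2 (Ne.isUnit hd)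
  have h1 := hasFDerivAt_ringInverse (𝕜 := ℝ) hu.unit
  rw [hu.unit_spec] at h1
  have h2 := h1.comp_hasDerivAt 0 h
  have e1 : ((hu.unit⁻¹ : (Mx n)ˣ) : Mx n) = (G 0)⁻¹ := by
    rw [Matrix.coe_units_inv, hu.unit_spec]
  rw [e1] at h2
  have e2 : (fun e => (G e)⁻¹) = Ring.inverse ∘ G := by
    funext e; exact Matrix.nonsing_inv_eq_ringInverse _
  rw [e2]
  exact h2

theorem var_EL (hB2 : SB2) {n : ℕ} {H Y : Mx n} (hH : IsPosHerm H) (hY : Yᴴ = Y) :
    ∃ G : ℝ → Mx n, G 0 = H ∧ HasDerivAt G Y 0 ∧ ∀ᶠ e in 𝓝 (0 : ℝ), IsPosHerm (G e) := by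
  have hd : H.det ≠ 0 := (hB2 n H H 1 1 hH hH (by simp)).1
  obtain ⟨X, hX⟩ : ∃ X : Mx n, X = (1 / 2 : ℝ) • (H⁻¹ * Y) := ⟨_, rfl⟩
  have e1 : H * X = (1 / 2 : ℝ) • Y := by
    rw [hX, Matrix.mul_smul, ← Matrix.mul_assoc, Matrix.mul_nonsing_inv _ (Ne.isUnit hd),
      Matrix.one_mul]
  have e2 : Xᴴ * H = (1 / 2 : ℝ) • Y := by
    have := congrArg conjTranspose e1
    rwa [conjTranspose_mul, hH.1, conjTranspose_smul, hY, star_trivial] at this
  refine ⟨fun e => (1 + e • Xᴴ) * H * (1 + e • X), by simp, ?_, ?_⟩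
  · have h1 : ∀ Z : Mx n, HasDerivAt (fun e : ℝ => (1 : Mx n) + e • Z) Z 0 := fun Z => by
      have := ((hasDerivAt_id (0 : ℝ)).smul_const Z).const_add (1 : Mx n)
      rw [one_smul] at this
      exact this
    have h2 := ((h1 Xᴴ).mul_const H).mul (h1 X)
    simp only [zero_smul, add_zero, Matrix.mul_one, Matrix.one_mul, e1, e2] at h2
    rw [← add_smul, add_halves, one_smul] at h2
    exact h2
  · have hc : Continuous fun e : ℝ => ((1 : Mx n) + e • X).det := by fun_prop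
    have h0 : (fun e : ℝ => ((1 : Mx n) + e • X).det) 0 ≠ 0 := by simp
    filter_upwards [hc.continuousAt.eventually_ne h0] with e he
    have := (hB2 n H H 1 _ hH hH he).2.2.1
    rwa [conjTranspose_add, conjTranspose_one, conjTranspose_smul, star_trivial] at this

theorem der_EL (hB2 : SB2) {n : ℕ} {A Hm H Hp Y : Mx n} {c a : ℝ} (hH : IsPosHerm H)
    (hY : Yᴴ = Y) (hmin : ∀ G, IsPosHerm G → c * KK Hm H + c * KK H Hp + a * nsq H A ≤
      c * KK Hm G + c * KK G Hp + a * nsq G A) :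
    c * ((trace (Hm⁻¹ * Y)).re + (trace (-(H⁻¹ * Y * H⁻¹) * Hm)).re) +
      c * ((trace (-(H⁻¹ * Y * H⁻¹) * Hp)).re + (trace (Hp⁻¹ * Y)).re) +
      a * (trace (A * (-(H⁻¹ * Y * H⁻¹) * Aᴴ * H + H⁻¹ * Aᴴ * Y))).re = 0 := by
  have hd : H.det ≠ 0 := (hB2 n H H 1 1 hH hH (by simp)).1
  obtain ⟨G, G0, hG, hp⟩ := var_EL hB2 hH hY
  have hI := inv_EL hG (by rwa [G0])
  have d1 := tr_EL (hG.const_mul Hm⁻¹)
  have d2 := tr_EL (hI.mul_const Hm)
  have d3 := tr_EL (hI.mul_const Hp)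
  have d4 := tr_EL (hG.const_mul Hp⁻¹)
  have d5 := tr_EL (((hI.mul_const Aᴴ).mul hG).const_mul A)
  have d := (((((d1.add d2).sub_const (2 * (n : ℝ))).const_mul c).add
    (((d3.add d4).sub_const (2 * (n : ℝ))).const_mul c)).add (d5.const_mul a))
  have hm : IsLocalMin (fun e => c * KK Hm (G e) + c * KK (G e) Hp + a * nsq (G e) A) 0 := by
    filter_upwards [hp] with e he
    simp only [G0]
    exact hmin _ he
  have := hm.hasDerivAt_eq_zero d
  rw [G0] at this
  exact this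

end

theorem sEL (hB2 : SB2) : SEL := by
  intro n A Hm H Hp c a hm hH hp hmin
  have hd : H.det ≠ 0 := (hB2 n H H 1 1 hH hH (by simp)).1
  have hi : H⁻¹ * H = 1 := Matrix.nonsing_inv_mul _ (Ne.isUnit hd)
  obtain ⟨W, hW⟩ : ∃ W : Mx n, W = (c : ℂ) • (Hm⁻¹ - H⁻¹ * Hm * H⁻¹) +
      (c : ℂ) • (Hp⁻¹ - H⁻¹ * Hp * H⁻¹) + (a : ℂ) • (A * H⁻¹ * Aᴴ - H⁻¹ * Aᴴ * H * A * H⁻¹) :=
    ⟨_, rfl⟩
  have hh : Wᴴ = W := by
    rw [hW]
    simp only [conjTranspose_add, conjTranspose_smul, conjTranspose_sub, conjTranspose_mul,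
      conjTranspose_nonsing_inv, hm.1, hH.1, hp.1, conjTranspose_conjTranspose, Complex.star_def,
      Complex.conj_ofReal, Matrix.mul_assoc]
  have h1 := der_EL hB2 hH hh hmin
  have cyc : ∀ Z : Mx n, trace (H⁻¹ * W * H⁻¹ * Z) = trace (H⁻¹ * Z * H⁻¹ * W) := fun Z => by
    rw [Matrix.mul_assoc (H⁻¹ * W), trace_mul_comm, ← Matrix.mul_assoc]
  have cyc2 : trace (A * (H⁻¹ * W * H⁻¹ * Aᴴ * H)) = trace (H⁻¹ * Aᴴ * H * A * H⁻¹ * W) := by
    rw [trace_mul_comm, Matrix.mul_assoc _ H A, Matrix.mul_assoc _ Aᴴ, cyc]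
    simp only [Matrix.mul_assoc]
  have as3 : A * (H⁻¹ * Aᴴ * W) = A * H⁻¹ * Aᴴ * W := by simp only [Matrix.mul_assoc]
  have h2 : fro W = 0 := by
    unfold fro
    rw [hh, ← h1]
    nth_rewrite 1 [hW]
    simp only [Matrix.add_mul, Matrix.smul_mul, Matrix.sub_mul, Matrix.neg_mul, Matrix.mul_add,
      Matrix.mul_neg, trace_add, trace_smul, trace_sub, trace_neg, cyc, cyc2, smul_eq_mul,
      Complex.add_re, Complex.re_ofReal_mul, Complex.sub_re, Complex.neg_re, as3]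
    ring
  have h3 : W = 0 := by
    rw [sum_Fro, Finset.sum_eq_zero_iff_of_nonneg fun _ _ => by positivity] at h2
    ext i j
    have := h2 i (Finset.mem_univ _)
    rw [Finset.sum_eq_zero_iff_of_nonneg fun _ _ => by positivity] at this
    simpa using this j (Finset.mem_univ _)
  have h4 : W * H = 0 := by rw [h3, Matrix.zero_mul]
  rw [hW] at h4
  simp only [Matrix.add_mul, Matrix.smul_mul, Matrix.sub_mul, Matrix.mul_assoc, hi,
    Matrix.mul_one] at h4
  unfold br adj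
  simp only [Matrix.mul_assoc]
  rw [← sub_eq_zero, ← neg_eq_zero, ← h4]
  simp only [smul_sub]
  abel

theorem two_EL2 (f g : ℕ → ℝ) (M j : ℕ) (hj : j + 2 ≤ M)
    (h : ∀ i, i ≠ j → i ≠ j + 1 → f i = g i)
    (hle : ∑ i ∈ Finset.range M, f i ≤ ∑ i ∈ Finset.range M, g i) :
    f j + f (j + 1) ≤ g j + g (j + 1) := by
  have e := Finset.sum_eq_add_of_mem (s := Finset.range M) (f := fun i => g i - f i) j (j + 1)
    (Finset.mem_range.2 (by omega)) (Finset.mem_range.2 (by omega)) (by omega)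
    fun i _ hi => by rw [h i hi.1 hi.2, sub_self]
  rw [Finset.sum_sub_distrib] at e
  linarith

theorem sEL2 (hE : SEL) : SEL2 := by
  intro n A N H hpos hmin j hj
  refine hE n A (H j) (H (j + 1)) (H (j + 1 + 1)) (N / 2) (aa N (j + 1)) (hpos _) (hpos _)
    (hpos _) fun G hG => ?_
  have h0 := hmin (Function.update H (j + 1) G)
    (fun i => by
      by_cases c : i = j + 1
      · rw [c, Function.update_self]; exact hG
      · rw [Function.update_of_ne c]; exact hpos i)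
    (Function.update_of_ne (by omega) _ _) (Function.update_of_ne (by omega) _ _)
  have h1 := two_EL2 _ _ _ j hj (fun i h1 h2 => by
    simp only [Function.update_of_ne h2, Function.update_of_ne (show i + 1 ≠ j + 1 by omega)]) h0
  simp only [Function.update_self, Function.update_of_ne (show j ≠ j + 1 by omega),
    Function.update_of_ne (show j + 1 + 1 ≠ j + 1 by omega)] at h1
  linarith

lemma ipsub_Disc {n : ℕ} (ν u v : Fin n → ℝ) : ip ν (u - v) = ip ν u - ip ν v := by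
  simp only [ip, Pi.sub_apply, mul_sub, Finset.sum_sub_distrib]

lemma ipmul_Disc {n : ℕ} (ν : Fin n → ℝ) (s : ℝ) : ip ν (fun i => ν i * s) = s * ip ν ν := by
  simp only [ip, Finset.mul_sum]
  exact Finset.sum_congr rfl fun i _ => by ring

lemma ipnn_Disc {n : ℕ} (ν : Fin n → ℝ) : 0 ≤ ip ν ν :=
  Finset.sum_nonneg fun i _ => mul_self_nonneg (ν i)

lemma en_Disc {n : ℕ} (A : Mx n) (c w : ℝ) (a : ℕ → ℝ) (M : ℕ) (H : ℕ → Mx n) :
    En A c a M H = ∑ j ∈ Finset.range M, c * KK (H j) (H (j + 1)) +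
      ∑ j ∈ Finset.range M, a j * (nsq (H j) A - w) + ∑ j ∈ Finset.range M, a j * w := by
  rw [En, ← Finset.sum_add_distrib, ← Finset.sum_add_distrib]
  exact Finset.sum_congr rfl fun j _ => by ring

lemma aann_Disc (N j : ℕ) : 0 ≤ aa N j := by
  unfold aa
  positivity

lemma pot_Disc {N : ℕ} (hN : 1 ≤ N) (f : ℕ → ℝ) (hf : ∀ j, 0 ≤ f j) :
    ∃ j0, N ^ 2 ≤ j0 ∧ j0 < N ^ 2 + N ∧
      4 * f j0 ≤ ∑ j ∈ Finset.range (2 * N ^ 2), aa N j * f j := by
  obtain ⟨j0, h0, hm⟩ := Finset.exists_min_image (Finset.Ico (N ^ 2) (N ^ 2 + N)) f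
    ⟨N ^ 2, Finset.mem_Ico.2 ⟨le_rfl, by omega⟩⟩
  have hN' : (0 : ℝ) < N := by exact_mod_cast hN
  have hle : N ≤ N ^ 2 := Nat.le_self_pow two_ne_zero N
  refine ⟨j0, (Finset.mem_Ico.1 h0).1, (Finset.mem_Ico.1 h0).2, ?_⟩
  calc 4 * f j0 = ∑ _j ∈ Finset.Ico (N ^ 2) (N ^ 2 + N), 4 / (N : ℝ) * f j0 := by
        rw [Finset.sum_const, Nat.card_Ico, Nat.add_sub_cancel_left, nsmul_eq_mul]
        field_simp
    _ ≤ ∑ j ∈ Finset.Ico (N ^ 2) (N ^ 2 + N), aa N j * f j := by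
        refine Finset.sum_le_sum fun j hj => mul_le_mul ?_ (hm j hj) (hf _) (aann_Disc N j)
        have h1 : ((N : ℝ)) ^ 2 ≤ j := by exact_mod_cast (Finset.mem_Ico.1 hj).1
        have h2 : 0 ≤ ss N j := div_nonneg (by linarith) hN'.le
        exact le_mul_of_one_le_right (by positivity) (Real.one_le_exp (by linarith))
    _ ≤ _ := Finset.sum_le_sum_of_subset_of_nonneg
        (fun j hj => Finset.mem_range.2 (by have := (Finset.mem_Ico.1 hj).2; omega))
        fun j _ _ => mul_nonneg (aann_Disc N j) (hf j)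

lemma ident_Disc {n N j0 : ℕ} (hN : 1 ≤ N) (a μ : Fin n → ℝ) (H : ℕ → Mx n)
    (y z : ℕ → Fin n → ℝ) (h1 : N ^ 2 ≤ j0) (h2 : j0 < N ^ 2 + N)
    (hy : y 0 = fun i => a i * ss N 0) (hz : z (2 * N ^ 2) = fun i => μ i * ss N (2 * N ^ 2)) :
    df a N H y 0 j0 + df μ N H z j0 (2 * N ^ 2) + (ip a (y j0) - ip μ (z j0)) ≤
      ∑ j ∈ Finset.range (2 * N ^ 2), (N : ℝ) / 2 * KK (H j) (H (j + 1))
        - N * (ip a a + ip μ μ) / 2 + ip a a / 2 := by
  have hN' : (0 : ℝ) < N := by exact_mod_cast hN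
  have hle : N ≤ N ^ 2 := Nat.le_self_pow two_ne_zero N
  have s0 : ss N 0 = -N := by
    rw [ss]
    field_simp
    simp
  have s1 : ss N (2 * N ^ 2) = N := by
    rw [ss]
    push_cast
    field_simp
    ring
  have e := Finset.sum_Ico_consecutive (fun j => (N : ℝ) / 2 * KK (H j) (H (j + 1)))
    (Nat.zero_le j0) (show j0 ≤ 2 * N ^ 2 by omega)
  rw [Finset.range_eq_Ico, ← e, df, df, ipsub_Disc, ipsub_Disc, hy, hz, ipmul_Disc, ipmul_Disc,
    s0, s1]
  have r1 : ((N : ℝ)) ^ 2 ≤ j0 := by exact_mod_cast h1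
  have r2 : (j0 : ℝ) ≤ (N : ℝ) ^ 2 + N := by exact_mod_cast h2.le
  have b1 : ((j0 : ℝ) - (0 : ℕ)) / (2 * N) ≤ N / 2 + 1 / 2 := by
    rw [div_le_iff₀ (by positivity)]
    push_cast
    nlinarith
  have b2 : (((2 * N ^ 2 : ℕ) : ℝ) - j0) / (2 * N) ≤ N / 2 := by
    rw [div_le_iff₀ (by positivity)]
    push_cast
    nlinarith
  have c1 := mul_le_mul_of_nonneg_right b1 (ipnn_Disc a)
  have c2 := mul_le_mul_of_nonneg_right b2 (ipnn_Disc μ)
  linarith

lemma dfs_Disc (hB3 : SB3) {n : ℕ} (ν : Fin n → ℝ) (N c : ℝ) (H : ℕ → Mx n)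
    (hH : ∀ j, IsPosHerm (H j)) (y : ℕ → Fin n → ℝ) (a b : ℕ) :
    df ν N (fun j => ((Real.exp c : ℝ) : ℂ) • H j) (fun j i => y j i + c) a b = df ν N H y a b := by
  have e : ((fun i => y b i + c) - fun i => y a i + c) = y b - y a := by
    funext i
    simp
  unfold df
  rw [e, Finset.sum_congr rfl fun j _ => by
    rw [((hB3 n (H j) (H (j + 1)) 0 0 c).2.2 (hH j) (hH (j + 1))).2.1]]

theorem sDisc (hB2 : SB2) (hB3 : SB3) (hC : SChol) (hL : SLip) (hCh : SChain) (hMin : SMin) (hE : SEL2) (hP : SProp) (hS : SSch) (hK : SCompK) (hV : SCompV) : SDisc := by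
  intro n A U μ σ τ d
  obtain ⟨CK, hCK⟩ := hK n U μ σ d.uni
  obtain ⟨CV, hCV⟩ := hV n A U μ σ τ d
  obtain ⟨C2, hC2⟩ := hP n A U μ σ τ (CK + CV + ip (al n σ) (al n σ) / 2 + 4 * ww A U) d
  refine ⟨max C2 (CK + CV + ip (al n σ) (al n σ) / 2 + C2), fun N hN => ?_⟩
  have hN' : (0 : ℝ) < N := by exact_mod_cast hN
  have hle : N ≤ N ^ 2 := Nat.le_self_pow two_ne_zero N
  obtain ⟨gp, gk⟩ := hCK N hN
  have gv := hCV N hN
  obtain ⟨H, pos, e0, e1, hm⟩ := hMin n A (N / 2) (aa N) (2 * N ^ 2) (gam U μ σ N)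
    (by positivity) (aann_Disc N) gp
  have el := hE n A N H pos fun H' p f0 f1 => hm H' p (f0.trans e0) (f1.trans e1)
  have en := hm _ gp rfl rfl
  rw [en_Disc A _ (ww A U), en_Disc A _ (ww A U)] at en
  have sch : ∀ j, 0 ≤ nsq (H j) A - ww A U := fun j => sub_nonneg.2 (hS n A U μ σ τ d _ (pos j))
  obtain ⟨j0, j1, j2, hp⟩ := pot_Disc hN (fun j => nsq (H j) A - ww A U) sch
  have dU : U.det ≠ 0 := fun h => by
    have := congrArg det d.uni
    rw [det_mul, h, mul_zero, det_one] at this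
    exact zero_ne_one this
  choose y' hy' using fun j => (hC n (H j)).1 (pos j)
  choose z' hz' using fun j => (hC n (Uᴴ * H j * U)).1
    (hB2 n (H j) (H j) A U (pos j) (pos j) dU).2.2.1
  obtain ⟨y, hy0, hy⟩ : ∃ y : ℕ → Fin n → ℝ, (y 0 = fun i => al n σ i * ss N 0) ∧
      ∀ j, Ch (H j) (y j) := by
    refine ⟨fun j => if j = 0 then fun i => al n σ i * ss N 0 else y' j, if_pos rfl, fun j => ?_⟩
    by_cases hj : j = 0
    · subst hj
      rw [e0, gam, if_pos (Nat.zero_le _)]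
      exact (hB3 n 0 0 0 _ 0).2.1
    · simpa only [if_neg hj] using hy' j
  obtain ⟨z, hz0, hz⟩ : ∃ z : ℕ → Fin n → ℝ,
      (z (2 * N ^ 2) = fun i => μ i * ss N (2 * N ^ 2)) ∧ ∀ j, Ch (Uᴴ * H j * U) (z j) := by
    refine ⟨fun j => if j = 2 * N ^ 2 then fun i => μ i * ss N (2 * N ^ 2) else z' j, if_pos rfl,
      fun j => ?_⟩
    by_cases hj : j = 2 * N ^ 2
    · subst hj
      have e : ∀ D : Mx n, Uᴴ * (U * D * Uᴴ) * U = D := fun D => by
        rw [← mul_assoc, ← mul_assoc, d.uni, one_mul, mul_assoc, d.uni, mul_one]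
      rw [e1, gam, if_neg (by omega), e]
      simp only [if_true]
      exact (hB3 n 0 0 0 _ 0).2.1
    · simpa only [if_neg hj] using hz' j
  have cy := hCh n (al n σ) N H y hN' fun j => hL n _ _ _ _ (hy j) (hy (j + 1))
  have cz := hCh n μ N H z hN' fun j => by
    rw [← (hB2 n (H j) (H (j + 1)) A U (pos j) (pos (j + 1)) dU).2.2.2.1]
    exact hL n _ _ _ _ (hz j) (hz (j + 1))
  have id := ident_Disc hN (al n σ) μ H y z j1 j2 hy0 hz0
  have d1 := (cy 0 j0 (Nat.zero_le _)).1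
  have d2 := (cz j0 (2 * N ^ 2) (by omega)).1
  have s0 := sch j0
  obtain ⟨lw, c, ht⟩ := hC2 (H j0) (y j0) (z j0) (hy j0) (hz j0) (by linarith)
  have sc := fun j k => (hB3 n (H j) (H k) A 0 c).2.2 (pos j) (pos k)
  refine ⟨fun j => ((Real.exp c : ℝ) : ℂ) • H j, j0, fun j i => y j i + c, fun j i => z j i + c,
    fun j => (sc j j).1, fun j => (hB3 n (H j) 0 0 (y j) c).1 (hy j), fun j => ?_, fun j hj => ?_,
    j1, j2, ht.trans (le_max_left _ _), fun a ha => le_trans ?_ (le_max_right _ _),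
    fun b hb hb' => le_trans ?_ (le_max_right _ _)⟩
  · rw [Matrix.mul_smul, Matrix.smul_mul]
    exact (hB3 n _ 0 0 (z j) c).1 (hz j)
  · have := el j hj
    simp only [PP, (sc _ _).2.2.1, (sc (j + 1) (j + 1)).2.2.2] at this ⊢
    exact this
  · rw [dfs_Disc hB3 _ _ _ _ pos]
    have h1 := cy 0 a (Nat.zero_le _)
    have h2 := h1.2.1 j0 ha
    have h3 := h1.1
    linarith
  · rw [dfs_Disc hB3 _ _ _ _ pos]
    have h2 := (cz j0 b hb).2.1 _ hb'
    have h3 := (cz b _ hb').1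
    linarith

end Pool.Agent.MP_4f0bc7_gt.Od
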