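import Pool.Agent.MP_4f0bc7_gt.Od.St

namespace Pool.Agent.MP_4f0bc7_gt.Od

open Matrix Filter Topology Polynomial

theorem tele_Win (f e : ℕ → ℝ) (h : ∀ j, |f j - f (j + 1)| ≤ e j) (a b j k : ℕ) (h1 : a ≤ j)
    (h2 : j ≤ b) (h3 : a ≤ k) (h4 : k ≤ b) : f j ≤ f k + ∑ l ∈ Finset.Ico a b, e l := by
  have he : ∀ l, 0 ≤ e l := fun l => (abs_nonneg _).trans (h l)
  have key : ∀ p q, a ≤ p → p ≤ q → q ≤ b → |f p - f q| ≤ ∑ l ∈ Finset.Ico a b, e l := by
    intro p q hp hpq hq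
    have h5 := dist_le_Ico_sum_of_dist_le (f := f) hpq (d := e) fun {l} _ _ => by
      rw [Real.dist_eq]; exact h l
    rw [Real.dist_eq] at h5
    exact h5.trans (Finset.sum_le_sum_of_subset_of_nonneg (Finset.Ico_subset_Ico hp hq)
      fun l _ _ => he l)
  rcases le_total j k with hjk | hjk
  · linarith [(abs_le.1 (key j k h1 hjk h4)).2]
  · linarith [(abs_le.1 (key k j h3 hjk h2)).1]

theorem diag_Win (g κ : ℕ → ℝ) (N K C0 : ℝ) (a b j k : ℕ) (R : ℝ) (hN : 0 < N)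
    (hg : ∀ j, 0 < g j) (h : ∀ j, (Real.log (g (j + 1)) - Real.log (g j)) ^ 2 ≤ κ j)
    (hK : ∑ l ∈ Finset.Ico a b, κ l ≤ K / N) (hR : (b : ℝ) - a ≤ 2 * R * N)
    (h1 : a ≤ j) (h2 : j ≤ b) (h3 : a ≤ k) (h4 : k ≤ b) (h0 : g k ≤ C0) :
    g j ≤ C0 * Real.exp (K / 2 + R) := by
  have h5 := tele_Win (fun l => Real.log (g l)) (fun l => N / 2 * κ l + 1 / (2 * N)) (fun l => by
    have h6 := h l
    set d := Real.log (g l) - Real.log (g (l + 1)) with hd
    have h7 : d ^ 2 ≤ κ l := by rw [hd]; nlinarith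
    have h8 : |d| ^ 2 ≤ κ l := by rwa [sq_abs]
    have h9 : 1 / (2 * N) * N = 1 / 2 := by field_simp
    have h10 : |d| * N ≤ (N / 2 * κ l + 1 / (2 * N)) * N := by
      nlinarith [sq_nonneg (|d| * N - 1), mul_le_mul_of_nonneg_left h8 (sq_nonneg N)]
    exact le_of_mul_le_mul_right h10 hN) a b j k h1 h2 h3 h4
  rw [Finset.sum_add_distrib, ← Finset.mul_sum, Finset.sum_const, Nat.card_Ico, nsmul_eq_mul,
    Nat.cast_sub (h1.trans h2)] at h5
  have h6 : N / 2 * ∑ l ∈ Finset.Ico a b, κ l ≤ K / 2 := by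
    calc _ ≤ N / 2 * (K / N) := mul_le_mul_of_nonneg_left hK (by positivity)
      _ = K / 2 := by field_simp
  have h7 : ((b : ℝ) - a) * (1 / (2 * N)) ≤ R := by
    calc _ ≤ 2 * R * N * (1 / (2 * N)) := mul_le_mul_of_nonneg_right hR (by positivity)
      _ = R := by field_simp
  calc g j = Real.exp (Real.log (g j)) := (Real.exp_log (hg j)).symm
    _ ≤ Real.exp (Real.log (g k) + (K / 2 + R)) := Real.exp_le_exp.2 (by linarith)
    _ = g k * Real.exp (K / 2 + R) := by rw [Real.exp_add, Real.exp_log (hg k)]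
    _ ≤ _ := mul_le_mul_of_nonneg_right h0 (Real.exp_pos _).le

theorem sWin (hB2 : SB2) (hL : SLip) (hD : SDg) (hCh : SChain) : SWin := by
  intro n A U μ σ C0 R hU
  have hdet : U.det ≠ 0 := by
    intro e
    have := congrArg Matrix.det hU
    rw [det_mul, e, mul_zero, det_one] at this
    exact zero_ne_one this
  have hip : ∀ ν : Fin n → ℝ, 0 ≤ ip ν ν := fun ν =>
    Finset.sum_nonneg fun i _ => mul_self_nonneg _
  set K : ℝ := 4 * (2 * C0 + (R + 1) / 2 * (ip (al n σ) (al n σ) + ip μ μ)) with hKd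
  refine ⟨max K (2 * n * (C0 * Real.exp (K / 2 + R))), fun N H j0 y z S hR hRN => ?_⟩
  have hN1 : 1 ≤ N := hR.trans hRN
  have hN : (0 : ℝ) < N := by exact_mod_cast hN1
  have e1 : R * N ≤ N ^ 2 := by rw [sq]; exact Nat.mul_le_mul_right _ hRN
  have e2 : N ≤ R * N := Nat.le_mul_of_pos_left _ hR
  have j1 := S.j1
  have j2 := S.j2
  have ha : N ^ 2 - R * N ≤ j0 := by omega
  have hb : j0 ≤ N ^ 2 + R * N := by omega
  have hB := fun j => hB2 n (H j) (H (j + 1)) A U (S.pos j) (S.pos (j + 1)) hdet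
  have c1 := (hCh n (al n σ) N H y hN (fun j => hL n _ _ _ _ (S.cy j) (S.cy (j + 1))) _ _ ha).2.2
  have c2 := (hCh n μ N H z hN (fun j => (hL n _ _ _ _ (S.cz j) (S.cz (j + 1))).trans_eq
    (hB j).2.2.2.1) _ _ hb).2.2
  have d1 := S.dl _ ha
  have d2 := S.dr _ hb (by omega)
  have r1 : (j0 : ℝ) ≤ (N : ℝ) ^ 2 + N := by exact_mod_cast j2.le
  have r2 : (N : ℝ) ^ 2 ≤ j0 := by exact_mod_cast j1
  have r3 : ((N ^ 2 - R * N : ℕ) : ℝ) = (N : ℝ) ^ 2 - R * N := by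
    rw [Nat.cast_sub e1]; push_cast; ring
  have r4 : ((N ^ 2 + R * N : ℕ) : ℝ) = (N : ℝ) ^ 2 + R * N := by push_cast; ring
  have f1 : ((j0 : ℝ) - ((N ^ 2 - R * N : ℕ) : ℝ)) / (2 * N) ≤ (R + 1) / 2 := by
    rw [r3, div_le_div_iff₀ (by positivity) (by positivity)]
    nlinarith
  have f2 : (((N ^ 2 + R * N : ℕ) : ℝ) - j0) / (2 * N) ≤ (R + 1) / 2 := by
    rw [r4, div_le_div_iff₀ (by positivity) (by positivity)]
    nlinarith
  have g1 := mul_le_mul_of_nonneg_right f1 (hip (al n σ))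
  have g2 := mul_le_mul_of_nonneg_right f2 (hip μ)
  have hK : ∑ j ∈ Finset.Ico (N ^ 2 - R * N) (N ^ 2 + R * N), KK (H j) (H (j + 1)) ≤ K / N := by
    rw [← Finset.mul_sum] at c1 c2
    rw [← Finset.sum_Ico_consecutive _ ha hb, le_div_iff₀ hN, hKd]
    nlinarith
  refine ⟨hK.trans (div_le_div_of_nonneg_right (le_max_left _ _) hN.le), fun j h1 h2 => ?_⟩
  refine le_trans ?_ (le_max_right _ _)
  have hw : (((N ^ 2 + R * N : ℕ) : ℝ)) - ((N ^ 2 - R * N : ℕ) : ℝ) ≤ 2 * R * N := by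
    rw [r3, r4]; linarith
  have k1 : ∀ i, (H j i i).re ≤ C0 * Real.exp (K / 2 + R) := fun i =>
    diag_Win (fun l => (H l i i).re) (fun l => KK (H l) (H (l + 1))) N K C0 _ _ j j0 R hN
      (fun l => ((hB l).2.2.2.2.2.2.2.2.2.2 i).1)
      (fun l => hD n _ _ (S.pos l) (S.pos (l + 1)) i) hK hw (by omega) h2 ha hb
      (((hB j0).2.2.2.2.2.2.2.2.2.2 i).2.1.trans S.t0)
  have hI : ∀ l, IsPosHerm (H l)⁻¹ := fun l => (hB l).2.2.2.2.2.2.1
  have k2 : ∀ i, ((H j)⁻¹ i i).re ≤ C0 * Real.exp (K / 2 + R) := fun i =>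
    diag_Win (fun l => ((H l)⁻¹ i i).re) (fun l => KK (H l) (H (l + 1))) N K C0 _ _ j j0 R hN
      (fun l => ((hB2 n _ _ A U (hI l) (hI l) hdet).2.2.2.2.2.2.2.2.2.2 i).1)
      (fun l => (hD n _ _ (hI l) (hI (l + 1)) i).trans_eq (hB l).2.2.2.2.2.2.2.1) hK hw
      (by omega) h2 ha hb (((hB j0).2.2.2.2.2.2.2.2.2.2 i).2.2.1.trans S.t0)
  have m1 := Finset.sum_le_sum fun i (_ : i ∈ Finset.univ) => k1 i
  have m2 := Finset.sum_le_sum fun i (_ : i ∈ Finset.univ) => k2 i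
  rw [Finset.sum_const, Finset.card_univ, Fintype.card_fin, nsmul_eq_mul] at m1 m2
  simp only [tt, trace, diag, Complex.re_sum]
  linarith

lemma walk_Pb (hF : SFro) {n : ℕ} (P : ℕ → Mx n) (a b : ℕ) (d : ℝ)
    (h : ∀ j, a ≤ j → j ≤ b → √(fro (P (j + 1) - P j)) ≤ d) (i : ℕ) (hi : a ≤ i) :
    ∀ k : ℕ, i + k ≤ b → √(fro (P (i + k) - P i)) ≤ k * d := by
  intro k
  induction k with
  | zero => intro _; simp [fro]
  | succ k ih =>
    intro hk
    have e : P (i + (k + 1)) - P i = (P (i + k + 1) - P (i + k)) + (P (i + k) - P i) := by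
      rw [← add_assoc]; abel
    have h1 := (hF n (P (i + k + 1) - P (i + k)) (P (i + k) - P i)).2.1
    have h2 := h (i + k) (by omega) (by omega)
    have h3 := ih (by omega)
    rw [e]; push_cast; linarith

lemma both_Pb (hF : SFro) {n : ℕ} (P : ℕ → Mx n) (a b : ℕ) (d : ℝ) (hd : 0 ≤ d)
    (h : ∀ j, a ≤ j → j ≤ b → √(fro (P (j + 1) - P j)) ≤ d) (L : ℕ) (hL : b ≤ a + L)
    (i j : ℕ) (hi : a ≤ i) (hi' : i ≤ b) (hj : a ≤ j) (hj' : j ≤ b) :
    √(fro (P j)) ≤ √(fro (P i)) + L * d := by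
  rcases le_total i j with hij | hij
  · obtain ⟨k, rfl⟩ := Nat.exists_eq_add_of_le hij
    have h1 := walk_Pb hF P a b d h i hi k hj'
    have h2 := (hF n (P (i + k) - P i) (P i)).2.1
    rw [sub_add_cancel] at h2
    have h3 : (k : ℝ) * d ≤ L * d :=
      mul_le_mul_of_nonneg_right (by exact_mod_cast (by omega : k ≤ L)) hd
    linarith
  · obtain ⟨k, rfl⟩ := Nat.exists_eq_add_of_le hij
    have h1 := walk_Pb hF P a b d h j hj k hi'
    have h2 := (hF n (P (j + k)) (P (j + k) - P j)).2.2.1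
    rw [sub_sub_cancel] at h2
    have h3 : (k : ℝ) * d ≤ L * d :=
      mul_le_mul_of_nonneg_right (by exact_mod_cast (by omega : k ≤ L)) hd
    linarith

theorem sPb (hB2 : SB2) (hF : SFro) (hM : SMat) (hW : SWin) : SPb := by
  intro n A U μ σ C0 R hU
  obtain ⟨M, hMw⟩ := hW n A U μ σ C0 (R + 1) hU
  set D : ℝ := √(4 * M ^ 4 * fro A ^ 2) with hD
  set E : ℝ := √(4 * M ^ 4 * M) with hE
  set C2 : ℝ := 4 * Real.exp (2 * ((R : ℝ) + 1)) * D with hC2
  have hD0 : 0 ≤ D := Real.sqrt_nonneg _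
  have hE0 : 0 ≤ E := Real.sqrt_nonneg _
  have hC20 : 0 ≤ C2 := by positivity
  refine ⟨max ((E / 2 + 2 * R * C2) ^ 2) C2, ?_⟩
  intro N H j0 y z hS hR hN
  obtain ⟨hsum, htt⟩ := hMw N H j0 y z hS (by omega) hN
  have hN2 : 2 ≤ N := by omega
  have hNpos : (0 : ℝ) < N := by exact_mod_cast (by omega : 0 < N)
  have hsq : R * N + N ≤ N ^ 2 := by nlinarith
  have hRN : N ≤ R * N := Nat.le_mul_of_pos_left N hR
  have hR1 : (R + 1) * N = R * N + N := by ring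
  rw [hR1] at hsum htt
  have hinc : ∀ j, N ^ 2 - R * N ≤ j → j ≤ N ^ 2 + R * N →
      √(fro (PP N H (j + 1) - PP N H j)) ≤ C2 / N := by
    intro j h1 h2
    rw [hS.el j (by omega), (hF n (br A (H (j + 1))) 0).2.2.2.2.1]
    have ht := htt (j + 1) (by omega) (by omega)
    have hb := (hM n (H (j + 1)) (H (j + 1)) A M (hS.pos _) (hS.pos _) ht ht).2.2.2.2.1
    have hb' : √(fro (br A (H (j + 1)))) ≤ D := Real.sqrt_le_sqrt hb
    have hs : ss N (j + 1) ≤ (R : ℝ) + 1 := by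
      unfold ss
      rw [div_le_iff₀ hNpos]
      have : j + 1 ≤ N ^ 2 + (R * N + N) := by omega
      have h' : ((j + 1 : ℕ) : ℝ) ≤ ((N ^ 2 + (R * N + N) : ℕ) : ℝ) := by exact_mod_cast this
      push_cast at h' ⊢
      linarith
    have ha0 : 0 ≤ aa N (j + 1) := by unfold aa; positivity
    have ha : aa N (j + 1) ≤ 4 / N * Real.exp (2 * ((R : ℝ) + 1)) := by
      unfold aa
      exact mul_le_mul_of_nonneg_left (Real.exp_le_exp.2 (by linarith)) (by positivity)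
    rw [Complex.norm_real, Real.norm_of_nonneg ha0]
    calc aa N (j + 1) * √(fro (br A (H (j + 1))))
        ≤ (4 / N * Real.exp (2 * ((R : ℝ) + 1))) * D :=
          mul_le_mul ha hb' (Real.sqrt_nonneg _) (by positivity)
      _ = C2 / N := by rw [hC2]; ring
  have hK0 : ∀ j, 0 ≤ KK (H j) (H (j + 1)) := fun j =>
    (hB2 n (H j) (H (j + 1)) A 1 (hS.pos _) (hS.pos _) (by simp)).2.2.2.2.2.2.2.2.1
  have hsub : ∑ j ∈ Finset.Ico (N ^ 2) (N ^ 2 + N), KK (H j) (H (j + 1)) ≤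
      ∑ _j ∈ Finset.Ico (N ^ 2) (N ^ 2 + N), M / (N : ℝ) ^ 2 := by
    refine le_trans (Finset.sum_le_sum_of_subset_of_nonneg
      (Finset.Ico_subset_Ico (by omega) (by omega)) fun j _ _ => hK0 j) (hsum.trans (le_of_eq ?_))
    rw [Finset.sum_const, Nat.card_Ico, Nat.add_sub_cancel_left, nsmul_eq_mul]
    field_simp
  obtain ⟨j1, hj1, hK⟩ := Finset.exists_le_of_sum_le
    (Finset.nonempty_Ico.2 (by omega)) hsub
  rw [Finset.mem_Ico] at hj1
  have hP1 : √(fro (PP N H j1)) ≤ E / 2 := by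
    have hx := (hM n (H j1) (H (j1 + 1)) A M (hS.pos _) (hS.pos _)
      (htt j1 (by omega) (by omega)) (htt (j1 + 1) (by omega) (by omega))).2.2.2.1
    have hx2 : fro ((H j1)⁻¹ * H (j1 + 1) - (H (j1 + 1))⁻¹ * H j1) ≤
        4 * M ^ 4 * M / (N : ℝ) ^ 2 := by
      refine hx.trans ?_
      rw [mul_div_assoc]
      exact mul_le_mul_of_nonneg_left hK (by positivity)
    have hx3 : √(fro ((H j1)⁻¹ * H (j1 + 1) - (H (j1 + 1))⁻¹ * H j1)) ≤ E / N := by
      refine (Real.sqrt_le_sqrt hx2).trans (le_of_eq ?_)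
      rw [Real.sqrt_div' _ (by positivity), Real.sqrt_sq hNpos.le]
    unfold PP
    rw [(hF n _ 0).2.2.2.2.1, Complex.norm_real, Real.norm_of_nonneg (by positivity)]
    calc (N : ℝ) / 2 * √(fro ((H j1)⁻¹ * H (j1 + 1) - (H (j1 + 1))⁻¹ * H j1))
        ≤ (N : ℝ) / 2 * (E / N) := mul_le_mul_of_nonneg_left hx3 (by positivity)
      _ = E / 2 := by field_simp
  intro j hj hj'
  refine ⟨le_trans ?_ (le_max_left _ _), ?_⟩
  · have hb := both_Pb hF (PP N H) (N ^ 2 - R * N) (N ^ 2 + R * N) (C2 / N) (by positivity) hinc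
      (2 * (R * N)) (by omega) j1 j (by omega) (by omega) (by omega) hj'
    have e : ((2 * (R * N) : ℕ) : ℝ) * (C2 / N) = 2 * R * C2 := by
      push_cast; field_simp
    rw [e] at hb
    rw [← Real.sq_sqrt (nonneg_Fro (PP N H j))]
    exact pow_le_pow_left₀ (Real.sqrt_nonneg _) (by linarith) 2
  · exact (hinc j (by omega) hj').trans
      (div_le_div_of_nonneg_right (le_max_right _ _) hNpos.le)

theorem sErr (hB2 : SB2) (hF : SFro) (hM : SMat) : SErr := by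
  intro n N H j Q M B hN h0 h1 t0 t1 hQ a b
  have hN' : (0 : ℝ) < N := by exact_mod_cast hN
  have hNc : (N : ℂ) ≠ 0 := by exact_mod_cast hN'.ne'
  obtain ⟨f0, -, fD, -, -, e⟩ := hM n (H j) (H (j + 1)) 0 M h0 h1 t0 t1
  obtain ⟨-, f1, -⟩ := hM n (H (j + 1)) (H j) 0 M h1 h0 t1 t0
  obtain ⟨-, -, -, -, -, -, -, -, k0, -, d⟩ := hB2 n (H j) (H (j + 1)) 0 1 h0 h1 (by simp)
  have M0 : 0 ≤ M := ((d a).1.le.trans (d a).2.1).trans t0
  have sq : ∀ X : Mx n, fro X ≤ M ^ 2 → √(fro X) ≤ M := fun X h => Real.sqrt_le_iff.2 ⟨M0, h⟩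
  have id : H (j + 1) a b - H j a b - (1 / (N : ℝ)) • (H j * Q) a b =
      (((N : ℂ)⁻¹ • (H j * (PP N H j - Q)) + (1 / 2 : ℂ) •
        ((H (j + 1) - H j) * (H (j + 1))⁻¹ * (H (j + 1) - H j)) : Mx n)) a b := by
    have e' := congrFun (congrFun e a) b
    rw [Matrix.sub_apply] at e'
    rw [e', PP, mul_sub (H j) _ Q, Matrix.mul_smul]
    simp only [Matrix.add_apply, Matrix.smul_apply, Matrix.sub_apply, smul_eq_mul,
      Complex.real_smul]
    push_cast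
    field_simp
    ring
  have n1 : ‖(N : ℂ)⁻¹‖ = (N : ℝ)⁻¹ := by simp
  have n2 : ‖(1 / 2 : ℂ)‖ = 1 / 2 := by simp
  have p1 : √(fro (H j * (PP N H j - Q))) ≤ M * (B / N) :=
    (hF n _ _).2.2.2.1.trans (mul_le_mul (sq _ f0) hQ (Real.sqrt_nonneg _) M0)
  have p2 : √(fro ((H (j + 1) - H j) * (H (j + 1))⁻¹ * (H (j + 1) - H j))) ≤
      M * (M ^ 2 * KK (H j) (H (j + 1))) := by
    have s := Real.sqrt_nonneg (fro (H (j + 1) - H j))
    have u := Real.mul_self_sqrt (nonneg_Fro (H (j + 1) - H j))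
    refine (hF n _ _).2.2.2.1.trans ((mul_le_mul_of_nonneg_right ((hF n _ _).2.2.2.1.trans
      (mul_le_mul_of_nonneg_left (sq _ f1) s)) s).trans ?_)
    rw [mul_right_comm, u, mul_comm]
    exact mul_le_mul_of_nonneg_left fD M0
  rw [id]
  refine ((hF n _ 0).1 a b).trans ((hF n _ _).2.1.trans ?_)
  rw [(hF n _ 0).2.2.2.2.1, (hF n _ 0).2.2.2.2.1, n1, n2]
  have q1 := mul_le_mul_of_nonneg_left p1 (inv_nonneg.2 hN'.le)
  have q2 : (N : ℝ)⁻¹ * (M * (B / N)) = M * B / N ^ 2 := by field_simp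
  have q3 : 0 ≤ M ^ 3 * KK (H j) (H (j + 1)) := by positivity
  nlinarith

theorem tele_Eul {E : Type} [NormedAddCommGroup E] [NormedSpace ℝ E] (F Y : ℤ → E) (e : ℤ → ℝ)
    {N C ε : ℝ} {a b : ℤ} (hN : 0 < N)
    (h1 : ∀ j, a ≤ j → j < b → ‖Y (j + 1) - Y j - (1 / N) • F j‖ ≤ e j)
    (h2 : ∑ j ∈ Finset.Ico a b, e j ≤ C) (v : E) {i j : ℤ} (hi : a ≤ i) (hij : i ≤ j) (hj : j ≤ b)
    (h3 : ∀ l, i ≤ l → l < j → ‖F l - v‖ ≤ ε) :
    ‖Y j - Y i - (((j : ℝ) - i) / N) • v‖ ≤ ε * (((j : ℝ) - i) / N) + C := by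
  have key : ‖Y j - Y i - (((j : ℝ) - i) / N) • v‖ ≤
      ε * (((j : ℝ) - i) / N) + ∑ l ∈ Finset.Ico i j, e l := by
    induction j, hij using Int.leInduction with
    | base => simp
    | succ j hij ih =>
      have a1 := ih (by omega) fun l h h' => h3 l h (by omega)
      have a2 := h1 j (by omega) (by omega)
      have a3 := h3 j hij (by omega)
      have a4 : Finset.Ico i (j + 1) = insert j (Finset.Ico i j) := by
        ext l
        simp only [Finset.mem_Ico, Finset.mem_insert]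
        omega
      have a5 : Y (j + 1) - Y i - ((((j + 1 : ℤ) : ℝ) - i) / N) • v =
          (Y j - Y i - (((j : ℝ) - i) / N) • v) + (Y (j + 1) - Y j - (1 / N) • F j) +
            (1 / N) • (F j - v) := by
        push_cast
        module
      have a6 : ‖(1 / N) • (F j - v)‖ ≤ 1 / N * ε := by
        rw [norm_smul, Real.norm_of_nonneg (by positivity)]
        exact mul_le_mul_of_nonneg_left a3 (by positivity)
      have a7 : ε * ((((j + 1 : ℤ) : ℝ) - i) / N) = ε * (((j : ℝ) - i) / N) + 1 / N * ε := by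
        push_cast
        ring
      rw [a4, Finset.sum_insert (by simp), a5, a7]
      refine (norm_add₃_le).trans ?_
      linarith
  have sub : ∑ l ∈ Finset.Ico i j, e l ≤ ∑ l ∈ Finset.Ico a b, e l :=
    Finset.sum_le_sum_of_subset_of_nonneg (Finset.Ico_subset_Ico hi hj) fun l hl _ =>
      (norm_nonneg _).trans (h1 l (Finset.mem_Ico.1 hl).1 (Finset.mem_Ico.1 hl).2)
  linarith

theorem floor_Eul (t : ℝ) : Tendsto (fun N : ℕ => (⌊t * N⌋ : ℝ) / N) atTop (𝓝 t) := by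
  have h1 : Tendsto (fun N : ℕ => t - 1 / (N : ℝ)) atTop (𝓝 t) := by
    simpa using (tendsto_const_nhds (x := t)).sub (tendsto_const_div_atTop_nhds_zero_nat (1 : ℝ))
  refine tendsto_of_tendsto_of_tendsto_of_le_of_le' h1 tendsto_const_nhds ?_ ?_
  · filter_upwards [eventually_gt_atTop 0] with N hN
    have hN' : (0 : ℝ) < N := by exact_mod_cast hN
    have := Int.lt_floor_add_one (t * N)
    rw [sub_le_iff_le_add, ← add_div, le_div_iff₀ hN']
    linarith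
  · filter_upwards [eventually_gt_atTop 0] with N hN
    have hN' : (0 : ℝ) < N := by exact_mod_cast hN
    rw [div_le_iff₀ hN']
    exact Int.floor_le _

theorem win_Eul {s : ℝ} {R N : ℕ} {l : ℤ} (hR : |s| + 2 ≤ R) (hN : (0 : ℝ) < N)
    (hl : |(l : ℝ) / N - s| ≤ 2) : |l| ≤ R * N := by
  have a1 : |(l : ℝ) / N| ≤ R := by
    have := abs_add_le ((l : ℝ) / N - s) s
    rw [sub_add_cancel] at this
    linarith
  rw [abs_div, abs_of_pos hN, div_le_iff₀ hN] at a1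
  exact_mod_cast a1

theorem near_Eul (t : ℝ) {N : ℕ} (hN : (0 : ℝ) < N) :
    t - 1 / N ≤ (⌊t * N⌋ : ℝ) / N ∧ (⌊t * N⌋ : ℝ) / N ≤ t := by
  have := Int.lt_floor_add_one (t * N)
  refine ⟨?_, ?_⟩
  · rw [sub_le_iff_le_add, ← add_div, le_div_iff₀ hN]
    linarith
  · rw [div_le_iff₀ hN]
    exact Int.floor_le _

theorem sEul : SEul := by
  intro E _ _ f K Y e C hK hf hW
  have hU : (hyperfilter ℕ : Filter ℕ) ≤ atTop := Nat.hyperfilter_le_atTop
  have hpos : ∀ᶠ N : ℕ in atTop, (0 : ℝ) < N ∧ 1 / (N : ℝ) ≤ 1 := by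
    filter_upwards [eventually_ge_atTop 1] with N hN
    have hN' : (1 : ℝ) ≤ N := by exact_mod_cast hN
    exact ⟨by linarith, (div_le_one (by linarith)).2 hN'⟩
  have hR : ∀ s : ℝ, ∃ R : ℕ, 1 ≤ R ∧ |s| + 2 ≤ R := fun s =>
    ⟨⌈|s|⌉₊ + 2, by omega, by push_cast; linarith [Nat.le_ceil |s|]⟩
  have hfl : ∀ (s t : ℝ) (N : ℕ), |t - s| ≤ 1 → (0 : ℝ) < N → 1 / (N : ℝ) ≤ 1 →
      |(⌊t * N⌋ : ℝ) / N - s| ≤ 2 := fun s t N h h1 h2 => by
    have a1 := near_Eul t h1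
    have a2 := abs_le.1 h
    exact abs_le.2 ⟨by linarith [a1.1], by linarith [a1.2]⟩
  choose R hR1 hR2 using hR
  have hy : ∀ s : ℝ, ∃ x ∈ K (R s),
      Tendsto (fun N : ℕ => Y N ⌊s * N⌋) (hyperfilter ℕ) (𝓝 x) := fun s => by
    refine (hK (R s)).ultrafilter_le_nhds ((hyperfilter ℕ).map fun N : ℕ => Y N ⌊s * N⌋) ?_
    rw [le_principal_iff]
    have : ∀ᶠ N : ℕ in atTop, Y N ⌊s * N⌋ ∈ K (R s) := by
      filter_upwards [hW _ (hR1 s), hpos] with N h1 h2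
      exact h1.1 _ (win_Eul (hR2 s) h2.1 (hfl s s N (by simp) h2.1 h2.2))
    exact hU this
  choose y hyK hy using hy
  refine ⟨y, fun s => ⟨?_, ⟨_, hyK s⟩, hy s⟩⟩
  obtain ⟨B, hB⟩ := ((isCompact_Icc (a := -(R s : ℝ)) (b := R s)).prod (hK (R s))).exists_bound_of_continuousOn
    ((hf (R s)).mono (Set.prod_mono (Set.subset_univ _) le_rfl))
  have hB0 : 0 ≤ B := (norm_nonneg _).trans (hB (0, y s) ⟨⟨by simp, by simp⟩, hyK s⟩)
  have lip : ∀ᶠ N : ℕ in atTop, ∀ i j : ℤ, |i| ≤ R s * N → |j| ≤ R s * N →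
      ‖Y N j - Y N i‖ ≤ B * |(j : ℝ) / N - i / N| + C (R s) / N := by
    filter_upwards [hW _ (hR1 s), hpos] with N h1 h2
    have a1 : ∀ i j : ℤ, i ≤ j → |i| ≤ R s * N → |j| ≤ R s * N →
        ‖Y N j - Y N i‖ ≤ B * |(j : ℝ) / N - i / N| + C (R s) / N := fun i j hij hi hj => by
      have b1 := tele_Eul (fun l => f (l / N) (Y N l)) (Y N) (e (R s) N) (ε := B) h2.1 h1.2.1 h1.2.2
        0 (abs_le.1 hi).1 hij (abs_le.1 hj).2 fun l c1 c2 => by
          have c3 : |l| ≤ R s * N :=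
            abs_le.2 ⟨(abs_le.1 hi).1.trans c1, c2.le.trans (abs_le.1 hj).2⟩
          have c4 : |(l : ℝ) / N| ≤ R s := by
            rw [abs_div, abs_of_pos h2.1, div_le_iff₀ h2.1]
            exact_mod_cast c3
          rw [sub_zero]
          exact hB (l / N, Y N l) ⟨abs_le.1 c4, h1.1 l c3⟩
      rw [smul_zero, sub_zero, sub_div] at b1
      exact b1.trans (add_le_add_left (mul_le_mul_of_nonneg_left (le_abs_self _) hB0) _)
    intro i j hi hj
    rcases le_total i j with h | h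
    · exact a1 i j h hi hj
    · rw [norm_sub_rev, abs_sub_comm]
      exact a1 j i h hj hi
  rw [hasDerivAt_iff_isLittleO, Asymptotics.isLittleO_iff]
  intro ε hε
  obtain ⟨δ, hδ, hc⟩ := Metric.continuousWithinAt_iff.1 (hf (R s) (s, y s) ⟨trivial, hyK s⟩) ε hε
  obtain ⟨η, hη0, hη1, hη2, hη3⟩ : ∃ η : ℝ, 0 < η ∧ η ≤ 1 ∧ η < δ ∧ B * η ≤ δ / 4 := by
    refine ⟨min 1 (δ / (4 * (B + 1))), lt_min one_pos (by positivity), min_le_left _ _, ?_, ?_⟩
    · refine (min_le_right _ _).trans_lt ?_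
      rw [div_lt_iff₀ (by positivity)]
      nlinarith
    · refine (mul_le_mul_of_nonneg_left (min_le_right _ _) hB0).trans ?_
      rw [← mul_div_assoc, div_le_div_iff₀ (by positivity) (by positivity)]
      nlinarith
  have sm : ∀ x r : ℝ, 0 < r → ∀ᶠ N : ℕ in atTop, x / N < r := fun x r hr =>
    (tendsto_const_div_atTop_nhds_zero_nat x).eventually (gt_mem_nhds hr)
  have cl : ∀ᶠ N : ℕ in hyperfilter ℕ, ∀ l : ℤ, |(l : ℝ) / N - s| ≤ η →
      ‖f (l / N) (Y N l) - f s (y s)‖ ≤ ε := by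
    filter_upwards [hU (hW _ (hR1 s)), hU hpos, hU lip, hU (sm (B + C (R s)) (δ / 4) (by positivity)),
      Metric.tendsto_nhds.1 (hy s) (δ / 4) (by positivity)] with N h1 h2 h3 h4 h5 l hl
    have a1 := win_Eul (hR2 s) h2.1 (hl.trans (by linarith))
    have a2 := win_Eul (hR2 s) h2.1 (hfl s s N (by simp) h2.1 h2.2)
    have a3 := h3 _ _ a2 a1
    have a4 := near_Eul s h2.1
    have a5 : |(l : ℝ) / N - ⌊s * N⌋ / N| ≤ η + 1 / N :=
      abs_le.2 ⟨by linarith [(abs_le.1 hl).1, a4.2, one_div_pos.2 h2.1],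
        by linarith [(abs_le.1 hl).2, a4.1]⟩
    have a6 := mul_le_mul_of_nonneg_left a5 hB0
    have a7 : (B + C (R s)) / N = B * (1 / N) + C (R s) / N := by ring
    have a8 := dist_triangle (Y N l) (Y N ⌊s * N⌋) (y s)
    rw [dist_eq_norm (Y N l) (Y N ⌊s * N⌋)] at a8
    have a9 : dist ((l : ℝ) / N, Y N l) (s, y s) < δ := by
      rw [Prod.dist_eq, max_lt_iff, Real.dist_eq]
      exact ⟨hl.trans_lt hη2, by linarith⟩
    rw [← dist_eq_norm]
    exact (hc ⟨trivial, h1.1 l a1⟩ a9).le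
  have two : ∀ t1 t2 : ℝ, t1 ≤ t2 → |t1 - s| ≤ η / 2 → |t2 - s| ≤ η / 2 →
      ‖y t2 - y t1 - (t2 - t1) • f s (y s)‖ ≤ ε * (t2 - t1) := fun t1 t2 h12 g1 g2 => by
    have a1 : Tendsto (fun N : ℕ => ((⌊t2 * N⌋ : ℝ) - ⌊t1 * N⌋) / N) (hyperfilter ℕ)
        (𝓝 (t2 - t1)) := by
      simpa only [sub_div] using ((floor_Eul t2).sub (floor_Eul t1)).mono_left hU
    have a2 := (((hy t2).sub (hy t1)).sub (a1.smul_const (f s (y s)))).norm
    have a3 := (a1.const_mul ε).add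
      ((tendsto_const_div_atTop_nhds_zero_nat (C (R s))).mono_left hU)
    rw [add_zero] at a3
    refine le_of_tendsto_of_tendsto a2 a3 ?_
    filter_upwards [hU (hW _ (hR1 s)), hU hpos, cl, hU (sm 1 (η / 2) (by positivity))]
      with N h1 h2 h3 h4
    have b1 := win_Eul (hR2 s) h2.1 (hfl s t1 N (g1.trans (by linarith)) h2.1 h2.2)
    have b2 := win_Eul (hR2 s) h2.1 (hfl s t2 N (g2.trans (by linarith)) h2.1 h2.2)
    refine tele_Eul (fun l => f (l / N) (Y N l)) (Y N) (e (R s) N) h2.1 h1.2.1 h1.2.2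
      (f s (y s)) (abs_le.1 b1).1 (Int.floor_mono (mul_le_mul_of_nonneg_right h12 h2.1.le))
      (abs_le.1 b2).2 fun l c1 c2 => h3 l ?_
    have c3 : (⌊t1 * N⌋ : ℝ) / N ≤ l / N :=
      div_le_div_of_nonneg_right (by exact_mod_cast c1) h2.1.le
    have c4 : (l : ℝ) / N ≤ ⌊t2 * N⌋ / N :=
      div_le_div_of_nonneg_right (by exact_mod_cast c2.le) h2.1.le
    exact abs_le.2 ⟨by linarith [(near_Eul t1 h2.1).1, (abs_le.1 g1).1],
      by linarith [(near_Eul t2 h2.1).2, (abs_le.1 g2).2]⟩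
  filter_upwards [Metric.closedBall_mem_nhds s (half_pos hη0)] with t ht
  rw [Metric.mem_closedBall, Real.dist_eq] at ht
  have hs : |s - s| ≤ η / 2 := by simpa using (half_pos hη0).le
  rcases le_total s t with h | h
  · rw [Real.norm_of_nonneg (sub_nonneg.2 h)]
    exact two s t h hs ht
  · have a1 := two t s h ht hs
    have a2 : -(y t - y s - (t - s) • f s (y s)) = y s - y t - (s - t) • f s (y s) := by module
    rw [norm_sub_rev t s, Real.norm_of_nonneg (sub_nonneg.2 h), ← norm_neg, a2]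
    exact a1

abbrev EE_Lim (n : ℕ) : Type := (Fin n → Fin n → ℂ) × (Fin n → Fin n → ℂ)

def m1_Lim {n : ℕ} (p : EE_Lim n) : Mx n := p.1

def m2_Lim {n : ℕ} (p : EE_Lim n) : Mx n := p.2

def mk_Lim {n : ℕ} (X Y : Mx n) : EE_Lim n := (X, Y)

noncomputable def ff_Lim {n : ℕ} (A : Mx n) (s : ℝ) (p : EE_Lim n) : EE_Lim n :=
  mk_Lim (m1_Lim p * m2_Lim p) (((4 * Real.exp (2 * s) : ℝ) : ℂ) • br A (m1_Lim p))

noncomputable def YY_Lim {n : ℕ} (H : ℕ → Mx n) (N : ℕ) (j : ℤ) : EE_Lim n :=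
  mk_Lim (H ((N : ℤ) ^ 2 + j).toNat) (PP N H (((N : ℤ) ^ 2 + j).toNat - 1))

def KS_Lim (n : ℕ) (M B : ℝ) : Set (EE_Lim n) :=
  {p | (IsPosHerm (m1_Lim p) ∧ tt (m1_Lim p) ≤ M) ∧ fro (m2_Lim p) ≤ B}

theorem reidx_Lim (g : ℕ → ℝ) (a b : ℕ) (h : b ≤ a) :
    ∑ j ∈ Finset.Ico (-(b : ℤ)) (b : ℤ), g ((a : ℤ) + j).toNat
      = ∑ i ∈ Finset.Ico (a - b) (a + b), g i := by
  refine Finset.sum_nbij' (fun j => ((a : ℤ) + j).toNat) (fun i => (i : ℤ) - a) ?_ ?_ ?_ ?_ ?_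
  · intro j hj
    simp only [Finset.mem_Ico] at hj ⊢
    omega
  · intro i hi
    simp only [Finset.mem_Ico] at hi ⊢
    omega
  · intro j hj
    simp only [Finset.mem_Ico] at hj ⊢
    omega
  · intro i hi
    simp only [Finset.mem_Ico] at hi ⊢
    omega
  · intro j _
    rfl

theorem cpt_Lim (hK : SCpt) (n : ℕ) (M B : ℝ) : IsCompact (KS_Lim n M B) :=
  (hK n M).1.prod (hK n B).2.1

theorem cont_Lim (hK : SCpt) {n : ℕ} (A : Mx n) (M B : ℝ) :
    ContinuousOn (fun q : ℝ × EE_Lim n => ff_Lim A q.1 q.2) (Set.univ ×ˢ KS_Lim n M B) := by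
  have c1 : Continuous fun q : ℝ × EE_Lim n => m1_Lim q.2 := continuous_fst.comp continuous_snd
  have c2 : Continuous fun q : ℝ × EE_Lim n => m2_Lim q.2 := continuous_snd.comp continuous_snd
  have c3 : Continuous fun q : ℝ × EE_Lim n => m1_Lim q.2 * m2_Lim q.2 := c1.matrix_mul c2
  have c4 : Continuous fun q : ℝ × EE_Lim n => ((4 * Real.exp (2 * q.1) : ℝ) : ℂ) := by
    fun_prop
  have c5 : ContinuousOn (fun q : ℝ × EE_Lim n => br A (m1_Lim q.2))
      (Set.univ ×ˢ KS_Lim n M B) :=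
    ((hK n 0).2.2.2 A).comp c1.continuousOn fun q hq => hq.2.1.1
  exact c3.continuousOn.prodMk (c4.continuousOn.smul c5)

theorem step_Lim (hE : SErr) {n N i : ℕ} {A : Mx n} {H : ℕ → Mx n} {j : ℤ} {M B : ℝ}
    (hN : 1 ≤ N) (hi : (i : ℤ) + 1 = (N : ℤ) ^ 2 + j) (hpos : ∀ j, IsPosHerm (H j))
    (hel : PP N H (i + 1) - PP N H i = ((aa N (i + 1) : ℝ) : ℂ) • br A (H (i + 1)))
    (hM : 0 ≤ M) (t1 : tt (H (i + 1)) ≤ M) (t2 : tt (H (i + 1 + 1)) ≤ M)
    (hB : √(fro (PP N H (i + 1) - PP N H i)) ≤ B / N) :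
    ‖YY_Lim H N (j + 1) - YY_Lim H N j - (1 / (N : ℝ)) • ff_Lim A (j / N) (YY_Lim H N j)‖ ≤
      M * B / N ^ 2 + M ^ 3 * KK (H ((N : ℤ) ^ 2 + j).toNat) (H (((N : ℤ) ^ 2 + j).toNat + 1)) := by
  have e1 : ((N : ℤ) ^ 2 + j).toNat = i + 1 := by omega
  have e2 : ((N : ℤ) ^ 2 + (j + 1)).toNat = i + 1 + 1 := by omega
  have key := hE n N H (i + 1) (PP N H i) M B hN (hpos _) (hpos _) t1 t2 hB
  have N0 : (0 : ℝ) < N := by exact_mod_cast hN
  have B0 : 0 ≤ B := by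
    have := (Real.sqrt_nonneg _).trans hB
    exact (div_nonneg_iff.1 this).elim (fun h => h.1) fun h => absurd N0 (not_lt.2 h.2)
  have nn : 0 ≤ M * B / N ^ 2 + M ^ 3 * KK (H (i + 1)) (H (i + 1 + 1)) := by
    rcases Nat.eq_zero_or_pos n with rfl | h
    · have : KK (H (i + 1)) (H (i + 1 + 1)) = 0 := by simp [KK, trace]
      rw [this]
      positivity
    · exact (norm_nonneg _).trans (key ⟨0, h⟩ ⟨0, h⟩)
  have ea : aa N (i + 1) = 1 / (N : ℝ) * (4 * Real.exp (2 * ((j : ℝ) / N))) := by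
    have h1 : ((i + 1 : ℕ) : ℝ) - (N : ℝ) ^ 2 = j := by
      have h2 : (((i : ℤ) + 1 : ℤ) : ℝ) = (((N : ℤ) ^ 2 + j : ℤ) : ℝ) := by rw [hi]
      push_cast at h2 ⊢
      linarith
    unfold aa ss
    rw [h1]
    ring
  unfold YY_Lim
  rw [e1, e2, Prod.norm_def]
  refine max_le ?_ ?_
  · refine (pi_norm_le_iff_of_nonneg nn).2 fun a => (pi_norm_le_iff_of_nonneg nn).2 fun b => ?_
    exact key a b
  · refine (pi_norm_le_iff_of_nonneg nn).2 fun a => (pi_norm_le_iff_of_nonneg nn).2 fun b => ?_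
    have h3 : PP N H (i + 1) a b - PP N H i a b
        = ((aa N (i + 1) : ℝ) : ℂ) * br A (H (i + 1)) a b := congrFun (congrFun hel a) b
    change ‖PP N H (i + 1) a b - PP N H i a b - (1 / (N : ℝ)) •
      (((4 * Real.exp (2 * ((j : ℝ) / N)) : ℝ) : ℂ) * br A (H (i + 1)) a b)‖ ≤ _
    rw [h3, ea, Complex.real_smul, Complex.ofReal_mul, mul_assoc, sub_self, norm_zero]
    exact nn

theorem sLim (hF : SFro) (hK : SCpt) (hW : SWin) (hP : SPb) (hE : SErr) (hEul : SEul) : SLim := by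
  have _ := hF
  intro n A U μ σ C0 Hs hU hS
  choose CW hCW using fun R => hW n A U μ σ C0 R hU
  choose CP hCP using fun R => hP n A U μ σ C0 R hU
  obtain ⟨y, hy⟩ := hEul (EE_Lim n) (ff_Lim A) (fun R => KS_Lim n |CW R| (CP (R + 1)))
    (fun N => YY_Lim (Hs N) N)
    (fun R N j => |CW R| * CP (R + 1) / N ^ 2 + |CW R| ^ 3 *
      KK (Hs N ((N : ℤ) ^ 2 + j).toNat) (Hs N (((N : ℤ) ^ 2 + j).toNat + 1)))
    (fun R => 2 * R * (|CW R| * CP (R + 1)) + |CW R| ^ 3 * CW R)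
    (fun R => cpt_Lim hK n _ _) (fun R => cont_Lim hK A _ _) (by
      intro R hR
      filter_upwards [eventually_ge_atTop (R + 2)] with N hN
      obtain ⟨j0, y, z, sol⟩ := hS N (by omega)
      obtain ⟨w1, w2⟩ := hCW R N _ j0 y z sol hR (by omega)
      have p1 := hCP (R + 1) N _ j0 y z sol (by omega) hN
      have q1 : R * N + 2 * N ≤ N ^ 2 := by
        calc R * N + 2 * N = (R + 2) * N := by ring
          _ ≤ N * N := Nat.mul_le_mul_right N hN
          _ = N ^ 2 := by ring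
      have q2 : (R + 1) * N = R * N + N := by ring
      have q3 : ((N : ℤ) ^ 2) = ((N ^ 2 : ℕ) : ℤ) := by push_cast; rfl
      have q4 : ((R : ℤ) * N) = ((R * N : ℕ) : ℤ) := by push_cast; rfl
      rw [q2] at p1
      refine ⟨fun j hj => ?_, fun j h1 h2 => ?_, ?_⟩
      · have h1 := abs_le.1 hj
        refine ⟨⟨sol.pos _, (w2 _ ?_ ?_).trans (le_abs_self _)⟩, (p1 _ ?_ ?_).1⟩ <;> omega
      · obtain ⟨i, hi⟩ : ∃ i : ℕ, (i : ℤ) + 1 = (N : ℤ) ^ 2 + j :=
          ⟨((N : ℤ) ^ 2 + j - 1).toNat, by omega⟩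
        exact step_Lim hE (by omega) hi sol.pos (sol.el i (by omega)) (abs_nonneg _)
          ((w2 _ (by omega) (by omega)).trans (le_abs_self _))
          ((w2 _ (by omega) (by omega)).trans (le_abs_self _)) (p1 i (by omega) (by omega)).2
      · have N0 : (0 : ℝ) < N := by exact_mod_cast (by omega : 0 < N)
        have r1 := reidx_Lim (fun i => KK (Hs N i) (Hs N (i + 1))) (N ^ 2) (R * N) (by omega)
        rw [Finset.sum_add_distrib, ← Finset.mul_sum, Finset.sum_const, Int.card_Ico, q3, q4, r1,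
          nsmul_eq_mul]
        have r2 : ((((R * N : ℕ) : ℤ) - -((R * N : ℕ) : ℤ)).toNat : ℝ) = 2 * R * N := by
          have : (((R * N : ℕ) : ℤ) - -((R * N : ℕ) : ℤ)).toNat = 2 * (R * N) := by omega
          rw [this]
          push_cast
          ring
        rw [r2]
        have r3 := mul_le_mul_of_nonneg_left w1 (pow_nonneg (abs_nonneg (CW R)) 3)
        have r4 : 2 * (R : ℝ) * N * (|CW R| * CP (R + 1) / N ^ 2)
            = 2 * R * (|CW R| * CP (R + 1)) / N := by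
          field_simp
        rw [r4, add_div, mul_div_assoc (|CW R| ^ 3)]
        linarith)
  refine ⟨fun s => m1_Lim (y s), fun s => m2_Lim (y s), fun s => ?_, fun s => ?_⟩
  · obtain ⟨d, ⟨R, hR⟩, -⟩ := hy s
    have d1 := (ContinuousLinearMap.fst ℝ (Fin n → Fin n → ℂ)
      (Fin n → Fin n → ℂ)).hasFDerivAt.comp_hasDerivAt s d
    have d2 := (ContinuousLinearMap.snd ℝ (Fin n → Fin n → ℂ)
      (Fin n → Fin n → ℂ)).hasFDerivAt.comp_hasDerivAt s d
    exact ⟨hR.1.1, fun a b => hasDerivAt_pi.1 (hasDerivAt_pi.1 d1 a) b,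
      fun a b => hasDerivAt_pi.1 (hasDerivAt_pi.1 d2 a) b⟩
  · exact (continuous_fst.tendsto (y s)).comp (hy s).2.2

/-- squared norm of the part off the diagonal -/
noncomputable def off_RLip {n : ℕ} (X : Mx n) : ℝ :=
  ∑ a, ∑ b, ‖if a = b then 0 else X a b‖ ^ 2

lemma off_nonneg_RLip {n : ℕ} (X : Mx n) : 0 ≤ off_RLip X := by unfold off_RLip; positivity

lemma fro_RLip {n : ℕ} (X : Mx n) : fro X = ∑ a, ‖X a a‖ ^ 2 + off_RLip X := by
  rw [sum_Fro, off_RLip, ← Finset.sum_add_distrib]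
  refine Finset.sum_congr rfl fun a _ => ?_
  rw [← Finset.add_sum_erase _ _ (Finset.mem_univ a),
    ← Finset.add_sum_erase _ (fun b => ‖if a = b then 0 else X a b‖ ^ 2) (Finset.mem_univ a)]
  simp only [if_true, norm_zero, ne_eq, OfNat.ofNat_ne_zero, not_false_eq_true, zero_pow, zero_add]
  congr 1
  exact Finset.sum_congr rfl fun b hb => by rw [if_neg (Finset.ne_of_mem_erase hb).symm]

lemma off_tr_RLip {n : ℕ} (X : Mx n) : off_RLip Xᵀ = off_RLip X := by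
  unfold off_RLip
  rw [Finset.sum_comm]
  simp only [transpose_apply, eq_comm]

lemma vec_RLip {n : ℕ} (X : Mx n) (w : Fin n → ℂ) {ρ r : ℝ} (hρ : 0 ≤ ρ) (hr : 0 ≤ r)
    (h1 : ∀ l, w l ≠ 0 → ‖X l l‖ ≤ ρ) (h2 : off_RLip X ≤ r ^ 2) :
    ∑ a, ‖∑ l, X a l * w l‖ ^ 2 ≤ (ρ + r) ^ 2 * ∑ l, ‖w l‖ ^ 2 := by
  set W := ∑ l, ‖w l‖ ^ 2 with hW
  have W0 : 0 ≤ W := by positivity
  let p : Fin n → ℝ := fun a => ρ * ‖w a‖
  let q : Fin n → ℝ := fun a => ‖∑ l, (if a = l then 0 else X a l) * w l‖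
  have hp : ∑ a, p a ^ 2 = ρ ^ 2 * W := by simp only [p, mul_pow, hW, Finset.mul_sum]
  have hq : ∑ a, q a ^ 2 ≤ r ^ 2 * W := by
    refine (Finset.sum_le_sum fun a _ => cs_Fro _ w).trans ?_
    rw [← Finset.sum_mul]
    exact mul_le_mul_of_nonneg_right h2 W0
  have hpq : ∑ a, p a * q a ≤ ρ * r * W := by
    refine (abs_le_of_sq_le_sq' ((Finset.sum_mul_sq_le_sq_mul_sq _ p q).trans ?_)
      (by positivity)).2
    rw [hp]
    calc ρ ^ 2 * W * ∑ a, q a ^ 2 ≤ ρ ^ 2 * W * (r ^ 2 * W) := by gcongr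
      _ = _ := by ring
  have ha : ∀ a, ‖∑ l, X a l * w l‖ ≤ p a + q a := fun a => by
    have e : ∑ l, X a l * w l = X a a * w a + ∑ l, (if a = l then 0 else X a l) * w l := by
      rw [← Finset.add_sum_erase _ _ (Finset.mem_univ a),
        ← Finset.add_sum_erase _ (fun l => (if a = l then 0 else X a l) * w l) (Finset.mem_univ a)]
      simp only [if_true, zero_mul, zero_add]
      congr 1
      exact Finset.sum_congr rfl fun b hb => by rw [if_neg (Finset.ne_of_mem_erase hb).symm]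
    rw [e]
    refine (norm_add_le _ _).trans (add_le_add ?_ le_rfl)
    rw [norm_mul]
    by_cases h : w a = 0
    · simp [p, h]
    · exact mul_le_mul_of_nonneg_right (h1 a h) (norm_nonneg _)
  calc _ ≤ ∑ a, (p a + q a) ^ 2 :=
        Finset.sum_le_sum fun a _ => pow_le_pow_left₀ (norm_nonneg _) (ha a) 2
    _ = ∑ a, p a ^ 2 + 2 * ∑ a, p a * q a + ∑ a, q a ^ 2 := by
        rw [Finset.mul_sum, ← Finset.sum_add_distrib, ← Finset.sum_add_distrib]
        exact Finset.sum_congr rfl fun a _ => by ring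
    _ ≤ _ := by rw [hp]; nlinarith

lemma fin_RLip {A B β N r F η T : ℝ} (hA : 0 < A) (hB : 0 < B) (hN : 1 ≤ N) (hr : 0 ≤ r)
    (hF : r ^ 2 = 2 * F / N) (hη : 0 < η) (hT : |β| ≤ T)
    (h : A ≤ (Real.exp ((β / N + r) / 2) + r) ^ 2 * B) :
    Real.log A - Real.log B ≤ (β + η) / N + (1 + 2 * Real.exp (T / 2)) ^ 2 / η * F := by
  have N0 : 0 < N := by linarith
  set ρ := Real.exp ((β / N + r) / 2) with hρ
  have ρ0 : 0 < ρ := Real.exp_pos _
  have h1 := Real.log_le_log hA h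
  rw [Real.log_mul (by positivity) hB.ne', Real.log_pow,
    show ρ + r = ρ * (1 + r / ρ) by field_simp, Real.log_mul ρ0.ne' (by positivity), hρ,
    Real.log_exp, ← hρ] at h1
  have h2 : Real.log (1 + r / ρ) ≤ r / ρ := by
    linarith [Real.log_le_sub_one_of_pos (show 0 < 1 + r / ρ by positivity)]
  have h3 : r / ρ ≤ r * Real.exp (T / 2) := by
    rw [div_eq_mul_inv, hρ, ← Real.exp_neg]
    refine mul_le_mul_of_nonneg_left (Real.exp_le_exp.2 ?_) hr
    have : |β / N| ≤ T := by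
      rw [abs_div, abs_of_pos N0]
      exact (div_le_self (abs_nonneg _) hN).trans hT
    linarith [neg_abs_le (β / N)]
  set c := 1 + 2 * Real.exp (T / 2) with hc
  have hF' : F = r ^ 2 * N / 2 := by rw [hF]; field_simp
  have h4 : c * r ≤ η / N + c ^ 2 / η * F := by
    rw [hF', show η / N + c ^ 2 / η * (r ^ 2 * N / 2) =
      (η ^ 2 + (c * r * N) ^ 2 / 2) / (η * N) by field_simp, le_div_iff₀ (by positivity)]
    nlinarith [sq_nonneg (η - c * r * N / 2), sq_nonneg (c * r * N)]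
  push_cast at h1
  rw [add_div]
  nlinarith

lemma sq_RLip (x : ℝ) : x ^ 2 ≤ Real.exp x + Real.exp (-x) - 2 := by
  have h1 := Real.cosh_eq x
  have h2 := Real.cosh_two_mul (x / 2)
  have h3 := Real.cosh_sq (x / 2)
  have h4 : (x / 2) ^ 2 ≤ Real.sinh (x / 2) ^ 2 := by
    rw [sq_le_sq, Real.abs_sinh]
    exact Real.self_le_sinh_iff.2 (abs_nonneg _)
  rw [show 2 * (x / 2) = x by ring] at h2
  nlinarith

theorem sRLip (hB1 : SB1) (_hB2 : SB2) (hU : SUT) : SRLip := by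
  intro n α hα
  refine ⟨(1 + 2 * Real.exp ((∑ l, |α l|) / 2)) ^ 2, by positivity, ?_⟩
  rintro _ _ y y' N η ⟨t, ut, rfl, ht⟩ ⟨t', ut', rfl, ht'⟩ hN hη i
  have N0 : 0 < N := by linarith
  have nz : ∀ {t : Mx n} {y : Fin n → ℝ}, (∀ i, ‖t i i‖ ^ 2 = Real.exp (y i)) → ∀ i, t i i ≠ 0 :=
    fun h i e => (Real.exp_pos _).ne' (by rw [← h i, e]; simp)
  obtain ⟨d1, i1, -, -, -, e1⟩ := hU n t t' ut ut' (nz ht)
  obtain ⟨d2, i2, -, -, -, e2⟩ := hU n t' t ut' ut (nz ht')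
  have hK := (hB1 n t t' 0 d1 d2).2.1
  have hu : ∀ l, ‖(t * t'⁻¹) l l‖ ^ 2 = Real.exp (y l - y' l) := fun l => by
    rw [(e2 l).2.2.2, norm_div, div_pow, ht, ht', Real.exp_sub]
  have hv : ∀ l, ‖(t' * t⁻¹) l l‖ ^ 2 = Real.exp (-(y l - y' l)) := fun l => by
    rw [(e1 l).2.2.2, norm_div, div_pow, ht, ht', neg_sub, Real.exp_sub]
  rw [fro_RLip, fro_RLip] at hK
  simp only [hu, hv] at hK
  set F := N / 2 * KK (tᴴ * t) (t'ᴴ * t') - ip α (y' - y) + 1 / (2 * N) * ip α α with hF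
  have h1 : ∑ l, (y l - y' l) ^ 2 ≤
      ∑ l, Real.exp (y l - y' l) + ∑ l, Real.exp (-(y l - y' l)) - 2 * n := by
    refine (Finset.sum_le_sum fun l _ => sq_RLip _).trans (le_of_eq ?_)
    rw [Finset.sum_sub_distrib, Finset.sum_add_distrib]
    simp [mul_comm]
  have h2 : 2 * F / N = KK (tᴴ * t) (t'ᴴ * t') - ∑ l, (y l - y' l) ^ 2 +
      ∑ l, (y l - y' l + α l / N) ^ 2 := by
    have : ∑ l, (y l - y' l + α l / N) ^ 2 = ∑ l, (y l - y' l) ^ 2 -
        2 / N * ip α (y' - y) + 1 / N ^ 2 * ip α α := by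
      simp only [ip, Finset.mul_sum, ← Finset.sum_sub_distrib, ← Finset.sum_add_distrib,
        Pi.sub_apply]
      exact Finset.sum_congr rfl fun l _ => by field_simp; ring
    rw [this, hF]
    field_simp
    ring
  have s0 : 0 ≤ ∑ l, (y l - y' l + α l / N) ^ 2 := by positivity
  have o1 := off_nonneg_RLip (t * t'⁻¹)
  have o2 := off_nonneg_RLip (t' * t⁻¹)
  have hr : √(2 * F / N) ^ 2 = 2 * F / N := Real.sq_sqrt (by linarith)
  have r0 := Real.sqrt_nonneg (2 * F / N)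
  set r := √(2 * F / N)
  have he : ∀ l, |y l - y' l + α l / N| ≤ r := fun l => abs_le_of_sq_le_sq' (by
    linarith [Finset.single_le_sum (f := fun l => (y l - y' l + α l / N) ^ 2)
      (fun _ _ => sq_nonneg _) (Finset.mem_univ l)]) r0 |> abs_le.2
  have hT : |α i| ≤ ∑ l, |α l| :=
    Finset.single_le_sum (f := fun l => |α l|) (fun _ _ => abs_nonneg _) (Finset.mem_univ i)
  have rt : ∀ {z : ℂ} {a b : ℝ}, ‖z‖ ^ 2 = Real.exp a → a ≤ b → ‖z‖ ≤ Real.exp (b / 2) :=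
    fun h hab => (abs_le_of_sq_le_sq' (by
      rw [h, ← Real.exp_nat_mul]; exact Real.exp_le_exp.2 (by push_cast; linarith))
      (Real.exp_pos _).le).2
  have col : ∀ s : Mx n, ((sᴴ * s) i i).re = ∑ l, ‖s l i‖ ^ 2 := fun s => by
    rw [Matrix.mul_apply, Complex.re_sum]
    exact Finset.sum_congr rfl fun l _ => by
      rw [conjTranspose_apply, Complex.star_def, Complex.conj_mul', ← Complex.ofReal_pow,
        Complex.ofReal_re]
  have row : ∀ s : Mx n, ((sᴴ * s)⁻¹ i i).re = ∑ l, ‖s⁻¹ i l‖ ^ 2 := fun s => by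
    rw [Matrix.mul_inv_rev, ← conjTranspose_nonsing_inv, Matrix.mul_apply, Complex.re_sum]
    exact Finset.sum_congr rfl fun l _ => by
      rw [conjTranspose_apply, Complex.star_def, Complex.mul_conj', ← Complex.ofReal_pow,
        Complex.ofReal_re]
  have pos : ∀ w : Fin n → ℂ, w i ≠ 0 → 0 < ∑ l, ‖w l‖ ^ 2 := fun w h =>
    lt_of_lt_of_le (by positivity) (Finset.single_le_sum (f := fun l => ‖w l‖ ^ 2)
      (fun _ _ => sq_nonneg _) (Finset.mem_univ i))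
  have c1 := Matrix.nonsing_inv_mul t' (Ne.isUnit d2)
  constructor
  · rw [col, col]
    refine fin_RLip (pos (fun l => t l i) (nz ht i)) (pos (fun l => t' l i) (nz ht' i)) hN r0 hr
      hη (by rwa [abs_neg]) (le_trans (le_of_eq ?_) (vec_RLip (t * t'⁻¹) (fun l => t' l i)
        (Real.exp_pos _).le r0 (fun l hl => rt (hu l) ?_) (by linarith)))
    · refine Finset.sum_congr rfl fun a _ => ?_
      rw [← Matrix.mul_apply, Matrix.mul_assoc, c1, Matrix.mul_one]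
    · have := div_le_div_of_nonneg_right (hα (not_lt.1 fun h : i < l => hl (ut' h))) N0.le
      rw [neg_div]
      linarith [(abs_le.1 (he l)).2]
  · rw [row, row]
    refine fin_RLip (pos (fun l => t⁻¹ i l) (by rw [(e1 i).1]; exact inv_ne_zero (nz ht i)))
      (pos (fun l => t'⁻¹ i l) (by rw [(e2 i).1]; exact inv_ne_zero (nz ht' i))) hN r0 hr
      hη hT (le_trans (le_of_eq ?_) (vec_RLip (t' * t⁻¹)ᵀ (fun l => t'⁻¹ i l)
        (Real.exp_pos _).le r0 (fun l hl => rt (hv l) ?_) (by rw [off_tr_RLip]; linarith)))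
    · refine Finset.sum_congr rfl fun a _ => ?_
      simp only [transpose_apply, mul_comm ((t' * t⁻¹) _ a)]
      rw [← Matrix.mul_apply, ← Matrix.mul_assoc, c1, Matrix.one_mul]
    · have := div_le_div_of_nonneg_right (hα (not_lt.1 fun h : l < i => hl (i2 h))) N0.le
      linarith [(abs_le.1 (he l)).1]

theorem tele_Sub {f : ℕ → ℝ} {D : ℕ → ℕ → ℝ} {κ c : ℝ} (h0 : ∀ a, D a a = 0)
    (ha : ∀ a b, a ≤ b → D a (b + 1) = D a b + D b (b + 1))
    (h : ∀ j, f j - f (j + 1) ≤ κ + c * D j (j + 1)) (a b : ℕ) (hab : a ≤ b) :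
    f a - f b ≤ κ * ((b : ℝ) - a) + c * D a b := by
  induction b, hab using Nat.le_induction with
  | base => simp [h0]
  | succ b hb ih =>
    rw [ha a b hb]
    push_cast
    linarith [h b]

theorem fin_Sub {x y β S s N m c C0 D : ℝ} (hN : 0 < N) (hβ : |β| ≤ S) (hy0 : 0 ≤ y)
    (hy : y ≤ C0) (hc : 0 ≤ c) (hD : D ≤ C0) (m1 : -s * N ≤ m) (m2 : m ≤ (2 - s) * N)
    (h : Real.log x - Real.log y ≤ β / N * m + c * D) :
    x ≤ Real.exp (-β * s + (C0 + 2 * S + c * C0)) := by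
  refine (Real.le_exp_log x).trans (Real.exp_le_exp.2 ?_)
  have h1 := Real.log_le_self hy0
  have h2 := mul_le_mul_of_nonneg_left hD hc
  have t1 : -s ≤ m / N := (le_div_iff₀ hN).2 m1
  have t2 : m / N ≤ 2 - s := (div_le_iff₀ hN).2 m2
  rw [show β / N * m = β * (m / N) by ring] at h
  have h3 := abs_le.1 hβ
  nlinarith [mul_nonneg (sub_nonneg.2 h3.2) (show 0 ≤ m / N + s by linarith),
    mul_nonneg ((abs_nonneg β).trans hβ) (show 0 ≤ 2 - s - m / N by linarith)]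

theorem sSub (hB2 : SB2) (hK : SCpt) (hL : SLip) (hCh : SChain) (hR : SRLip) : SSub := by
  intro n A U μ σ C0 Hs H hσ hS hpos hlim η hη
  have anti : Antitone (al n σ) := fun i j hij => by
    have : (i.val : ℝ) ≤ j.val := by exact_mod_cast hij
    unfold al
    nlinarith
  obtain ⟨C, hC, hR'⟩ := hR n (al n σ) anti
  refine ⟨C0 + 2 * (∑ i, |al n σ i| + η) + C / η * C0, fun s hs i => ?_⟩
  have hS' : |al n σ i| ≤ ∑ i, |al n σ i| :=
    Finset.single_le_sum (f := fun i => |al n σ i|) (fun _ _ => abs_nonneg _) (Finset.mem_univ i)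
  have ev : ∀ᶠ N : ℕ in hyperfilter ℕ,
      IsPosHerm (Hs N ((N : ℤ) ^ 2 + ⌊s * N⌋).toNat) ∧
      (Hs N ((N : ℤ) ^ 2 + ⌊s * N⌋).toNat i i).re ≤ Real.exp (-(-al n σ i + η) * s +
        (C0 + 2 * (∑ i, |al n σ i| + η) + C / η * C0)) ∧
      ((Hs N ((N : ℤ) ^ 2 + ⌊s * N⌋).toNat)⁻¹ i i).re ≤ Real.exp (-(al n σ i + η) * s +
        (C0 + 2 * (∑ i, |al n σ i| + η) + C / η * C0)) := by
    refine Nat.hyperfilter_le_atTop ((tendsto_natCast_atTop_atTop.eventually_ge_atTop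
      (1 - s)).mono fun N hN => ?_)
    have N1 : (1 : ℝ) ≤ N := by linarith
    have N0 : (0 : ℝ) < N := by linarith
    obtain ⟨j0, y, z, sol⟩ := hS N (by exact_mod_cast N1)
    have f1 := Int.floor_le (s * N)
    have f2 := Int.lt_floor_add_one (s * N)
    have p0 : (0 : ℤ) ≤ (N : ℤ) ^ 2 + ⌊s * N⌋ := by
      have : (0 : ℝ) ≤ (N : ℝ) ^ 2 + ⌊s * N⌋ := by nlinarith
      exact_mod_cast this
    obtain ⟨a, ha⟩ := Int.eq_ofNat_of_zero_le p0
    have ha' : (N : ℝ) ^ 2 + ⌊s * N⌋ = a := by exact_mod_cast ha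
    rw [ha, Int.toNat_natCast]
    have j1 : (N : ℝ) ^ 2 ≤ j0 := by exact_mod_cast sol.j1
    have j2 : (j0 : ℝ) ≤ N ^ 2 + N := by exact_mod_cast sol.j2.le
    have sN : s * N ≤ 0 := mul_nonpos_of_nonpos_of_nonneg hs N0.le
    have aj : a ≤ j0 := by
      have : (a : ℝ) ≤ j0 := by linarith
      exact_mod_cast this
    have ch := hCh n (al n σ) N (Hs N) y N0 fun j => hL n _ _ _ _ (sol.cy j) (sol.cy (j + 1))
    have d0 : ∀ a, df (al n σ) N (Hs N) y a a = 0 := fun a => by simp [df, ip]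
    have d1 : ∀ j, df (al n σ) N (Hs N) y j (j + 1) = N / 2 * KK (Hs N j) (Hs N (j + 1))
        - ip (al n σ) (y (j + 1) - y j) + 1 / (2 * N) * ip (al n σ) (al n σ) := fun j => by
      simp [df]
    have st := fun j => hR' _ _ _ _ N η (sol.cy j) (sol.cy (j + 1)) N1 hη i
    simp only [← d1] at st
    have da := fun a b (h : a ≤ b) => (ch a b h).2.1 (b + 1) b.le_succ
    obtain ⟨b1, b2, b3, b4⟩ := (hB2 n _ _ 0 1 (sol.pos j0) (sol.pos j0)
      (by simp)).2.2.2.2.2.2.2.2.2.2 i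
    have b5 : 0 ≤ ((Hs N j0)⁻¹ i i).re := by
      by_contra c
      nlinarith
    have c0 : 0 ≤ C / η := by positivity
    refine ⟨sol.pos a, fin_Sub N0 ?_ b1.le (b2.trans sol.t0) c0 (sol.dl a aj) (by linarith)
      (by linarith) (tele_Sub (f := fun j => Real.log (Hs N j i i).re) d0 da
        (fun j => (st j).1) a j0 aj), fin_Sub N0 ?_ b5 (b3.trans sol.t0) c0 (sol.dl a aj)
      (by linarith) (by linarith) (tele_Sub (f := fun j => Real.log ((Hs N j)⁻¹ i i).re) d0 da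
        (fun j => (st j).2) a j0 aj)⟩
    · refine (abs_add_le _ _).trans ?_
      rw [abs_neg, abs_of_pos hη]
      linarith
    · refine (abs_add_le _ _).trans ?_
      rw [abs_of_pos hη]
      linarith
  have ce : Continuous fun M : Mx n => (M i i).re :=
    Complex.continuous_re.comp (continuous_id.matrix_elem i i)
  have l2 := ((hK n 0).2.2.1 (H s) (hpos s)).tendsto.comp
    (tendsto_nhdsWithin_iff.2 ⟨hlim s, ev.mono fun N h => h.1⟩)
  constructor
  · refine (le_of_tendsto ((ce.tendsto _).comp (hlim s)) (ev.mono fun N h => h.2.1)).trans_eq ?_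
    congr 1
    ring
  · refine (le_of_tendsto ((ce.tendsto _).comp l2) (ev.mono fun N h => h.2.2)).trans_eq ?_
    congr 1
    ring

end Pool.Agent.MP_4f0bc7_gt.Od
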