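import Pool.Agent.MP_4f0bc7_gt.Od.St

namespace Pool.Agent.MP_4f0bc7_gt.Od

open Matrix Filter Topology Polynomial

lemma mono_Cvx0 {f f' : ℝ → ℝ} {a : ℝ} (hd : ∀ s, HasDerivAt f (f' s) s)
    (h : ∀ s ≤ a, 0 ≤ f' s) : MonotoneOn f (Set.Iic a) :=
  monotoneOn_of_hasDerivWithinAt_nonneg (f' := f') (convex_Iic a)
    (fun s _ => (hd s).continuousAt.continuousWithinAt) (fun s _ => (hd s).hasDerivWithinAt)
    fun s hs => h s (Set.mem_Iic.1 (interior_subset hs))

theorem sCvx0 : SCvx0 := by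
  intro u u' u'' C κ hκ h1 h2 h3 h4
  have de : ∀ s, HasDerivAt (fun t => Real.exp (κ * t)) (Real.exp (κ * s) * κ) s := fun s => by
    simpa using ((hasDerivAt_id s).const_mul κ).exp
  have d1 : ∀ s, HasDerivAt (fun t => u t + C / κ ^ 2 * Real.exp (κ * t))
      (u' s + C / κ * Real.exp (κ * s)) s := fun s =>
    ((h1 s).add ((de s).const_mul (C / κ ^ 2))).congr_deriv (by field_simp)
  have d2 : ∀ s, HasDerivAt (fun t => u' t + C / κ * Real.exp (κ * t))
      (u'' s + C * Real.exp (κ * s)) s := fun s =>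
    ((h2 s).add ((de s).const_mul (C / κ))).congr_deriv (by field_simp)
  have m2 := mono_Cvx0 (a := 0) d2 fun s hs => by linarith [h3 s hs]
  have bd : ∀ s ≤ (0 : ℝ), |C / κ ^ 2 * Real.exp (κ * s)| ≤ |C / κ ^ 2| := fun s hs => by
    rw [abs_mul, abs_of_pos (Real.exp_pos _)]
    exact mul_le_of_le_one_right (abs_nonneg _)
      (Real.exp_le_one_iff.2 (mul_nonpos_of_nonneg_of_nonpos hκ.le hs))
  have p1 : ∀ s ≤ (0 : ℝ), 0 ≤ u' s + C / κ * Real.exp (κ * s) := by
    intro a ha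
    by_contra hm
    obtain ⟨m, em⟩ : ∃ m, m = u' a + C / κ * Real.exp (κ * a) := ⟨_, rfl⟩
    have m0 : m < 0 := by rw [em]; exact not_le.1 hm
    have d3 : ∀ s, HasDerivAt (fun t => m * t - (u t + C / κ ^ 2 * Real.exp (κ * t)))
        (m - (u' s + C / κ * Real.exp (κ * s))) s := fun s =>
      (((hasDerivAt_id s).const_mul m).sub (d1 s)).congr_deriv (by ring)
    have m3 := mono_Cvx0 (a := a) d3 fun s hs => by
      have := m2 (hs.trans ha) ha hs
      simp only at this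
      linarith
    obtain ⟨B, hB⟩ := h4 (-m / 2) (by linarith)
    obtain ⟨L, eL⟩ : ∃ L, L = |B + |C / κ ^ 2| + (m * a - (u a + C / κ ^ 2 * Real.exp (κ * a)))| :=
      ⟨_, rfl⟩
    have s1 := min_le_left a ((L + 1) * 2 / m)
    have s2 := min_le_right a ((L + 1) * 2 / m)
    rw [le_div_iff_of_neg m0] at s2
    have a1 := m3 s1 (Set.mem_Iic.2 le_rfl) s1
    have a2 := hB _ (s1.trans ha)
    have a3 := (abs_le.1 (bd _ (s1.trans ha))).2
    have a4 := eL ▸ le_abs_self (B + |C / κ ^ 2| + (m * a - (u a + C / κ ^ 2 * Real.exp (κ * a))))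
    simp only at a1
    linarith
  have m1 := mono_Cvx0 (a := 0) d1 p1
  refine ⟨u 0 + C / κ ^ 2 * Real.exp (κ * 0) + |C / κ ^ 2|, fun s hs => ?_⟩
  have a1 := m1 hs (Set.mem_Iic.2 le_rfl) hs
  have a3 := (abs_le.1 (bd _ hs)).1
  simp only at a1
  linarith

theorem col_CvxA {n : ℕ} (X : Mx n) (i : Fin n) : ((Xᴴ * X) i i).re = ∑ a, ‖X a i‖ ^ 2 := by
  rw [Matrix.mul_apply, Complex.re_sum]
  refine Finset.sum_congr rfl fun a _ => ?_
  rw [conjTranspose_apply, Complex.star_def, Complex.conj_mul', ← Complex.ofReal_pow,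
    Complex.ofReal_re]

theorem cs_CvxA {n : ℕ} (X Y : Mx n) (i : Fin n) :
    ((Xᴴ * Y) i i).re ^ 2 ≤ ((Xᴴ * X) i i).re * ((Yᴴ * Y) i i).re := by
  rw [col_CvxA, col_CvxA]
  have h := cs_Fro (fun a => star (X a i)) (fun a => Y a i)
  simp only [norm_star] at h
  refine le_trans ?_ h
  rw [← sq_abs]
  exact pow_le_pow_left₀ (abs_nonneg _) (Complex.abs_re_le_norm _) 2

theorem sup_CvxA {n : ℕ} (g A : Mx n) (i : Fin n) : (((g * A)ᴴ * (g * A)) i i).re ≤
    fro A * ∑ l ∈ Finset.univ.filter fun l => A l i ≠ 0, ((gᴴ * g) l l).re := by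
  have h1 : ∑ l, ‖A l i‖ ^ 2 ≤ fro A := by
    rw [sum_Fro]
    exact Finset.sum_le_sum fun l _ => Finset.single_le_sum (f := fun b => ‖A l b‖ ^ 2)
      (fun _ _ => by positivity) (Finset.mem_univ i)
  simp only [col_CvxA]
  rw [Finset.sum_comm, Finset.mul_sum]
  refine Finset.sum_le_sum fun a _ => ?_
  have h := cs_Fro (fun l => if A l i ≠ 0 then g a l else 0) (fun l => A l i)
  have e1 : ∑ l, (if A l i ≠ 0 then g a l else 0) * A l i = (g * A) a i := by
    rw [Matrix.mul_apply]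
    refine Finset.sum_congr rfl fun l _ => ?_
    by_cases k : A l i = 0 <;> simp [k]
  have e2 : ∑ l, ‖if A l i ≠ 0 then g a l else 0‖ ^ 2 =
      ∑ l ∈ Finset.univ.filter fun l => A l i ≠ 0, ‖g a l‖ ^ 2 := by
    rw [Finset.sum_filter]
    refine Finset.sum_congr rfl fun l _ => ?_
    by_cases k : A l i = 0 <;> simp [k]
  rw [e1, e2] at h
  rw [mul_comm]
  exact h.trans (mul_le_mul_of_nonneg_left h1 (by positivity))

theorem sCvxA (hB2 : SB2) : SCvxA := by
  intro n A H P hO i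
  refine ⟨fun s => ((H s * P s) i i).re, fun s => ((H s * P s * P s) i i).re +
    4 * Real.exp (2 * s) * ((H s * br A (H s)) i i).re, fun s => ⟨?_, ?_, ?_⟩⟩
  · exact Complex.reCLM.hasFDerivAt.comp_hasDerivAt s ((hO s).2.1 i i)
  · have d : HasDerivAt (fun t => ∑ l, H t i l * P t l i)
        (∑ l, ((H s * P s) i l * P s l i +
          H s i l * (((4 * Real.exp (2 * s) : ℝ) : ℂ) * br A (H s) l i))) s :=
      HasDerivAt.fun_sum fun l _ => ((hO s).2.1 i l).mul ((hO s).2.2 l i)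
    have d2 := Complex.reCLM.hasFDerivAt.comp_hasDerivAt s d
    refine HasDerivAt.congr_deriv (f := fun s => ((H s * P s) i i).re) d2 ?_
    simp only []
    rw [Complex.reCLM_apply, ← Complex.re_ofReal_mul, ← Complex.add_re, Finset.sum_add_distrib,
      Matrix.mul_apply (M := H s * P s), Matrix.mul_apply (M := H s), Finset.mul_sum]
    congr 2
    exact Finset.sum_congr rfl fun l _ => by ring
  · have hh : (H s)ᴴ = H s := (hO s).1.1
    have hp : (H s * P s)ᴴ = H s * P s := by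
      ext a b
      have d1 := ((hO s).2.1 b a).star
      have e : (fun t => star (H t b a)) = fun t => H t a b := funext fun t => by
        rw [← conjTranspose_apply, (hO t).1.1]
      rw [e] at d1
      exact d1.unique ((hO s).2.1 a b)
    obtain ⟨hd, ⟨g, gd, ge⟩, -⟩ := hB2 n (H s) (H s) A 1 (hO s).1 (hO s).1 (by simp)
    have hi : H s * (H s)⁻¹ = 1 := mul_nonsing_inv _ (isUnit_iff_ne_zero.2 hd)
    have e1 : H s * P s * P s = (g * P s)ᴴ * (g * P s) := by
      rw [← hp, conjTranspose_mul, hh, conjTranspose_mul, ge]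
      simp only [Matrix.mul_assoc]
    have e2 : H s * P s = gᴴ * (g * P s) := by rw [ge, Matrix.mul_assoc]
    have e3 : (H s)⁻¹ = g⁻¹ * g⁻¹ᴴ := by rw [ge, Matrix.mul_inv_rev, conjTranspose_nonsing_inv]
    have e4 : H s * br A (H s) =
        (g⁻¹ᴴ * Aᴴ * H s)ᴴ * (g⁻¹ᴴ * Aᴴ * H s) - (g * A)ᴴ * (g * A) := by
      have x : (g * A)ᴴ * (g * A) = Aᴴ * H s * A := by
        rw [conjTranspose_mul, ge]
        simp only [Matrix.mul_assoc]
      have y : (g⁻¹ᴴ * Aᴴ * H s)ᴴ * (g⁻¹ᴴ * Aᴴ * H s) = H s * A * (H s)⁻¹ * Aᴴ * H s := by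
        rw [e3]
        simp only [conjTranspose_mul, conjTranspose_conjTranspose, hh, Matrix.mul_assoc]
      rw [x, y, br, adj, Matrix.mul_sub]
      simp only [← Matrix.mul_assoc, hi, Matrix.one_mul]
    have c1 := cs_CvxA g (g * P s) i
    have c2 := sup_CvxA g A i
    have c3 : 0 ≤ (((g⁻¹ᴴ * Aᴴ * H s)ᴴ * (g⁻¹ᴴ * Aᴴ * H s)) i i).re := by
      rw [col_CvxA]; positivity
    have c4 : 0 ≤ (H s i i).re * (4 * Real.exp (2 * s)) := by
      rw [ge, col_CvxA]; positivity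
    rw [← e1, ← e2, ← ge] at c1
    rw [← ge] at c2
    simp only []
    rw [e4, Matrix.sub_apply, Complex.sub_re]
    have c5 := mul_le_mul_of_nonneg_left c2 c4
    have c6 := mul_nonneg c4 c3
    nlinarith

theorem sCvx (hB2 : SB2) (h0 : SCvx0) (hA : SCvxA) : SCvx := by
  intro n A H P σ s0 s1 hz ho hx
  rcases Nat.eq_zero_or_pos n with rfl | hn
  · exact ⟨0, fun s _ i => i.elim0⟩
  have : Nonempty (Fin n) := ⟨⟨0, hn⟩⟩
  choose h' h'' hh using hA n A H P ho
  have hp : ∀ s i, 0 < (H s i i).re := fun s i =>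
    ((hB2 n (H s) (H s) A 1 (ho s).1 (ho s).1 (by simp)).2.2.2.2.2.2.2.2.2.2 i).1
  let e : Fin n → ℝ → ℝ := fun i s => Real.exp (-al n σ i * s)
  have ep : ∀ i s, 0 < e i s := fun i s => Real.exp_pos _
  have de : ∀ i s, HasDerivAt (e i) (e i s * -al n σ i) s := fun i s =>
    ((hasDerivAt_id' s).const_mul (-al n σ i)).exp.congr_deriv (by rw [mul_one])
  let y : Fin n → ℝ → ℝ := fun i s => e i s * (H s i i).re
  let y1 : Fin n → ℝ → ℝ := fun i s => e i s * (h' i s - al n σ i * (H s i i).re)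
  let y2 : Fin n → ℝ → ℝ := fun i s =>
    e i s * (h'' i s - 2 * al n σ i * h' i s + al n σ i ^ 2 * (H s i i).re)
  have yp : ∀ i s, 0 < y i s := fun i s => mul_pos (ep i s) (hp s i)
  have d1 : ∀ i s, HasDerivAt (y i) (y1 i s) s := fun i s =>
    ((de i s).fun_mul (hh i s).1).congr_deriv (by simp only [y1]; ring)
  have d2 : ∀ i s, HasDerivAt (y1 i) (y2 i s) s := fun i s =>
    ((de i s).fun_mul ((hh i s).2.1.fun_sub ((hh i s).1.const_mul (al n σ i)))).congr_deriv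
      (by simp only [y2]; ring)
  have tp : ∀ s, 0 < ∑ i, y i s := fun s =>
    Finset.sum_pos (fun i _ => yp i s) Finset.univ_nonempty
  have fA := nonneg_Fro A
  have k1 : ∀ s ≤ (0 : ℝ), ∀ i, y1 i s ^ 2 / y i s -
      4 * fro A * Real.exp (2 * (1 - σ) * s) * ∑ l, y l s ≤ y2 i s := fun s hs i => by
    have b1 : Real.exp (2 * s) * e i s *
        ∑ l ∈ Finset.univ.filter fun l => A l i ≠ 0, (H s l l).re ≤
        Real.exp (2 * (1 - σ) * s) * ∑ l, y l s := by
      rw [Finset.mul_sum, Finset.mul_sum]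
      refine le_trans (Finset.sum_le_sum fun l hl => ?_) (Finset.sum_le_sum_of_subset_of_nonneg
        (Finset.filter_subset _ _) fun l _ _ => (mul_pos (Real.exp_pos _) (yp l s)).le)
      have h1 : l.val ≤ i.val + 1 := not_lt.1 fun h => (Finset.mem_filter.1 hl).2 (hz l i h)
      have h2 : (l.val : ℝ) ≤ i.val + 1 := by exact_mod_cast h1
      simp only [y, e]
      rw [← mul_assoc, ← Real.exp_add, ← Real.exp_add]
      refine mul_le_mul_of_nonneg_right (Real.exp_le_exp.2 ?_) (hp s l).le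
      simp only [al]
      nlinarith [mul_nonneg (mul_nonneg s0.le (neg_nonneg.2 hs)) (sub_nonneg.2 h2)]
    rw [sub_le_iff_le_add, div_le_iff₀ (yp i s)]
    have b2 := mul_le_mul_of_nonneg_left (hh i s).2.2 (sq_nonneg (e i s))
    have b3 := mul_le_mul_of_nonneg_left b1 (mul_nonneg (mul_nonneg zero_le_four fA) (yp i s).le)
    simp only [y1, y2, y] at b3 ⊢
    nlinarith
  obtain ⟨B, hB⟩ := h0 (fun s => Real.log (∑ i, y i s)) (fun s => (∑ i, y1 i s) / ∑ i, y i s)
    (fun s => ((∑ i, y2 i s) * (∑ i, y i s) - (∑ i, y1 i s) * ∑ i, y1 i s) / (∑ i, y i s) ^ 2)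
    (4 * n * fro A) (2 * (1 - σ)) (by linarith)
    (fun s => (HasDerivAt.fun_sum fun i _ => d1 i s).log (tp s).ne')
    (fun s => (HasDerivAt.fun_sum fun i _ => d2 i s).div
      (HasDerivAt.fun_sum fun i _ => d1 i s) (tp s).ne')
    (fun s hs => by
      have c1 := Finset.sum_le_sum fun i (_ : i ∈ Finset.univ) => k1 s hs i
      have c2 := Finset.sq_sum_div_le_sum_sq_div Finset.univ (fun i => y1 i s)
        (fun i _ => yp i s)
      rw [Finset.sum_sub_distrib, Finset.sum_const, Finset.card_univ, Fintype.card_fin,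
        nsmul_eq_mul] at c1
      rw [div_le_iff₀ (tp s)] at c2
      rw [le_div_iff₀ (pow_pos (tp s) 2)]
      nlinarith [mul_le_mul_of_nonneg_right c1 (tp s).le])
    (fun η hη => by
      obtain ⟨C, hC⟩ := hx η hη
      refine ⟨Real.log n + C, fun s hs => ?_⟩
      have hn' : (0 : ℝ) < n := Nat.cast_pos.2 hn
      rw [Real.log_le_iff_le_exp (tp s), add_sub_assoc, Real.exp_add, Real.exp_log hn']
      refine (Finset.sum_le_card_nsmul _ _ (Real.exp (C - η * s)) fun i _ => ?_).trans_eq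
        (by simp)
      refine (mul_le_mul_of_nonneg_left (hC s hs i) (ep i s).le).trans_eq ?_
      rw [← Real.exp_add]
      congr 1
      ring)
  refine ⟨Real.exp B, fun s hs i => ?_⟩
  have c1 := (Finset.single_le_sum (fun l _ => (yp l s).le) (Finset.mem_univ i)).trans
    ((Real.log_le_iff_le_exp (tp s)).1 (hB s hs))
  have c2 : (H s i i).re = y i s * Real.exp (al n σ i * s) := by
    simp only [y, e]
    rw [mul_right_comm, ← Real.exp_add]
    simp
  rw [c2]
  exact mul_le_mul_of_nonneg_right c1 (Real.exp_pos _).le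

theorem al_rev_Cvx (n : ℕ) (σ : ℝ) (i : Fin n) : al n σ i.rev = -al n σ i := by
  simp only [al, Fin.val_rev]
  rw [Nat.cast_sub (Nat.succ_le_of_lt i.2)]
  push_cast
  ring

theorem sBd (hCv : SCvx) (hD : SDual) : SBd := by
  intro n A H P σ s0 s1 hA ho hx
  obtain ⟨C, hC⟩ := hCv n A H P σ s0 s1 hA.1 ho fun η hη =>
    (hx η hη).imp fun C h s hs i => (h s hs i).1
  obtain ⟨D, hD'⟩ := hCv n _ _ _ σ s0 s1 (fun a b h => hA.1 b.rev a.rev (by
    have := a.2
    simp only [Fin.val_rev]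
    omega)) (hD n A H P ho) fun η hη =>
    (hx η hη).imp fun C h s hs i => by
      have := (h s hs i.rev).2
      rwa [al_rev_Cvx, neg_neg] at this
  refine ⟨max C D, fun s hs i => ⟨(hC s hs i).trans
    (mul_le_mul_of_nonneg_right (le_max_left _ _) (Real.exp_pos _).le), ?_⟩⟩
  have := hD' s hs i.rev
  rw [al_rev_Cvx] at this
  simp only [fl, Matrix.of_apply, Fin.rev_rev] at this
  exact this.trans (mul_le_mul_of_nonneg_right (le_max_right _ _) (Real.exp_pos _).le)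

theorem fl_eq_Dual {n : ℕ} (X : Mx n) : fl X = Xᵀ.submatrix Fin.revPerm Fin.revPerm := rfl

theorem fl_mul_Dual {n : ℕ} (X Y : Mx n) : fl (X * Y) = fl Y * fl X := by
  rw [fl_eq_Dual, fl_eq_Dual, fl_eq_Dual, submatrix_mul_equiv, transpose_mul]

theorem fl_inv_Dual {n : ℕ} (X : Mx n) : (fl X)⁻¹ = fl X⁻¹ := by
  rw [fl_eq_Dual, fl_eq_Dual, inv_submatrix_equiv, transpose_nonsing_inv]

theorem fl_star_Dual {n : ℕ} (X : Mx n) : (fl X)ᴴ = fl Xᴴ := rfl

theorem fl_det_Dual {n : ℕ} (X : Mx n) : (fl X).det = X.det := by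
  rw [fl_eq_Dual, det_submatrix_equiv_self, det_transpose]

theorem one_Dual (n : ℕ) : IsPosHerm (1 : Mx n) := by
  refine ⟨conjTranspose_one, fun v hv => ?_⟩
  rw [one_mulVec]
  open scoped ComplexOrder in
  exact (Complex.pos_iff.1 (dotProduct_star_self_pos_iff.2 hv)).1

theorem fl_pos_Dual (hB2 : SB2) {n : ℕ} {X : Mx n} (h : IsPosHerm X) : IsPosHerm (fl X) := by
  obtain ⟨-, ⟨g, hg, rfl⟩, -⟩ := hB2 n X X X 1 h h (by simp)
  have a : (fl gᴴ).det ≠ 0 := by rw [fl_det_Dual, det_conjTranspose]; exact star_ne_zero.2 hg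
  have b := (hB2 n 1 1 1 (fl gᴴ) (one_Dual n) (one_Dual n) a).2.2.1
  rwa [Matrix.mul_one, fl_star_Dual, conjTranspose_conjTranspose, ← fl_mul_Dual] at b

theorem br_Dual {n : ℕ} (A H : Mx n) (h : H.det ≠ 0) : br (fl A) (fl H⁻¹) = -fl (br A H) := by
  have e : adj (fl H⁻¹) (fl A) = fl (adj H A) := by
    unfold adj
    rw [fl_inv_Dual, nonsing_inv_nonsing_inv _ (Ne.isUnit h), fl_star_Dual, fl_mul_Dual,
      fl_mul_Dual, Matrix.mul_assoc]
  unfold br
  rw [e, ← fl_mul_Dual, ← fl_mul_Dual]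
  ext a b
  simp [fl]

open scoped Matrix.Norms.Operator in
theorem inv_deriv_Dual {n : ℕ} (H : ℝ → Mx n) (D : Mx n) (s : ℝ) (h : (H s).det ≠ 0)
    (hd : ∀ a b, HasDerivAt (fun t => H t a b) (D a b) s) (a b : Fin n) :
    HasDerivAt (fun t => (H t)⁻¹ a b) ((-((H s)⁻¹ * D * (H s)⁻¹)) a b) s := by
  have h1 : HasDerivAt H D s := hasDerivAt_pi.2 fun a => hasDerivAt_pi.2 fun b => hd a b
  obtain ⟨u, hu⟩ := (isUnit_iff_isUnit_det _).2 (Ne.isUnit h)
  have h2 := hasFDerivAt_ringInverse (𝕜 := ℝ) u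
  rw [hu] at h2
  have h3 := h2.comp_hasDerivAt s h1
  have h4 : HasDerivAt (fun t => (H t)⁻¹) (-((H s)⁻¹ * D * (H s)⁻¹)) s := by
    have e1 : (fun t => (H t)⁻¹) = Ring.inverse ∘ H := funext fun t => nonsing_inv_eq_ringInverse _
    rw [e1, ← hu, ← coe_units_inv]
    exact h3
  exact hasDerivAt_pi.1 (hasDerivAt_pi.1 h4 a) b

theorem sDual (hB2 : SB2) : SDual := by
  intro n A H P h s
  obtain ⟨p, d1, d2⟩ := h s
  obtain ⟨hd, -, -, -, -, -, q, -⟩ := hB2 n (H s) (H s) A 1 p p (by simp)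
  refine ⟨fl_pos_Dual hB2 q, fun a b => ?_, fun a b => ?_⟩
  · have := inv_deriv_Dual H _ s hd d1 b.rev a.rev
    rw [nonsing_inv_mul_cancel_left _ _ (Ne.isUnit hd)] at this
    beta_reduce
    rw [Matrix.mul_neg, ← fl_mul_Dual]
    exact this
  · beta_reduce
    rw [br_Dual A _ hd, neg_apply, mul_neg]
    exact (d2 b.rev a.rev).neg

theorem diag_Tr {n : ℕ} (X : Mx n) (i : Fin n) : ((Xᴴ * X) i i).re = ∑ a, ‖X a i‖ ^ 2 := by
  rw [Matrix.mul_apply, Complex.re_sum]
  refine Finset.sum_congr rfl fun a _ => ?_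
  rw [conjTranspose_apply, Complex.star_def, Complex.conj_mul']
  norm_cast

theorem key_Tr {n : ℕ} (g w : Mx n) (i : Fin n) (M : ℝ) (hM : 0 ≤ M)
    (h : ∀ l, w l i ≠ 0 → ((gᴴ * g) l l).re ≤ M) :
    ((wᴴ * (gᴴ * g) * w) i i).re ≤ fro w * (n * M) := by
  rw [show wᴴ * (gᴴ * g) * w = (g * w)ᴴ * (g * w) by
    rw [conjTranspose_mul]; simp only [Matrix.mul_assoc], diag_Tr]
  have h1 : ∀ a, ‖(g * w) a i‖ ^ 2
      ≤ fro w * ∑ l, ‖if w l i = 0 then 0 else g a l‖ ^ 2 := by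
    intro a
    have h2 : (g * w) a i = ∑ l, w l i * if w l i = 0 then 0 else g a l := by
      rw [Matrix.mul_apply]
      refine Finset.sum_congr rfl fun l _ => ?_
      split_ifs with h3
      · rw [h3, mul_zero, mul_zero]
      · rw [mul_comm]
    rw [h2]
    refine (cs_Fro _ _).trans (mul_le_mul_of_nonneg_right ?_ (by positivity))
    rw [sum_Fro]
    exact Finset.sum_le_sum fun l _ =>
      Finset.single_le_sum (f := fun b => ‖w l b‖ ^ 2) (fun b _ => sq_nonneg _) (Finset.mem_univ i)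
  refine (Finset.sum_le_sum fun a _ => h1 a).trans ?_
  rw [← Finset.mul_sum, Finset.sum_comm]
  refine mul_le_mul_of_nonneg_left ?_ (nonneg_Fro w)
  refine (Finset.sum_le_card_nsmul _ _ M fun l _ => ?_).trans (by simp)
  by_cases h3 : w l i = 0
  · simpa [h3] using hM
  · simpa only [if_neg h3, diag_Tr] using h l h3

theorem sTr (hB2 : SB2) (hU : SUT) : STr := by
  rintro n r H σ hσ hr hr0 hH ⟨C, hC⟩
  obtain ⟨-, hri, -⟩ := hU n r r hr hr hr0
  have a0 := nonneg_Fro r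
  have a1 := nonneg_Fro r⁻¹ᴴ
  have hm : 0 ≤ max 0 C := le_max_left _ _
  have hal : ∀ l i : Fin n, l ≤ i → ∀ s ≤ (0 : ℝ), al n σ l * s ≤ al n σ i * s := by
    intro l i h s hs
    have h1 : ((l.val : ℕ) : ℝ) ≤ i.val := by exact_mod_cast h
    refine mul_le_mul_of_nonpos_right ?_ hs
    exact mul_le_mul_of_nonneg_left (by linarith) hσ.le
  refine ⟨(fro r + fro r⁻¹ᴴ) * (n * max 0 C), fun s hs i => ⟨?_, ?_⟩⟩
  · obtain ⟨-, ⟨g, -, hg⟩, -⟩ := hB2 n (H s) (H s) 1 1 (hH s) (hH s) (by simp)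
    have h1 := key_Tr g r i (max 0 C * Real.exp (al n σ i * s)) (by positivity) fun l hl => by
      rw [← hg]
      exact (hC s hs l).1.trans (mul_le_mul (le_max_right _ _) (Real.exp_le_exp.2
        (hal l i (not_lt.1 fun h => hl (hr h)) s hs)) (Real.exp_pos _).le hm)
    rw [← hg] at h1
    refine h1.trans ?_
    have h2 : 0 ≤ fro r⁻¹ᴴ * (n * (max 0 C * Real.exp (al n σ i * s))) := by positivity
    nlinarith
  · obtain ⟨-, -, -, -, -, -, hi, -⟩ := hB2 n (H s) (H s) 1 1 (hH s) (hH s) (by simp)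
    obtain ⟨-, ⟨g, -, hg⟩, -⟩ := hB2 n _ _ 1 1 hi hi (by simp)
    have h1 := key_Tr g r⁻¹ᴴ i (max 0 C * Real.exp (-al n σ i * s)) (by positivity) fun l hl => by
      rw [← hg]
      have h3 : i ≤ l := not_lt.1 fun h => hl (by rw [conjTranspose_apply, hri h, star_zero])
      exact (hC s hs l).2.trans (mul_le_mul (le_max_right _ _) (Real.exp_le_exp.2
        (by linarith [hal i l h3 s hs])) (Real.exp_pos _).le hm)
    rw [← hg, conjTranspose_conjTranspose] at h1
    rw [Matrix.mul_inv_rev, Matrix.mul_inv_rev, ← Matrix.mul_assoc, ← conjTranspose_nonsing_inv]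
    refine h1.trans ?_
    have h2 : 0 ≤ fro r * (n * (max 0 C * Real.exp (-al n σ i * s))) := by positivity
    nlinarith

theorem conj_Inv {n : ℕ} (X Y : Mx n) {F : ℝ → Mx n} {F' : Mx n} {s : ℝ}
    (h : ∀ a b, HasDerivAt (fun t => F t a b) (F' a b) s) (a b : Fin n) :
    HasDerivAt (fun t => (X * F t * Y) a b) ((X * F' * Y) a b) s := by
  simp only [Matrix.mul_apply]
  exact HasDerivAt.fun_sum fun l _ =>
    (HasDerivAt.fun_sum fun k _ => (h k l).const_mul (X a k)).mul_const (Y l b)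

theorem sInv (hB2 : SB2) : SInv := by
  intro n A B H P hB h s
  obtain ⟨h0, h1, h2⟩ := h s
  obtain ⟨-, -, p, -, -, e, -⟩ := hB2 n (H s) (H s) A B h0 h0 hB
  have b : ∀ X : Mx n, B * (B⁻¹ * X) = X := fun X => by
    rw [← Matrix.mul_assoc, Matrix.mul_nonsing_inv _ hB.isUnit, Matrix.one_mul]
  refine ⟨p, fun a c => ?_, fun a c => ?_⟩
  · have e1 : Bᴴ * H s * B * (B⁻¹ * P s * B) = Bᴴ * (H s * P s) * B := by
      simp only [Matrix.mul_assoc, b]
    dsimp only
    rw [e1]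
    exact conj_Inv _ _ h1 a c
  · have t := conj_Inv B⁻¹ B (F := P) (F' := ((4 * Real.exp (2 * s) : ℝ) : ℂ) • br A (H s)) h2 a c
    rw [Matrix.mul_smul, Matrix.smul_mul, ← e] at t
    exact t

lemma chain_Rad {c z : ℂ} {l : ℂ → ℝ} {g : ℝ → ℂ} {g' : ℂ} (hl : DifferentiableAt ℝ l z)
    (hg : HasDerivAt g g' (l z)) : DifferentiableAt ℝ (fun w => g (l w)) z ∧
    wd c (fun w => g (l w)) z = wd c (fun w => ((l w : ℝ) : ℂ)) z * g' := by
  have h := hg.hasFDerivAt.comp z hl.hasFDerivAt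
  have k := Complex.ofRealCLM.hasFDerivAt.comp z hl.hasFDerivAt
  refine ⟨h.differentiableAt, ?_⟩
  have h' := wd_of_hasFDerivAt (c := c) h
  have k' := wd_of_hasFDerivAt (c := c) k
  change wd c (fun w => g (l w)) z = _ at h'
  change wd c (fun w => ((l w : ℝ) : ℂ)) z = _ at k'
  rw [h', k']
  simp
  ring

lemma exp_Rad {u : ℂ} (hu : u ≠ 0) :
    ((Real.exp (2 * Real.log ‖u‖) : ℝ) : ℂ) = u * (starRingEnd ℂ) u := by
  rw [← ofReal_normSq_KO, two_mul, Real.exp_add, Real.exp_log (norm_pos_iff.2 hu), sq]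

lemma log_Rad {z φ' : ℂ} {φ : ℂ → ℂ} (h : HasDerivAt φ φ' z) (h0 : φ z ≠ 0) :
    DifferentiableAt ℝ (fun w => Real.log ‖φ w‖) z ∧
    dz (fun w => ((Real.log ‖φ w‖ : ℝ) : ℂ)) z = φ' / (2 * φ z) ∧
    dzb (fun w => ((Real.log ‖φ w‖ : ℝ) : ℂ)) z = (starRingEnd ℂ) (φ' / (2 * φ z)) := by
  have hd : DifferentiableAt ℝ φ z := h.differentiableAt.restrictScalars ℝ
  have hl : DifferentiableAt ℝ (fun w => Real.log ‖φ w‖) z :=
    (hd.norm ℝ h0).log (norm_ne_zero_iff.2 h0)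
  have hg : HasDerivAt (fun t : ℝ => ((Real.exp (2 * t) : ℝ) : ℂ))
      ((Real.exp (2 * Real.log ‖φ z‖) * 2 : ℝ) : ℂ) (Real.log ‖φ z‖) := by
    have := ((hasDerivAt_id (Real.log ‖φ z‖)).const_mul 2).exp.ofReal_comp
    simpa using this
  have e := (chain_Rad (c := -Complex.I) hl hg).2
  have ev : (fun w => ((Real.exp (2 * Real.log ‖φ w‖) : ℝ) : ℂ)) =ᶠ[𝓝 z]
      fun w => φ w * (starRingEnd ℂ) (φ w) := by
    filter_upwards [h.continuousAt.eventually_ne h0] with w hw using exp_Rad hw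
  rw [wd_congr ev, wd_mul hd (differentiableAt_conj hd), ← dz_eq, ← dz_eq, ← dz_eq, dz_holo h,
    dz_conj hd, dzb_holo h.differentiableAt, Complex.ofReal_mul, exp_Rad h0] at e
  have hc : (starRingEnd ℂ) (φ z) ≠ 0 := by simpa using h0
  have e1 : dz (fun w => ((Real.log ‖φ w‖ : ℝ) : ℂ)) z = φ' / (2 * φ z) := by
    rw [eq_div_iff (mul_ne_zero two_ne_zero h0)]
    apply mul_right_cancel₀ hc
    simp only [map_zero, mul_zero, add_zero, Complex.ofReal_ofNat] at e
    rw [e]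
    ring
  refine ⟨hl, e1, ?_⟩
  have hr : DifferentiableAt ℝ (fun w => ((Real.log ‖φ w‖ : ℝ) : ℂ)) z :=
    Complex.ofRealCLM.differentiableAt.comp z hl
  have := dzb_conj hr
  simp only [Complex.conj_ofReal] at this
  rw [this, e1]

lemma smooth_Rad (hK : SCpt) {n : ℕ} {A : Mx n} {H P : ℝ → Mx n} (hO : Ode A H P) (a b : Fin n) :
    ContDiff ℝ 2 fun t => H t a b := by
  have dH : ∀ a b, Differentiable ℝ fun t => H t a b := fun a b s =>
    ((hO s).2.1 a b).differentiableAt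
  have dP : ∀ a b, Differentiable ℝ fun t => P t a b := fun a b s =>
    ((hO s).2.2 a b).differentiableAt
  have cH : Continuous H := continuous_matrix fun a b => (dH a b).continuous
  have cP : Continuous P := continuous_matrix fun a b => (dP a b).continuous
  have cB : Continuous fun s => br A (H s) :=
    ((hK n 0).2.2.2 A).comp_continuous cH fun s => (hO s).1
  have eH : ∀ a b, deriv (fun t => H t a b) = fun s => ∑ c, H s a c * P s c b := fun a b => by
    funext s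
    rw [((hO s).2.1 a b).deriv, Matrix.mul_apply]
  have P1 : ∀ a b, ContDiff ℝ 1 fun t => P t a b := fun a b => by
    refine contDiff_one_iff_deriv.2 ⟨dP a b, ?_⟩
    have : deriv (fun t => P t a b) =
        fun s => ((4 * Real.exp (2 * s) : ℝ) : ℂ) * br A (H s) a b := by
      funext s
      exact ((hO s).2.2 a b).deriv
    rw [this]
    exact (Complex.continuous_ofReal.comp (by fun_prop)).mul (cB.matrix_elem a b)
  have H1 : ∀ a b, ContDiff ℝ 1 fun t => H t a b := fun a b => by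
    refine contDiff_one_iff_deriv.2 ⟨dH a b, ?_⟩
    rw [eH]
    exact continuous_finsetSum _ fun c _ => (cH.matrix_elem a c).mul (cP.matrix_elem c b)
  rw [show (2 : WithTop ℕ∞) = 1 + 1 from rfl, contDiff_succ_iff_deriv]
  refine ⟨dH a b, by simp, ?_⟩
  rw [eH]
  exact ContDiff.sum fun c _ => (H1 a c).mul (P1 c b)

theorem sRad (hB2 : SB2) (hK : SCpt) : SRad := by
  intro n A H P U φ hO hU hφ h0
  have hder : ∀ z ∈ U, HasDerivAt φ (deriv φ z) z := fun z hz =>
    (hφ.differentiableAt (hU.mem_nhds hz)).hasDerivAt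
  refine ⟨fun a b z hz => ?_, fun z _ => (hO _).1, fun z hz => ?_⟩
  · have h1 : ContDiffAt ℝ 2 φ z :=
      (hφ.analyticAt (hU.mem_nhds hz)).contDiffAt.restrict_scalars ℝ
    have h2 : ContDiffAt ℝ 2 (fun w => Real.log ‖φ w‖) z :=
      (h1.norm ℝ (h0 z hz)).log (norm_ne_zero_iff.2 (h0 z hz))
    exact ((smooth_Rad hK hO a b).contDiffAt.comp z h2).contDiffWithinAt
  · have ev : (fun w => (H (Real.log ‖φ w‖))⁻¹ * mdz (fun w => H (Real.log ‖φ w‖)) w) =ᶠ[𝓝 z]
        fun w => (deriv φ w / (2 * φ w)) • P (Real.log ‖φ w‖) := by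
      filter_upwards [hU.mem_nhds hz] with w hw
      obtain ⟨l1, l2, -⟩ := log_Rad (hder w hw) (h0 w hw)
      have hp := (hO (Real.log ‖φ w‖)).1
      have hdet := (hB2 n _ _ 1 1 hp hp (by simp)).1
      have e : mdz (fun w => H (Real.log ‖φ w‖)) w =
          (deriv φ w / (2 * φ w)) • (H (Real.log ‖φ w‖) * P (Real.log ‖φ w‖)) := by
        ext a b
        have := (chain_Rad (c := -Complex.I) l1 ((hO _).2.1 a b)).2
        rw [← dz_eq, ← dz_eq, l2] at this
        rw [Matrix.smul_apply, smul_eq_mul, ← this]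
        rfl
      rw [e, Matrix.mul_smul, ← Matrix.mul_assoc, Matrix.nonsing_inv_mul _ (Ne.isUnit hdet),
        Matrix.one_mul]
    rw [mdzb_eq, mwd_congr ev]
    obtain ⟨l1, -, l3⟩ := log_Rad (hder z hz) (h0 z hz)
    have hf : DifferentiableAt ℂ (fun w => deriv φ w / (2 * φ w)) z :=
      ((hφ.deriv hU).differentiableAt (hU.mem_nhds hz)).div
        ((hder z hz).differentiableAt.const_mul 2) (mul_ne_zero two_ne_zero (h0 z hz))
    have hR : deriv φ z • A * adj (H (Real.log ‖φ z‖)) (deriv φ z • A) -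
        adj (H (Real.log ‖φ z‖)) (deriv φ z • A) * deriv φ z • A =
        (deriv φ z * (starRingEnd ℂ) (deriv φ z)) • br A (H (Real.log ‖φ z‖)) := by
      simp only [adj, br, Matrix.conjTranspose_smul, Matrix.mul_smul, Matrix.smul_mul, smul_smul,
        smul_sub, Complex.star_def, mul_comm]
    rw [hR]
    ext a b
    obtain ⟨c1, c2⟩ := chain_Rad (c := Complex.I) l1 ((hO _).2.2 a b)
    have hw := wd_mul (c := Complex.I) (hf.restrictScalars ℝ) c1
    rw [c2, ← dzb_eq, ← dzb_eq, ← dzb_eq, dzb_holo hf, l3] at hw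
    change dzb (fun w => deriv φ w / (2 * φ w) * P (Real.log ‖φ w‖) a b) z = _
    have hc : (starRingEnd ℂ) (φ z) ≠ 0 := by simpa using h0 z hz
    have h1 := h0 z hz
    rw [hw, Complex.ofReal_mul, exp_Rad h1, Matrix.smul_apply, smul_eq_mul, map_div₀, map_mul]
    simp only [Complex.ofReal_ofNat, map_ofNat]
    field_simp
    ring

theorem sGau (hB2 : SB2) : SGau := by
  intro n U A0 H0 A E hU hH hE hd hA
  obtain ⟨hC, hP, hEq⟩ := hH
  have hM : ∀ z ∈ U, MC 2 E z := fun z hz => holo_MC hU hE hz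
  have hH2 : ∀ z ∈ U, MC 2 H0 z := fun z hz a b => (hC a b).contDiffAt (hU.mem_nhds hz)
  have hB := fun z (hz : z ∈ U) =>
    hB2 n (H0 z) (H0 z) (A0 z) (E z) (hP z hz) (hP z hz) (hd z hz)
  have h0 : ∀ z ∈ U, (H0 z).det ≠ 0 := fun z hz => (hB z hz).1
  have inv : ∀ z ∈ U, ∀ X : Mx n,
      ((E z)ᴴ * H0 z * E z)⁻¹ * ((E z)ᴴ * X) = (E z)⁻¹ * ((H0 z)⁻¹ * X) := fun z hz X => by
    have h1 : ((E z)ᴴ).det ≠ 0 := by rw [det_conjTranspose]; exact star_ne_zero.2 (hd z hz)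
    rw [Matrix.mul_inv_rev, Matrix.mul_inv_rev, mul_assoc, mul_assoc,
      Matrix.nonsing_inv_mul_cancel_left _ _ h1.isUnit]
  refine ⟨fun a b z hz =>
    ((((hM z hz).ct.mul (hH2 z hz)).mul (hM z hz)) a b).contDiffWithinAt,
    fun z hz => (hB z hz).2.2.1, fun z hz => ?_⟩
  have e1 : (fun w => ((E w)ᴴ * H0 w * E w)⁻¹ * mdz (fun w => (E w)ᴴ * H0 w * E w) w) =ᶠ[𝓝 z]
      fun w => (E w)⁻¹ * (((H0 w)⁻¹ * mwd (-Complex.I) H0 w) * E w) +
        (E w)⁻¹ * mwd (-Complex.I) E w := by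
    filter_upwards [hU.mem_nhds hz] with w hw
    rw [mdz_eq, mwd_mul ((hM w hw).one.ct.mul (hH2 w hw).one) (hM w hw).one,
      mwd_mul (hM w hw).one.ct (hH2 w hw).one, mwd_ct (hM w hw).one]
    simp only [map_neg, Complex.conj_I, neg_neg, holo_mdzb hU hE hw, conjTranspose_zero,
      zero_mul, zero_add]
    rw [mul_add, mul_assoc (E w)ᴴ (mwd _ H0 w) (E w), mul_assoc (E w)ᴴ (H0 w) (mwd _ E w),
      inv w hw, inv w hw, Matrix.nonsing_inv_mul_cancel_left _ _ (h0 w hw).isUnit,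
      mul_assoc (H0 w)⁻¹]
  have e3 : A z = (E z)⁻¹ * A0 z * E z := by
    rw [mul_assoc, ← hA z hz, Matrix.nonsing_inv_mul_cancel_left _ _ (hd z hz).isUnit]
  have hG : MC 1 (fun w => (H0 w)⁻¹ * mwd (-Complex.I) H0 w) z :=
    ((hH2 z hz).one.inv (h0 z hz)).mul (hH2 z hz).mwd
  have hEi : MC 1 (fun w => (E w)⁻¹) z := (hM z hz).one.inv (hd z hz)
  have e4 := hEq z hz
  rw [mdzb_eq, mdz_eq] at e4
  have e5 := (hB z hz).2.2.2.2.2.1
  rw [← e3] at e5
  rw [mdzb_eq, mwd_congr e1, mwd_add (hEi.mul (hG.mul (hM z hz).one)) (hEi.mul (hM z hz).mwd),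
    mwd_mul hEi (hG.mul (hM z hz).one), mwd_mul hG (hM z hz).one, mwd_mul hEi (hM z hz).mwd,
    mwd_inv (hM z hz).one (hd z hz), holo_mdzb hU hE hz, holo_mdzb hU (holo_mdz hU hE) hz, e4]
  simp only [mul_zero, zero_mul, neg_zero, zero_add, add_zero]
  rw [← mul_assoc]
  exact e5.symm

theorem monic_Nil (c : ℕ → ℂ) (n : ℕ) : (u_ExCh c n).Monic ∧ (u_ExCh c n).natDegree = n := by
  obtain ⟨h1, h2, -⟩ := top_ExCh c n
  have h := natDegree_le_iff_coeff_eq_zero.2 h1
  exact ⟨monic_of_natDegree_le_of_coeff_eq_one n h h2,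
    natDegree_eq_of_le_of_coeff_ne_zero h (by rw [h2]; exact one_ne_zero)⟩

theorem char_Nil (c : ℕ → ℂ) {n : ℕ} (hn : 1 ≤ n) : (hitchin n c).charpoly = u_ExCh c n := by
  refine eq_of_monic_of_dvd_of_natDegree_le (monic_Nil c n).1 (charpoly_monic _) ?_ ?_
  · have := congrFun (Matrix.mulVec_mulVec (fun b : Fin n => u_ExCh c (n - 1 - b.val))
      (hitchin n c).charmatrix.adjugate (hitchin n c).charmatrix) ⟨n - 1, by omega⟩
    rw [Matrix.adjugate_mul, Matrix.smul_mulVec, Matrix.one_mulVec, Pi.smul_apply, Nat.sub_self,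
      u_ExCh, smul_eq_mul, mul_one] at this
    rw [charpoly, ← this, Matrix.mulVec, dotProduct]
    exact Finset.dvd_sum fun b _ => (row_ExCh n c b).mul_left _
  · rw [charpoly_natDegree_eq_dim, Fintype.card_fin, (monic_Nil c n).2]

theorem low_Nil (c : ℕ → ℂ) (J : ℕ) (hc : ∀ i ≤ J, c (i + 2) = 0) (s : ℕ) :
    ∀ k, k < s → s ≤ k + (J + 2) → (u_ExCh c s).coeff k = 0 := by
  induction s with
  | zero => exact fun k h => absurd h k.not_lt_zero
  | succ s ih =>
    intro k h1 h2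
    rw [u_ExCh, coeff_sub, finsetSum_coeff, Finset.sum_eq_zero, sub_zero]
    · rcases k with _ | k
      · simp
      · rw [coeff_X_mul, ih k (by omega) (by omega)]
    · intro i hi
      have := Finset.mem_range.1 hi
      rw [coeff_C_mul]
      rcases le_or_gt i J with h | h
      · rw [hc i h, zero_mul]
      · rw [(top_ExCh c _).1 k (by omega), mul_zero]

theorem sNil : SNil := by
  classical
  intro n c
  refine ⟨⟨fun a b h => ?_, fun a b h => ?_⟩, fun ⟨j, j1, j2, j3⟩ x => ?_⟩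
  · simp only [hitchin, of_apply]
    rw [if_neg (by omega), if_neg (by omega)]
  · simp only [hitchin, of_apply]
    rw [if_pos h]; exact one_ne_zero
  by_contra h
  rw [not_lt, char_Nil c (by omega)] at h
  obtain ⟨hm, hd⟩ := monic_Nil c n
  have e : u_ExCh c n = (X - C x) ^ n :=
    eq_of_monic_of_dvd_of_natDegree_le ((monic_X_sub_C x).pow n) hm
      ((le_rootMultiplicity_iff hm.ne_zero).1 h) (by rw [hd, natDegree_pow, natDegree_X_sub_C, mul_one])
  have hx : x = 0 := by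
    have := (top_ExCh c n).2.2 (n - 1) (by omega)
    rw [e, sub_eq_add_neg, ← C_neg, coeff_X_add_C_pow, show n - (n - 1) = 1 by omega] at this
    have h2 : ((n.choose (n - 1) : ℕ) : ℂ) ≠ 0 :=
      Nat.cast_ne_zero.2 (Nat.choose_pos (by omega)).ne'
    simpa [h2] using this
  have ex : ∃ J, c (J + 2) ≠ 0 := ⟨j - 2, by rwa [show j - 2 + 2 = j by omega]⟩
  have hJ := Nat.find_spec ex
  have hJ2 : Nat.find ex ≤ j - 2 := Nat.find_min' ex (by rwa [show j - 2 + 2 = j by omega])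
  have hJ3 : ∀ i < Nat.find ex, c (i + 2) = 0 := fun i hi => not_not.1 (Nat.find_min ex hi)
  generalize Nat.find ex = J at hJ hJ2 hJ3
  obtain ⟨k, rfl⟩ : ∃ k, n = k + (J + 2) := ⟨n - (J + 2), by omega⟩
  have k1 := upd_ExCh (Function.update c (J + 2) 0) J (c (J + 2)) _ k le_rfl
  rw [Function.update_idem, Function.update_self, zero_add, Function.update_eq_self, e, hx, C_0,
    sub_zero, coeff_X_pow, if_neg (by omega), if_pos rfl,
    low_Nil _ J (fun i hi => ?_) _ k (by omega) le_rfl, zero_sub, zero_eq_neg] at k1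
  · exact mul_ne_zero hJ (Nat.cast_add_one_ne_zero k) k1
  · rcases hi.eq_or_lt with rfl | hi
    · exact Function.update_self ..
    · rw [Function.update_of_ne (by omega), hJ3 i hi]

theorem sStab1 : SStab1 := by
  classical
  intro n lam h I hI hU
  obtain ⟨a, ha⟩ := hI
  obtain ⟨b, hb⟩ : ∃ b, b ∉ I := by
    by_contra hc
    exact hU (Finset.eq_univ_of_forall fun x => by_contra fun hx => hc ⟨x, hx⟩)
  have hc : (I ×ˢ Iᶜ).card = I.card * (n - I.card) := by
    rw [Finset.card_product, Finset.card_compl, Fintype.card_fin]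
  rw [← hc]
  refine Finset.card_lt_card (Finset.filter_ssubset.2 ?_)
  by_contra hno
  have he : ∀ x ∈ I, ∀ y, y ∉ I → lam x = lam y := fun x hx y hy => by_contra fun hne =>
    hno ⟨(x, y), Finset.mem_product.2 ⟨hx, Finset.mem_compl.2 hy⟩, hne⟩
  have hall : (Finset.univ.filter fun x => lam x = lam b) = Finset.univ := by
    refine Finset.filter_true_of_mem fun x _ => ?_
    by_cases hx : x ∈ I
    · exact he x hx b hb
    · exact (he a ha x hx).symm.trans (he a ha b hb)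
  have := h (lam b)
  rw [mu, hall, Finset.card_univ, Fintype.card_fin] at this
  exact lt_irrefl _ this

theorem sTwo : STwo := by
  classical
  refine ⟨fun P hP h2 => ?_, fun n lam P hP h => ?_⟩
  · obtain ⟨a, b, hab, e⟩ := Finset.card_eq_two.1 h2
    have hpos : ∀ x ∈ P.roots.toFinset, ∃ i, P.rootMultiplicity x = i + 1 := fun x hx =>
      Nat.exists_eq_succ_of_ne_zero ((rootMultiplicity_pos hP.ne_zero).2
        ((mem_roots hP.ne_zero).1 (Multiset.mem_toFinset.1 hx))).ne'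
    obtain ⟨i, hi⟩ := hpos a (by simp [e])
    obtain ⟨k, hk⟩ := hpos b (by simp [e])
    refine ⟨a, b, i, k, ?_⟩
    have h1 := (IsAlgClosed.splits P).eq_prod_roots_of_monic hP
    rw [prod_multiset_root_eq_finset_root, e, Finset.prod_pair hab, hi, hk] at h1
    exact h1
  · ext x
    rw [Multiset.mem_toFinset, mem_roots hP, ← rootMultiplicity_pos hP, ← h x, mu,
      Finset.card_pos, Finset.mem_image, Finset.filter_nonempty_iff]

lemma caseA_StabC {ι : Type} [DecidableEq ι] (S : Finset ι) (k l : ι → ℕ) (d : ℕ) (hd : 1 ≤ d)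
    {x : ι} (hx : x ∈ S) (h1 : (d + 1) * (k x + l x) ≤ d * (∑ y ∈ S, k y + ∑ y ∈ S, l y))
    (h2 : d * ∑ y ∈ S, k y < (d + 1) * k x) :
    (d + 1) * ∑ y ∈ S, k y * l y < d * ((∑ y ∈ S, k y) * ∑ y ∈ S, l y) := by
  have h3 : ∑ y ∈ S.erase x, k y * l y ≤ (∑ y ∈ S.erase x, k y) * ∑ y ∈ S.erase x, l y := by
    rw [Finset.sum_mul]
    exact Finset.sum_le_sum fun y hy => Nat.mul_le_mul_left _
      (Finset.single_le_sum (f := l) (fun _ _ => Nat.zero_le _) hy)
  rw [← Finset.add_sum_erase S k hx, ← Finset.add_sum_erase S l hx] at *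
  rw [← Finset.add_sum_erase S (fun y => k y * l y) hx]
  generalize ∑ y ∈ S.erase x, k y * l y = P at *
  generalize ∑ y ∈ S.erase x, k y = K at *
  generalize ∑ y ∈ S.erase x, l y = L at *
  generalize k x = a at *
  generalize l x = b at *
  obtain ⟨f, hf⟩ : ∃ f, a = d * K + f + 1 := ⟨a - d * K - 1, by
    have : d * K < a := by nlinarith
    omega⟩
  obtain ⟨e, he⟩ : ∃ e, d * L = b + e + 1 := ⟨d * L - b - 1, by
    have : b < d * L := by nlinarith
    omega⟩
  have h4 : K * L ≤ d * K * (d * L) := Nat.mul_le_mul (Nat.le_mul_of_pos_left _ hd)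
    (Nat.le_mul_of_pos_left _ hd)
  have h5 : d * ((a + K) * (b + L)) = d * (a * b) + d * (K * L) + a * (d * L) + d * K * b := by ring
  have h6 : (d + 1) * P ≤ (d + 1) * (K * L) := Nat.mul_le_mul_left _ h3
  rw [he] at h4
  rw [h5, he]
  generalize d * K = W at *
  subst hf
  nlinarith [Nat.zero_le (f * e)]

lemma caseC_StabC {ι : Type} (S : Finset ι) (k l : ι → ℕ) (d : ℕ)
    (h1 : ∀ x ∈ S, 0 < k x → 0 < l x → (d + 1) * k x ≤ d * ∑ y ∈ S, k y)
    (h2 : d * ((∑ y ∈ S, k y) * ∑ y ∈ S, l y) ≤ (d + 1) * ∑ y ∈ S, k y * l y) :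
    ∀ x ∈ S, 0 < l x → (d + 1) * k x = d * ∑ y ∈ S, k y := by
  have h3 : ∀ x ∈ S, (d + 1) * (k x * l x) ≤ d * (∑ y ∈ S, k y) * l x := fun x hx => by
    rcases Nat.eq_zero_or_pos (k x) with h | h
    · simp [h]
    rcases Nat.eq_zero_or_pos (l x) with h' | h'
    · simp [h']
    rw [← mul_assoc]
    exact Nat.mul_le_mul_right _ (h1 x hx h h')
  have h4 := (Finset.sum_eq_sum_iff_of_le h3).1 (le_antisymm (Finset.sum_le_sum h3) (by
    rw [← Finset.mul_sum, ← Finset.mul_sum, mul_assoc]; exact h2))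
  intro x hx hl
  have := h4 x hx
  rw [← mul_assoc] at this
  exact Nat.eq_of_mul_eq_mul_right hl this

lemma all_StabC {ι : Type} [DecidableEq ι] (S : Finset ι) (k l : ι → ℕ) (d : ℕ) (hd : 1 ≤ d)
    (hK : 0 < ∑ y ∈ S, k y) (hL : 0 < ∑ y ∈ S, l y) (h0 : ∀ x ∈ S, 0 < k x + l x)
    (h1 : ∀ x ∈ S, 0 < k x → 0 < l x →
      (d + 1) * (k x + l x) ≤ d * (∑ y ∈ S, k y + ∑ y ∈ S, l y))
    (h2 : ¬ (d = 1 ∧ 3 ≤ ∑ y ∈ S, k y + ∑ y ∈ S, l y ∧ S.card = 2)) :
    (d + 1) * ∑ y ∈ S, k y * l y < d * ((∑ y ∈ S, k y) * ∑ y ∈ S, l y) := by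
  by_cases hA : ∃ x ∈ S, 0 < k x ∧ 0 < l x ∧ d * ∑ y ∈ S, k y < (d + 1) * k x
  · obtain ⟨x, hx, a, b, c⟩ := hA
    exact caseA_StabC S k l d hd hx (h1 x hx a b) c
  by_cases hB : ∃ x ∈ S, 0 < k x ∧ 0 < l x ∧ d * ∑ y ∈ S, l y < (d + 1) * l x
  · obtain ⟨x, hx, a, b, c⟩ := hB
    have := caseA_StabC S l k d hd hx
      (by rw [add_comm (l x), add_comm (∑ y ∈ S, l y)]; exact h1 x hx a b) c
    simpa only [mul_comm (l _) (k _), mul_comm (∑ y ∈ S, l y)] using this
  by_contra hc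
  rw [not_lt] at hc
  have c1 := caseC_StabC S k l d (fun x hx a b => not_lt.1 fun h => hA ⟨x, hx, a, b, h⟩) hc
  have c2 := caseC_StabC S l k d (fun x hx a b => not_lt.1 fun h => hB ⟨x, hx, b, a, h⟩)
    (by simpa only [mul_comm (l _) (k _), mul_comm (∑ y ∈ S, l y)] using hc)
  have c3 : ∀ x ∈ S, 0 < k x ∧ 0 < l x := fun x hx => by
    have a : 0 < l x → 0 < k x := fun h => Nat.pos_of_mul_pos_left
      ((c1 x hx h).symm ▸ Nat.mul_pos hd hK)
    have b : 0 < k x → 0 < l x := fun h => Nat.pos_of_mul_pos_left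
      ((c2 x hx h).symm ▸ Nat.mul_pos hd hL)
    have := h0 x hx
    omega
  have c4 : (d + 1) * ∑ y ∈ S, k y = S.card * d * ∑ y ∈ S, k y := by
    rw [Finset.mul_sum, Finset.sum_congr rfl fun x hx => c1 x hx (c3 x hx).2, Finset.sum_const,
      smul_eq_mul, mul_assoc]
  have c5 : d + 1 = S.card * d := Nat.eq_of_mul_eq_mul_right hK c4
  have c6 : d = 1 := Nat.dvd_one.1 ((Nat.dvd_add_right (dvd_refl d)).1 (c5 ▸ Dvd.intro_left _ rfl))
  have c7 : S.card = 2 := by rw [c6] at c5; omega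
  have c8 : S.card ≤ ∑ y ∈ S, k y := by
    simpa using Finset.card_nsmul_le_sum S k 1 fun x hx => (c3 x hx).1
  exact h2 ⟨c6, by omega, c7⟩

theorem sStabC : SStabC := by
  intro n d lam hd h1 h2 I hI hI'
  classical
  let S := Finset.univ.image lam
  let k : ℂ → ℕ := fun x => (I.filter fun a => lam a = x).card
  let l : ℂ → ℕ := fun x => (Iᶜ.filter fun a => lam a = x).card
  have hS : ∀ a, lam a ∈ S := fun a => Finset.mem_image_of_mem _ (Finset.mem_univ a)
  have hk : ∑ y ∈ S, k y = I.card :=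
    (Finset.card_eq_sum_card_fiberwise (f := lam) fun a _ => hS a).symm
  have hl : ∑ y ∈ S, l y = n - I.card := by
    rw [← Finset.card_eq_sum_card_fiberwise (f := lam) fun a _ => hS a, Finset.card_compl,
      Fintype.card_fin]
  have hlt : I.card < n := by
    simpa using Finset.card_lt_card (Finset.ssubset_univ_iff.2 hI')
  have hp : pr lam I = ∑ y ∈ S, k y * l y := by
    unfold pr
    rw [Finset.card_eq_sum_card_fiberwise (f := fun p : Fin n × Fin n => lam p.1) (t := S)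
      fun p _ => hS p.1]
    refine Finset.sum_congr rfl fun y _ => ?_
    rw [← Finset.card_product]
    congr 1
    ext ⟨a, b⟩
    simp only [Finset.mem_filter, Finset.mem_product]
    constructor
    · rintro ⟨⟨⟨a1, a2⟩, a3⟩, a4⟩
      exact ⟨⟨a1, a4⟩, a2, a3 ▸ a4⟩
    · rintro ⟨⟨a1, a2⟩, a3, a4⟩
      exact ⟨⟨⟨a1, a3⟩, a2.trans a4.symm⟩, a2⟩
  have hm : ∀ x, mu lam x = k x + l x := fun x => by
    unfold mu
    rw [← Finset.union_compl I, Finset.filter_union, Finset.card_union_of_disjoint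
      (Finset.disjoint_filter_filter disjoint_compl_right)]
  have hn : ∀ x, mu lam x ≤ n := fun x => (Finset.card_le_univ _).trans_eq (Fintype.card_fin n)
  have := all_StabC S k l d hd (by rw [hk]; exact hI.card_pos) (by rw [hl]; omega)
    (fun x hx => by
      obtain ⟨a, -, rfl⟩ := Finset.mem_image.1 hx
      rw [← hm]
      exact Finset.card_pos.2 ⟨a, by simp⟩)
    (fun x _ a b => by
      have h3 := h1 x (by rw [hm]; omega)
      have h4 := hn x
      rw [hk, hl, ← hm, Nat.add_sub_cancel' hlt.le]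
      obtain ⟨r, hr⟩ := Nat.exists_eq_add_of_le h4
      generalize mu lam x = m at *
      subst hr
      rw [Nat.add_sub_cancel_left] at h3
      nlinarith)
    (by rw [hk, hl, Nat.add_sub_cancel' hlt.le]; exact h2)
  rwa [hk, hl, ← hp] at this

noncomputable def sg_Alg2 {n : ℕ} (lam : Fin n → ℂ) (k : Fin n → ℕ) (a b : Fin n) : ℝ :=
  if lam a = lam b then (if k a < k b then 1 else if k b < k a then -1 else 0) else 0

theorem anti_Alg2 {n : ℕ} (lam : Fin n → ℂ) (k : Fin n → ℕ) (a b : Fin n) :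
    sg_Alg2 lam k a b = -sg_Alg2 lam k b a := by
  unfold sg_Alg2
  by_cases h : lam a = lam b
  · rw [if_pos h, if_pos h.symm]
    split_ifs <;> first | omega | norm_num
  · rw [if_neg h, if_neg (Ne.symm h), neg_zero]

theorem zero_Alg2 {n : ℕ} (lam : Fin n → ℂ) (k : Fin n → ℕ) (I : Finset (Fin n)) :
    ∑ a ∈ I, ∑ b ∈ I, sg_Alg2 lam k a b = 0 := by
  have h : ∑ a ∈ I, ∑ b ∈ I, sg_Alg2 lam k a b = -∑ a ∈ I, ∑ b ∈ I, sg_Alg2 lam k a b := by
    conv_lhs => rw [Finset.sum_comm]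
    simp only [← Finset.sum_neg_distrib]
    exact Finset.sum_congr rfl fun a _ => Finset.sum_congr rfl fun b _ => anti_Alg2 lam k b a
  linarith

theorem sAlg2 : SAlg2 := by
  intro n lam k m h1 h2 h3
  refine ⟨fun x => ?_, fun a => ∑ b, sg_Alg2 lam k a b, zero_Alg2 lam k _, fun a b hl hk => ?_,
    fun I => ?_⟩
  · rw [mu, ← Finset.card_range (m x)]
    refine Finset.card_bij (fun a _ => k a) (fun a ha => ?_) (fun a ha b hb h => ?_)
      fun j hj => ?_
    · rw [Finset.mem_range, ← (Finset.mem_filter.1 ha).2]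
      exact h1 a
    · exact h2 a b ((Finset.mem_filter.1 ha).2.trans (Finset.mem_filter.1 hb).2.symm) h
    · obtain ⟨a, ha, hk⟩ := h3 x j (Finset.mem_range.1 hj)
      exact ⟨a, Finset.mem_filter.2 ⟨Finset.mem_univ _, ha⟩, hk⟩
  · have hab : a ≠ b := fun h => by rw [h] at hk; omega
    have e := Finset.sum_le_sum_of_subset_of_nonneg
      (f := fun l => sg_Alg2 lam k b l - sg_Alg2 lam k a l) (Finset.subset_univ {a, b})
      fun l _ _ => by
        unfold sg_Alg2
        rw [hl]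
        split_ifs <;> first | omega | norm_num
    rw [Finset.sum_pair hab, Finset.sum_sub_distrib] at e
    have e1 : sg_Alg2 lam k b a = 1 := by
      rw [sg_Alg2, if_pos hl.symm, if_pos (by omega)]
    have e2 := anti_Alg2 lam k a b
    have e3 := anti_Alg2 lam k a a
    have e4 := anti_Alg2 lam k b b
    linarith
  · have e : ∑ a ∈ I, ∑ b, sg_Alg2 lam k a b = ∑ a ∈ I, ∑ b ∈ Iᶜ, sg_Alg2 lam k a b := by
      rw [← zero_add (∑ a ∈ I, ∑ b ∈ Iᶜ, _), ← zero_Alg2 lam k I, ← Finset.sum_add_distrib]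
      exact Finset.sum_congr rfl fun a _ => (Finset.sum_add_sum_compl I _).symm
    rw [e, pr, Finset.card_filter, Nat.cast_sum, Finset.sum_product]
    refine Finset.sum_le_sum fun a _ => Finset.sum_le_sum fun b _ => ?_
    unfold sg_Alg2
    split_ifs <;> norm_num

end Pool.Agent.MP_4f0bc7_gt.Od
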