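import Pool.Agent.MP_4f0bc7_gt.Od.St

namespace Pool.Agent.MP_4f0bc7_gt.Od

open Matrix Filter Topology Polynomial

lemma inv_Reg {n : ℕ} (y : Fin n → ℝ) : dg y * dg (fun a => -y a) = 1 := by
  unfold dg
  rw [diagonal_mul_diagonal, ← diagonal_one]
  congr 1
  funext a
  rw [← Complex.ofReal_mul, ← Real.exp_add]
  simp

lemma ct_Reg {n : ℕ} (y : Fin n → ℝ) : (dg y)ᴴ = dg y := by
  unfold dg
  rw [diagonal_conjTranspose]
  congr 1
  funext a
  simp only [Pi.star_apply, Complex.star_def, Complex.conj_ofReal]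

lemma ent_Reg {n : ℕ} (y z : Fin n → ℝ) (X : Mx n) (a b : Fin n) :
    (dg y * X * dg z) a b = ((Real.exp (y a + z b) : ℝ) : ℂ) * X a b := by
  unfold dg
  rw [mul_diagonal, diagonal_mul, Real.exp_add, Complex.ofReal_mul]
  ring

lemma br_Reg {n : ℕ} (f : ℝ) (X G : Mx n) :
    br ((f : ℂ) • X) G = ((f ^ 2 : ℝ) : ℂ) • br X G := by
  unfold br adj
  rw [conjTranspose_smul, Complex.star_def, Complex.conj_ofReal]
  simp only [Matrix.mul_smul, Matrix.smul_mul, smul_smul, smul_sub, pow_two,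
    Complex.ofReal_mul]

/-- logarithms of the entries of the diagonal gauge -/
noncomputable def yy_Reg (n d : ℕ) (x : ℝ) (a : Fin n) : ℝ := d * ((a.val : ℝ) - (n - 1) / 2) * x

lemma GG_Reg {n : ℕ} (d : ℕ) (H : ℝ → Mx n) (x : ℝ) :
    GG d H x = (dg (yy_Reg n d x))ᴴ * H (sx d x) * dg (yy_Reg n d x) := by
  ext a b
  rw [ct_Reg, ent_Reg]
  simp only [GG, of_apply, yy_Reg]
  congr 3
  ring

lemma th_Reg (n d : ℕ) (c : ℕ → ℂ) (x : ℝ) : th n d c x = ((Real.exp (d * x) : ℝ) : ℂ) •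
    ((dg (yy_Reg n d x))⁻¹ * hitchin n c * dg (yy_Reg n d x)) := by
  ext a b
  rw [inv_eq_right_inv (inv_Reg _), Matrix.smul_apply, ent_Reg, smul_eq_mul, ← mul_assoc,
    ← Complex.ofReal_mul, ← Real.exp_add]
  simp only [th, hitchin, of_apply, yy_Reg]
  split_ifs with h1 h2
  · rw [h1, show d * x + (-(d * (((b.val + 1 : ℕ) : ℝ) - (n - 1) / 2) * x) +
      d * ((b.val : ℝ) - (n - 1) / 2) * x) = 0 by push_cast; ring]
    simp
  · rw [mul_comm]
    congr 3
    push_cast [Nat.cast_sub h2.le]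
    ring
  · simp

lemma exp_Reg (k x : ℝ) : HasDerivAt (fun t => ((Real.exp (k * t) : ℝ) : ℂ))
    ((k : ℂ) * ((Real.exp (k * x) : ℝ) : ℂ)) x := by
  have h : HasDerivAt (fun t => Real.exp (k * t)) (Real.exp (k * x) * (k * 1)) x :=
    ((hasDerivAt_id x).const_mul k).exp
  refine h.ofReal_comp.congr_deriv ?_
  push_cast
  ring

lemma sx_Reg (d : ℕ) {f : ℝ → ℂ} {f' : ℂ} {x : ℝ} (h : HasDerivAt f f' (sx d x)) :
    HasDerivAt (fun t => f (sx d t)) (((d : ℂ) + 1) * f') x := by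
  have h1 : HasDerivAt (sx d) ((d : ℝ) + 1) x :=
    (((hasDerivAt_id x).const_mul ((d : ℝ) + 1)).sub_const
      (Real.log ((d : ℝ) + 1))).congr_deriv (mul_one _)
  refine (h.scomp x h1).congr_deriv ?_
  rw [Complex.real_smul]
  push_cast
  rfl

theorem sReg (hB2 : SB2) : SReg := by
  intro n d c H P hO hB
  have hdet : ∀ x, (dg (yy_Reg n d x)).det ≠ 0 := fun x =>
    (isUnit_det_of_right_inverse (inv_Reg _)).ne_zero
  have hb := fun x => hB2 n (H (sx d x)) (H (sx d x)) (hitchin n c) _ (hO _).1 (hO _).1 (hdet x)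
  have d0 : (0 : ℝ) < (d : ℝ) + 1 := by positivity
  refine ⟨fun x => GG_Reg d H x ▸ (hb x).2.2.1, fun x a b => ?_, fun x a b => ?_, ?_⟩
  · have h := (exp_Reg (d * ((a.val : ℝ) + b.val - (n - 1))) x).fun_mul
      (sx_Reg d ((hO (sx d x)).2.1 a b))
    refine h.congr_deriv ?_
    have e : ∀ l : Fin n, GG d H x a l * PI d P x l b =
        ((Real.exp (d * ((a.val : ℝ) + b.val - (n - 1)) * x) : ℝ) : ℂ) *
          (((d : ℂ) + 1) * (H (sx d x) a l * P (sx d x) l b) -
            if l = b then H (sx d x) a l * ((d : ℂ) * ((n : ℂ) - 1 - 2 * (l.val : ℂ))) else 0) := by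
      intro l
      rw [show d * ((a.val : ℝ) + b.val - (n - 1)) * x =
        d * ((a.val : ℝ) + l.val - (n - 1)) * x + d * ((b.val : ℝ) - l.val) * x by ring,
        Real.exp_add, Complex.ofReal_mul]
      simp only [GG, PI, of_apply]
      split_ifs <;> ring
    rw [Matrix.mul_apply (M := GG d H x), Finset.sum_congr rfl fun l _ => e l, ← Finset.mul_sum,
      Finset.sum_sub_distrib, ← Finset.mul_sum, Finset.sum_ite_eq', ← Matrix.mul_apply]
    simp only [GG, of_apply, kk, Finset.mem_univ, if_true]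
    push_cast
    ring
  · have h := (exp_Reg (d * ((b.val : ℝ) - a.val)) x).fun_mul
      (((sx_Reg d ((hO (sx d x)).2.2 a b)).const_mul ((d : ℂ) + 1)).sub_const
        (if a = b then (d : ℂ) * ((n : ℂ) - 1 - 2 * (a.val : ℂ)) else 0))
    refine h.congr_deriv ?_
    have e1 : rh d c (GG d H) x a b = ((Real.exp (d * x) ^ 2 : ℝ) : ℂ) *
        (((Real.exp (d * ((b.val : ℝ) - a.val) * x) : ℝ) : ℂ) *
          br (hitchin n c) (H (sx d x)) a b) := by
      rw [rh, th_Reg, br_Reg, GG_Reg, (hb x).2.2.2.2.2.1, inv_eq_right_inv (inv_Reg _),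
        Matrix.smul_apply, ent_Reg, smul_eq_mul]
      congr 4
      simp only [yy_Reg]
      ring
    have e2 : ((d : ℝ) + 1) ^ 2 * Real.exp (2 * sx d x) =
        Real.exp (2 * x) * Real.exp (d * x) ^ 2 := by
      rw [← Real.exp_log d0, ← Real.exp_nat_mul, ← Real.exp_nat_mul, ← Real.exp_add,
        ← Real.exp_add, sx]
      congr 1
      push_cast
      ring
    have e3 := congrArg (fun r : ℝ => (r : ℂ)) e2
    rw [e1]
    simp only [PI, of_apply, kk]
    generalize Real.exp (d * ((b.val : ℝ) - a.val) * x) = E at *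
    generalize Real.exp (2 * sx d x) = E1 at *
    generalize Real.exp (2 * x) = E2 at *
    generalize Real.exp (d * x) = E3 at *
    push_cast at e3 ⊢
    linear_combination (4 * E * br (hitchin n c) (H (sx d x)) a b) * e3
  · obtain ⟨C, hC⟩ := hB
    refine ⟨∑ a : Fin n, C * Real.exp (-(al n (d / (d + 1)) a * Real.log (d + 1))) +
      ∑ a : Fin n, C * Real.exp (al n (d / (d + 1)) a * Real.log (d + 1)), fun x hx => ?_⟩
    have hs : sx d x ≤ 0 := by
      have := Real.log_nonneg (show (1 : ℝ) ≤ d + 1 by linarith [Nat.cast_nonneg (α := ℝ) d])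
      have := mul_nonpos_of_nonneg_of_nonpos d0.le hx
      unfold sx
      linarith
    have key : ∀ a : Fin n, yy_Reg n d x a + yy_Reg n d x a + al n (d / (d + 1)) a * sx d x =
        -(al n (d / (d + 1)) a * Real.log (d + 1)) := fun a => by
      unfold yy_Reg al sx
      field_simp
      ring
    rw [tt, GG_Reg, ct_Reg, Matrix.mul_inv_rev, Matrix.mul_inv_rev, ← Matrix.mul_assoc,
      inv_eq_right_inv (inv_Reg _), trace, trace, Complex.re_sum, Complex.re_sum]
    refine add_le_add (Finset.sum_le_sum fun a _ => ?_) (Finset.sum_le_sum fun a _ => ?_)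
    · rw [diag_apply, ent_Reg, Complex.re_ofReal_mul, ← key, Real.exp_add _ (_ * sx d x),
        mul_left_comm]
      exact mul_le_mul_of_nonneg_left (hC _ hs a).1 (Real.exp_pos _).le
    · rw [diag_apply, ent_Reg, Complex.re_ofReal_mul,
        show al n (d / (d + 1)) a * Real.log (d + 1) = -yy_Reg n d x a + -yy_Reg n d x a +
          -al n (d / (d + 1)) a * sx d x by linarith [key a], Real.exp_add _ (_ * sx d x),
        mul_left_comm]
      exact mul_le_mul_of_nonneg_left (hC _ hs a).2 (Real.exp_pos _).le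

theorem th_bd_RhoB (n d : ℕ) (c : ℕ → ℂ) (x : ℝ) (hx : x ≤ 0) (a b : Fin n) :
    ‖th n d c x a b‖ ≤ 1 + ∑ j ∈ Finset.range (n + 2), ‖c j‖ := by
  have h0 : 0 ≤ ∑ j ∈ Finset.range (n + 2), ‖c j‖ := Finset.sum_nonneg fun _ _ => norm_nonneg _
  simp only [th, hitchin, Matrix.of_apply]
  split_ifs with h1 h2
  · rw [norm_one]; linarith
  · have h3 : ‖c (b.val - a.val + 1)‖ ≤ ∑ j ∈ Finset.range (n + 2), ‖c j‖ :=
      Finset.single_le_sum (f := fun j => ‖c j‖) (fun _ _ => norm_nonneg _)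
        (Finset.mem_range.2 (by have := b.2; omega))
    have h4 : Real.exp (d * ((b.val - a.val + 1 : ℕ) : ℝ) * x) ≤ 1 :=
      Real.exp_le_one_iff.2 (mul_nonpos_of_nonneg_of_nonpos (by positivity) hx)
    rw [norm_mul, Complex.norm_real, Real.norm_of_nonneg (Real.exp_pos _).le]
    have h5 := mul_le_mul_of_nonneg_left h4 (norm_nonneg (c (b.val - a.val + 1)))
    linarith
  · rw [norm_zero]; linarith

theorem th_cont_RhoB (n d : ℕ) (c : ℕ → ℂ) : Continuous fun x => th n d c x := by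
  refine continuous_matrix fun a b => ?_
  simp only [th, hitchin, Matrix.of_apply]
  split_ifs
  · exact continuous_const
  · fun_prop
  · exact continuous_const

theorem sRhoB (hB2 : SB2) (hF : SFro) (hM : SMat) (hK : SCpt) : SRhoB := by
  intro n d c G p hR
  constructor
  · obtain ⟨M0, hM0⟩ := hR.bd
    set M : ℝ := |M0| + 1 with hMd
    have hMp : 0 < M := by positivity
    have hb : ∀ x ≤ (0 : ℝ), tt (G x) ≤ M := fun x hx =>
      (hM0 x hx).trans (by have := le_abs_self M0; linarith)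
    set T : ℝ := 1 + ∑ j ∈ Finset.range (n + 2), ‖c j‖ with hT
    have hT0 : 0 ≤ T := by
      have : 0 ≤ ∑ j ∈ Finset.range (n + 2), ‖c j‖ := Finset.sum_nonneg fun _ _ => norm_nonneg _
      linarith
    set W : ℝ := 2 * M ^ 2 * ((n : ℝ) ^ 2 * T ^ 2) with hW
    have hW0 : 0 ≤ W := by positivity
    refine ⟨W + M + T, by positivity, fun x hx a b => ?_⟩
    obtain ⟨m1, m2, -, -, m3, -⟩ := hM n (G x) (G x) (th n d c x) M (hR.pos x) (hR.pos x)
      (hb x hx) (hb x hx)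
    have e1 : ∀ (X : Mx n) (B : ℝ), 0 ≤ B → fro X ≤ B ^ 2 → ‖X a b‖ ≤ B := fun X B h0 h =>
      ((hF n X X).1 a b).trans (Real.sqrt_le_iff.2 ⟨h0, h⟩)
    have t1 : fro (th n d c x) ≤ (n : ℝ) ^ 2 * T ^ 2 :=
      (hF n (th n d c x) 0).2.2.2.2.2.2.2.1 T (th_bd_RhoB n d c x hx)
    have t2 : fro (rh d c G x) ≤ W ^ 2 := by
      refine m3.trans ?_
      have h1 := pow_le_pow_left₀ (nonneg_Fro _) t1 2
      have h2 : W ^ 2 = 4 * M ^ 4 * ((n : ℝ) ^ 2 * T ^ 2) ^ 2 := by rw [hW]; ring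
      rw [h2]
      exact mul_le_mul_of_nonneg_left h1 (by positivity)
    obtain ⟨g1, -, g2, g3⟩ := (hB2 n (G x) (G x) 1 1 (hR.pos x) (hR.pos x)
      (by rw [det_one]; exact one_ne_zero)).2.2.2.2.2.2.2.2.2.2 a
    refine ⟨(e1 _ W hW0 t2).trans (by linarith), (e1 _ M hMp.le m1).trans (by linarith),
      (e1 _ M hMp.le m2).trans (by linarith), (th_bd_RhoB n d c x hx a b).trans (by linarith), ?_⟩
    rw [div_le_iff₀ (by positivity)]
    refine g3.trans (mul_le_mul_of_nonneg_left ?_ g1.le)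
    have := hb x hx
    linarith
  · intro a b
    have hG : Continuous G := continuous_matrix fun a b =>
      continuous_iff_continuousAt.2 fun x => (hR.dG x a b).continuousAt
    have hI : Continuous fun x => (G x)⁻¹ :=
      (hK n 0).2.2.1.comp_continuous hG hR.pos
    have hT := th_cont_RhoB n d c
    have h1 : Continuous fun x => adj (G x) (th n d c x) :=
      (hI.matrix_mul hT.matrix_conjTranspose).matrix_mul hG
    have h2 : Continuous fun x => rh d c G x := (hT.matrix_mul h1).sub (h1.matrix_mul hT)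
    exact h2.matrix_elem a b

noncomputable def xi_PiB {n : ℕ} (d : ℕ) (p : ℝ → Mx n) (x : ℝ) : Mx n :=
  p x - diagonal fun a => 2 * (d : ℂ) * (a.val : ℂ)

theorem herm_PiB {n d : ℕ} {c : ℕ → ℂ} {G p : ℝ → Mx n} (h : Reg d c G p) (x : ℝ) :
    (G x * xi_PiB d p x)ᴴ = G x * xi_PiB d p x := by
  have hs : ∀ t a b, star (G t a b) = G t b a := fun t a b => by
    rw [← conjTranspose_apply, (h.pos t).1]
  have hv : ∀ a b, (G x * xi_PiB d p x) a b = ((G x * p x) a b - (kk d a b : ℂ) * G x a b) -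
      (((d : ℝ) * ((a.val : ℝ) + b.val) : ℝ) : ℂ) * G x a b := fun a b => by
    unfold xi_PiB kk
    rw [Matrix.mul_sub, Matrix.sub_apply, mul_diagonal]
    push_cast
    ring
  ext a b
  have h1 := (h.dG x b a).star
  simp only [hs] at h1
  rw [conjTranspose_apply, hv, hv, star_sub, h1.unique (h.dG x a b), star_mul', hs,
    Complex.star_def, Complex.conj_ofReal, add_comm (b.val : ℝ)]

theorem nsq_PiB (hB1 : SB1) (hB2 : SB2) (hF : SFro) {n d : ℕ} {c : ℕ → ℂ} {G p : ℝ → Mx n}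
    (h : Reg d c G p) (x : ℝ) : 0 ≤ (trace (xi_PiB d p x * xi_PiB d p x)).re ∧
      ∀ M : ℝ, tt (G x) ≤ M →
        √(fro (xi_PiB d p x)) ≤ M * √((trace (xi_PiB d p x * xi_PiB d p x)).re) := by
  obtain ⟨hd, ⟨g, hg, e⟩, -⟩ := hB2 n (G x) (G x) 1 1 (h.pos x) (h.pos x) (by simp)
  have h1 : adj (G x) (xi_PiB d p x) = xi_PiB d p x := by
    have := herm_PiB h x
    rw [conjTranspose_mul, (h.pos x).1] at this
    unfold adj
    rw [Matrix.mul_assoc, this, ← Matrix.mul_assoc, Matrix.nonsing_inv_mul _ (Ne.isUnit hd),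
      Matrix.one_mul]
  obtain ⟨-, -, -, b1, -, -, b2⟩ := hB1 n g g (xi_PiB d p x) hg hg
  rw [← e] at b1 b2
  unfold nsq at b1
  rw [h1] at b1
  rw [b1]
  refine ⟨nonneg_Fro _, fun M hM => ?_⟩
  have e2 : xi_PiB d p x = g⁻¹ * (g * xi_PiB d p x * g⁻¹) * g := by
    rw [Matrix.mul_assoc, Matrix.mul_assoc, Matrix.nonsing_inv_mul _ (Ne.isUnit hg),
      Matrix.mul_one, ← Matrix.mul_assoc, Matrix.nonsing_inv_mul _ (Ne.isUnit hg), Matrix.one_mul]
  have f1 := (hF n (g⁻¹ * (g * xi_PiB d p x * g⁻¹)) g).2.2.2.1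
  have f2 := (hF n g⁻¹ (g * xi_PiB d p x * g⁻¹)).2.2.2.1
  rw [← e2] at f1
  have f3 := Real.sq_sqrt (nonneg_Fro g)
  have f4 := Real.sq_sqrt (nonneg_Fro g⁻¹)
  have f5 : √(fro g⁻¹) * √(fro g) ≤ M := by
    nlinarith [sq_nonneg (√(fro g⁻¹) - √(fro g)), sq_nonneg (√(fro g⁻¹) + √(fro g))]
  calc _ ≤ √(fro g⁻¹) * √(fro (g * xi_PiB d p x * g⁻¹)) * √(fro g) :=
        f1.trans (mul_le_mul_of_nonneg_right f2 (Real.sqrt_nonneg _))
    _ = √(fro g⁻¹) * √(fro g) * √(fro (g * xi_PiB d p x * g⁻¹)) := by ring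
    _ ≤ _ := mul_le_mul_of_nonneg_right f5 (Real.sqrt_nonneg _)

theorem der_PiB {n d : ℕ} {c : ℕ → ℂ} {G p : ℝ → Mx n} (h : Reg d c G p) (x : ℝ) :
    HasDerivAt (fun t => (trace (xi_PiB d p t * xi_PiB d p t)).re)
      (8 * Real.exp (2 * x) * (trace (rh d c G x * xi_PiB d p x)).re) x := by
  have h1 : ∀ a b, HasDerivAt (fun t => xi_PiB d p t a b) ((kk d a b : ℂ) * xi_PiB d p x a b +
      ((4 * Real.exp (2 * x) : ℝ) : ℂ) * rh d c G x a b) x := fun a b => by
    have e : (kk d a b : ℂ) * xi_PiB d p x a b = (kk d a b : ℂ) * p x a b := by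
      by_cases hab : a = b
      · simp [kk, hab]
      · simp [xi_PiB, diagonal_apply_ne _ hab]
    rw [e]
    exact (h.dP x a b).sub_const _
  have h2 := HasDerivAt.fun_sum (u := Finset.univ) fun a _ =>
    HasDerivAt.fun_sum (u := Finset.univ) fun b _ => (h1 a b).fun_mul (h1 b a)
  have h3 := Complex.reCLM.hasFDerivAt.comp_hasDerivAt x h2
  refine HasDerivAt.congr_deriv h3 ?_
  have e : (∑ a, ∑ b, (((kk d a b : ℂ) * xi_PiB d p x a b +
      ((4 * Real.exp (2 * x) : ℝ) : ℂ) * rh d c G x a b) * xi_PiB d p x b a +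
      xi_PiB d p x a b * ((kk d b a : ℂ) * xi_PiB d p x b a +
      ((4 * Real.exp (2 * x) : ℝ) : ℂ) * rh d c G x b a))) = ((4 * Real.exp (2 * x) : ℝ) : ℂ) *
      (trace (rh d c G x * xi_PiB d p x) + trace (xi_PiB d p x * rh d c G x)) := by
    simp only [trace, diag_apply, Matrix.mul_apply, ← Finset.sum_add_distrib, Finset.mul_sum]
    refine Finset.sum_congr rfl fun a _ => Finset.sum_congr rfl fun b _ => ?_
    unfold kk
    push_cast
    ring
  rw [e, trace_mul_comm (xi_PiB d p x), Complex.reCLM_apply, Complex.re_ofReal_mul,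
    Complex.add_re]
  ring

theorem sPiB (hB1 : SB1) (hB2 : SB2) (hF : SFro) (hR : SRhoB) : SPiB := by
  intro n d c G p h
  obtain ⟨⟨C, C0, hC⟩, -⟩ := hR n d c G p h
  obtain ⟨M0, hM0⟩ := h.bd
  obtain ⟨M, m0, hM⟩ : ∃ M : ℝ, 0 ≤ M ∧ ∀ x ≤ (0 : ℝ), tt (G x) ≤ M :=
    ⟨|M0|, abs_nonneg _, fun x hx => (hM0 x hx).trans (le_abs_self _)⟩
  obtain ⟨q, hq⟩ : ∃ q : ℝ → ℝ, q = fun t => (trace (xi_PiB d p t * xi_PiB d p t)).re := ⟨_, rfl⟩
  have q0 : ∀ x, 0 ≤ q x := fun x => hq ▸ (nsq_PiB hB1 hB2 hF h x).1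
  have q1 : ∀ x ≤ (0 : ℝ), √(fro (xi_PiB d p x)) ≤ M * √(q x) := fun x hx =>
    hq ▸ (nsq_PiB hB1 hB2 hF h x).2 M (hM x hx)
  have q2 : ∀ x, HasDerivAt q (8 * Real.exp (2 * x) *
      (trace (rh d c G x * xi_PiB d p x)).re) x := fun x => hq ▸ der_PiB h x
  have f1 : ∀ x, HasDerivAt (fun t => Real.log (1 + q t) + 4 * (n * C * M) * Real.exp (2 * t))
      (8 * Real.exp (2 * x) * (trace (rh d c G x * xi_PiB d p x)).re / (1 + q x) +
        4 * (n * C * M) * (Real.exp (2 * x) * (2 * 1))) x := fun x =>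
    (((q2 x).const_add 1).log (by linarith [q0 x])).add
      ((((hasDerivAt_id x).const_mul 2).exp).const_mul _)
  have f2 := monotoneOn_of_deriv_nonneg (convex_Iic (0 : ℝ))
    (fun x _ => (f1 x).continuousAt.continuousWithinAt)
    (fun x _ => (f1 x).differentiableAt.differentiableWithinAt) fun x hx => by
      have hx0 : x ≤ 0 := Set.mem_Iic.1 (interior_subset hx)
      rw [(f1 x).deriv]
      have a1 := (hF n (rh d c G x) (xi_PiB d p x)).2.2.2.2.2.2
      have a2 : √(fro (rh d c G x)) ≤ n * C := Real.sqrt_le_iff.2 ⟨by positivity, by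
        rw [mul_pow]; exact a1.2.1 C fun a b => (hC x hx0 a b).1⟩
      have a3 : √(q x) ≤ 1 + q x :=
        Real.sqrt_le_iff.2 ⟨by linarith [q0 x], by nlinarith [q0 x]⟩
      have a4 : ‖trace (rh d c G x * xi_PiB d p x)‖ ≤ n * C * (M * (1 + q x)) :=
        a1.1.trans (mul_le_mul a2 ((q1 x hx0).trans (mul_le_mul_of_nonneg_left a3 m0))
          (Real.sqrt_nonneg _) (by positivity))
      have a5 := (abs_le.1 ((Complex.abs_re_le_norm _).trans a4)).1
      have a6 : -(n * C * M) ≤ (trace (rh d c G x * xi_PiB d p x)).re / (1 + q x) := by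
        rw [le_div_iff₀ (by linarith [q0 x])]
        linarith
      rw [mul_div_assoc]
      nlinarith [Real.exp_pos (2 * x)]
  refine ⟨M * √(Real.exp (Real.log (1 + q 0) + 4 * (n * C * M))) + 2 * d * n,
    fun x hx a b => ?_⟩
  have g1 := f2 hx (Set.mem_Iic.2 le_rfl) hx
  simp only [mul_zero, Real.exp_zero, mul_one] at g1
  have g2 : q x ≤ Real.exp (Real.log (1 + q 0) + 4 * (n * C * M)) := by
    have : 0 ≤ 4 * (n * C * M) * Real.exp (2 * x) := by positivity
    have := (Real.log_le_iff_le_exp (by linarith [q0 x] : 0 < 1 + q x)).1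
      (show Real.log (1 + q x) ≤ Real.log (1 + q 0) + 4 * (n * C * M) by linarith)
    linarith
  have g3 := ((hF n (xi_PiB d p x) 0).1 a b).trans ((q1 x hx).trans
    (mul_le_mul_of_nonneg_left (Real.sqrt_le_sqrt g2) m0))
  have g4 : ‖(diagonal fun a : Fin n => 2 * (d : ℂ) * (a.val : ℂ)) a b‖ ≤ 2 * d * n := by
    rw [diagonal_apply]
    split_ifs
    · have : (a.val : ℝ) ≤ n := by exact_mod_cast a.2.le
      simp only [norm_mul, Complex.norm_natCast, Complex.norm_ofNat]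
      exact mul_le_mul_of_nonneg_left this (by positivity)
    · rw [norm_zero]; positivity
  have g5 : p x a b = xi_PiB d p x a b +
      (diagonal fun a : Fin n => 2 * (d : ℂ) * (a.val : ℂ)) a b := by simp [xi_PiB]
  rw [g5]
  exact (norm_add_le _ _).trans (add_le_add g3 g4)

theorem basic_Sc {w w' : ℝ → ℂ} {C m : ℝ} (hw : ∀ x, HasDerivAt w (w' x) x)
    (hb : ∀ x ≤ (0 : ℝ), ‖w' x‖ ≤ C * Real.exp (m * x)) (hm : m ≠ 0) {a b : ℝ} (hab : a ≤ b)
    (h0 : b ≤ 0) : ‖w b - w a‖ ≤ C / m * (Real.exp (m * b) - Real.exp (m * a)) := by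
  refine image_norm_le_of_norm_deriv_right_le_deriv_boundary (f := fun x => w x - w a) (f' := w')
    (a := a) (b := b) (B := fun x => C / m * (Real.exp (m * x) - Real.exp (m * a)))
    (B' := fun x => C * Real.exp (m * x))
    (fun x _ => ((hw x).sub_const _).continuousAt.continuousWithinAt)
    (fun x _ => ((hw x).sub_const _).hasDerivWithinAt) (by simp) (fun x => ?_)
    (fun x hx => hb x (hx.2.le.trans h0)) ⟨hab, le_rfl⟩
  have := ((((hasDerivAt_id x).const_mul m).exp).sub_const (Real.exp (m * a))).const_mul (C / m)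
  refine this.congr_deriv ?_
  simp only [id]
  field_simp

theorem pos_Sc {w w' : ℝ → ℂ} {C m : ℝ} (hw : ∀ x, HasDerivAt w (w' x) x)
    (hb : ∀ x ≤ (0 : ℝ), ‖w' x‖ ≤ C * Real.exp (m * x)) (hm : 0 < m) {a b : ℝ} (hab : a ≤ b)
    (h0 : b ≤ 0) : ‖w b - w a‖ ≤ C / m * Real.exp (m * b) := by
  have hC : 0 ≤ C := by simpa using (norm_nonneg _).trans (hb 0 le_rfl)
  refine (basic_Sc hw hb hm.ne' hab h0).trans (mul_le_mul_of_nonneg_left ?_ (by positivity))
  linarith [Real.exp_pos (m * a)]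

theorem lim_Sc {w w' : ℝ → ℂ} {C m : ℝ} (hw : ∀ x, HasDerivAt w (w' x) x)
    (hb : ∀ x ≤ (0 : ℝ), ‖w' x‖ ≤ C * Real.exp (m * x)) (hm : 0 < m) {L : ℂ}
    (hL : Tendsto w atBot (𝓝 L)) {b : ℝ} (h0 : b ≤ 0) : ‖w b - L‖ ≤ C / m * Real.exp (m * b) :=
  le_of_tendsto (tendsto_const_nhds.sub hL).norm
    ((eventually_le_atBot b).mono fun _ ha => pos_Sc hw hb hm ha h0)

theorem ex_Sc {w w' : ℝ → ℂ} {C m : ℝ} (hw : ∀ x, HasDerivAt w (w' x) x)
    (hb : ∀ x ≤ (0 : ℝ), ‖w' x‖ ≤ C * Real.exp (m * x)) (hm : 0 < m) :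
    ∃ L, Tendsto w atBot (𝓝 L) := by
  have hC : 0 ≤ C := by simpa using (norm_nonneg _).trans (hb 0 le_rfl)
  rw [← cauchy_map_iff_exists_tendsto, Metric.cauchy_iff]
  refine ⟨inferInstance, fun δ hδ => ?_⟩
  have t1 : Tendsto (fun x => C / m * Real.exp (m * x)) atBot (𝓝 (C / m * 0)) :=
    (Real.tendsto_exp_atBot.comp (tendsto_id.const_mul_atBot hm)).const_mul _
  rw [mul_zero] at t1
  obtain ⟨T, hT, hT0⟩ := ((t1.eventually (gt_mem_nhds hδ)).and (eventually_le_atBot 0)).exists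
  have key : ∀ a b, a ≤ b → b ≤ T → ‖w b - w a‖ < δ := fun a b h1 h2 =>
    (pos_Sc hw hb hm h1 (h2.trans hT0)).trans_lt (lt_of_le_of_lt (by gcongr) hT)
  refine ⟨w '' Set.Iic T, image_mem_map (Iic_mem_atBot T), ?_⟩
  rintro _ ⟨a, ha, rfl⟩ _ ⟨b, hb', rfl⟩
  rcases le_total a b with h | h
  · rw [dist_comm, dist_eq_norm]; exact key a b h hb'
  · rw [dist_eq_norm]; exact key b a h ha

theorem sSc : SSc := by
  intro p g k ε C hp hg
  have hC : 0 ≤ C := by simpa using (norm_nonneg _).trans (hg 0 le_rfl)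
  have hw : ∀ x, HasDerivAt (fun x => ((Real.exp (-k * x) : ℝ) : ℂ) * p x)
      (((Real.exp (-k * x) : ℝ) : ℂ) * g x) x := by
    intro x
    have := (((hasDerivAt_id x).const_mul (-k)).exp.ofReal_comp).mul (hp x)
    refine HasDerivAt.congr_deriv this ?_
    simp only [id]
    push_cast
    ring
  have hb : ∀ x ≤ (0 : ℝ), ‖((Real.exp (-k * x) : ℝ) : ℂ) * g x‖ ≤ C * Real.exp ((ε - k) * x) := by
    intro x hx
    rw [norm_mul, Complex.norm_real, Real.norm_of_nonneg (Real.exp_pos _).le,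
      show (ε - k) * x = -k * x + ε * x by ring, Real.exp_add, mul_left_comm]
    exact mul_le_mul_of_nonneg_left (hg x hx) (Real.exp_pos _).le
  have back : ∀ x, ‖p x‖ = Real.exp (k * x) * ‖((Real.exp (-k * x) : ℝ) : ℂ) * p x‖ := by
    intro x
    rw [norm_mul, Complex.norm_real, Real.norm_of_nonneg (Real.exp_pos _).le, ← mul_assoc,
      ← Real.exp_add]
    simp
  have ee : ∀ x, Real.exp (k * x) * Real.exp ((ε - k) * x) = Real.exp (ε * x) := by
    intro x
    rw [← Real.exp_add]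
    congr 1
    ring
  refine ⟨fun h hL => ⟨C / (ε - k), fun x hx => ?_⟩, fun h h' => ?_,
    fun h => ⟨‖p 0‖ + C / (k - ε), fun x hx => ?_⟩⟩
  · have := lim_Sc hw hb (sub_pos.2 h) hL hx
    rw [sub_zero] at this
    rw [back, ← ee, mul_left_comm]
    exact mul_le_mul_of_nonneg_left this (Real.exp_pos _).le
  · subst h
    have hp' : ∀ x, HasDerivAt p (g x) x := fun x => by simpa using hp x
    obtain ⟨L, hL⟩ := ex_Sc hp' hg h'
    exact ⟨L, C / ε, fun x hx => lim_Sc hp' hg h' hL hx⟩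
  · have h1 := basic_Sc hw hb (sub_neg.2 h).ne hx le_rfl
    have h2 : ‖((Real.exp (-k * x) : ℝ) : ℂ) * p x‖ ≤
        ‖p 0‖ + C / (k - ε) * Real.exp ((ε - k) * x) := by
      have e : C / (ε - k) = -(C / (k - ε)) := by rw [← neg_sub k ε, div_neg]
      have h3 : 0 ≤ C / (k - ε) := div_nonneg hC (sub_pos.2 h).le
      have h4 := norm_sub_norm_le (((Real.exp (-k * x) : ℝ) : ℂ) * p x)
        (((Real.exp (-k * 0) : ℝ) : ℂ) * p 0)
      rw [norm_sub_rev] at h4
      simp only [mul_zero, Real.exp_zero, Complex.ofReal_one, one_mul] at h1 h4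
      rw [e] at h1
      linarith
    have h5 : Real.exp (k * x) ≤ Real.exp (ε * x) :=
      Real.exp_le_exp.2 (mul_le_mul_of_nonpos_right h.le hx)
    rw [back]
    refine (mul_le_mul_of_nonneg_left h2 (Real.exp_pos _).le).trans ?_
    rw [mul_add, mul_left_comm, ee, add_mul, mul_comm]
    gcongr

lemma exp_tend_As1 {ε : ℝ} (hε : 0 < ε) :
    Tendsto (fun x : ℝ => Real.exp (ε * x)) atBot (𝓝 0) :=
  Real.tendsto_exp_atBot.comp (tendsto_id.const_mul_atBot hε)

lemma small_As1 {u B ε : ℝ} (hε : 0 < ε) (h : ∀ x ≤ (0 : ℝ), u ≤ B * Real.exp (ε * x)) :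
    u ≤ 0 := by
  have h1 := (exp_tend_As1 hε).const_mul B
  rw [mul_zero] at h1
  exact ge_of_tendsto h1 ((eventually_le_atBot 0).mono h)

lemma tend_As1 {f : ℝ → ℂ} {k C : ℝ} (hk : k < 0) (h : ∀ x ≤ (0 : ℝ), ‖f x‖ ≤ C) :
    Tendsto (fun x => ((Real.exp (-k * x) : ℝ) : ℂ) * f x) atBot (𝓝 0) := by
  have h1 := (exp_tend_As1 (neg_pos.mpr hk)).mul_const C
  rw [zero_mul] at h1
  refine squeeze_zero_norm' ((eventually_le_atBot 0).mono fun x hx => ?_) h1
  rw [norm_mul, Complex.norm_real, Real.norm_of_nonneg (Real.exp_pos _).le]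
  exact mul_le_mul_of_nonneg_left (h x hx) (Real.exp_pos _).le

lemma sm_As1 {f : ℝ → ℂ} :
    Sm f ↔ ∃ B : ℝ, ∀ x ≤ (0 : ℝ), ‖f x‖ ≤ B * Real.exp (1 / 2 * x) := by
  unfold Sm
  simp only [show ∀ x : ℝ, 1 / 2 * x = x / 2 from fun x => by ring]

lemma sm_mul_As1 {f g : ℝ → ℂ} {C : ℝ} (hf : ∀ x ≤ (0 : ℝ), ‖f x‖ ≤ C) (hg : Sm g) :
    Sm fun x => f x * g x := by
  obtain ⟨B, hB⟩ := hg
  refine ⟨C * B, fun x hx => ?_⟩
  rw [norm_mul, mul_assoc]
  exact mul_le_mul (hf x hx) (hB x hx) (norm_nonneg _) ((norm_nonneg _).trans (hf x hx))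

lemma sm_add_As1 {f g : ℝ → ℂ} (hf : Sm f) (hg : Sm g) : Sm fun x => f x + g x := by
  obtain ⟨B, hB⟩ := hf
  obtain ⟨B', hB'⟩ := hg
  refine ⟨B + B', fun x hx => (norm_add_le _ _).trans ?_⟩
  rw [add_mul]
  exact add_le_add (hB x hx) (hB' x hx)

lemma sm_sum_As1 {ι : Type} (s : Finset ι) {f : ι → ℝ → ℂ} (hf : ∀ i ∈ s, Sm (f i)) :
    Sm fun x => ∑ i ∈ s, f i x := by
  classical
  induction s using Finset.induction_on with
  | empty => exact ⟨0, fun x _ => by simp⟩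
  | insert i s hi ih =>
    simp only [Finset.sum_insert hi]
    exact sm_add_As1 (hf i (Finset.mem_insert_self _ _))
      (ih fun j hj => hf j (Finset.mem_insert_of_mem hj))

theorem sAs1 (hR : SRhoB) (hP : SPiB) (hS : SSc) : SAs1 := by
  intro n d c G p hreg hd
  obtain ⟨⟨C, hC, hb⟩, -⟩ := hR n d c G p hreg
  obtain ⟨Cp, hp⟩ := hP n d c G p hreg
  have key : ∀ a b, _ := fun a b => hS (fun x => p x a b)
    (fun x => ((4 * Real.exp (2 * x) : ℝ) : ℂ) * rh d c G x a b) (kk d a b : ℝ) (1 / 2) (4 * C)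
    (fun x => by simpa only [Complex.ofReal_intCast] using hreg.dP x a b)
    (fun x hx => by
      rw [norm_mul, Complex.norm_real, Real.norm_of_nonneg (by positivity)]
      have h1 : Real.exp (2 * x) ≤ Real.exp (1 / 2 * x) := Real.exp_le_exp.mpr (by linarith)
      calc 4 * Real.exp (2 * x) * ‖rh d c G x a b‖ ≤ 4 * Real.exp (1 / 2 * x) * C :=
            mul_le_mul (by linarith) (hb x hx a b).1 (norm_nonneg _) (by positivity)
        _ = 4 * C * Real.exp (1 / 2 * x) := by ring)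
  have hd' : (1 : ℤ) ≤ d := by exact_mod_cast hd
  have off : ∀ a b : Fin n, a ≠ b → Sm fun x => p x a b := by
    intro a b hab
    rw [sm_As1]
    have hv : a.val ≠ b.val := fun e => hab (Fin.ext e)
    rcases lt_or_gt_of_ne hv with h | h
    · have h1 : (1 : ℤ) ≤ kk d a b := by
        have : (1 : ℤ) ≤ (b.val : ℤ) - a.val := by omega
        unfold kk
        nlinarith
      have h2 : (1 : ℝ) ≤ (kk d a b : ℝ) := by exact_mod_cast h1
      exact (key a b).2.2 (by linarith)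
    · have h1 : kk d a b ≤ -1 := by
        have : (b.val : ℤ) - a.val ≤ -1 := by omega
        unfold kk
        nlinarith
      have h2 : (kk d a b : ℝ) ≤ -1 := by exact_mod_cast h1
      exact (key a b).1 (by linarith) (tend_As1 (by linarith) fun x hx => hp x hx a b)
  intro a b
  by_cases hab : a ≠ b
  · exact off a b hab
  obtain rfl : a = b := not_not.mp hab
  have k0 : kk d a a = 0 := by simp [kk]
  obtain ⟨L, hL⟩ := (key a a).2.1 (by simp [k0]) (by norm_num)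
  have hL' : Sm fun x => p x a a - L := sm_As1.mpr hL
  set h : ℝ → ℂ := fun x => ∑ l ∈ Finset.univ.erase a, G x a l * p x l a +
    G x a a * (p x a a - L) with hh
  have hsm : Sm h := sm_add_As1
    (sm_sum_As1 _ fun l hl => sm_mul_As1 (fun x hx => (hb x hx a l).2.1)
      (off l a (Finset.ne_of_mem_erase hl)))
    (sm_mul_As1 (fun x hx => (hb x hx a a).2.1) hL')
  obtain ⟨B, hB⟩ := sm_As1.mp hsm
  have hF : ∀ x, HasDerivAt (fun t => G t a a) (L * G x a a + h x) x := by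
    intro x
    have := hreg.dG x a a
    rw [k0, Matrix.mul_apply, ← Finset.add_sum_erase _ _ (Finset.mem_univ a)] at this
    convert this using 1
    simp only [hh, Int.cast_zero]
    ring
  have him : ∀ x, (G x a a).im = 0 := by
    intro x
    have h1 : (G x)ᴴ a a = G x a a := by rw [(hreg.pos x).1]
    rw [Matrix.conjTranspose_apply] at h1
    exact Complex.conj_eq_iff_im.mp h1
  have hC' : 0 < 1 / C := by positivity
  have hLim : L.im = 0 := by
    have h1 : ∀ x, (L * G x a a + h x).im = 0 := by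
      intro x
      have h2 := Complex.imCLM.hasFDerivAt.comp_hasDerivAt x (hF x)
      have h3 : (Complex.imCLM ∘ fun t => G t a a) = fun _ => (0 : ℝ) := funext fun t => him t
      rw [h3] at h2
      exact h2.unique (hasDerivAt_const x 0)
    have h4 : |L.im| * (1 / C) ≤ 0 := small_As1 (B := B) (ε := 1 / 2) (by norm_num) fun x hx => by
      have h5 := h1 x
      rw [Complex.add_im, Complex.mul_im, him x, mul_zero, zero_add] at h5
      have h6 := (hb x hx a a).2.2.2.2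
      calc |L.im| * (1 / C) ≤ |L.im| * |(G x a a).re| :=
            mul_le_mul_of_nonneg_left (h6.trans (le_abs_self _)) (abs_nonneg _)
        _ = |(h x).im| := by
            rw [← abs_mul, ← abs_neg (h x).im]
            congr 1
            linarith
        _ ≤ _ := (Complex.abs_im_le_norm _).trans (hB x hx)
    have h7 : |L.im| ≤ 0 := le_of_mul_le_mul_right (by rwa [zero_mul]) hC'
    exact abs_nonpos_iff.mp h7
  have hLre : (L.re : ℂ) = L := Complex.ext rfl (by simp [hLim])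
  have no : ∀ ε B' : ℝ, 0 < ε → ¬ ∀ x ≤ (0 : ℝ), ‖G x a a‖ ≤ B' * Real.exp (ε * x) := by
    intro ε B' hε h1
    have := small_As1 (u := 1 / C) hε fun x hx =>
      ((hb x hx a a).2.2.2.2.trans (Complex.re_le_norm _)).trans (h1 x hx)
    linarith
  have hF' : ∀ x, HasDerivAt (fun t => G t a a) ((L.re : ℂ) * G x a a + h x) x := by
    rw [hLre]; exact hF
  have hL0 : L.re = 0 := by
    by_contra hne
    rcases lt_or_gt_of_ne hne with h1 | h1
    · obtain ⟨B', hB'⟩ := (hS _ h L.re (1 / 2) B hF' hB).1 (by linarith)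
        (tend_As1 h1 fun x hx => (hb x hx a a).2.1)
      exact no _ B' (by norm_num) hB'
    · have e0 : 0 < min (1 / 2 : ℝ) (L.re / 2) := lt_min (by norm_num) (by linarith)
      obtain ⟨B', hB'⟩ := (hS _ h L.re (min (1 / 2) (L.re / 2)) |B| hF' fun x hx =>
        (hB x hx).trans (mul_le_mul (le_abs_self _)
          (Real.exp_le_exp.mpr (mul_le_mul_of_nonpos_right (min_le_left _ _) hx))
          (Real.exp_pos _).le (abs_nonneg _))).2.2
        ((min_le_right _ _).trans_lt (by linarith))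
      exact no _ B' e0 hB'
  rw [← hLre, hL0] at hL'
  simpa using hL'

theorem iff_As2 {F : ℝ → ℂ} :
    Sm F ↔ ∃ C : ℝ, ∀ x ≤ (0 : ℝ), ‖F x‖ ≤ C * Real.exp (1 / 2 * x) := by
  simp only [Sm, one_div_mul_eq_div]

theorem exp_As2 {k : ℝ} (hk : 0 < k) (C : ℝ) :
    Tendsto (fun x => C * Real.exp (k * x)) atBot (𝓝 0) := by
  simpa using (Real.tendsto_exp_atBot.comp (tendsto_id.const_mul_atBot hk)).const_mul C

theorem mul_As2 {n : ℕ} {G p : ℝ → Mx n} {C : ℝ} (hC : 0 < C)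
    (hG : ∀ x ≤ (0 : ℝ), ∀ a b, ‖G x a b‖ ≤ C) (hp : ∀ a b, Sm fun x => p x a b) (a b : Fin n) :
    Sm fun x => (G x * p x) a b := by
  choose B hB using hp
  refine ⟨∑ l, C * B l b, fun x hx => ?_⟩
  rw [Finset.sum_mul]
  change ‖(G x * p x) a b‖ ≤ _
  rw [mul_apply]
  refine (norm_sum_le _ _).trans (Finset.sum_le_sum fun l _ => ?_)
  rw [norm_mul, mul_assoc]
  exact mul_le_mul (hG x hx a l) (hB l b x hx) (norm_nonneg _) hC.le

theorem sAs2 (hR : SRhoB) (hS : SSc) : SAs2 := by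
  intro n d c G p h hd hp
  obtain ⟨⟨C, hC, hb⟩, -⟩ := hR n d c G p h
  have hG : ∀ x ≤ (0 : ℝ), ∀ a b, ‖G x a b‖ ≤ C := fun x hx a b => (hb x hx a b).2.1
  have hs : ∀ x a b, G x a b = star (G x b a) := fun x a b => by
    rw [← conjTranspose_apply, (h.pos x).1]
  have key := fun a b => (iff_As2.1 (mul_As2 hC hG hp a b)).imp fun B hB =>
    hS (fun x => G x a b) (fun x => (G x * p x) a b) (-(kk d a b : ℝ)) (1 / 2) B
      (fun x => (h.dG x a b).congr_deriv (by push_cast; ring)) hB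
  have up : ∀ a b : Fin n, a < b → Sm fun x => G x a b := fun a b hab => by
    obtain ⟨B, k1, -⟩ := key a b
    have k0 : (0 : ℝ) < kk d a b := by
      have : (0 : ℤ) < kk d a b :=
        mul_pos (by exact_mod_cast hd) (sub_pos.2 (by exact_mod_cast hab))
      exact_mod_cast this
    refine iff_As2.2 (k1 (by linarith) (squeeze_zero_norm' ?_ (exp_As2 k0 C)))
    filter_upwards [eventually_le_atBot 0] with x hx
    rw [neg_neg, norm_mul, Complex.norm_real, Real.norm_eq_abs, abs_of_pos (Real.exp_pos _),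
      mul_comm]
    exact mul_le_mul_of_nonneg_right (hG x hx a b) (Real.exp_pos _).le
  have dia : ∀ a : Fin n, ∃ g : ℝ, 0 < g ∧ Sm fun x => G x a a - g := fun a => by
    obtain ⟨B, -, k2, -⟩ := key a a
    obtain ⟨L, B', hL⟩ := k2 (by simp [kk]) (by norm_num)
    have t : Tendsto (fun x => G x a a) atBot (𝓝 L) :=
      tendsto_sub_nhds_zero_iff.1 (squeeze_zero_norm'
        ((eventually_le_atBot 0).mono hL) (exp_As2 (by norm_num) B'))
    have e : L = star L := tendsto_nhds_unique t (t.star.congr fun x => (hs x a a).symm)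
    have r : 1 / C ≤ L.re := ge_of_tendsto ((Complex.continuous_re.tendsto L).comp t)
      ((eventually_le_atBot 0).mono fun x hx => (hb x hx a a).2.2.2.2)
    refine ⟨L.re, (one_div_pos.2 hC).trans_le r, iff_As2.2 ⟨B', ?_⟩⟩
    rw [Complex.conj_eq_iff_re.1 e.symm]
    exact hL
  choose g g0 hg using dia
  refine ⟨g, g0, fun a b => ?_⟩
  rcases lt_trichotomy a b with hab | rfl | hab
  · simpa only [dR, diagonal_apply_ne _ hab.ne, sub_zero] using up a b hab
  · simpa only [dR, diagonal_apply_eq] using hg a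
  · obtain ⟨B, hB⟩ := up b a hab
    refine ⟨B, fun x hx => ?_⟩
    simp only [dR, diagonal_apply_ne _ hab.ne', sub_zero]
    rw [hs, norm_star]
    exact hB x hx

theorem sm_zero_As3 : Sm fun _ => (0 : ℂ) := ⟨0, fun x _ => by simp⟩

theorem sm_add_As3 {F G : ℝ → ℂ} (hF : Sm F) (hG : Sm G) : Sm fun x => F x + G x := by
  obtain ⟨C, hC⟩ := hF
  obtain ⟨D, hD⟩ := hG
  refine ⟨C + D, fun x hx => (norm_add_le _ _).trans ?_⟩
  rw [add_mul]
  exact add_le_add (hC x hx) (hD x hx)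

theorem sm_mul_As3 {F G : ℝ → ℂ} (hF : ∃ C : ℝ, ∀ x ≤ (0 : ℝ), ‖F x‖ ≤ C) (hG : Sm G) :
    Sm fun x => F x * G x := by
  obtain ⟨C, hC⟩ := hF
  obtain ⟨D, hD⟩ := hG
  refine ⟨C * D, fun x hx => ?_⟩
  rw [norm_mul, mul_assoc]
  exact mul_le_mul (hC x hx) (hD x hx) (norm_nonneg _) ((norm_nonneg _).trans (hC x hx))

theorem sm_sum_As3 {ι : Type} (s : Finset ι) {F : ι → ℝ → ℂ} (h : ∀ i, Sm (F i)) :
    Sm fun x => ∑ i ∈ s, F i x := by
  classical
  induction s using Finset.induction_on with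
  | empty => simpa using sm_zero_As3
  | insert a s ha ih =>
    simp only [Finset.sum_insert ha]
    exact sm_add_As3 (h a) ih

theorem sm_bd_As3 {F : ℝ → ℂ} {L : ℂ} (h : Sm fun x => F x - L) :
    ∃ C : ℝ, ∀ x ≤ (0 : ℝ), ‖F x‖ ≤ C := by
  obtain ⟨C, hC⟩ := h
  refine ⟨|C| + ‖L‖, fun x hx => ?_⟩
  have h1 : Real.exp (x / 2) ≤ 1 := Real.exp_le_one_iff.2 (by linarith)
  have h2 : C * Real.exp (x / 2) ≤ |C| * 1 :=
    mul_le_mul (le_abs_self C) h1 (Real.exp_pos _).le (abs_nonneg C)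
  have h3 : ‖F x‖ ≤ ‖F x - L‖ + ‖L‖ := by simpa using norm_add_le (F x - L) L
  linarith [hC x hx]

/-- exponentially fast convergence of a matrix function -/
def Ap_As3 {n : ℕ} (X : ℝ → Mx n) (L : Mx n) : Prop := ∀ a b, Sm fun x => X x a b - L a b

theorem ap_const_As3 {n : ℕ} (L : Mx n) : Ap_As3 (fun _ => L) L := fun a b => by
  simpa using sm_zero_As3

theorem ap_sub_As3 {n : ℕ} {X Y : ℝ → Mx n} {L M : Mx n} (hX : Ap_As3 X L) (hY : Ap_As3 Y M) :
    Ap_As3 (fun x => X x - Y x) (L - M) := fun a b => by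
  have h := sm_add_As3 (hX a b) (sm_mul_As3 (F := fun _ => -1) ⟨1, fun _ _ => by simp⟩ (hY a b))
  refine (congrArg Sm (funext fun x => ?_)).mp h
  simp only [Matrix.sub_apply]
  ring

theorem ap_mul_As3 {n : ℕ} {X Y : ℝ → Mx n} {L M : Mx n} (hX : Ap_As3 X L) (hY : Ap_As3 Y M) :
    Ap_As3 (fun x => X x * Y x) (L * M) := fun a b => by
  have h := sm_sum_As3 Finset.univ (F := fun l x => Y x l b * (X x a l - L a l) +
      L a l * (Y x l b - M l b)) fun l =>
    sm_add_As3 (sm_mul_As3 (sm_bd_As3 (hY l b)) (hX a l))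
      (sm_mul_As3 (F := fun _ => L a l) ⟨‖L a l‖, fun _ _ => le_rfl⟩ (hY l b))
  refine (congrArg Sm (funext fun x => ?_)).mp h
  simp only [Matrix.mul_apply, ← Finset.sum_sub_distrib]
  exact Finset.sum_congr rfl fun l _ => by ring

theorem ap_star_As3 {n : ℕ} {X : ℝ → Mx n} {L : Mx n} (hX : Ap_As3 X L) :
    Ap_As3 (fun x => (X x)ᴴ) Lᴴ := fun a b => by
  obtain ⟨C, hC⟩ := hX b a
  refine ⟨C, fun x hx => ?_⟩
  simp only [conjTranspose_apply]
  rw [← star_sub, norm_star]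
  exact hC x hx

theorem ap_inv_As3 {n : ℕ} {X : ℝ → Mx n} {L : Mx n} (hX : Ap_As3 X L) (h1 : ∀ x, (X x).det ≠ 0)
    (h2 : L.det ≠ 0) (hb : ∀ a b, ∃ C : ℝ, ∀ x ≤ (0 : ℝ), ‖(X x)⁻¹ a b‖ ≤ C) :
    Ap_As3 (fun x => (X x)⁻¹) L⁻¹ := fun a b => by
  have h3 := ap_mul_As3 (ap_sub_As3 (ap_const_As3 L) hX) (ap_const_As3 L⁻¹)
  have h := sm_sum_As3 Finset.univ (F := fun l x => (X x)⁻¹ a l *
      (((L - X x) * L⁻¹) l b - ((L - L) * L⁻¹) l b)) fun l => sm_mul_As3 (hb a l) (h3 l b)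
  refine (congrArg Sm (funext fun x => ?_)).mp h
  have e : (X x)⁻¹ * ((L - X x) * L⁻¹) = (X x)⁻¹ - L⁻¹ := by
    rw [Matrix.sub_mul, Matrix.mul_sub, mul_nonsing_inv _ (Ne.isUnit h2), Matrix.mul_one,
      ← Matrix.mul_assoc, nonsing_inv_mul _ (Ne.isUnit (h1 x)), Matrix.one_mul]
  have e' := congrFun (congrFun e a) b
  simp only [sub_self, Matrix.zero_mul, Matrix.zero_apply, sub_zero]
  rw [← Matrix.sub_apply, ← e', Matrix.mul_apply]

theorem ap_th_As3 (n d : ℕ) (c : ℕ → ℂ) (hd : 1 ≤ d) :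
    Ap_As3 (th n d c) (hitchin n fun _ => 0) := fun a b => by
  simp only [th, hitchin, of_apply]
  by_cases h1 : a.val = b.val + 1
  · simpa only [if_pos h1, sub_self] using sm_zero_As3
  · by_cases h2 : a.val < b.val
    · simp only [if_neg h1, if_pos h2, sub_zero]
      refine ⟨‖c (b.val - a.val + 1)‖, fun x hx => ?_⟩
      rw [norm_mul, Complex.norm_real, Real.norm_eq_abs, abs_of_pos (Real.exp_pos _)]
      refine mul_le_mul_of_nonneg_left (Real.exp_le_exp.2 ?_) (norm_nonneg _)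
      have a1 : (1 : ℝ) ≤ d := by exact_mod_cast hd
      have a2 : (1 : ℝ) ≤ ((b.val - a.val + 1 : ℕ) : ℝ) := by exact_mod_cast Nat.le_add_left 1 _
      have a3 : (1 : ℝ) ≤ d * ((b.val - a.val + 1 : ℕ) : ℝ) := one_le_mul_of_one_le_of_one_le a1 a2
      nlinarith
    · simpa only [if_neg h1, if_neg h2, sub_self] using sm_zero_As3

theorem nil_As3 {n : ℕ} {a b : Fin n} (h : a.val ≠ b.val + 1) :
    hitchin n (fun _ => (0 : ℂ)) a b = 0 := by
  simp [hitchin, h]

theorem adj_As3 {n : ℕ} (g : Fin n → ℝ) {a b : Fin n} (h : b.val ≠ a.val + 1) :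
    adj (dR g) (hitchin n fun _ => (0 : ℂ)) a b = 0 := by
  unfold adj dR
  rw [inv_diagonal, mul_diagonal, diagonal_mul, conjTranspose_apply, nil_As3 h]
  simp

theorem sAs3 (hB2 : SB2) (hR : SRhoB) : SAs3 := by
  intro n d c G p g hreg hd hg hG
  refine ⟨?_, fun a b hab => ?_⟩
  · obtain ⟨⟨C, -, hC⟩, -⟩ := hR n d c G p hreg
    have h1 : ∀ x, (G x).det ≠ 0 := fun x =>
      (hB2 n (G x) (G x) 1 1 (hreg.pos x) (hreg.pos x) (by simp)).1
    have h2 : (dR g).det ≠ 0 := by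
      unfold dR
      rw [det_diagonal]
      exact Finset.prod_ne_zero_iff.2 fun i _ => Complex.ofReal_ne_zero.2 (hg i).ne'
    have hG' : Ap_As3 G (dR g) := hG
    have hi := ap_inv_As3 hG' h1 h2 fun a b => ⟨C, fun x hx => (hC x hx a b).2.2.1⟩
    have ht := ap_th_As3 n d c hd
    have ha := ap_mul_As3 (ap_mul_As3 hi (ap_star_As3 ht)) hG'
    exact ap_sub_As3 (ap_mul_As3 ht ha) (ap_mul_As3 ha ht)
  · have hv : a.val ≠ b.val := fun h => hab (Fin.ext h)
    unfold br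
    rw [Matrix.sub_apply, Matrix.mul_apply, Matrix.mul_apply, Finset.sum_eq_zero, Finset.sum_eq_zero, sub_zero]
    · intro l _
      by_cases h : l.val = a.val + 1
      · rw [nil_As3 (by omega), mul_zero]
      · rw [adj_As3 g h, zero_mul]
    · intro l _
      by_cases h : a.val = l.val + 1
      · rw [adj_As3 g (by omega), mul_zero]
      · rw [nil_As3 h, zero_mul]

theorem exp_As4 {c : ℝ} (hc : 0 < c) : Tendsto (fun x => Real.exp (c * x)) atBot (𝓝 0) :=
  Real.tendsto_exp_atBot.comp (tendsto_id.const_mul_atBot hc)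

theorem cexp_As4 {c : ℝ} (hc : 0 < c) :
    Tendsto (fun x => ((Real.exp (c * x) : ℝ) : ℂ)) atBot (𝓝 0) := by
  have := (Complex.continuous_ofReal.tendsto 0).comp (exp_As4 hc)
  rwa [Complex.ofReal_zero] at this

theorem lim_As4 {F : ℝ → ℂ} {L : ℂ} {B : ℝ}
    (h : ∀ x ≤ (0 : ℝ), ‖F x - L‖ ≤ B * Real.exp (1 / 2 * x)) : Tendsto F atBot (𝓝 L) := by
  rw [← tendsto_sub_nhds_zero_iff]
  refine squeeze_zero_norm' ((eventually_le_atBot 0).mono h) ?_
  have := (exp_As4 (c := 1 / 2) (by norm_num)).const_mul B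
  rwa [mul_zero] at this

theorem der_As4 (c : ℝ) {p : ℝ → ℂ} {p' : ℂ} {x : ℝ} (h : HasDerivAt p p' x) :
    HasDerivAt (fun t => ((Real.exp (c * t) : ℝ) : ℂ) * p t)
      (c * (((Real.exp (c * x) : ℝ) : ℂ) * p x) + ((Real.exp (c * x) : ℝ) : ℂ) * p') x := by
  have e : HasDerivAt (fun t => Real.exp (c * t)) (Real.exp (c * x) * (c * 1)) x :=
    ((hasDerivAt_id x).const_mul c).exp
  refine (e.ofReal_comp.mul h).congr_deriv ?_
  simp only [Complex.ofReal_mul, Complex.ofReal_one]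
  ring

theorem mul_As4 (a b c x : ℝ) (h : a + b = c) :
    ((Real.exp (a * x) : ℝ) : ℂ) * ((Real.exp (b * x) : ℝ) : ℂ) = (Real.exp (c * x) : ℝ) := by
  rw [← Complex.ofReal_mul, ← Real.exp_add, ← add_mul, h]

theorem sAs4 (hS : SSc) : SAs4 := by
  intro k p ρ r hp ⟨A, hA0⟩ ⟨C, hC0⟩ hr
  have e2 : ∀ x : ℝ, 1 / 2 * x = x / 2 := fun x => by ring
  have hA : ∀ x ≤ (0 : ℝ), ‖p x‖ ≤ A * Real.exp (1 / 2 * x) := fun x hx => by
    rw [e2]
    exact hA0 x hx
  have hC : ∀ x ≤ (0 : ℝ), ‖ρ x - r‖ ≤ C * Real.exp (1 / 2 * x) := fun x hx => by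
    rw [e2]
    exact hC0 x hx
  have lp : Tendsto p atBot (𝓝 0) := lim_As4 (B := A) fun x hx => by
    rw [sub_zero]
    exact hA x hx
  have lρ : Tendsto ρ atBot (𝓝 r) := lim_As4 hC
  have h4 : ∀ x ≤ (0 : ℝ), ‖4 * (ρ x - r)‖ ≤ 4 * C * Real.exp (1 / 2 * x) := fun x hx => by
    rw [norm_mul, mul_assoc]
    exact mul_le_mul (by simp) (hC x hx) (norm_nonneg _) (by norm_num)
  by_cases k1 : k = 1
  · subst k1
    obtain rfl := hr one_ne_zero
    have d : ∀ x, HasDerivAt (fun t => ((Real.exp (-1 * t) : ℝ) : ℂ) * p t)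
        (((0 : ℝ) : ℂ) * (((Real.exp (-1 * x) : ℝ) : ℂ) * p x) +
          ((Real.exp (1 * x) : ℝ) : ℂ) * (4 * (ρ x - 0))) x := fun x => by
      refine (der_As4 (-1) (hp x)).congr_deriv ?_
      rw [← mul_As4 (-1) 2 1 x (by norm_num)]
      simp only [Complex.ofReal_mul, Complex.ofReal_neg, Complex.ofReal_one, Complex.ofReal_zero,
        Complex.ofReal_ofNat, Int.cast_one]
      ring
    obtain ⟨L, B, hB⟩ := (hS _ _ 0 (1 / 2) (4 * C) d fun x hx => by
      rw [norm_mul, Complex.norm_real, Real.norm_eq_abs, abs_of_pos (Real.exp_pos _)]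
      exact (mul_le_of_le_one_left (norm_nonneg _)
        (Real.exp_le_one_iff.2 (by linarith))).trans (h4 x hx)).2.1 rfl (by norm_num)
    refine ⟨L / 2, 0, ?_, fun h => (h rfl).elim, ?_, fun _ => rfl⟩
    · have := (lim_As4 hB).div_const 2
      simpa only [neg_mul, one_mul] using this
    · simpa only [Int.cast_one, sub_self, zero_div, zero_mul, add_zero] using lρ
  have dP : ∀ L : ℂ, ((k : ℂ) - 2) * L = -(4 * r) → ∀ x,
      HasDerivAt (fun t => ((Real.exp (-2 * t) : ℝ) : ℂ) * p t - L)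
      ((((k : ℝ) - 2 : ℝ) : ℂ) * (((Real.exp (-2 * x) : ℝ) : ℂ) * p x - L) + 4 * (ρ x - r)) x :=
    fun L hL x => by
      refine ((der_As4 (-2) (hp x)).sub_const L).congr_deriv ?_
      have e := mul_As4 (-2) 2 0 x (by norm_num)
      rw [zero_mul, Real.exp_zero, Complex.ofReal_one] at e
      simp only [Complex.ofReal_mul, Complex.ofReal_neg, Complex.ofReal_sub,
        Complex.ofReal_ofNat, Complex.ofReal_intCast]
      linear_combination hL + 4 * ρ x * e
  obtain ⟨L, hL, hq⟩ : ∃ L : ℂ, Tendsto (fun t => ((Real.exp (-2 * t) : ℝ) : ℂ) * p t) atBot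
      (𝓝 L) ∧ (k ≠ 2 → r + ((k : ℂ) - 1) / 2 * L = 0) := by
    rcases le_or_gt k 0 with h | h
    · have hk : (k : ℝ) ≤ 0 := by exact_mod_cast h
      have hL : ((k : ℂ) - 2) * (2 * r) = -(4 * r) := by
        rcases eq_or_ne k 0 with rfl | h0
        · push_cast
          ring
        · rw [hr h0]
          ring
      obtain ⟨B, hB⟩ := (hS _ _ _ (1 / 2) (4 * C) (dP _ hL) h4).1 (by linarith) (by
        have a1 : Tendsto (fun x => ((Real.exp (-k * x) : ℝ) : ℂ) * p x) atBot (𝓝 0) := by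
          refine squeeze_zero_norm' ((eventually_le_atBot 0).mono fun x hx => ?_)
            (tendsto_zero_iff_norm_tendsto_zero.1 lp)
          rw [norm_mul, Complex.norm_real, Real.norm_eq_abs, abs_of_pos (Real.exp_pos _)]
          exact mul_le_of_le_one_left (norm_nonneg _) (Real.exp_le_one_iff.2 (by nlinarith))
        have a2 := a1.sub ((cexp_As4 (c := -((k : ℝ) - 2)) (by linarith)).mul_const (2 * r))
        rw [zero_mul, sub_zero] at a2
        refine a2.congr fun x => ?_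
        rw [← mul_As4 (-((k : ℝ) - 2)) (-2) (-k) x (by ring)]
        ring)
      refine ⟨2 * r, lim_As4 hB, fun _ => ?_⟩
      linear_combination (1 / 2) * hL
    · obtain rfl := hr h.ne'
      have d := dP 0 (by ring)
      rcases eq_or_ne k 2 with rfl | k2
      · obtain ⟨L, B, hB⟩ := (hS _ _ _ (1 / 2) (4 * C) d h4).2.1 (by norm_num) (by norm_num)
        simp only [sub_zero] at hB
        exact ⟨L, lim_As4 hB, fun h => (h rfl).elim⟩
      · have hk : (3 : ℝ) ≤ k := by exact_mod_cast (by omega : 3 ≤ k)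
        obtain ⟨B, hB⟩ := (hS _ _ _ (1 / 2) (4 * C) d h4).2.2 (by linarith)
        exact ⟨0, lim_As4 hB, fun _ => by ring⟩
  refine ⟨0, r + ((k : ℂ) - 1) / 2 * L, ?_, fun _ => rfl, lρ.add (hL.const_mul _), hq⟩
  have := ((cexp_As4 one_pos).mul hL).div_const 2
  rw [zero_mul, zero_div] at this
  refine this.congr fun x => ?_
  rw [← mul_assoc, mul_As4 1 (-2) (-1) x (by norm_num), neg_mul, one_mul]

end Pool.Agent.MP_4f0bc7_gt.Od
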