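import Pool.Agent.MP_4f0bc7_gt.Od.St

namespace Pool.Agent.MP_4f0bc7_gt.Od

open Matrix Filter Topology Polynomial

/-- the real linear map `v ↦ a v + b conj v` -/
noncomputable def lin_Rem (a b : ℂ) : ℂ →L[ℝ] ℂ :=
  Complex.reCLM.smulRight (a + b) + Complex.imCLM.smulRight (Complex.I * (a - b))

theorem cd_Rem {k : WithTop ℕ∞} {F1 F2 : ℂ → ℂ} (h1 : ContDiff ℝ k F1) (h2 : ContDiff ℝ k F2) :
    ContDiff ℝ k fun z => lin_Rem (F1 z) (F2 z) :=
  (contDiff_const.smulRight (h1.add h2)).add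
    (contDiff_const.smulRight (contDiff_const.mul (h1.sub h2)))

theorem fd_Rem (F : ℂ → ℂ) (z : ℂ) : fderiv ℝ F z = lin_Rem (dz F z) (dzb F z) := by
  refine ContinuousLinearMap.ext fun v => ?_
  have e : v = v.re • (1 : ℂ) + v.im • Complex.I := by simp
  conv_lhs => rw [e, map_add, map_smul, map_smul]
  simp only [lin_Rem, dz, dzb, _root_.add_apply, ContinuousLinearMap.smulRight_apply,
    Complex.reCLM_apply, Complex.imCLM_apply]
  congr 2
  · ring
  · linear_combination (fderiv ℝ F z Complex.I) * Complex.I_mul_I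

theorem sRem : SRem := by
  intro F F1 F2 h0 h c1 c2
  have cL : Continuous fun z => lin_Rem (F1 z) (F2 z) :=
    contDiff_zero.1 (cd_Rem (contDiff_zero.2 c1) (contDiff_zero.2 c2))
  have e : ∀ z, z ≠ 0 → fderiv ℝ F z = lin_Rem (F1 z) (F2 z) := fun z hz => by
    rw [fd_Rem, (h z hz).2.1, (h z hz).2.2]
  have cF : ∀ y, ContinuousAt F y := fun y => by
    rcases eq_or_ne y 0 with rfl | hy
    exacts [h0, (h y hy).1.continuousAt]
  have half : ∀ s : Set ℂ, Convex ℝ s → IsOpen s → (0 : ℂ) ∉ s →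
      HasFDerivWithinAt F (lin_Rem (F1 0) (F2 0)) (closure s) 0 := fun s s1 s2 s3 => by
    have n : ∀ y ∈ s, y ≠ 0 := fun y hy h => s3 (h ▸ hy)
    refine hasFDerivWithinAt_closure_of_tendsto_fderiv
      (fun y hy => (h y (n y hy)).1.differentiableWithinAt) s1 s2
      (fun y _ => (cF y).continuousWithinAt) ?_
    refine ((cL.tendsto 0).mono_left nhdsWithin_le_nhds).congr' ?_
    filter_upwards [self_mem_nhdsWithin] with y hy using (e y (n y hy)).symm
  have hd : ∀ z, HasFDerivAt F (lin_Rem (F1 z) (F2 z)) z := fun z => by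
    rcases eq_or_ne z 0 with rfl | hz
    · have a := half _ (convex_halfSpace_re_lt 0)
        (isOpen_lt Complex.continuous_re continuous_const) (by simp)
      have b := half _ (convex_halfSpace_re_gt 0)
        (isOpen_lt continuous_const Complex.continuous_re) (by simp)
      rw [Complex.closure_setOfPred_re_lt] at a
      rw [Complex.closure_setOfPred_lt_re] at b
      have c := a.union b
      exact hasFDerivWithinAt_univ.1 (c.mono fun y _ => le_total y.re 0)
    · exact e z hz ▸ (h z hz).1.hasFDerivAt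
  refine ⟨contDiff_one_iff_hasFDerivAt.2 ⟨_, cL, hd⟩, fun z => ?_, fun d1 d2 =>
    (contDiff_succ_iff_hasFDerivAt (n := 1)).2 ⟨_, cd_Rem d1 d2, hd⟩⟩
  simp only [dz, dzb, (hd z).fderiv, lin_Rem, _root_.add_apply,
    ContinuousLinearMap.smulRight_apply, Complex.reCLM_apply, Complex.imCLM_apply, Complex.one_re,
    Complex.one_im, Complex.I_re, Complex.I_im, one_smul, zero_smul, add_zero, zero_add]
  constructor
  · linear_combination (-(F1 z - F2 z) / 2) * Complex.I_mul_I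
  · linear_combination ((F1 z - F2 z) / 2) * Complex.I_mul_I

theorem cont_Mode (m : ℤ) (g : ℝ → ℂ) (L : ℂ) (hg : Continuous g) (hL : Tendsto g atBot (𝓝 L))
    (h0 : m ≠ 0 → L = 0) : Continuous (mode m g L) := by
  refine continuous_iff_continuousAt.2 fun z => ?_
  by_cases hz : z = 0
  · subst hz
    rw [continuousAt_iff_punctured_nhds, show mode m g L 0 = L from if_pos rfl,
      tendsto_iff_norm_sub_tendsto_zero]
    have h1 := tendsto_iff_norm_sub_tendsto_zero.1 (hL.comp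
      (Real.tendsto_log_nhdsGT_zero.comp (tendsto_norm_nhdsNE_zero (E := ℂ))))
    refine h1.congr' ?_
    filter_upwards [self_mem_nhdsWithin] with w hw
    have hw' : w ≠ 0 := hw
    have h2 : ‖w / (‖w‖ : ℂ)‖ = 1 := by
      rw [norm_div, Complex.norm_real, norm_norm, div_self (norm_pos_iff.2 hw').ne']
    simp only [mode, if_neg hw', Function.comp]
    by_cases hm : m = 0
    · rw [hm, zpow_zero, one_mul]
    · rw [h0 hm, sub_zero, sub_zero, norm_mul, norm_zpow, h2, _root_.one_zpow, one_mul]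
  · have n0 : ‖z‖ ≠ 0 := norm_ne_zero_iff.2 hz
    have n1 : ((‖z‖ : ℝ) : ℂ) ≠ 0 := Complex.ofReal_ne_zero.2 n0
    have h1 : ContinuousAt (fun w : ℂ => w / (‖w‖ : ℂ)) z :=
      continuousAt_id.div (Complex.continuous_ofReal.comp continuous_norm).continuousAt n1
    have h2 : ContinuousAt (fun w : ℂ => (w / (‖w‖ : ℂ)) ^ m * g (Real.log ‖w‖)) z :=
      (h1.zpow₀ m (Or.inl (div_ne_zero hz n1))).mul
        (hg.continuousAt.comp (continuous_norm.continuousAt.log n0))
    refine h2.congr ?_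
    filter_upwards [isOpen_ne.mem_nhds hz] with w hw using (if_neg hw).symm

theorem rad_Mode {G : ℝ → ℂ} {G' z : ℂ} (hz : z ≠ 0) (hG : HasDerivAt G G' (Real.log ‖z‖)) :
    DifferentiableAt ℝ (fun w : ℂ => G (Real.log ‖w‖)) z ∧
      dz (fun w : ℂ => G (Real.log ‖w‖)) z = G' / (2 * z) ∧
      dzb (fun w : ℂ => G (Real.log ‖w‖)) z = G' / (2 * star z) := by
  have n0 : ‖z‖ ≠ 0 := norm_ne_zero_iff.2 hz
  have h1 := (((hasFDerivAt_id (𝕜 := ℝ) z).norm_sq).log (pow_ne_zero 2 n0)).const_mul (1 / 2)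
  have e : (fun w : ℂ => 1 / 2 * Real.log (‖id w‖ ^ 2)) = fun w => Real.log ‖w‖ := by
    funext w
    rw [Real.log_pow]
    simp
  rw [e] at h1
  have h2 : HasFDerivAt (fun w : ℂ => G (Real.log ‖w‖)) _ z := hG.hasFDerivAt.comp z h1
  have e1 : ((‖z‖ : ℝ) : ℂ) ^ 2 = z * star z := by
    rw [Complex.star_def, Complex.mul_conj, Complex.normSq_eq_norm_sq]
    simp
  have e2 : (z.re : ℂ) - Complex.I * z.im = star z := by
    apply Complex.ext <;> simp
  have e3 : (z.re : ℂ) + Complex.I * z.im = z := by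
    apply Complex.ext <;> simp
  have s0 : star z ≠ 0 := star_ne_zero.2 hz
  refine ⟨h2.differentiableAt, ?_, ?_⟩
  · rw [dz_eq, wd_of_hasFDerivAt h2]
    simp
    rw [e1]
    field_simp
    linear_combination G' * e2
  · rw [dzb_eq, wd_of_hasFDerivAt h2]
    simp
    rw [e1]
    simp only [← Complex.star_def]
    field_simp
    linear_combination G' * e3

theorem ph_Mode (m : ℤ) {w : ℂ} (hw : w ≠ 0) :
    (w / (‖w‖ : ℂ)) ^ m = w ^ m * Complex.exp (-m * (Real.log ‖w‖ : ℝ)) := by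
  rw [div_zpow, neg_mul, Complex.exp_neg, Complex.exp_int_mul, ← Complex.ofReal_exp,
    Real.exp_log (norm_pos_iff.2 hw), div_eq_mul_inv]

theorem sMode : SMode := by
  intro m g L
  refine ⟨cont_Mode m g L, fun g' z hz hg => ?_⟩
  have h1 : HasDerivAt (fun x : ℝ => Complex.exp (-m * (x : ℂ)) * g x) _ (Real.log ‖z‖) :=
    (((Complex.ofRealCLM.hasDerivAt (x := Real.log ‖z‖)).const_mul (-(m : ℂ))).cexp).mul hg
  obtain ⟨h2, h3, h4⟩ := rad_Mode hz h1
  have h5 := hasDerivAt_zpow m z (Or.inl hz)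
  have h6 : DifferentiableAt ℝ (fun w : ℂ => w ^ m) z := h5.differentiableAt.restrictScalars ℝ
  have e : mode m g L =ᶠ[𝓝 z] fun w =>
      w ^ m * (Complex.exp (-m * (Real.log ‖w‖ : ℝ)) * g (Real.log ‖w‖)) := by
    filter_upwards [isOpen_ne.mem_nhds hz] with w hw
    rw [mode, if_neg hw, ph_Mode m hw, mul_assoc]
  have s0 : star z ≠ 0 := star_ne_zero.2 hz
  refine ⟨(h6.mul h2).congr_of_eventuallyEq e, ?_, ?_⟩
  · rw [dz_eq, wd_congr e, wd_mul h6 h2, ← dz_eq, ← dz_eq, h3, dz_holo h5, ph_Mode m hz,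
      zpow_sub_one₀ hz]
    simp only [Complex.ofRealCLM_apply, Complex.ofReal_one]
    field_simp
    ring
  · rw [dzb_eq, wd_congr e, wd_mul h6 h2, ← dzb_eq, ← dzb_eq, h4, dzb_holo h5.differentiableAt,
      ph_Mode m hz]
    simp only [Complex.ofRealCLM_apply, Complex.ofReal_one]
    field_simp
    ring

theorem lim_FinQ {F : ℝ → ℂ} {L : ℂ} (h : Sm fun x => F x - L) : Tendsto F atBot (𝓝 L) := by
  obtain ⟨C, hC⟩ := h
  rw [tendsto_iff_norm_sub_tendsto_zero]
  have h1 : Tendsto (fun x : ℝ => C * Real.exp (x / 2)) atBot (𝓝 (C * 0)) :=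
    (Real.tendsto_exp_atBot.comp (tendsto_id.atBot_div_const two_pos)).const_mul C
  rw [mul_zero] at h1
  exact squeeze_zero' (Eventually.of_forall fun _ => norm_nonneg _)
    ((eventually_le_atBot 0).mono hC) h1

theorem sFinQ (h4 : SAs4) (hR : SRem) (hM : SMode) : SFinQ := by
  intro k p ρ r hp sp sρ hr cρ
  obtain ⟨q0, q1, t0, z0, t1, z1⟩ := h4 k p ρ r hp sp sρ hr
  have cp : Continuous p := continuous_iff_continuousAt.2 fun x => (hp x).continuousAt
  have hw : ∀ x : ℝ, HasDerivAt (fun x : ℝ => ((Real.exp (-x) : ℝ) : ℂ) * p x / 2) _ x := fun x =>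
    (((hasDerivAt_neg x).exp.ofReal_comp).mul (hp x)).div_const 2
  have key := hR (mode (k - 1) (fun x => (Real.exp (-x) : ℝ) * p x / 2) q0)
    (mode (k - 2) (fun x => ρ x + ((k : ℂ) - 1) / 2 * (((Real.exp (-2 * x) : ℝ) : ℂ) * p x)) q1)
    (mode k ρ r) ((hM _ _ _).1 (by fun_prop) t0 fun h => z0 (by omega)).continuousAt
    (fun z hz => by
      obtain ⟨h1, h2, h3⟩ := (hM (k - 1) _ q0).2 _ z hz (hw (Real.log ‖z‖))
      have n0 : 0 < ‖z‖ := norm_pos_iff.2 hz
      have n1 : ((‖z‖ : ℝ) : ℂ) ≠ 0 := Complex.ofReal_ne_zero.2 n0.ne'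
      have p0 : z / (‖z‖ : ℂ) ≠ 0 := div_ne_zero hz n1
      have e1 : Real.exp (-Real.log ‖z‖) = ‖z‖⁻¹ := by rw [Real.exp_neg, Real.exp_log n0]
      have e2 : Real.exp (2 * Real.log ‖z‖) = ‖z‖ ^ 2 := by
        rw [two_mul, Real.exp_add, Real.exp_log n0, sq]
      have e3 : Real.exp (-2 * Real.log ‖z‖) = (‖z‖ ^ 2)⁻¹ := by rw [neg_mul, Real.exp_neg, e2]
      have e4 : star z = ((‖z‖ : ℝ) : ℂ) ^ 2 / z := by
        rw [eq_div_iff hz, mul_comm, Complex.star_def, Complex.mul_conj,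
          Complex.normSq_eq_norm_sq]
        simp
      refine ⟨h1, h2.trans ?_, h3.trans ?_⟩
      · rw [mode, if_neg hz, show k - 2 = k - 1 - 1 by ring, zpow_sub_one₀ p0 (k - 1), e1, e2, e3]
        push_cast
        field_simp
        ring
      · rw [mode, if_neg hz, zpow_sub_one₀ p0 k, e1, e2, e4]
        push_cast
        field_simp
        ring)
    ((hM _ _ _).1 (by fun_prop) t1 fun h => z1 (by omega)) ((hM _ _ _).1 cρ (lim_FinQ sρ) hr)
  exact ⟨q0, key.1, fun z => (key.2.1 z).2⟩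

theorem pos_FinH1 {n : ℕ} {g : Fin n → ℝ} (hg : ∀ a, 0 < g a) : IsPosHerm (dR g) := by
  refine ⟨?_, fun v hv => ?_⟩
  · rw [dR, diagonal_conjTranspose]
    congr 1
    funext i
    exact Complex.conj_ofReal _
  · obtain ⟨i, hi⟩ := Function.ne_iff.1 hv
    have e : ∀ j, (star v j * (dR g *ᵥ v) j).re = g j * Complex.normSq (v j) := fun j => by
      rw [dR, mulVec_diagonal, Pi.star_apply, mul_left_comm, Complex.re_ofReal_mul,
        Complex.star_def, ← Complex.normSq_eq_conj_mul_self, Complex.ofReal_re]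
    rw [dotProduct, Complex.re_sum]
    simp only [e]
    exact Finset.sum_pos' (fun j _ => mul_nonneg (hg j).le (Complex.normSq_nonneg _))
      ⟨i, Finset.mem_univ i, mul_pos (hg i) (Complex.normSq_pos.2 hi)⟩

theorem br_FinH1 {n : ℕ} {f : ℂ} (hf : f * star f = 1) (X H : Mx n) : br (f • X) H = br X H := by
  have e : adj H (f • X) = star f • adj H X := by
    rw [adj, adj, conjTranspose_smul, Matrix.mul_smul, Matrix.smul_mul]
  rw [br, br, e, Matrix.smul_mul, Matrix.mul_smul, Matrix.smul_mul, Matrix.mul_smul, smul_smul,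
    smul_smul, hf, mul_comm (star f), hf, one_smul, one_smul]

theorem sFinH1 (hB2 : SB2) : SFinH1 := by
  intro n d c G g hd hG hg z
  by_cases hz : z = 0
  · subst hz
    have e1 : HM d G g 0 = dR g := by
      ext a b
      exact if_pos rfl
    have e2 : (hitchin n fun j => c j * ((0 : ℂ) ^ d) ^ j) = hitchin n fun _ => 0 := by
      ext a b
      simp [hitchin, zero_pow (by omega : d ≠ 0)]
    rw [e1, e2]
    exact ⟨pos_FinH1 hg, fun a b => (if_pos rfl).symm⟩
  have n0 : 0 < ‖z‖ := norm_pos_iff.2 hz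
  have n1 : ((‖z‖ : ℝ) : ℂ) ≠ 0 := Complex.ofReal_ne_zero.2 n0.ne'
  have p0 : z / (‖z‖ : ℂ) ≠ 0 := div_ne_zero hz n1
  obtain ⟨φ, hφ⟩ : ∃ φ : ℂ, φ = (z / (‖z‖ : ℂ)) ^ d := ⟨_, rfl⟩
  have φ0 : φ ≠ 0 := hφ ▸ pow_ne_zero d p0
  have φ1 : star φ = φ⁻¹ := by
    refine (Complex.inv_eq_conj ?_).symm
    rw [hφ, norm_pow, norm_div, Complex.norm_real, norm_norm, div_self n0.ne', one_pow]
  have hk : ∀ a b : Fin n, (z / (‖z‖ : ℂ)) ^ kk d a b = (φ ^ a.val)⁻¹ * φ ^ b.val := fun a b => by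
    rw [kk, _root_.zpow_mul, zpow_natCast, ← hφ, zpow_sub₀ φ0, zpow_natCast, zpow_natCast,
      div_eq_inv_mul]
  have ui : (diagonal fun a : Fin n => φ ^ a.val)⁻¹ = diagonal fun a : Fin n => (φ ^ a.val)⁻¹ := by
    refine Matrix.inv_eq_right_inv ?_
    rw [diagonal_mul_diagonal, ← diagonal_one]
    congr 1
    funext a
    exact mul_inv_cancel₀ (pow_ne_zero _ φ0)
  have ud : (diagonal fun a : Fin n => φ ^ a.val).det ≠ 0 := by
    rw [det_diagonal]
    exact Finset.prod_ne_zero_iff.2 fun a _ => pow_ne_zero _ φ0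
  have e1 : HM d G g z = (diagonal fun a : Fin n => φ ^ a.val)ᴴ * G (Real.log ‖z‖) *
      diagonal fun a : Fin n => φ ^ a.val := by
    ext a b
    rw [diagonal_conjTranspose, mul_diagonal, diagonal_mul, Pi.star_apply, star_pow, φ1, inv_pow]
    simp only [HM, of_apply, mode, if_neg hz, hk]
    ring
  have e2 : (hitchin n fun j => c j * (z ^ d) ^ j) = φ • ((diagonal fun a : Fin n => φ ^ a.val)⁻¹ *
      th n d c (Real.log ‖z‖) * diagonal fun a : Fin n => φ ^ a.val) := by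
    ext a b
    rw [ui, Matrix.smul_apply, mul_diagonal, diagonal_mul, smul_eq_mul]
    simp only [th, hitchin, of_apply]
    split_ifs with h1 h2
    · rw [h1, pow_succ]
      field_simp
    · obtain ⟨j, hj⟩ := Nat.exists_eq_add_of_le h2.le
      have e3 : Real.exp (d * (j + 1 : ℕ) * Real.log ‖z‖) = (‖z‖ ^ d) ^ (j + 1) := by
        rw [← pow_mul, ← Nat.cast_mul, Real.exp_nat_mul, Real.exp_log n0]
      have e4 : z ^ d = φ * ((‖z‖ : ℝ) : ℂ) ^ d := by
        rw [hφ, ← mul_pow, div_mul_cancel₀ _ n1]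
      rw [hj, add_tsub_cancel_left, e3, e4, pow_add φ]
      push_cast
      field_simp
      ring
    · simp
  obtain ⟨-, -, h1, -, -, h2, -⟩ := hB2 n _ _ (th n d c (Real.log ‖z‖)) _ (hG (Real.log ‖z‖))
    (hG (Real.log ‖z‖)) ud
  refine ⟨e1 ▸ h1, fun a b => ?_⟩
  rw [e1, e2, br_FinH1 (by rw [φ1, mul_inv_cancel₀ φ0]), h2, ui, mul_diagonal, diagonal_mul, mode,
    if_neg hz, hk, rh]
  ring

theorem dz_FinH2 (hM : SMode) {n d : ℕ} {c : ℕ → ℂ} {G p : ℝ → Mx n} (g : Fin n → ℝ) (q : Mx n)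
    (h : Reg d c G p) {z : ℂ} (hz : z ≠ 0) (a b : Fin n) :
    DifferentiableAt ℝ (fun w => HM d G g w a b) z ∧
      dz (fun w => HM d G g w a b) z = (HM d G g z * QM d p q z) a b := by
  obtain ⟨h1, h2, -⟩ := (hM (kk d a b) (fun x => G x a b) (dR g a b)).2 _ z hz
    (h.dG (Real.log ‖z‖) a b)
  refine ⟨h1, h2.trans ?_⟩
  have n0 : 0 < ‖z‖ := norm_pos_iff.2 hz
  have n1 : ((‖z‖ : ℝ) : ℂ) ≠ 0 := Complex.ofReal_ne_zero.2 n0.ne'
  have p0 : z / (‖z‖ : ℂ) ≠ 0 := div_ne_zero hz n1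
  rw [sub_add_cancel, Matrix.mul_apply, Matrix.mul_apply, Finset.mul_sum, Finset.sum_div]
  refine Finset.sum_congr rfl fun l _ => ?_
  have e : kk d a b = kk d a l + kk d l b := by
    unfold kk
    ring
  simp only [HM, QM, of_apply, mode, if_neg hz]
  rw [e, zpow_add₀ p0, zpow_sub_one₀ p0, Real.exp_neg, Real.exp_log n0, Complex.ofReal_inv]
  field_simp

theorem herm_FinH2 {n d : ℕ} {G : ℝ → Mx n} (g : Fin n → ℝ) (h : ∀ x, IsPosHerm (G x)) {w : ℂ}
    (hw : w ≠ 0) (a b : Fin n) : HM d G g w a b = (starRingEnd ℂ) (HM d G g w b a) := by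
  have n1 : ((‖w‖ : ℝ) : ℂ) ≠ 0 := Complex.ofReal_ne_zero.2 (norm_pos_iff.2 hw).ne'
  have e : kk d a b = -kk d b a := by
    unfold kk
    ring
  have h1 : (starRingEnd ℂ) (w / (‖w‖ : ℂ)) = (w / (‖w‖ : ℂ))⁻¹ := by
    refine (Complex.inv_eq_conj ?_).symm
    rw [norm_div, Complex.norm_real, norm_norm, div_self (norm_pos_iff.2 hw).ne']
  have h2 : (starRingEnd ℂ) (G (Real.log ‖w‖) b a) = G (Real.log ‖w‖) a b :=
    congrFun (congrFun (h (Real.log ‖w‖)).1 a) b
  simp only [HM, of_apply, mode, if_neg hw]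
  rw [map_mul, map_zpow₀, h1, h2, e, _root_.zpow_neg, _root_.inv_zpow]

theorem sFinH2 (hM : SMode) : SFinH2 := by
  intro n d c G p g q h z hz a b
  obtain ⟨h1, h2⟩ := dz_FinH2 hM g q h hz a b
  obtain ⟨h3, h4⟩ := dz_FinH2 hM g q h hz b a
  refine ⟨h1, h2, ?_⟩
  have e : (fun w => HM d G g w a b) =ᶠ[𝓝 z] fun w => (starRingEnd ℂ) (HM d G g w b a) := by
    filter_upwards [isOpen_ne.mem_nhds hz] with w hw using herm_FinH2 g h.pos hw a b
  rw [dzb_eq, wd_congr e, ← dzb_eq, dzb_conj h3, h4]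
  rfl

theorem lim_Fin {F : ℝ → ℂ} {L : ℂ} (h : Sm fun x => F x - L) : Tendsto F atBot (𝓝 L) := by
  obtain ⟨C, hC⟩ := h
  rw [tendsto_iff_norm_sub_tendsto_zero]
  have h1 : Tendsto (fun x : ℝ => C * Real.exp (x / 2)) atBot (𝓝 (C * 0)) :=
    (Real.tendsto_exp_atBot.comp (tendsto_id.atBot_div_const two_pos)).const_mul C
  rw [mul_zero] at h1
  exact squeeze_zero' (Eventually.of_forall fun _ => norm_nonneg _)
    ((eventually_le_atBot 0).mono hC) h1

theorem kk_Fin {n d : ℕ} {a b : Fin n} (h : kk d a b ≠ 0) : a ≠ b := by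
  rintro rfl
  simp [kk] at h

theorem sFin (hB2 : SB2) (hR : SRhoB) (h1 : SAs1) (h2 : SAs2) (h3 : SAs3) (hRem : SRem)
    (hM : SMode) (hQ : SFinQ) (hH1 : SFinH1) (hH2 : SFinH2) : SFin := by
  intro n d c G p h hd
  have sp := h1 n d c G p h hd
  obtain ⟨g, g0, sg⟩ := h2 n d c G p h hd sp
  obtain ⟨sr, r0⟩ := h3 n d c G p g h hd g0 sg
  choose q q1 q2 using fun a b => hQ (kk d a b) (fun x => p x a b) (fun x => rh d c G x a b) _
    (fun x => h.dP x a b) (sp a b) (sr a b) (fun hk => r0 a b (kk_Fin hk))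
    ((hR n d c G p h).2 a b)
  have cQ : ∀ a b, ContDiff ℝ 1 fun z => QM d p (Matrix.of q) z a b := q1
  have cH : ∀ a b, Continuous fun z => HM d G g z a b := fun a b =>
    (hM (kk d a b) (fun x => G x a b) (dR g a b)).1
      (continuous_iff_continuousAt.2 fun x => (h.dG x a b).continuousAt) (lim_Fin (sg a b))
      fun hk => diagonal_apply_ne _ (kk_Fin hk)
  have cF : ∀ a b, Continuous fun z => (HM d G g z * QM d p (Matrix.of q) z) a b := fun a b => by
    simp only [Matrix.mul_apply]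
    exact continuous_finsetSum _ fun l _ => (cH a l).mul (cQ l b).continuous
  have key := fun a b => hRem (fun z => HM d G g z a b)
    (fun z => (HM d G g z * QM d p (Matrix.of q) z) a b)
    (fun z => star ((HM d G g z * QM d p (Matrix.of q) z) b a)) (cH a b).continuousAt
    (fun z hz => hH2 n d c G p g (Matrix.of q) h z hz a b) (cF a b) (cF b a).star
  have dF : ∀ a b, ContDiff ℝ 1 fun z => (HM d G g z * QM d p (Matrix.of q) z) a b := fun a b => by
    simp only [Matrix.mul_apply]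
    exact ContDiff.sum fun l _ => (key a l).1.mul (cQ l b)
  have hP := hH1 n d c G g hd h.pos g0
  refine ⟨HM d G g, fun a b => ((key a b).2.2 (dF a b)
    (Complex.conjCLE.contDiff.comp (dF b a))).contDiffOn, fun z _ => (hP z).1, fun z _ => ?_⟩
  have e : (fun w => (HM d G g w)⁻¹ * mdz (HM d G g) w) = QM d p (Matrix.of q) := by
    funext w
    have e1 : mdz (HM d G g) w = HM d G g w * QM d p (Matrix.of q) w := by
      ext a b
      exact ((key a b).2.1 w).1
    rw [e1, Matrix.nonsing_inv_mul_cancel_left _ _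
      (isUnit_iff_ne_zero.2 (hB2 n _ _ 1 1 (hP w).1 (hP w).1 (by simp)).1)]
  rw [e]
  ext a b
  exact (q2 a b z).trans ((hP z).2 a b).symm

theorem pow_Cyc {n : ℕ} {A : Mx (n + 1)} (hA : Hes A) (k : ℕ) :
    (∀ a : Fin (n + 1), k < a.val → ((A ^ k) *ᵥ Pi.single 0 1) a = 0) ∧
      ∀ a : Fin (n + 1), a.val = k → ((A ^ k) *ᵥ Pi.single 0 1) a ≠ 0 := by
  induction k with
  | zero =>
    rw [pow_zero, one_mulVec]
    refine ⟨fun a ha => Pi.single_eq_of_ne (fun h => by simp [h] at ha) _, fun a ha => ?_⟩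
    rw [show a = 0 from Fin.ext ha, Pi.single_eq_same]
    exact one_ne_zero
  | succ k ih =>
    rw [pow_succ', ← mulVec_mulVec]
    generalize (A ^ k) *ᵥ Pi.single 0 1 = v at ih
    have e0 : ∀ a, (A *ᵥ v) a = ∑ b, A a b * v b := fun a => rfl
    refine ⟨fun a ha => (e0 a).trans (Finset.sum_eq_zero fun b _ => ?_), fun a ha => ?_⟩
    · rcases le_or_gt b.val k with h | h
      · exact mul_eq_zero_of_left (hA.1 a b (by omega)) _
      · exact mul_eq_zero_of_right _ (ih.1 b h)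
    · have hk : k < n + 1 := by have := a.2; omega
      have e : (A *ᵥ v) a = A a ⟨k, hk⟩ * v ⟨k, hk⟩ := by
        rw [e0]
        refine Finset.sum_eq_single (⟨k, hk⟩ : Fin (n + 1)) (fun b _ hb => ?_)
          fun h => absurd (Finset.mem_univ _) h
        rcases lt_or_gt_of_ne (fun h => hb (Fin.ext h) : b.val ≠ k) with h | h
        · exact mul_eq_zero_of_left (hA.1 a b (by omega)) _
        · exact mul_eq_zero_of_right _ (ih.1 b h)
      rw [e]
      exact mul_ne_zero (hA.2 a _ ha) (ih.2 _ rfl)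

theorem sCyc : SCyc := by
  intro n A p hA hp h
  by_contra h0
  have hk : p.natDegree < n + 1 := (natDegree_lt_iff_degree_lt h0).2 hp
  have e := congrFun h ⟨p.natDegree, hk⟩
  rw [aeval_eq_sum_range, Matrix.sum_mulVec, Finset.sum_apply,
    Finset.sum_eq_single p.natDegree (fun j hj hne => ?_)
      (fun hh => absurd (Finset.mem_range.2 (Nat.lt_succ_self _)) hh), Matrix.smul_mulVec,
    Pi.smul_apply, smul_eq_mul] at e
  · have h1 : p.coeff p.natDegree ≠ 0 := leadingCoeff_ne_zero.2 h0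
    exact mul_ne_zero h1 ((pow_Cyc hA p.natDegree).2 ⟨p.natDegree, hk⟩ rfl) (e.trans rfl)
  · have := Finset.mem_range.1 hj
    rw [Matrix.smul_mulVec, Pi.smul_apply, (pow_Cyc hA j).1 _ (show j < p.natDegree by omega), smul_zero]

theorem enum_Alg1 (n : ℕ) (P : ℂ[X]) (hn : P.natDegree = n) :
    ∃ (lam : Fin n → ℂ) (k : Fin n → ℕ), (∀ a, k a < P.rootMultiplicity (lam a)) ∧
      (∀ a b, lam a = lam b → k a = k b → a = b) ∧
      ∀ x j, j < P.rootMultiplicity x → ∃ a, lam a = x ∧ k a = j := by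
  classical
  have hc : P.roots.toEnumFinset.card = n := by
    rw [Multiset.card_toEnumFinset, IsAlgClosed.card_roots_eq_natDegree, hn]
  let e := Finset.equivFinOfCardEq hc
  refine ⟨fun a => (e.symm a).1.1, fun a => (e.symm a).1.2, fun a => ?_, fun a b h1 h2 => ?_,
    fun x j h => ?_⟩
  · have := (Multiset.mem_toEnumFinset _ _).1 (e.symm a).2
    rwa [count_roots] at this
  · exact e.symm.injective (Subtype.ext (Prod.ext h1 h2))
  · refine ⟨e ⟨(x, j), (Multiset.mem_toEnumFinset _ _).2 (by rwa [count_roots])⟩, ?_, ?_⟩ <;>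
      simp only [Equiv.symm_apply_apply]

/-- the cofactor of the root `x` times a power of `X - x` -/
noncomputable def qq_Alg1 (P : ℂ[X]) (x : ℂ) (j : ℕ) : ℂ[X] :=
  (X - C x) ^ j * (P /ₘ (X - C x) ^ P.rootMultiplicity x)

theorem deg_Alg1 {P : ℂ[X]} (hP : P ≠ 0) {x : ℂ} {j : ℕ} (hj : j < P.rootMultiplicity x) :
    (qq_Alg1 P x j).degree < P.natDegree := by
  obtain ⟨i, hi⟩ := Nat.exists_eq_add_of_lt hj
  have h1 : (X - C x) ^ (i + 1) * qq_Alg1 P x j = P := by
    rw [qq_Alg1, ← mul_assoc, ← pow_add, show i + 1 + j = P.rootMultiplicity x by omega,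
      pow_mul_divByMonic_rootMultiplicity_eq]
  have h2 : qq_Alg1 P x j ≠ 0 := fun h => hP (by rw [← h1, h, mul_zero])
  have h3 := congrArg natDegree h1
  rw [natDegree_mul (pow_ne_zero _ (X_sub_C_ne_zero x)) h2, natDegree_pow, natDegree_X_sub_C] at h3
  rw [degree_eq_natDegree h2]
  exact_mod_cast (by omega : (qq_Alg1 P x j).natDegree < P.natDegree)

theorem dvd_Alg1 (P : ℂ[X]) {x y : ℂ} (h : x ≠ y) (j : ℕ) :
    (X - C x) ^ P.rootMultiplicity x ∣ qq_Alg1 P y j := by
  refine Dvd.dvd.mul_left ?_ _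
  refine ((isCoprime_X_sub_C_of_isUnit_sub (sub_ne_zero.2 h).isUnit).pow
    (n := P.rootMultiplicity y)).dvd_of_dvd_mul_left ?_
  rw [pow_mul_divByMonic_rootMultiplicity_eq]
  exact pow_rootMultiplicity_dvd P x

theorem ind_Alg1 {n : ℕ} {P : ℂ[X]} (hP : P ≠ 0) {lam : Fin n → ℂ} {k : Fin n → ℕ}
    (h1 : ∀ a, k a < P.rootMultiplicity (lam a)) (h2 : ∀ a b, lam a = lam b → k a = k b → a = b)
    {c : Fin n → ℂ} (hc : ∑ b, c b • qq_Alg1 P (lam b) (k b) = 0) (a : Fin n) : c a = 0 := by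
  generalize hj : k a = j
  induction j using Nat.strong_induction_on generalizing a with
  | _ j ih =>
    subst hj
    rw [← Finset.add_sum_erase _ _ (Finset.mem_univ a)] at hc
    have h3 : (X - C (lam a)) ^ (k a + 1) ∣
        ∑ b ∈ Finset.univ.erase a, c b • qq_Alg1 P (lam b) (k b) := by
      refine Finset.dvd_sum fun b hb => ?_
      rw [smul_eq_C_mul]
      by_cases h : lam a = lam b
      · rcases lt_trichotomy (k b) (k a) with h4 | h4 | h4
        · rw [ih _ h4 b rfl, C_0, zero_mul]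
          exact dvd_zero _
        · exact absurd (h2 _ _ h h4.symm).symm (Finset.ne_of_mem_erase hb)
        · rw [h]
          exact ((pow_dvd_pow _ h4).mul_right _).mul_left _
      · exact ((pow_dvd_pow _ (h1 a)).trans (dvd_Alg1 P h _)).mul_left _
    rw [eq_neg_of_add_eq_zero_right hc, dvd_neg, qq_Alg1, ← mul_smul_comm, pow_succ,
      mul_dvd_mul_iff_left (pow_ne_zero _ (X_sub_C_ne_zero _)), dvd_iff_isRoot, IsRoot.def,
      eval_smul, smul_eq_mul] at h3
    exact (mul_eq_zero.1 h3).resolve_right (eval_divByMonic_pow_rootMultiplicity_ne_zero _ hP)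

theorem sAlg1 (hC : SCyc) : SAlg1 := by
  intro n A hA
  have hn : A.charpoly.natDegree = n := by rw [charpoly_natDegree_eq_dim, Fintype.card_fin]
  have hP : A.charpoly ≠ 0 := A.charpoly_monic.ne_zero
  obtain ⟨lam, k, h1, h2, h3⟩ := enum_Alg1 n A.charpoly hn
  rcases n with _ | n
  · exact ⟨1, lam, k, by simp, h1, h2, h3, fun a => a.elim0⟩
  obtain ⟨v, hv⟩ : ∃ v : ℂ[X] →ₗ[ℂ] Fin (n + 1) → ℂ, ∀ p, v p = aeval A p *ᵥ Pi.single 0 1 :=
    ⟨{ toFun := fun p => aeval A p *ᵥ Pi.single 0 1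
       map_add' := fun p q => by rw [map_add, add_mulVec]
       map_smul' := fun c p => by rw [map_smul, smul_mulVec, RingHom.id_apply] }, fun _ => rfl⟩
  obtain ⟨B, hB0⟩ : ∃ B : Mx (n + 1), ∀ a b, B a b = v (qq_Alg1 A.charpoly (lam b) (k b)) a :=
    ⟨Matrix.of fun a b => v (qq_Alg1 A.charpoly (lam b) (k b)) a, fun _ _ => rfl⟩
  have hB : ∀ c : Fin (n + 1) → ℂ,
      B *ᵥ c = v (∑ b, c b • qq_Alg1 A.charpoly (lam b) (k b)) := fun c => by
    ext a
    rw [map_sum v, Finset.sum_apply]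
    change ∑ b, B a b * c b = _
    refine Finset.sum_congr rfl fun b _ => ?_
    rw [map_smul, Pi.smul_apply, smul_eq_mul, hB0, mul_comm]
  have hd : B.det ≠ 0 := fun h => by
    obtain ⟨c, hc0, hc⟩ := exists_mulVec_eq_zero_iff.2 h
    rw [hB, hv] at hc
    have h4 : ∀ b, qq_Alg1 A.charpoly (lam b) (k b) ∈ degreeLT ℂ (n + 1) := fun b => by
      have h5 := deg_Alg1 hP (h1 b)
      rw [hn] at h5
      exact mem_degreeLT.2 h5
    have h6 := hC n A _ hA (mem_degreeLT.1
      (Submodule.sum_mem _ fun b _ => Submodule.smul_mem _ (c b) (h4 b))) hc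
    exact hc0 (funext fun a => ind_Alg1 hP h1 h2 h6 a)
  have hs : ∀ b, B *ᵥ Pi.single b 1 = v (qq_Alg1 A.charpoly (lam b) (k b)) := fun b => by
    ext a
    rw [mulVec_single_one, ← hB0]
    rfl
  refine ⟨B, lam, k, hd, h1, h2, h3, fun a b hab h => ?_⟩
  have e1 : A *ᵥ (B *ᵥ Pi.single b 1) =
      lam b • (B *ᵥ Pi.single b 1) + v (qq_Alg1 A.charpoly (lam b) (k b + 1)) := by
    have e0 : lam b • qq_Alg1 A.charpoly (lam b) (k b) + qq_Alg1 A.charpoly (lam b) (k b + 1) =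
        X * qq_Alg1 A.charpoly (lam b) (k b) := by
      rw [smul_eq_C_mul, qq_Alg1, qq_Alg1]
      ring
    rw [hs, ← map_smul, ← map_add, e0, hv, hv, map_mul, aeval_X, mulVec_mulVec]
  have e2 : ∀ w : Fin (n + 1) → ℂ, B⁻¹ *ᵥ (B *ᵥ w) = w := fun w => by
    rw [mulVec_mulVec, nonsing_inv_mul _ hd.isUnit, one_mulVec]
  have e3 : (B⁻¹ * A * B) a b = (B⁻¹ *ᵥ v (qq_Alg1 A.charpoly (lam b) (k b + 1))) a := by
    have e4 : (B⁻¹ * A * B) a b = ((B⁻¹ * A * B) *ᵥ Pi.single b 1) a := by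
      rw [mulVec_single_one]
      rfl
    rw [e4, ← mulVec_mulVec, ← mulVec_mulVec, e1, mulVec_add, mulVec_smul, e2, Pi.add_apply,
      Pi.smul_apply, Pi.single_eq_of_ne hab, smul_zero, zero_add]
  rw [e3] at h
  rcases (Nat.succ_le_of_lt (h1 b)).lt_or_eq with h4 | h4
  · obtain ⟨a', h5, h6⟩ := h3 _ _ h4
    rw [← h5, show k b + 1 = k a' from h6.symm, ← hs, e2] at h
    obtain rfl : a = a' := by
      by_contra h7
      exact h (Pi.single_eq_of_ne h7 _)
    exact ⟨h5, h6⟩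
  · refine absurd ?_ h
    rw [show k b + 1 = _ from h4, qq_Alg1, pow_mul_divByMonic_rootMultiplicity_eq, hv,
      aeval_self_charpoly, zero_mulVec, mulVec_zero, Pi.zero_apply]

theorem hl_Uni {n : ℕ} {r A : Mx n} (hr : UT r) (h0 : ∀ i, r i i ≠ 0) (hA : Hes A) :
    Hes (r * A) := by
  refine ⟨fun a b h => ?_, fun a b h => ?_⟩
  · rw [mul_apply]
    refine Finset.sum_eq_zero fun l _ => ?_
    rcases lt_or_ge l a with h1 | h1
    · rw [hr (show id l < id a from h1), zero_mul]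
    · rw [hA.1 l b (by have : a.val ≤ l.val := h1; omega), mul_zero]
  · rw [mul_apply, Finset.sum_eq_single a]
    · exact mul_ne_zero (h0 a) (hA.2 a b h)
    · intro l _ hl
      rcases lt_or_gt_of_ne hl with h1 | h1
      · rw [hr (show id l < id a from h1), zero_mul]
      · rw [hA.1 l b (by have : a.val < l.val := h1; omega), mul_zero]
    · simp

theorem hr_Uni {n : ℕ} {r A : Mx n} (hr : UT r) (h0 : ∀ i, r i i ≠ 0) (hA : Hes A) :
    Hes (A * r) := by
  refine ⟨fun a b h => ?_, fun a b h => ?_⟩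
  · rw [mul_apply]
    refine Finset.sum_eq_zero fun l _ => ?_
    rcases lt_or_ge b l with h1 | h1
    · rw [hr (show id b < id l from h1), mul_zero]
    · rw [hA.1 a l (by have : l.val ≤ b.val := h1; omega), zero_mul]
  · rw [mul_apply, Finset.sum_eq_single b]
    · exact mul_ne_zero (hA.2 a b h) (h0 b)
    · intro l _ hl
      rcases lt_or_gt_of_ne hl with h1 | h1
      · rw [hA.1 a l (by have : l.val < b.val := h1; omega), zero_mul]
      · rw [hr (show id b < id l from h1), mul_zero]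
    · simp

theorem sUni (hB2 : SB2) (hC : SChol) (hU : SUT) : SUni := by
  intro n A B μ σ τ hA hB h s0 s1 t1 hs hst
  set π := Tuple.sort μ
  have hm : Monotone (μ ∘ π) := Tuple.monotone_sort μ
  set B' : Mx n := B.submatrix id π with hB'
  set D : Mx n := (B⁻¹).submatrix π id with hD
  have e1 : D * B' = 1 := by
    rw [hD, hB', ← submatrix_mul _ _ _ id _ Function.bijective_id, nonsing_inv_mul _ hB.isUnit,
      submatrix_one_equiv]
  have e2 : B' * D = 1 := mul_eq_one_comm.1 e1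
  have dD : D.det ≠ 0 := (isUnit_det_of_right_inverse e1).ne_zero
  have p1 : IsPosHerm (1 : Mx n) := ((hC n 1).2 0 ⟨1, blockTriangular_one, by simp, fun i => by simp⟩).1
  obtain ⟨y, r, r1, r2, r3⟩ := (hC n _).1 (hB2 n 1 1 A D p1 p1 dD).2.2.1
  have r0 : ∀ i, r i i ≠ 0 := fun i e => (Real.exp_pos (y i)).ne' (by rw [← r3 i, e]; simp)
  obtain ⟨dr, ui, -, -, -, di⟩ := hU n r r r1 r1 r0
  have uni : (r * B')ᴴ * (r * B') = 1 := by
    rw [conjTranspose_mul, Matrix.mul_assoc, ← Matrix.mul_assoc rᴴ, ← r2, Matrix.mul_one,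
      Matrix.mul_assoc, e1, Matrix.mul_one, ← conjTranspose_mul, e1, conjTranspose_one]
  have inv : (r * B')ᴴ * r = D := by
    have : (r * B')ᴴ * (r * B') * D = D := by rw [uni, Matrix.one_mul]
    rwa [Matrix.mul_assoc, Matrix.mul_assoc r, e2, Matrix.mul_one] at this
  have e3 : (r * B')ᴴ * (r * A * r⁻¹) * (r * B') = (B⁻¹ * A * B).submatrix π π := by
    rw [Matrix.mul_assoc r A, ← Matrix.mul_assoc (r * B')ᴴ, inv, Matrix.mul_assoc,
      Matrix.mul_assoc A, nonsing_inv_mul_cancel_left _ _ dr.isUnit, Matrix.mul_assoc B⁻¹,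
      submatrix_mul _ _ _ id _ Function.bijective_id,
      submatrix_mul _ _ _ id _ Function.bijective_id, submatrix_id_id]
  refine ⟨r, r * B', μ ∘ π, r1, r0, hr_Uni ui (fun i => by rw [(di i).1]; exact inv_ne_zero (r0 i))
    (hl_Uni r1 r0 hA), uni, fun a b hab hne => ?_, s0, s1, t1, ?_, fun I i1 i2 => ?_⟩
  · rw [e3] at hne
    have := h (π a) (π b) (π.injective.ne hab) hne
    refine ⟨lt_of_not_ge fun hba => ?_, this⟩
    have h2 : μ (π b) ≤ μ (π a) := hm hba
    linarith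
  · rw [← hs]; exact Equiv.sum_comp π μ
  · have := hst (I.map π.toEmbedding) (by simpa using i1) (fun e => i2 (by
      apply Finset.eq_univ_of_card
      rw [← Finset.card_map π.toEmbedding, e, Finset.card_univ]))
    rw [Finset.card_map, Finset.sum_map] at this
    exact this

end Pool.Agent.MP_4f0bc7_gt.Od
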