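import Pool.Agent.MP_4f0bc7_gt.Od.Main
import Pool.Agent.MP_4f0bc7_gt.Od.PA
import Pool.Agent.MP_4f0bc7_gt.Od.PB
import Pool.Agent.MP_4f0bc7_gt.Od.PC
import Pool.Agent.MP_4f0bc7_gt.Od.PD
import Pool.Agent.MP_4f0bc7_gt.Od.PE
import Pool.Agent.MP_4f0bc7_gt.Od.PF

namespace Pool.Agent.MP_4f0bc7_gt.Od

theorem b2 : SB2 := sB2 sB1
theorem b3 : SB3 := sB3 b2
theorem chol : SChol := sChol sB1 sUT
theorem lip : SLip := sLip sB1 sUT
theorem mat : SMat := sMat sB1 b2 sFro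
theorem cpt : SCpt := sCpt sB1 b2
theorem prop : SProp :=
  sProp sB1 b2 chol sFro sUT (sP1 sFro sUT (sCol sFro)) (sMaj b2 b3 chol (sStep sUT)) sLP
theorem disc : SDisc :=
  sDisc b2 b3 chol lip sChain (sMin sB1 b2) (sEL2 (sEL b2)) prop (sSch sB1 b2 chol sUT)
    (sCompK b2 b3 chol) (sCompV sB1 b2 b3 chol)
theorem win : SWin := sWin b2 lip (sDg sB1 b2) sChain
theorem lim : SLim := sLim sFro cpt win (sPb b2 sFro mat win) (sErr b2 sFro mat) sEul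
theorem rhoB : SRhoB := sRhoB b2 sFro mat cpt
theorem fin : SFin :=
  sFin b2 rhoB (sAs1 rhoB (sPiB sB1 b2 sFro rhoB) sSc) (sAs2 rhoB sSc) (sAs3 b2 rhoB) sRem sMode
    (sFinQ (sAs4 sSc) sRem sMode) (sFinH1 b2) (sFinH2 sMode)

theorem core : Core := fun _ _ _ hA s0 s1 h =>
  core_Main sUT (sAlg1 sCyc) sAlg2 (sUni b2 chol sUT) disc lim
    (sSub b2 cpt lip sChain (sRLip sB1 b2 sUT)) (sBd (sCvx b2 sCvx0 (sCvxA b2)) (sDual b2))
    (sInv b2) (sTr b2 sUT) hA s0 s1 h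

end Pool.Agent.MP_4f0bc7_gt.Od
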