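import Pool.Agent.MP_4f0bc7_gt.Od.St
import Pool.Agent.Mg.F4f0bc7.G50bbf0
import Pool.Agent.Mg.F4f0bc7.G1fbd18
import Pool.Agent.Mg.F4f0bc7.Gcc5b82

namespace Pool.Agent.MP_4f0bc7_gt.Od

open Matrix Filter Topology Polynomial

theorem core_Main (hU : SUT) (hA1 : SAlg1) (hA2 : SAlg2) (hUni : SUni) (hD : SDisc) (hL : SLim)
    (hS : SSub) (hB : SBd) (hI : SInv) (hT : STr) {n : ℕ} {A : Mx n} (hA : Hes A) {σ : ℝ}
    (s0 : 0 < σ) (s1 : σ < 1)
    (hst : ∀ lam : Fin n → ℂ, (∀ x, mu lam x = A.charpoly.rootMultiplicity x) →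
      ∀ I : Finset (Fin n), I.Nonempty → I ≠ Finset.univ →
        (pr lam I : ℝ) < σ * (I.card * ((n : ℝ) - I.card))) :
    ∃ H P, Ode A H P ∧ Bd σ H := by
  obtain ⟨B, lam, k, hB0, k1, k2, k3, k4⟩ := hA1 n A hA
  obtain ⟨m1, β, b1, b2, b3⟩ := hA2 n lam k (fun x => A.charpoly.rootMultiplicity x) k1 k2 k3
  have ev : ∀ᶠ τ : ℝ in 𝓝[>] 1, ∀ I : Finset (Fin n), I.Nonempty → I ≠ Finset.univ →
      τ * (pr lam I : ℝ) < σ * (I.card * ((n : ℝ) - I.card)) := by
    refine eventually_all.2 fun I => ?_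
    by_cases h : I.Nonempty ∧ I ≠ Finset.univ
    · have t : Tendsto (fun τ : ℝ => τ * (pr lam I : ℝ)) (𝓝[>] 1) (𝓝 (1 * (pr lam I : ℝ))) :=
        ((continuous_id.mul continuous_const).tendsto 1).mono_left nhdsWithin_le_nhds
      rw [one_mul] at t
      exact (t.eventually_lt_const (hst lam m1 I h.1 h.2)).mono fun τ hτ _ _ => hτ
    · exact Eventually.of_forall fun τ h1 h2 => absurd ⟨h1, h2⟩ h
  obtain ⟨τ, hτ, t1⟩ := (ev.and self_mem_nhdsWithin).exists
  have t1 : 1 < τ := t1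
  obtain ⟨r, U, μ, r1, r2, hDat⟩ := hUni n A B (fun a => τ * β a) σ τ hA hB0
    (fun a b hab h => by
      have := b2 a b (k4 a b hab h).1 (k4 a b hab h).2
      nlinarith)
    s0 s1 t1 (by rw [← Finset.mul_sum, b1, mul_zero]) (fun I h1 h2 => by
      rw [← Finset.mul_sum]
      exact (mul_le_mul_of_nonneg_left (b3 I) (by linarith)).trans_lt (hτ I h1 h2))
  obtain ⟨C, hC⟩ := hD n _ U μ σ τ hDat
  have ex : ∀ N : ℕ, ∃ H : ℕ → Mx n, 1 ≤ N →
      ∃ j0 y z, Sol (r * A * r⁻¹) U μ σ C N H j0 y z := fun N => by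
    by_cases h : 1 ≤ N
    · obtain ⟨H, hH⟩ := hC N h
      exact ⟨H, fun _ => hH⟩
    · exact ⟨fun _ => 1, fun h' => absurd h' h⟩
  choose Hs hHs using ex
  obtain ⟨H, P, hO, hLm⟩ := hL n _ U μ σ C Hs hDat.uni hHs
  have hp : ∀ s, IsPosHerm (H s) := fun s => (hO s).1
  have hb := hB n _ H P σ s0 s1 hDat.hes hO (hS n _ U μ σ C Hs H s0 hHs hp hLm)
  have hr : r.det ≠ 0 := (hU n r r r1 r1 r2).1
  have hO' := hI n _ r H P hr hO
  have e : r⁻¹ * (r * A * r⁻¹) * r = A := by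
    rw [Matrix.mul_assoc r, Matrix.nonsing_inv_mul_cancel_left _ _ hr.isUnit,
      Matrix.nonsing_inv_mul_cancel_right _ _ hr.isUnit]
  rw [e] at hO'
  exact ⟨_, _, hO', hT n r H σ s0 r1 r2 hp hb⟩

def Core : Prop := ∀ (n : ℕ) (A : Mx n) (σ : ℝ), Hes A → 0 < σ → σ < 1 →
  (∀ lam : Fin n → ℂ, (∀ x, mu lam x = A.charpoly.rootMultiplicity x) →
    ∀ I : Finset (Fin n), I.Nonempty → I ≠ Finset.univ →
      (pr lam I : ℝ) < σ * (I.card * ((n : ℝ) - I.card))) → ∃ H P, Ode A H P ∧ Bd σ H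

theorem cast_Main {n : ℕ} (I : Finset (Fin n)) :
    ((I.card * (n - I.card) : ℕ) : ℝ) = I.card * ((n : ℝ) - I.card) := by
  have : I.card ≤ n := by simpa using I.card_le_univ
  rw [Nat.cast_mul, Nat.cast_sub this]

theorem open_Main (hC : Core) (hN : SNil) (hS : SStab1) (hR : SRad) (hG : SGau) (n : ℕ)
    (c : ℕ → ℂ) (U : Set ℂ) (φ f : ℂ → ℂ) (hU : IsOpen U)
    (hφ : ∀ z ∈ U, HasDerivAt φ (f z) z ∧ φ z ≠ 0 ∧ f z ≠ 0)
    (hc : ∃ j, 2 ≤ j ∧ j ≤ n ∧ c j ≠ 0) :
    ∃ H, IsHarmonicMetric U (fun z => hitchin n fun j => c j * f z ^ j) H := by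
  have hn : (1 : ℝ) ≤ n := by
    obtain ⟨j, h1, h2, -⟩ := hc
    exact_mod_cast (show 1 ≤ n by omega)
  have p : (0 : ℝ) < (n : ℝ) ^ 2 + 1 := by positivity
  obtain ⟨H, P, hO, -⟩ := hC n (hitchin n c) ((n : ℝ) ^ 2 / ((n : ℝ) ^ 2 + 1)) (hN n c).1
    (by positivity) ((div_lt_one p).2 (by linarith)) (fun lam hl I h1 h2 => by
      have h3 := hS n lam (fun x => by rw [hl]; exact (hN n c).2 hc x) I h1 h2
      have h4 : (pr lam I : ℝ) + 1 ≤ I.card * ((n : ℝ) - I.card) := by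
        rw [← cast_Main]; exact_mod_cast h3
      have h5 : (I.card : ℝ) * ((n : ℝ) - I.card) ≤ (n : ℝ) ^ 2 := by
        nlinarith [sq_nonneg ((n : ℝ) - 2 * I.card), sq_nonneg (n : ℝ)]
      rw [div_mul_eq_mul_div, lt_div_iff₀ p]
      nlinarith)
  have hd : DifferentiableOn ℂ φ U := fun z hz =>
    (hφ z hz).1.differentiableAt.differentiableWithinAt
  have hf : DifferentiableOn ℂ f U := (hd.deriv hU).congr fun z hz => (hφ z hz).1.deriv.symm
  refine ⟨_, hG n U _ _ _ (fun z => diagonal fun a => f z ^ a.val) hU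
    (hR n _ H P U φ hO hU hd fun z hz => (hφ z hz).2.1) (fun a b => ?_) (fun z hz => ?_)
    (fun z hz => ?_)⟩
  · by_cases h : a = b
    · subst h; simp only [diagonal_apply_eq]; exact hf.pow a.val
    · simp only [diagonal_apply_ne _ h]; exact differentiableOn_const 0
  · rw [det_diagonal]
    exact Finset.prod_ne_zero_iff.2 fun a _ => pow_ne_zero _ (hφ z hz).2.2
  · rw [(hφ z hz).1.deriv]
    ext a b
    simp only [diagonal_mul, mul_diagonal, Matrix.smul_apply, hitchin, of_apply, smul_eq_mul]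
    split_ifs with h1 h2
    · rw [h1]; ring
    · obtain ⟨t, ht⟩ := Nat.exists_eq_add_of_le h2.le
      rw [ht, Nat.add_sub_cancel_left]; ring
    · simp

theorem zero_Main {n : ℕ} (hn : 2 ≤ n) : ¬ (hitchin n fun _ => (0 : ℂ)).charpoly.Separable := by
  have e : (hitchin n fun _ => (0 : ℂ)).charpoly = X ^ n := by
    rw [← charpoly_transpose, charpoly_of_isUpperTriangular]
    · simp [hitchin]
    · intro a b hab
      have : (b : ℕ) < a := hab
      simp only [hitchin, transpose_apply, of_apply, ite_self]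
      rw [if_neg (by omega)]
  rw [e]
  intro h
  rcases h.of_pow' with h | h | h
  · exact not_isUnit_X h
  · omega
  · omega

theorem star_Main (hC : Core) (hN : SNil) (hS : SStab1) (hR : SRad) (hG : SGau) (n : ℕ) (k : ℤ)
    (c : ℕ → ℂ) (hn : 2 ≤ n) (hk : k ≠ -1) :
    (∃ H, IsHarmonicMetric {0}ᶜ (fun z => hitchin n fun j => c j * (z ^ k) ^ j) H) ↔
      ∃ j, 2 ≤ j ∧ j ≤ n ∧ c j ≠ 0 := by
  constructor
  · rintro ⟨H, hH⟩
    by_contra hc
    refine logpole_none n (fun _ => 0) (zero_Main hn) ⟨H, ?_⟩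
    have e : (fun z : ℂ => hitchin n fun j => c j * (z ^ k) ^ j) =
        fun z : ℂ => hitchin n fun j => (0 : ℂ) / z ^ j := by
      funext z
      ext a b
      simp only [hitchin, of_apply]
      split_ifs with h1 h2
      · rfl
      · have : c (b.val - a.val + 1) = 0 := by
          by_contra h
          exact hc ⟨_, by omega, by omega, h⟩
        rw [this, zero_mul, zero_div]
      · rfl
    exact e ▸ hH
  · intro hc
    have hk' : ((k + 1 : ℤ) : ℂ) ≠ 0 := Int.cast_ne_zero.2 (by omega)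
    refine open_Main hC hN hS hR hG n c _ (fun z => z ^ (k + 1) / ((k + 1 : ℤ) : ℂ))
      (fun z => z ^ k) isOpen_compl_singleton (fun z hz => ⟨?_, div_ne_zero (zpow_ne_zero _ hz) hk',
        zpow_ne_zero _ hz⟩) hc
    have := (hasDerivAt_zpow (k + 1) z (Or.inl hz)).div_const ((k + 1 : ℤ) : ℂ)
    rwa [add_sub_cancel_right, mul_div_cancel_left₀ _ hk'] at this

theorem line_Main (hC : Core) (hN : SNil) (hS : SStabC) (hT : STwo) (hR : SReg) (hF : SFin)
    (n d : ℕ) (c : ℕ → ℂ) :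
    (∃ H, IsHarmonicMetric Set.univ (fun z => hitchin n fun j => c j * (z ^ d) ^ j) H) ↔
      (∀ x, 2 ≤ (hitchin n c).charpoly.rootMultiplicity x →
        (hitchin n c).charpoly.rootMultiplicity x ≤
          d * (n - (hitchin n c).charpoly.rootMultiplicity x)) ∧
      ¬ (d = 1 ∧ 3 ≤ n ∧ (hitchin n c).charpoly.roots.toFinset.card = 2) := by
  have hP := charpoly_monic (hitchin n c)
  constructor
  · intro h
    have h' : ∃ H, IsHarmonicMetric Set.univ
        (fun z => hitchin n fun j => c j * (X ^ d : ℂ[X]).eval z ^ j) H := by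
      simpa only [eval_pow, eval_X] using h
    refine ⟨fun x hx => ?_, fun ⟨h1, h2, h3⟩ => ?_⟩
    · by_contra hlt
      exact no_metric_mult crit' scale2 n c (X ^ d) x (pow_ne_zero _ X_ne_zero) hx
        (by rw [natDegree_X_pow]; omega) h'
    · obtain ⟨a, b, i, k, e⟩ := hT.1 _ hP h3
      exact no_metric_two crit' scale2 n c (X ^ d) a b i k (pow_ne_zero _ X_ne_zero) h2 e
        (by rw [natDegree_X_pow]; omega) h'
  · rintro ⟨h1, h2⟩
    rcases Nat.eq_zero_or_pos d with rfl | hd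
    · have hs : (hitchin n c).charpoly.Separable := by
        by_contra hs
        obtain ⟨l, hl⟩ := exists_mult hP.ne_zero hs
        have := h1 l hl
        omega
      obtain ⟨H, hH, -⟩ := exists_metric isOpen_univ (f := fun z : ℂ => z ^ 0)
        (by simpa only [pow_zero] using differentiableOn_const 1) (fun _ _ => by simp) c hs
      exact ⟨H, hH⟩
    have d0 : (0 : ℝ) < d := by exact_mod_cast hd
    obtain ⟨H, P, hO, hB⟩ := hC n (hitchin n c) ((d : ℝ) / (d + 1)) (hN n c).1 (by positivity)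
      ((div_lt_one (by positivity)).2 (by linarith)) (fun lam hl I i1 i2 => by
        have h3 := hS n d lam hd (fun x => by rw [hl]; exact h1 x)
          (by rw [hT.2 n lam _ hP.ne_zero hl]; exact h2) I i1 i2
        have h4 : ((d : ℝ) + 1) * pr lam I < d * (I.card * ((n : ℝ) - I.card)) := by
          rw [← cast_Main]; exact_mod_cast h3
        rw [div_mul_eq_mul_div, lt_div_iff₀ (by positivity)]
        linarith)
    exact hF n d c _ _ (hR n d c H P hO hB) hd

end Pool.Agent.MP_4f0bc7_gt.Od
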