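import Pool.Agent.Mg.F4f0bc7.G2b7e7f

/-! Rotationally symmetric harmonic metrics: working definitions and the statements of the steps. -/

namespace Pool.Agent.MP_4f0bc7_gt.Od

open Matrix Filter Topology Polynomial

abbrev Mx (n : ℕ) := Matrix (Fin n) (Fin n) ℂ

variable {n : ℕ}

/-- discrete kinetic term -/
noncomputable def KK (H H' : Mx n) : ℝ := (trace (H⁻¹ * H')).re + (trace (H'⁻¹ * H)).re - 2 * n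
noncomputable def tt (H : Mx n) : ℝ := (trace H).re + (trace H⁻¹).re
/-- upper triangular -/
def UT (t : Mx n) : Prop := t.BlockTriangular id
/-- `y` lists the logarithms of the pivots of a triangular factorisation of `H` -/
def Ch (H : Mx n) (y : Fin n → ℝ) : Prop :=
  ∃ t : Mx n, UT t ∧ H = tᴴ * t ∧ ∀ i, ‖t i i‖ ^ 2 = Real.exp (y i)
noncomputable def br (A H : Mx n) : Mx n := A * adj H A - adj H A * A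
noncomputable def dg (y : Fin n → ℝ) : Mx n := diagonal fun i => ((Real.exp (y i) : ℝ) : ℂ)
/-- Hessenberg with nonzero subdiagonal -/
def Hes (A : Mx n) : Prop :=
  (∀ a b : Fin n, b.val + 1 < a.val → A a b = 0) ∧ ∀ a b : Fin n, a.val = b.val + 1 → A a b ≠ 0
def al (n : ℕ) (σ : ℝ) (i : Fin n) : ℝ := σ * ((n : ℝ) - 1 - 2 * (i.val : ℝ))
def ip (u v : Fin n → ℝ) : ℝ := ∑ i, u i * v i
noncomputable def ww (A U : Mx n) : ℝ := ∑ i, ‖(Uᴴ * A * U) i i‖ ^ 2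

structure Dat (A U : Mx n) (μ : Fin n → ℝ) (σ τ : ℝ) : Prop where
  hes : Hes A
  uni : Uᴴ * U = 1
  tri : ∀ a b, a ≠ b → (Uᴴ * A * U) a b ≠ 0 → a < b ∧ μ a + 2 * τ ≤ μ b
  s0 : 0 < σ
  s1 : σ < 1
  t1 : 1 < τ
  sum : ∑ i, μ i = 0
  stab : ∀ I : Finset (Fin n), I.Nonempty → I ≠ Finset.univ →
    ∑ i ∈ I, μ i < σ * (I.card * ((n : ℝ) - I.card))

noncomputable def ss (N j : ℕ) : ℝ := ((j : ℝ) - (N : ℝ) ^ 2) / N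
noncomputable def aa (N j : ℕ) : ℝ := 4 / (N : ℝ) * Real.exp (2 * ss N j)
noncomputable def En (A : Mx n) (c : ℝ) (a : ℕ → ℝ) (M : ℕ) (H : ℕ → Mx n) : ℝ :=
  ∑ j ∈ Finset.range M, (c * KK (H j) (H (j + 1)) + a j * nsq (H j) A)
noncomputable def PP (N : ℕ) (H : ℕ → Mx n) (j : ℕ) : Mx n :=
  (((N : ℝ) / 2 : ℝ) : ℂ) • ((H j)⁻¹ * H (j + 1) - (H (j + 1))⁻¹ * H j)
noncomputable def gam (U : Mx n) (μ : Fin n → ℝ) (σ : ℝ) (N j : ℕ) : Mx n :=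
  if j ≤ N ^ 2 then dg fun i => al n σ i * ss N j else U * dg (fun i => μ i * ss N j) * Uᴴ
/-- the defect of a piece of a chain -/
noncomputable def df (ν : Fin n → ℝ) (N : ℝ) (H : ℕ → Mx n) (y : ℕ → Fin n → ℝ) (a b : ℕ) : ℝ :=
  ∑ j ∈ Finset.Ico a b, N / 2 * KK (H j) (H (j + 1)) - ip ν (y b - y a) +
    ((b : ℝ) - a) / (2 * N) * ip ν ν

structure Sol (A U : Mx n) (μ : Fin n → ℝ) (σ C : ℝ) (N : ℕ) (H : ℕ → Mx n) (j0 : ℕ)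
    (y z : ℕ → Fin n → ℝ) : Prop where
  pos : ∀ j, IsPosHerm (H j)
  cy : ∀ j, Ch (H j) (y j)
  cz : ∀ j, Ch (Uᴴ * H j * U) (z j)
  el : ∀ j, j + 2 ≤ 2 * N ^ 2 →
    PP N H (j + 1) - PP N H j = ((aa N (j + 1) : ℝ) : ℂ) • br A (H (j + 1))
  j1 : N ^ 2 ≤ j0
  j2 : j0 < N ^ 2 + N
  t0 : tt (H j0) ≤ C
  dl : ∀ a ≤ j0, df (al n σ) N H y a j0 ≤ C
  dr : ∀ b, j0 ≤ b → b ≤ 2 * N ^ 2 → df μ N H z j0 b ≤ C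

def Ode (A : Mx n) (H P : ℝ → Mx n) : Prop := ∀ s, IsPosHerm (H s) ∧
  (∀ a b, HasDerivAt (fun t => H t a b) ((H s * P s) a b) s) ∧
  ∀ a b, HasDerivAt (fun t => P t a b) (((4 * Real.exp (2 * s) : ℝ) : ℂ) * br A (H s) a b) s

def Lm (Hs : ℕ → ℕ → Mx n) (H : ℝ → Mx n) : Prop := ∀ s : ℝ,
  Tendsto (fun N : ℕ => Hs N ((N : ℤ) ^ 2 + ⌊s * N⌋).toNat) (hyperfilter ℕ) (𝓝 (H s))

def Sx (σ : ℝ) (H : ℝ → Mx n) : Prop := ∀ η : ℝ, 0 < η → ∃ C : ℝ, ∀ s ≤ (0 : ℝ), ∀ i,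
  (H s i i).re ≤ Real.exp (al n σ i * s - η * s + C) ∧
  ((H s)⁻¹ i i).re ≤ Real.exp (-al n σ i * s - η * s + C)

def Bd (σ : ℝ) (H : ℝ → Mx n) : Prop := ∃ C : ℝ, ∀ s ≤ (0 : ℝ), ∀ i,
  (H s i i).re ≤ C * Real.exp (al n σ i * s) ∧ ((H s)⁻¹ i i).re ≤ C * Real.exp (-al n σ i * s)

/-- transpose along the other diagonal -/
def fl (X : Mx n) : Mx n := Matrix.of fun a b => X b.rev a.rev

noncomputable def mu (lam : Fin n → ℂ) (x : ℂ) : ℕ := (Finset.univ.filter fun a => lam a = x).card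
noncomputable def pr (lam : Fin n → ℂ) (I : Finset (Fin n)) : ℕ :=
  ((I ×ˢ Iᶜ).filter fun p => lam p.1 = lam p.2).card

def kk (d : ℕ) (a b : Fin n) : ℤ := (d : ℤ) * ((b.val : ℤ) - (a.val : ℤ))
noncomputable def th (n d : ℕ) (c : ℕ → ℂ) (x : ℝ) : Mx n :=
  hitchin n fun j => c j * ((Real.exp (d * j * x) : ℝ) : ℂ)
noncomputable def rh (d : ℕ) (c : ℕ → ℂ) (G : ℝ → Mx n) (x : ℝ) : Mx n := br (th n d c x) (G x)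
noncomputable def sx (d : ℕ) (x : ℝ) : ℝ := ((d : ℝ) + 1) * x - Real.log ((d : ℝ) + 1)
noncomputable def GG (d : ℕ) (H : ℝ → Mx n) (x : ℝ) : Mx n := Matrix.of fun a b =>
  ((Real.exp (d * ((a.val : ℝ) + b.val - (n - 1)) * x) : ℝ) : ℂ) * H (sx d x) a b
noncomputable def PI (d : ℕ) (P : ℝ → Mx n) (x : ℝ) : Mx n := Matrix.of fun a b =>
  ((Real.exp (d * ((b.val : ℝ) - a.val) * x) : ℝ) : ℂ) * (((d : ℂ) + 1) * P (sx d x) a b -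
    if a = b then (d : ℂ) * ((n : ℂ) - 1 - 2 * (a.val : ℂ)) else 0)

structure Reg (d : ℕ) (c : ℕ → ℂ) (G p : ℝ → Mx n) : Prop where
  pos : ∀ x, IsPosHerm (G x)
  dG : ∀ x a b, HasDerivAt (fun t => G t a b) ((G x * p x) a b - (kk d a b : ℂ) * G x a b) x
  dP : ∀ x a b, HasDerivAt (fun t => p t a b)
    ((kk d a b : ℂ) * p x a b + ((4 * Real.exp (2 * x) : ℝ) : ℂ) * rh d c G x a b) x
  bd : ∃ C : ℝ, ∀ x ≤ (0 : ℝ), tt (G x) ≤ C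

/-- exponentially small at minus infinity -/
def Sm (F : ℝ → ℂ) : Prop := ∃ C : ℝ, ∀ x ≤ (0 : ℝ), ‖F x‖ ≤ C * Real.exp (x / 2)

noncomputable def mode (m : ℤ) (g : ℝ → ℂ) (L z : ℂ) : ℂ :=
  if z = 0 then L else (z / (‖z‖ : ℂ)) ^ m * g (Real.log ‖z‖)
noncomputable def dR (g : Fin n → ℝ) : Mx n := diagonal fun i => (g i : ℂ)
noncomputable def HM (d : ℕ) (G : ℝ → Mx n) (g : Fin n → ℝ) (z : ℂ) : Mx n :=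
  Matrix.of fun a b => mode (kk d a b) (fun x => G x a b) (dR g a b) z
noncomputable def QM (d : ℕ) (p : ℝ → Mx n) (q : Mx n) (z : ℂ) : Mx n :=
  Matrix.of fun a b => mode (kk d a b - 1) (fun x => (Real.exp (-x) : ℝ) * p x a b / 2) (q a b) z

/-! ### matrix basics -/

def SB1 : Prop := ∀ (n : ℕ) (g g' A : Mx n), g.det ≠ 0 → g'.det ≠ 0 →
  IsPosHerm (gᴴ * g) ∧ KK (gᴴ * g) (g'ᴴ * g') = fro (g' * g⁻¹) + fro (g * g'⁻¹) - 2 * n ∧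
  KK (gᴴ * g) (g'ᴴ * g') = fro (g' * g⁻¹ - (g * g'⁻¹)ᴴ) ∧
  nsq (gᴴ * g) A = fro (g * A * g⁻¹) ∧ (trace (gᴴ * g)).re = fro g ∧
  (trace (gᴴ * g)⁻¹).re = fro g⁻¹ ∧ tt (gᴴ * g) = fro g + fro g⁻¹

def SB2 : Prop := ∀ (n : ℕ) (H H' A B : Mx n), IsPosHerm H → IsPosHerm H' → B.det ≠ 0 →
  H.det ≠ 0 ∧ (∃ g : Mx n, g.det ≠ 0 ∧ H = gᴴ * g) ∧ IsPosHerm (Bᴴ * H * B) ∧
  KK (Bᴴ * H * B) (Bᴴ * H' * B) = KK H H' ∧ nsq (Bᴴ * H * B) (B⁻¹ * A * B) = nsq H A ∧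
  br (B⁻¹ * A * B) (Bᴴ * H * B) = B⁻¹ * br A H * B ∧ IsPosHerm H⁻¹ ∧ KK H⁻¹ H'⁻¹ = KK H H' ∧
  0 ≤ KK H H' ∧ 0 ≤ nsq H A ∧ ∀ i, 0 < (H i i).re ∧ (H i i).re ≤ tt H ∧ (H⁻¹ i i).re ≤ tt H ∧
    1 ≤ (H i i).re * (H⁻¹ i i).re

def SB3 : Prop := ∀ (n : ℕ) (H H' A : Mx n) (y : Fin n → ℝ) (c : ℝ),
  (Ch H y → Ch (((Real.exp c : ℝ) : ℂ) • H) fun i => y i + c) ∧ Ch (dg y) y ∧
  (IsPosHerm H → IsPosHerm H' → IsPosHerm (((Real.exp c : ℝ) : ℂ) • H) ∧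
    KK (((Real.exp c : ℝ) : ℂ) • H) (((Real.exp c : ℝ) : ℂ) • H') = KK H H' ∧
    (((Real.exp c : ℝ) : ℂ) • H)⁻¹ * (((Real.exp c : ℝ) : ℂ) • H') = H⁻¹ * H' ∧
    br A (((Real.exp c : ℝ) : ℂ) • H) = br A H)

def SChol : Prop := ∀ (n : ℕ) (H : Mx n), (IsPosHerm H → ∃ y, Ch H y) ∧
  ∀ y, Ch H y → IsPosHerm H ∧ ∀ i, Real.exp |y i| ≤ tt H

def SUT : Prop := ∀ (n : ℕ) (t t' : Mx n), UT t → UT t' → (∀ i, t i i ≠ 0) →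
  t.det ≠ 0 ∧ UT t⁻¹ ∧ UT (t * t') ∧ UT (t' * t) ∧ UT (t' * t⁻¹) ∧
  ∀ i, t⁻¹ i i = (t i i)⁻¹ ∧ (t * t') i i = t i i * t' i i ∧ (t' * t) i i = t' i i * t i i ∧
    (t' * t⁻¹) i i = t' i i / t i i

def SLip : Prop := ∀ (n : ℕ) (H H' : Mx n) (y y' : Fin n → ℝ), Ch H y → Ch H' y' →
  ∑ i, (y' i - y i) ^ 2 ≤ KK H H'

def SDg : Prop := ∀ (n : ℕ) (H H' : Mx n), IsPosHerm H → IsPosHerm H' → ∀ i,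
  (Real.log (H' i i).re - Real.log (H i i).re) ^ 2 ≤ KK H H'

def SChain : Prop := ∀ (n : ℕ) (ν : Fin n → ℝ) (N : ℝ) (H : ℕ → Mx n) (y : ℕ → Fin n → ℝ),
  0 < N → (∀ j, ∑ i, (y (j + 1) i - y j i) ^ 2 ≤ KK (H j) (H (j + 1))) → ∀ a b, a ≤ b →
  0 ≤ df ν N H y a b ∧ (∀ c, b ≤ c → df ν N H y a c = df ν N H y a b + df ν N H y b c) ∧
  ∑ j ∈ Finset.Ico a b, N / 4 * KK (H j) (H (j + 1)) ≤
    df ν N H y a b + ((b : ℝ) - a) / (2 * N) * ip ν ν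

def SMat : Prop := ∀ (n : ℕ) (H H' A : Mx n) (M : ℝ), IsPosHerm H → IsPosHerm H' → tt H ≤ M →
  tt H' ≤ M → fro H ≤ M ^ 2 ∧ fro H⁻¹ ≤ M ^ 2 ∧ fro (H' - H) ≤ M ^ 2 * KK H H' ∧
  fro (H⁻¹ * H' - H'⁻¹ * H) ≤ 4 * M ^ 4 * KK H H' ∧ fro (br A H) ≤ 4 * M ^ 4 * fro A ^ 2 ∧
  H' - H = (1 / 2 : ℂ) • (H * (H⁻¹ * H' - H'⁻¹ * H)) + (1 / 2 : ℂ) • ((H' - H) * H'⁻¹ * (H' - H))

def SFro : Prop := ∀ (n : ℕ) (X Y : Mx n), (∀ a b, ‖X a b‖ ≤ √(fro X)) ∧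
  √(fro (X + Y)) ≤ √(fro X) + √(fro Y) ∧ √(fro (X - Y)) ≤ √(fro X) + √(fro Y) ∧
  √(fro (X * Y)) ≤ √(fro X) * √(fro Y) ∧ (∀ c : ℂ, √(fro (c • X)) = ‖c‖ * √(fro X)) ∧
  fro Xᴴ = fro X ∧ ‖trace (X * Y)‖ ≤ √(fro X) * √(fro Y) ∧
  (∀ M : ℝ, (∀ a b, ‖X a b‖ ≤ M) → fro X ≤ (n : ℝ) ^ 2 * M ^ 2) ∧
  (Yᴴ * Y = 1 → fro (X * Y) = fro X ∧ fro (Y * X) = fro X)

def SCpt : Prop := ∀ (n : ℕ) (C : ℝ), IsCompact {H : Mx n | IsPosHerm H ∧ tt H ≤ C} ∧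
  IsCompact {P : Mx n | fro P ≤ C} ∧ ContinuousOn (fun H : Mx n => H⁻¹) {H | IsPosHerm H} ∧
  ∀ A : Mx n, ContinuousOn (br A) {H | IsPosHerm H}

/-! ### the discrete problem -/

def SMin : Prop := ∀ (n : ℕ) (A : Mx n) (c : ℝ) (a : ℕ → ℝ) (M : ℕ) (H0 : ℕ → Mx n), 0 < c →
  (∀ j, 0 ≤ a j) → (∀ j, IsPosHerm (H0 j)) → ∃ H : ℕ → Mx n, (∀ j, IsPosHerm (H j)) ∧
    H 0 = H0 0 ∧ H M = H0 M ∧ ∀ H' : ℕ → Mx n, (∀ j, IsPosHerm (H' j)) → H' 0 = H0 0 →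
      H' M = H0 M → En A c a M H ≤ En A c a M H'

def SEL : Prop := ∀ (n : ℕ) (A Hm H Hp : Mx n) (c a : ℝ), IsPosHerm Hm → IsPosHerm H →
  IsPosHerm Hp → (∀ G, IsPosHerm G → c * KK Hm H + c * KK H Hp + a * nsq H A ≤
    c * KK Hm G + c * KK G Hp + a * nsq G A) →
  (c : ℂ) • (H⁻¹ * Hp - Hp⁻¹ * H) - (c : ℂ) • (Hm⁻¹ * H - H⁻¹ * Hm) = (a : ℂ) • br A H

def SEL2 : Prop := ∀ (n : ℕ) (A : Mx n) (N : ℕ) (H : ℕ → Mx n), (∀ j, IsPosHerm (H j)) →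
  (∀ H' : ℕ → Mx n, (∀ j, IsPosHerm (H' j)) → H' 0 = H 0 → H' (2 * N ^ 2) = H (2 * N ^ 2) →
    En A (N / 2) (aa N) (2 * N ^ 2) H ≤ En A (N / 2) (aa N) (2 * N ^ 2) H') →
  ∀ j, j + 2 ≤ 2 * N ^ 2 →
    PP N H (j + 1) - PP N H j = ((aa N (j + 1) : ℝ) : ℂ) • br A (H (j + 1))

def SCol : Prop := ∀ (n : ℕ) (κ : ℝ), 0 < κ → ∃ (C : ℝ) (p : ℕ), 1 ≤ C ∧
  ∀ (X Y m : Mx n) (M : ℝ), 1 ≤ M → (∀ a b : Fin n, b.val + 1 < a.val → X a b = 0) →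
    (∀ a b : Fin n, a.val = b.val + 1 → κ ≤ ‖X a b‖) → (∀ a b, ‖X a b‖ ≤ M) →
    (∀ a b, ‖Y a b‖ ≤ M) → m * X = Y * m → (∀ a b : Fin n, b.val = 0 → ‖m a b‖ ≤ 1) →
    fro m ≤ C * M ^ p

def SP1 : Prop := ∀ (n : ℕ) (A : Mx n), Hes A → ∃ (C : ℝ) (p : ℕ), 1 ≤ C ∧ ∀ t : Mx n, UT t →
  (∀ i, t i i ≠ 0) →
  (∀ a b : Fin n, a.val = b.val + 1 → ‖t a a‖ ^ 2 ≤ C * (1 + fro (t * A * t⁻¹)) * ‖t b b‖ ^ 2) ∧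
  fro ((diagonal fun i => (t i i)⁻¹) * t) ≤ C * (1 + fro (t * A * t⁻¹)) ^ p ∧
  fro ((diagonal fun i => (t i i)⁻¹) * t)⁻¹ ≤ C * (1 + fro (t * A * t⁻¹)) ^ p

def SStep : Prop := ∀ (n : ℕ) (M : Mx n) (x x' z z' : Fin n → ℝ), Ch (Mᴴ * dg x * M) z →
  Ch (Mᴴ * dg x' * M) z' → ∃ D ∈ doublyStochastic ℝ (Fin n), ∀ i,
    Real.exp (z' i - z i) ≤ ∑ l, D i l * Real.exp (x' l - x l) ∧
    Real.exp (z i - z' i) ≤ ∑ l, D i l * Real.exp (x l - x' l)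

def SMaj : Prop := ∀ (n : ℕ) (M : Mx n) (y z z0 μ : Fin n → ℝ) (κ : ℝ), M.det ≠ 0 →
  Ch (Mᴴ * dg y * M) z → Ch (Mᴴ * M) z0 →
  (∀ π : Equiv.Perm (Fin n), ∑ i, μ i * y (π i) ≤ κ) → ip μ (z - z0) ≤ κ

def SLP : Prop := ∀ (n : ℕ) (μ : Fin n → ℝ) (σ : ℝ), ∑ i, μ i = 0 →
  (∀ I : Finset (Fin n), I.Nonempty → I ≠ Finset.univ →
    ∑ i ∈ I, μ i < σ * (I.card * ((n : ℝ) - I.card))) →
  ∑ i, al n σ i = 0 ∧ ∃ ε C : ℝ, 0 < ε ∧ 0 ≤ C ∧ ∀ (y : Fin n → ℝ) (c : ℝ), 0 ≤ c →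
    (∀ a b : Fin n, a.val = b.val + 1 → y a ≤ y b + c) → ∑ i, y i = 0 →
    ∀ π : Equiv.Perm (Fin n), ε * ∑ i, |y i| - C * c ≤ ip (al n σ) y - ∑ i, μ i * y (π i)

def SProp : Prop := ∀ (n : ℕ) (A U : Mx n) (μ : Fin n → ℝ) (σ τ C1 : ℝ), Dat A U μ σ τ →
  ∃ C2 : ℝ, ∀ (H : Mx n) (y z : Fin n → ℝ), Ch H y → Ch (Uᴴ * H * U) z →
    ip (al n σ) y - ip μ z + 4 * nsq H A ≤ C1 →
    -C2 ≤ ip (al n σ) y - ip μ z ∧ ∃ c : ℝ, tt (((Real.exp c : ℝ) : ℂ) • H) ≤ C2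

def SSch : Prop := ∀ (n : ℕ) (A U : Mx n) (μ : Fin n → ℝ) (σ τ : ℝ), Dat A U μ σ τ →
  ∀ H, IsPosHerm H → ww A U ≤ nsq H A

def SCompK : Prop := ∀ (n : ℕ) (U : Mx n) (μ : Fin n → ℝ) (σ : ℝ), Uᴴ * U = 1 → ∃ C : ℝ,
  ∀ N : ℕ, 1 ≤ N → (∀ j, IsPosHerm (gam U μ σ N j)) ∧
    ∑ j ∈ Finset.range (2 * N ^ 2), (N : ℝ) / 2 * KK (gam U μ σ N j) (gam U μ σ N (j + 1)) ≤
      N * (ip (al n σ) (al n σ) + ip μ μ) / 2 + C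

def SCompV : Prop := ∀ (n : ℕ) (A U : Mx n) (μ : Fin n → ℝ) (σ τ : ℝ), Dat A U μ σ τ → ∃ C : ℝ,
  ∀ N : ℕ, 1 ≤ N →
    ∑ j ∈ Finset.range (2 * N ^ 2), aa N j * (nsq (gam U μ σ N j) A - ww A U) ≤ C

def SDisc : Prop := ∀ (n : ℕ) (A U : Mx n) (μ : Fin n → ℝ) (σ τ : ℝ), Dat A U μ σ τ →
  ∃ C : ℝ, ∀ N : ℕ, 1 ≤ N → ∃ H j0 y z, Sol A U μ σ C N H j0 y z

def SWin : Prop := ∀ (n : ℕ) (A U : Mx n) (μ : Fin n → ℝ) (σ C0 : ℝ) (R : ℕ), Uᴴ * U = 1 →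
  ∃ C : ℝ, ∀ N H j0 y z, Sol A U μ σ C0 N H j0 y z → 1 ≤ R → R ≤ N →
    ∑ j ∈ Finset.Ico (N ^ 2 - R * N) (N ^ 2 + R * N), KK (H j) (H (j + 1)) ≤ C / N ∧
    ∀ j, N ^ 2 ≤ j + R * N → j ≤ N ^ 2 + R * N → tt (H j) ≤ C

def SPb : Prop := ∀ (n : ℕ) (A U : Mx n) (μ : Fin n → ℝ) (σ C0 : ℝ) (R : ℕ), Uᴴ * U = 1 →
  ∃ C : ℝ, ∀ N H j0 y z, Sol A U μ σ C0 N H j0 y z → 1 ≤ R → R + 1 ≤ N →
    ∀ j, N ^ 2 ≤ j + R * N → j ≤ N ^ 2 + R * N →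
      fro (PP N H j) ≤ C ∧ √(fro (PP N H (j + 1) - PP N H j)) ≤ C / N

def SErr : Prop := ∀ (n N : ℕ) (H : ℕ → Mx n) (j : ℕ) (Q : Mx n) (M B : ℝ), 1 ≤ N →
  IsPosHerm (H j) → IsPosHerm (H (j + 1)) → tt (H j) ≤ M → tt (H (j + 1)) ≤ M →
  √(fro (PP N H j - Q)) ≤ B / N → ∀ a b,
    ‖H (j + 1) a b - H j a b - (1 / (N : ℝ)) • (H j * Q) a b‖ ≤
      M * B / N ^ 2 + M ^ 3 * KK (H j) (H (j + 1))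

def SEul : Prop := ∀ (E : Type) [NormedAddCommGroup E] [NormedSpace ℝ E] (f : ℝ → E → E)
  (K : ℕ → Set E) (Y : ℕ → ℤ → E) (e : ℕ → ℕ → ℤ → ℝ) (C : ℕ → ℝ), (∀ R, IsCompact (K R)) →
  (∀ R, ContinuousOn (fun p : ℝ × E => f p.1 p.2) (Set.univ ×ˢ K R)) →
  (∀ R : ℕ, 1 ≤ R → ∀ᶠ N : ℕ in atTop, (∀ j : ℤ, |j| ≤ R * N → Y N j ∈ K R) ∧
    (∀ j : ℤ, -(R * N : ℤ) ≤ j → j < R * N →
      ‖Y N (j + 1) - Y N j - (1 / (N : ℝ)) • f (j / N) (Y N j)‖ ≤ e R N j) ∧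
    ∑ j ∈ Finset.Ico (-(R * N : ℤ)) (R * N), e R N j ≤ C R / N) →
  ∃ y : ℝ → E, ∀ s : ℝ, HasDerivAt y (f s (y s)) s ∧ (∃ R, y s ∈ K R) ∧
    Tendsto (fun N : ℕ => Y N ⌊s * N⌋) (hyperfilter ℕ) (𝓝 (y s))

def SLim : Prop := ∀ (n : ℕ) (A U : Mx n) (μ : Fin n → ℝ) (σ C0 : ℝ) (Hs : ℕ → ℕ → Mx n),
  Uᴴ * U = 1 → (∀ N, 1 ≤ N → ∃ j0 y z, Sol A U μ σ C0 N (Hs N) j0 y z) →
  ∃ H P, Ode A H P ∧ Lm Hs H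

/-! ### algebra -/

def SCyc : Prop := ∀ (n : ℕ) (A : Mx (n + 1)) (p : ℂ[X]), Hes A → p.degree < (n + 1 : ℕ) →
  (aeval A p) *ᵥ Pi.single 0 1 = 0 → p = 0

def SAlg1 : Prop := ∀ (n : ℕ) (A : Mx n), Hes A → ∃ (B : Mx n) (lam : Fin n → ℂ) (k : Fin n → ℕ),
  B.det ≠ 0 ∧ (∀ a, k a < A.charpoly.rootMultiplicity (lam a)) ∧
  (∀ a b, lam a = lam b → k a = k b → a = b) ∧
  (∀ x j, j < A.charpoly.rootMultiplicity x → ∃ a, lam a = x ∧ k a = j) ∧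
  ∀ a b, a ≠ b → (B⁻¹ * A * B) a b ≠ 0 → lam a = lam b ∧ k a = k b + 1

def SAlg2 : Prop := ∀ (n : ℕ) (lam : Fin n → ℂ) (k : Fin n → ℕ) (m : ℂ → ℕ),
  (∀ a, k a < m (lam a)) → (∀ a b, lam a = lam b → k a = k b → a = b) →
  (∀ x j, j < m x → ∃ a, lam a = x ∧ k a = j) → (∀ x, mu lam x = m x) ∧ ∃ β : Fin n → ℝ,
    ∑ a, β a = 0 ∧ (∀ a b, lam a = lam b → k a = k b + 1 → β a + 2 ≤ β b) ∧
    ∀ I : Finset (Fin n), ∑ a ∈ I, β a ≤ pr lam I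

def SUni : Prop := ∀ (n : ℕ) (A B : Mx n) (μ : Fin n → ℝ) (σ τ : ℝ), Hes A → B.det ≠ 0 →
  (∀ a b, a ≠ b → (B⁻¹ * A * B) a b ≠ 0 → μ a + 2 * τ ≤ μ b) → 0 < σ → σ < 1 → 1 < τ →
  ∑ i, μ i = 0 → (∀ I : Finset (Fin n), I.Nonempty → I ≠ Finset.univ →
    ∑ i ∈ I, μ i < σ * (I.card * ((n : ℝ) - I.card))) →
  ∃ (r U : Mx n) (μ' : Fin n → ℝ), UT r ∧ (∀ i, r i i ≠ 0) ∧ Dat (r * A * r⁻¹) U μ' σ τ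

def SNil : Prop := ∀ (n : ℕ) (c : ℕ → ℂ), Hes (hitchin n c) ∧
  ((∃ j, 2 ≤ j ∧ j ≤ n ∧ c j ≠ 0) → ∀ x, (hitchin n c).charpoly.rootMultiplicity x < n)

def SStab1 : Prop := ∀ (n : ℕ) (lam : Fin n → ℂ), (∀ x, mu lam x < n) →
  ∀ I : Finset (Fin n), I.Nonempty → I ≠ Finset.univ → pr lam I < I.card * (n - I.card)

def SStabC : Prop := ∀ (n d : ℕ) (lam : Fin n → ℂ), 1 ≤ d →
  (∀ x, 2 ≤ mu lam x → mu lam x ≤ d * (n - mu lam x)) →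
  ¬ (d = 1 ∧ 3 ≤ n ∧ (Finset.univ.image lam).card = 2) →
  ∀ I : Finset (Fin n), I.Nonempty → I ≠ Finset.univ →
    (d + 1) * pr lam I < d * (I.card * (n - I.card))

def STwo : Prop := (∀ P : ℂ[X], P.Monic → P.roots.toFinset.card = 2 →
    ∃ (a b : ℂ) (i k : ℕ), P = (X - C a) ^ (i + 1) * (X - C b) ^ (k + 1)) ∧
  ∀ (n : ℕ) (lam : Fin n → ℂ) (P : ℂ[X]), P ≠ 0 → (∀ x, mu lam x = P.rootMultiplicity x) →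
    Finset.univ.image lam = P.roots.toFinset

def SInv : Prop := ∀ (n : ℕ) (A B : Mx n) (H P : ℝ → Mx n), B.det ≠ 0 → Ode A H P →
  Ode (B⁻¹ * A * B) (fun s => Bᴴ * H s * B) fun s => B⁻¹ * P s * B

/-! ### from the equation on the line to the surface -/

def SRad : Prop := ∀ (n : ℕ) (A : Mx n) (H P : ℝ → Mx n) (U : Set ℂ) (φ : ℂ → ℂ), Ode A H P →
  IsOpen U → DifferentiableOn ℂ φ U → (∀ z ∈ U, φ z ≠ 0) →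
  IsHarmonicMetric U (fun z => deriv φ z • A) fun z => H (Real.log ‖φ z‖)

def SGau : Prop := ∀ (n : ℕ) (U : Set ℂ) (A0 H0 A E : ℂ → Mx n), IsOpen U →
  IsHarmonicMetric U A0 H0 → (∀ a b, DifferentiableOn ℂ (fun w => E w a b) U) →
  (∀ z ∈ U, (E z).det ≠ 0) → (∀ z ∈ U, E z * A z = A0 z * E z) →
  IsHarmonicMetric U A fun z => (E z)ᴴ * H0 z * E z

/-! ### behaviour at minus infinity -/

def SRLip : Prop := ∀ (n : ℕ) (α : Fin n → ℝ), Antitone α → ∃ C : ℝ, 0 < C ∧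
  ∀ (H H' : Mx n) (y y' : Fin n → ℝ) (N η : ℝ), Ch H y → Ch H' y' → 1 ≤ N → 0 < η → ∀ i,
    Real.log (H i i).re - Real.log (H' i i).re ≤ (-α i + η) / N +
      C / η * (N / 2 * KK H H' - ip α (y' - y) + 1 / (2 * N) * ip α α) ∧
    Real.log (H⁻¹ i i).re - Real.log (H'⁻¹ i i).re ≤ (α i + η) / N +
      C / η * (N / 2 * KK H H' - ip α (y' - y) + 1 / (2 * N) * ip α α)

def SSub : Prop := ∀ (n : ℕ) (A U : Mx n) (μ : Fin n → ℝ) (σ C0 : ℝ) (Hs : ℕ → ℕ → Mx n)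
  (H : ℝ → Mx n), 0 < σ → (∀ N, 1 ≤ N → ∃ j0 y z, Sol A U μ σ C0 N (Hs N) j0 y z) →
  (∀ s, IsPosHerm (H s)) → Lm Hs H → Sx σ H

def SCvx0 : Prop := ∀ (u u' u'' : ℝ → ℝ) (C κ : ℝ), 0 < κ → (∀ s, HasDerivAt u (u' s) s) →
  (∀ s, HasDerivAt u' (u'' s) s) → (∀ s ≤ (0 : ℝ), -(C * Real.exp (κ * s)) ≤ u'' s) →
  (∀ η : ℝ, 0 < η → ∃ B : ℝ, ∀ s ≤ (0 : ℝ), u s ≤ B - η * s) → ∃ B : ℝ, ∀ s ≤ (0 : ℝ), u s ≤ B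

def SCvxA : Prop := ∀ (n : ℕ) (A : Mx n) (H P : ℝ → Mx n), Ode A H P → ∀ i, ∃ h' h'' : ℝ → ℝ,
  ∀ s, HasDerivAt (fun t => (H t i i).re) (h' s) s ∧ HasDerivAt h' (h'' s) s ∧
    h' s ^ 2 - (H s i i).re * (4 * Real.exp (2 * s) * fro A *
      ∑ l ∈ Finset.univ.filter fun l => A l i ≠ 0, (H s l l).re) ≤ (H s i i).re * h'' s

def SCvx : Prop := ∀ (n : ℕ) (A : Mx n) (H P : ℝ → Mx n) (σ : ℝ), 0 < σ → σ < 1 →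
  (∀ a b : Fin n, b.val + 1 < a.val → A a b = 0) → Ode A H P →
  (∀ η : ℝ, 0 < η → ∃ C : ℝ, ∀ s ≤ (0 : ℝ), ∀ i,
    (H s i i).re ≤ Real.exp (al n σ i * s - η * s + C)) →
  ∃ C : ℝ, ∀ s ≤ (0 : ℝ), ∀ i, (H s i i).re ≤ C * Real.exp (al n σ i * s)

def SDual : Prop := ∀ (n : ℕ) (A : Mx n) (H P : ℝ → Mx n), Ode A H P →
  Ode (fl A) (fun s => fl (H s)⁻¹) fun s => -fl (P s)

def SBd : Prop := ∀ (n : ℕ) (A : Mx n) (H P : ℝ → Mx n) (σ : ℝ), 0 < σ → σ < 1 → Hes A →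
  Ode A H P → Sx σ H → Bd σ H

def STr : Prop := ∀ (n : ℕ) (r : Mx n) (H : ℝ → Mx n) (σ : ℝ), 0 < σ → UT r → (∀ i, r i i ≠ 0) →
  (∀ s, IsPosHerm (H s)) → Bd σ H → Bd σ fun s => rᴴ * H s * r

def SReg : Prop := ∀ (n d : ℕ) (c : ℕ → ℂ) (H P : ℝ → Mx n), Ode (hitchin n c) H P →
  Bd ((d : ℝ) / (d + 1)) H → Reg d c (GG d H) (PI d P)

def SRhoB : Prop := ∀ (n d : ℕ) (c : ℕ → ℂ) (G p : ℝ → Mx n), Reg d c G p →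
  (∃ C : ℝ, 0 < C ∧ ∀ x ≤ (0 : ℝ), ∀ a b, ‖rh d c G x a b‖ ≤ C ∧ ‖G x a b‖ ≤ C ∧
    ‖(G x)⁻¹ a b‖ ≤ C ∧ ‖th n d c x a b‖ ≤ C ∧ 1 / C ≤ (G x a a).re) ∧
  ∀ a b, Continuous fun x => rh d c G x a b

def SPiB : Prop := ∀ (n d : ℕ) (c : ℕ → ℂ) (G p : ℝ → Mx n), Reg d c G p →
  ∃ C : ℝ, ∀ x ≤ (0 : ℝ), ∀ a b, ‖p x a b‖ ≤ C

def SSc : Prop := ∀ (p g : ℝ → ℂ) (k ε C : ℝ), (∀ x, HasDerivAt p ((k : ℂ) * p x + g x) x) →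
  (∀ x ≤ (0 : ℝ), ‖g x‖ ≤ C * Real.exp (ε * x)) →
  (k < ε → Tendsto (fun x => ((Real.exp (-k * x) : ℝ) : ℂ) * p x) atBot (𝓝 0) →
    ∃ B : ℝ, ∀ x ≤ (0 : ℝ), ‖p x‖ ≤ B * Real.exp (ε * x)) ∧
  (k = 0 → 0 < ε → ∃ (L : ℂ) (B : ℝ), ∀ x ≤ (0 : ℝ), ‖p x - L‖ ≤ B * Real.exp (ε * x)) ∧
  (ε < k → ∃ B : ℝ, ∀ x ≤ (0 : ℝ), ‖p x‖ ≤ B * Real.exp (ε * x))

def SAs1 : Prop := ∀ (n d : ℕ) (c : ℕ → ℂ) (G p : ℝ → Mx n), Reg d c G p → 1 ≤ d →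
  ∀ a b, Sm fun x => p x a b

def SAs2 : Prop := ∀ (n d : ℕ) (c : ℕ → ℂ) (G p : ℝ → Mx n), Reg d c G p → 1 ≤ d →
  (∀ a b, Sm fun x => p x a b) →
  ∃ g : Fin n → ℝ, (∀ a, 0 < g a) ∧ ∀ a b, Sm fun x => G x a b - dR g a b

def SAs3 : Prop := ∀ (n d : ℕ) (c : ℕ → ℂ) (G p : ℝ → Mx n) (g : Fin n → ℝ), Reg d c G p →
  1 ≤ d → (∀ a, 0 < g a) → (∀ a b, Sm fun x => G x a b - dR g a b) →
  (∀ a b, Sm fun x => rh d c G x a b - br (hitchin n fun _ => 0) (dR g) a b) ∧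
  ∀ a b, a ≠ b → br (hitchin n fun _ => 0) (dR g) a b = 0

def SAs4 : Prop := ∀ (k : ℤ) (p ρ : ℝ → ℂ) (r : ℂ),
  (∀ x, HasDerivAt p ((k : ℂ) * p x + ((4 * Real.exp (2 * x) : ℝ) : ℂ) * ρ x) x) → Sm p →
  (Sm fun x => ρ x - r) → (k ≠ 0 → r = 0) → ∃ q0 q1 : ℂ,
    Tendsto (fun x => ((Real.exp (-x) : ℝ) : ℂ) * p x / 2) atBot (𝓝 q0) ∧ (k ≠ 1 → q0 = 0) ∧
    Tendsto (fun x => ρ x + ((k : ℂ) - 1) / 2 * (((Real.exp (-2 * x) : ℝ) : ℂ) * p x)) atBot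
      (𝓝 q1) ∧ (k ≠ 2 → q1 = 0)

def SRem : Prop := ∀ F F1 F2 : ℂ → ℂ, ContinuousAt F 0 →
  (∀ z, z ≠ 0 → DifferentiableAt ℝ F z ∧ dz F z = F1 z ∧ dzb F z = F2 z) → Continuous F1 →
  Continuous F2 → ContDiff ℝ 1 F ∧ (∀ z, dz F z = F1 z ∧ dzb F z = F2 z) ∧
    (ContDiff ℝ 1 F1 → ContDiff ℝ 1 F2 → ContDiff ℝ 2 F)

def SMode : Prop := ∀ (m : ℤ) (g : ℝ → ℂ) (L : ℂ),
  (Continuous g → Tendsto g atBot (𝓝 L) → (m ≠ 0 → L = 0) → Continuous (mode m g L)) ∧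
  ∀ (g' : ℂ) (z : ℂ), z ≠ 0 → HasDerivAt g g' (Real.log ‖z‖) →
    DifferentiableAt ℝ (mode m g L) z ∧
    dz (mode m g L) z = (z / (‖z‖ : ℂ)) ^ m * (g' + m * g (Real.log ‖z‖)) / (2 * z) ∧
    dzb (mode m g L) z = (z / (‖z‖ : ℂ)) ^ m * (g' - m * g (Real.log ‖z‖)) / (2 * star z)

def SFinQ : Prop := ∀ (k : ℤ) (p ρ : ℝ → ℂ) (r : ℂ),
  (∀ x, HasDerivAt p ((k : ℂ) * p x + ((4 * Real.exp (2 * x) : ℝ) : ℂ) * ρ x) x) → Sm p →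
  (Sm fun x => ρ x - r) → (k ≠ 0 → r = 0) → Continuous ρ → ∃ q : ℂ,
    ContDiff ℝ 1 (mode (k - 1) (fun x => (Real.exp (-x) : ℝ) * p x / 2) q) ∧
    ∀ z, dzb (mode (k - 1) (fun x => (Real.exp (-x) : ℝ) * p x / 2) q) z = mode k ρ r z

def SFinH1 : Prop := ∀ (n d : ℕ) (c : ℕ → ℂ) (G : ℝ → Mx n) (g : Fin n → ℝ), 1 ≤ d →
  (∀ x, IsPosHerm (G x)) → (∀ a, 0 < g a) → ∀ z, IsPosHerm (HM d G g z) ∧ ∀ a b,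
    br (hitchin n fun j => c j * (z ^ d) ^ j) (HM d G g z) a b =
      mode (kk d a b) (fun x => rh d c G x a b) (br (hitchin n fun _ => 0) (dR g) a b) z

def SFinH2 : Prop := ∀ (n d : ℕ) (c : ℕ → ℂ) (G p : ℝ → Mx n) (g : Fin n → ℝ) (q : Mx n),
  Reg d c G p → ∀ z, z ≠ 0 → ∀ a b, DifferentiableAt ℝ (fun w => HM d G g w a b) z ∧
    dz (fun w => HM d G g w a b) z = (HM d G g z * QM d p q z) a b ∧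
    dzb (fun w => HM d G g w a b) z = star ((HM d G g z * QM d p q z) b a)

def SFin : Prop := ∀ (n d : ℕ) (c : ℕ → ℂ) (G p : ℝ → Mx n), Reg d c G p → 1 ≤ d →
  ∃ H, IsHarmonicMetric Set.univ (fun z => hitchin n fun j => c j * (z ^ d) ^ j) H

end Pool.Agent.MP_4f0bc7_gt.Od
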